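import Pool.Agent.K6.H34.TQ.Stm

/-!
# Project T8 (helper34): ranks of the elliptic curves with a subgroup `Z/2 x Z/8`

The average of `2 ^ rank` over the curves `y² = x (x + (2 u v)⁴) (x + (u² - v²)⁴)`, `u`, `v` coprime,
is bounded. Up to isomorphism these are the elliptic curves with a subgroup `Z/2 x Z/8`. Definitions
and statements of the parts. Continues the projects RK (helper262) and RT (helper307) of the starting
library and TT, TQ (helper34). New: quadratic forms (three of the seven factors of the discriminant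
are irreducible quadratic forms, with discriminants `-4`, `8`, `8`), so that primes in residue classes
modulo `8` occur with weights `1 + (a / p)`.
-/

set_option autoImplicit false

namespace Pool.Agent.K6.H34.T8

open Finset Pool.Agent.W262.RK Pool.Agent.W307.RT

/-- the seven factors of the discriminant -/
def f8 (u v : ℤ) : Fin 7 → ℤ :=
  ![u, v, u - v, u + v, u ^ 2 + v ^ 2, u ^ 2 - 2 * u * v - v ^ 2, u ^ 2 + 2 * u * v - v ^ 2]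

/-- the same in the variables `u`, `w`, where `v = 2 u + e w`, `e = ± 1`. The coefficient of `u` (of
`u ^ 2`) is `1, 2, -1, 3, 5, -7, 1`. -/
def F8 (e u w : ℤ) : Fin 7 → ℤ := f8 u (2 * u + e * w)

/-- the classes of the factors: `A = - (2 u v) ^ 4`, `B = - ((u - v) (u + v)) ^ 4`,
`A - B = (u ^ 2 + v ^ 2) ^ 2 (u ^ 2 - 2 u v - v ^ 2) (u ^ 2 + 2 u v - v ^ 2)` -/
def cls8 : Fin 7 → Fin 4 := ![0, 0, 1, 1, 2, 2, 2]

/-- the constants of the local conditions -/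
def k8 : Fin 7 → ℤ := ![1, 1, 1, 1, 1, -1, -1]

/-- the fields of the quadratic factors; `0` for the linear ones -/
def a8 : Fin 7 → ℤ := ![0, 0, 0, 0, -1, 2, 2]

/-- `A` -/
def A8 (u v : ℤ) : ℤ := -(2 * u * v) ^ 4

/-- `B` -/
def B8 (u v : ℤ) : ℤ := -(u ^ 2 - v ^ 2) ^ 4

/-- `∏_{p ∣ d} (1 + (a / p))`: the number of the square roots of `a` modulo `d` (`1` if `a = 0`) -/
noncomputable def rt (a : ℤ) (d : ℕ) : ℝ := ∏ p ∈ d.primeFactors, (1 + Jr a p)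

/-- the number of the pairs that satisfy the local conditions -/
noncomputable def N8 (s : Fin 7 → ℕ) : ℝ :=
  (NL (∏ j, s j) (LLs cls8 (fun j _ => k8 j) s ∅) : ℝ)

/-- the same with the numbers of the roots of the quadratic forms -/
noncomputable def G8 (s : Fin 7 → ℕ) : ℝ := N8 s * ∏ j, rt (a8 j) (s j)

/-! ### primes in residue classes modulo 8 -/

/-- MRT: Mertens' theorem for the characters modulo `8`, both directions. -/
def MRT : Prop := ∃ C : ℝ, ∀ a ∈ ({-1, 2, -2} : Finset ℤ), ∀ z y : ℕ, 2 ≤ z →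
  |∑ p ∈ PS z y, Jr a p / (p : ℝ)| ≤ C

/-- EPR: bound for a twisted Euler product with the weights `1 + (a / p)`. Adapt
`Pool.Agent.W655.RK.Ep` (`EP`): the local factor is `1 + (w / p) (1 + (a / p)) χ(p)`, and `UB` holds
for `κ` and for `κ a`. -/
def EPR : Prop := ∀ (w : ℝ) (a κ : ℤ), 0 < w → w ≤ 1 / 2 → a ∈ ({0, -1, 2} : Finset ℤ) → κ ≠ 0 →
  ∃ z0 : ℕ, ∀ z, z0 ≤ z →
  ∃ C : ℝ, ∀ (y R r : ℕ) (e : Bool), z < y → R ≠ 0 → 1 < r → Squarefree r →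
    (∀ p : ℕ, p.Prime → p ∣ r → z < p) →
    |∑ d ∈ (PP z y).divisors.filter (fun d => d.Coprime R),
        gw w 0 d * rt a d * (Jr d r * Jr κ d * x4 e d)| ≤ C * Real.log r * hh R

/-- FULLR: the sums of the weights over all, the small and the large divisors. Adapt
`Pool.Agent.W655.RK.Full` (`FULL`), with the upper bound `MRT` for `∑ (a / p) / p`. -/
def FULLR : Prop := ∀ (w : ℝ) (a : ℤ), 0 < w → w ≤ 1 / 2 → a ∈ ({0, -1, 2} : Finset ℤ) →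
  ∃ z0 : ℕ, ∀ z, z0 ≤ z → ∃ C : ℝ,
  (∀ y, z < y → ∑ d ∈ (PP z y).divisors, gw w 0 d * rt a d * hh d ≤ C * (Real.log y) ^ w) ∧
  (∀ y V : ℕ, z < y → 2 ≤ V →
    ∑ d ∈ (PP z y).divisors.filter (fun d => d ≤ V), gw w 0 d * rt a d * hh d ≤
      C * (Real.log V) ^ w) ∧
  (∀ y Y : ℕ, z < y → 1 ≤ Y →
    ∑ d ∈ (PP z y).divisors.filter (fun d => Y < d), gw w 0 d * rt a d * hh d ≤
      C * Real.exp (-(Real.log Y / Real.log y)) * (Real.log y) ^ 2)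

/-- FSR: bound for a sum over tuples of coprime divisors, one character for each variable. Adapt
`FSB` (`Pool.Agent.W307.RT`, in `RAT1`-`RAT5`), with weights `gw (w i) 0 * rt (a i)`. -/
def FSR : Prop := ∀ (ι : Type) [Fintype ι] [DecidableEq ι] (w : ι → ℝ) (a : ι → ℤ),
  (∀ i, 0 < w i ∧ w i ≤ 1 / 2) → ∃ z0 A : ℕ, ∀ z, z0 ≤ z → ∃ C : ℝ, 1 ≤ C ∧
  ∀ (y R : ℕ) (W : Finset ι) (ψ φ : ι → ℕ → ℝ) (B : ι → ℝ), z < y → R ≠ 0 →
  (∀ i ∈ W, ψ i 1 = 1) → (∀ i ∈ W, ∀ m n, m * n ∣ PP z y → ψ i (m * n) = ψ i m * ψ i n) →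
  (∀ i ∈ W, ∀ p, |φ i p| ≤ 1) → (∀ i ∈ W, ∀ p ∈ PS z y, ¬ p ∣ R → ψ i p = φ i p) →
  (∀ i ∈ W, ∑ p ∈ PS z y, (1 + Jr (a i) p) * φ i p / (p : ℝ) ≤ B i) →
    |∑ d ∈ (Tup ι z y).filter (fun d => (∀ i, (d i).Coprime R) ∧ ∀ i, i ∉ W → d i = 1),
      ∏ i ∈ W, (gw (w i) 0 (d i) * rt (a i) (d i) * ψ i (d i))| ≤
      C * Real.exp (∑ i ∈ W, w i * B i) * ∏ p ∈ R.primeFactors, (1 + (A : ℝ) / (p : ℝ))

/-- RATR: the refined abstract bound with the weights `gw (w i) 0 * rt (a i)`: the indices of `N`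
have the character modulo 4. (Generalisation of `Pool.Agent.W307.RT.RAT`, helper34.) -/
def RATR : Prop := ∀ (ι : Type) [Fintype ι] [DecidableEq ι] (w : ι → ℝ) (a : ι → ℤ)
  (L : ι → ι → Bool) (κ : ι → ℤ) (K : ℝ) (N : Finset ι),
  (∀ i, 0 < w i ∧ w i ≤ 1 / 2) → (∀ i, a i ∈ ({0, -1, 2} : Finset ℤ)) →
  (∀ i, L i i = false) → (∀ i, κ i ≠ 0) →
  (∀ n ∈ N, κ n = -1 ∧ a n = 2) → (∀ n ∈ N, ∀ m ∈ N, L n m = false) →
  (∀ i ∈ QN L N, ∀ j ∈ QN L N, L i j = false) → ∑ i ∈ QN L N, w i ≤ K →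
  (∀ U : Finset ι, (∀ i ∈ U, ∀ j ∈ U, L i j = L j i) → (∃ k ∈ U, k ∉ N ∧ k ∉ QN L N) →
    ∑ i ∈ U, w i ≤ K) →
  (∀ b, b ∉ N → b ∉ QN L N →
    ∑ i ∈ (QN L N ∪ N).filter (fun i => L i b = L b i), w i < K) →
  ∃ z0 : ℕ, ∀ z, z0 ≤ z → ∃ C : ℝ, ∀ y, z < y →
    |∑ d ∈ Tup ι z y, (∏ i, gw (w i) 0 (d i) * rt (a i) (d i)) * Sym L κ d| ≤ C * (Real.log y) ^ K

/-! ### the average of the local counts -/

/-- EXP8: expansion into symbols. Adapt `EXP4` (`Pool.Agent.W762.RK2.EXP4a`, `EXP4b`); see also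
`Pool.Agent.K6.H34.TT.Mar`: every prime of `s j` has exactly one index `i` with `i.1.1 = j`, so the
factor `1 + (a8 j / p)` is carried along. (Here no class is `3` and `E = ∅`.) -/
def EXP8 : Prop := ∀ c z y : ℕ, 2 ≤ z →
  ∑ s ∈ Tup (Fin 7) z y, G8 s * ∏ j, gw 1 c (s j) =
    ∑ d ∈ Tup (I4 cls8) z y, (∏ i, gw (1 / 2) c (d i) * rt (a8 i.1.1) (d i)) *
      Sym (L4 cls8) (κ4 cls8 (fun j _ => k8 j)) d

open Classical in
/-- the indices with the sign `(-1 / p)` -/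
noncomputable def NN8 : Finset (I4 cls8) :=
  univ.filter (fun i => a8 i.1.1 = 2 ∧ i.1.2.1 ≠ (false, false) ∧ i.1.2.2 ≠ (false, false))

/-- COMB8: the combinatorial conditions of `RATR`. The index set has `28` elements: `(j, v, χ)` with
`v ∈ {0, ec c}`, `χ ∈ {0, (ec c).swap}`, `c = cls8 j`. Write `v = ε • ec c`, `χ = δ • (ec c).swap`; for
different classes `L4 i i' = δ' ε`, for the same class `L4 = false`. So `i`, `i'` of different classes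
are unlinked (`L4 i i' = L4 i' i`) iff `(ε, δ)`, `(ε', δ')` are linearly dependent. `QN` consists of
`14` indices: `(0, 0)` for `j < 4`, all but `(1, 1)` for `j = 5, 6` and all four for `j = 4`. If `U`
contains an index `s ≠ 0` of class `0`, then those of the classes `1`, `2` are in `{0, s}`; if one of
them is `s` then also those of class `0`, and `|U| ≤ 14`; otherwise `|U| ≤ 8 + 2 + 3`. -/
def COMB8 : Prop :=
  (∀ i, L4 cls8 i i = false) ∧ (∀ i, κ4 cls8 (fun j _ => k8 j) i ≠ 0) ∧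
  (∀ n ∈ NN8, κ4 cls8 (fun j _ => k8 j) n = -1 ∧ a8 n.1.1 = 2) ∧
  (∀ n ∈ NN8, ∀ m ∈ NN8, L4 cls8 n m = false) ∧
  (∀ i ∈ QN (L4 cls8) NN8, ∀ j ∈ QN (L4 cls8) NN8, L4 cls8 i j = false) ∧
  (QN (L4 cls8) NN8).card ≤ 14 ∧
  (∀ U : Finset (I4 cls8), (∀ i ∈ U, ∀ j ∈ U, L4 cls8 i j = L4 cls8 j i) →
    (∃ k ∈ U, k ∉ NN8 ∧ k ∉ QN (L4 cls8) NN8) → U.card ≤ 14) ∧
  (∀ b, b ∉ NN8 → b ∉ QN (L4 cls8) NN8 →
    ((QN (L4 cls8) NN8 ∪ NN8).filter (fun i => L4 cls8 i b = L4 cls8 b i)).card < 14)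

/-- SUB8: adding primes. From `SUBB` (`Pool.Agent.W125.RK2.SUBB`) and `1 + (a / p) ≤ 2`. -/
def SUB8 : Prop := (∀ s, 0 ≤ G8 s) ∧ ∀ z y : ℕ, 2 ≤ z → ∀ s e : Fin 7 → ℕ,
  (fun j => s j * e j) ∈ Tup (Fin 7) z y →
    G8 (fun j => s j * e j) ≤ 8 ^ (∑ j, (e j).primeFactors.card) * G8 s

/-- MARC: from the weights `1 / p` to the weights `1 / (p - c)`:
`1 / (p - c) = (1 / p) (1 + c / (p - c))`, expand the product over the divisors `e j ∣ s j` and use the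
growth of `G`. (Compare `Pool.Agent.W405.RK2.RS`, `Pool.Agent.K6.H43.TQ.RSV`.) -/
def MARC : Prop := ∀ (G : (Fin 7 → ℕ) → ℝ) (c z : ℕ) (C : ℝ), 2 * c + 2 ≤ z → (∀ s, 0 ≤ G s) →
  (∀ y, z < y → ∀ s e : Fin 7 → ℕ, (fun j => s j * e j) ∈ Tup (Fin 7) z y →
    G (fun j => s j * e j) ≤ 8 ^ (∑ j, (e j).primeFactors.card) * G s) →
  (∀ y, z < y → ∑ s ∈ Tup (Fin 7) z y, G s * ∏ j, gw 1 0 (s j) ≤ C * (Real.log y) ^ 7) →
  ∃ C' : ℝ, ∀ y, z < y → ∑ s ∈ Tup (Fin 7) z y, G s * ∏ j, gw 1 c (s j) ≤ C' * (Real.log y) ^ 7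

/-- MAR8: the average of `G8` (helper34, from the other statements) -/
def MAR8 : Prop := ∀ c : ℕ, ∃ z0 : ℕ, ∀ z, z0 ≤ z → ∃ C : ℝ, ∀ y, z < y →
  ∑ s ∈ Tup (Fin 7) z y, G8 s * ∏ j, gw 1 c (s j) ≤ C * (Real.log y) ^ 7

/-! ### counting -/

/-- SV8: upper bound sieve in a residue class. Adapt `Pool.Agent.W340.RT.SVR2`; for `p ∤ M` the number
of the excluded residue classes modulo `p` is `4 + (1 + (-1 / p)) + 2 (1 + (2 / p))`, and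
`∏ (1 - that / p) ≤ C / (log y) ^ 7` follows from `MRT`. The resultants of the forms are powers of two
and the leading coefficients `1, 2, -1, 3, 5, -7, 1`. -/
def SV8 : Prop := ∀ e : ℤ, (e = 1 ∨ e = -1) → ∃ z1 : ℕ, ∀ z, z1 ≤ z →
  ∃ (C : ℝ) (K y0 : ℕ), 0 ≤ C ∧ 1 ≤ K ∧ ∀ X y : ℕ, y0 ≤ y → z < y → y ^ K ≤ X →
  ∀ (w : ℤ) (m M r : ℕ), 1 ≤ m → m ∣ M → M ≠ 0 → m ^ 4 ≤ X →
  (∀ p ∈ PS z y, ¬ p ∣ M → ¬ (p : ℤ) ∣ w) →
    (((Icc 1 X).filter (fun t : ℕ => t ≡ r [MOD m] ∧ ∀ p ∈ PS z y, ¬ p ∣ M →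
      ∀ j, ¬ (p : ℤ) ∣ F8 e t w j)).card : ℝ) ≤
      C * (X / m) * (∏ p ∈ M.primeFactors.filter (fun p => p ∈ PS z y),
        (p : ℝ) / ((p : ℝ) - 10)) / (Real.log y) ^ 7

/-- CNT8: the number of the coprime pairs with given small prime factors of the values. Adapt
`Pool.Agent.W29.RT.CNT2` (`cnt2_of`) or `Pool.Agent.K6.H38.TT.Cntr`, with `AVH`
(`Pool.Agent.W216.RT.AVH`) for the sum over the second variable. The number of the residue classes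
`u` with `s j ∣ F8 e u w j` is `rt (a8 j) (s j)` (for `w` prime to `s j`). -/
def CNT8 : Prop := ∀ e : ℤ, (e = 1 ∨ e = -1) → ∃ z1 : ℕ, ∀ z, z1 ≤ z →
  ∃ (C : ℝ) (K y0 : ℕ), 0 ≤ C ∧ 1 ≤ K ∧ ∀ X y Y : ℕ, y0 ≤ y → z < y → y ^ K ≤ X →
  ∀ s ∈ Tup (Fin 7) z y, ∀ v ∈ Tup (Fin 7) z y, ∀ h ∈ Tup (Fin 7) y Y,
  (∏ j, s j * v j * h j) ^ 8 ≤ X →
    (((Icc 1 X ×ˢ Icc 1 X).filter (fun t : ℕ × ℕ => t.1.Coprime t.2 ∧
      (∀ j, F8 e (t.1 : ℤ) (t.2 : ℤ) j ≠ 0) ∧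
      S1 z y (F8 e (t.1 : ℤ) (t.2 : ℤ)) = s ∧ S2 z y (F8 e (t.1 : ℤ) (t.2 : ℤ)) = v ∧
      ∀ j, (h j : ℤ) ∣ F8 e (t.1 : ℤ) (t.2 : ℤ) j)).card : ℝ) ≤
      C * X ^ 2 * (∏ j, rt (a8 j) (s j) * gw 1 10 (s j)) *
        (∏ j, 2 ^ (v j).primeFactors.card * (gw 1 10 (v j) / v j)) *
        (∏ j, 2 ^ (h j).primeFactors.card / (h j : ℝ)) / (Real.log y) ^ 7

/-! ### the rank -/

/-- GD8: a prime greater than `7` divides at most one of the values. -/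
def GD8 : Prop := ∀ (z : ℕ) (u v : ℤ), 7 ≤ z → IsCoprime u v → (∀ j, f8 u v j ≠ 0) →
  Gd z (f8 u v)

/-- RANK8: the bound of the rank at a point. Adapt `Pool.Agent.W571.RT.Rank2` (`RANK2`) or
`Pool.Agent.K6.H34.TT.Rank`: `DESC4` with `m = ∏ S1`, and `LOCM` (`Pool.Agent.W571.RT.LocM`) with
`c = cls8 j`, `κ = k8 j`. A prime that divides `u ^ 2 + v ^ 2` is `1` modulo `4`. There are at most `z`
primes `≤ z`, the other small primes of `2 A B (A - B)` that do not divide `m` divide `∏ S2`, and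
there are at most `21 k` primes `> y` (at most `3 k` for each form). -/
def RANK8 : Prop := ∀ (X y z k : ℕ) (u v : ℤ), 7 ≤ z → IsCoprime u v → (∀ j, f8 u v j ≠ 0) →
  (∀ j, (f8 u v j).natAbs ≤ X ^ 3) → 1 ≤ X → 1 ≤ y → X < (y + 1) ^ k →
    2 ^ Module.finrank ℤ (EAB (A8 u v) (B8 u v)).toAffine.Point ≤
      4 ^ (z + 2) * (4 ^ 21) ^ k * 4 ^ (∑ j, (S2 z y (f8 u v) j).primeFactors.card) *
        NL (∏ j, S1 z y (f8 u v) j) (LLs cls8 (fun j _ => k8 j) (S1 z y (f8 u v)) ∅)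

/-- AVG8: the average over the coprime pairs `(u, w)` in a quadrant (from `ANT16`, `MAR8`, `CNT8`,
`SUB8`, `RANK8`, `GD8`). Adapt `Pool.Agent.K6.H34.TQ.Avg`, `Pool.Agent.W230.RT.Avg2`. Apply `ANT16` with
`J = Fin 7`, `G s = G8 s * ∏ j, ∏ p ∈ (s j).primeFactors, (p - 7) / (p - 10)` (growth `8 * 2 = 16`), so
that `G s * ∏ gw 1 7 (s j) = G8 s * ∏ gw 1 10 (s j)`. The factor `2 ^ ω(h)` is at most `2 ^ (7 k)`, since
the primes of `h` are greater than `y` and `(∏ h) ^ 8 ≤ X < (y + 1) ^ k`. -/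
def AVG8 : Prop := ∀ e : ℤ, (e = 1 ∨ e = -1) → ∃ C : ℝ, ∀ X : ℕ, 1 ≤ X →
  ∑ t ∈ (Icc 1 X ×ˢ Icc 1 X).filter (fun t : ℕ × ℕ => t.1.Coprime t.2 ∧
      ∀ j, F8 e (t.1 : ℤ) (t.2 : ℤ) j ≠ 0),
    (2 : ℝ) ^ Module.finrank ℤ (EAB (A8 t.1 (2 * t.1 + e * t.2))
      (B8 t.1 (2 * t.1 + e * t.2))).toAffine.Point ≤ C * X ^ 2

/-- BOX8: the average over all the coprime pairs in a box. From `AVG8` (`v = 2 u + e w`, `w = |v - 2 u|`,
`X ↦ 2 X`; the pair `(1, 2)` with `w = 0`). The curve depends only on `|u|`, `|v|`. -/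
def BOX8 : Prop := ∃ C : ℝ, 0 ≤ C ∧ ∀ X : ℕ, 1 ≤ X →
  ∑ t ∈ ((Icc (-(X : ℤ)) X) ×ˢ (Icc (-(X : ℤ)) X)).filter (fun t : ℤ × ℤ => IsCoprime t.1 t.2 ∧
      A8 t.1 t.2 ≠ 0 ∧ B8 t.1 t.2 ≠ 0),
    (2 : ℝ) ^ Module.finrank ℤ (EAB (A8 t.1 t.2) (B8 t.1 t.2)).toAffine.Point ≤ C * X ^ 2

/-! ### all curves, ordered by height -/

/-- `- A` -/
def M8 (u v : ℤ) : ℤ := (2 * u * v) ^ 4

/-- `- B` -/
def P8 (u v : ℤ) : ℤ := (u ^ 2 - v ^ 2) ^ 4

/-- PAR8: parametrisation of the curves with a subgroup `Z/2 x Z/8`. See `Pool.Agent.W605.RT.PAR4`: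
the curve is `y² = x (x + a²) (x + b²)` with `a`, `b` coprime (up to sign) and a point `P = (a b, a b (a + b))`
or `(- a b, …)` of order four that is divisible by two, that is (after a change of sign of `b`) `a b`,
`a (a + b)`, `b (a + b)` are squares, so `a = ± p²`, `b = ± q²`, `a + b = ± r²`, a Pythagorean triple (or
the point of order four is not the one over `(0, 0)`, then permute). -/
def PAR8 : Prop := PAR 8 48 M8 P8

/-- LOW8: there are many curves with a subgroup `Z/2 x Z/8`. See `Pool.Agent.W29.RT.LOW4`. -/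
def LOW8 : Prop := LOW 8 48

end Pool.Agent.K6.H34.T8
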