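import Pool.Agent.W307.RT.RAT5
import Pool.Agent.K6.H34.T8.Ab4

/-! Project T8: the refined abstract bound, the unlinked variables (copy of the starting files `Pool.Agent.W307.RT.RAT1` - `RAT5` with general
weights `g` in place of `gw (w i) c`, `gA` in place of `gw (w i) (c + A) * hh`, and densities `q`). -/

set_option autoImplicit false
set_option linter.unusedSectionVars false
set_option linter.unusedVariables false

namespace Pool.Agent.K6.H34.T8.AB

open Finset Pool.Agent.W262.RK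
open Pool.Agent.W262.RK.AT (VV YY VV_ge three_le_VV VV_le_YY one_le_log_VV VV_le log_YY_ge log_YY_le
  log_VV_le log_VV_pow_le exp_neg_pow hh_mul_le hh_prod_le cl cell
  cell_sub cell_zero cell_one cell_two cell_three patterns one_le_log lg BW)
open Pool.Agent.W307.RT (tE tF mem_tE mem_tF sum_split sum_off hA one_le_fac one_le_hA hA_nonneg hA_one
  hA_mul_le hA_prod_le Ps Ps_one Jr_mul_left Ps_mul RW abs_RW_le Sym_split Ps_update lg_sum split_lg
  tN UU WW mem_UU mem_WW tN_sub abs_Ps_le patternsN QN mem_QN Jr_neg_sq)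

variable {ι : Type} [Fintype ι] [DecidableEq ι]

/-- the property of `FSB` for fixed `z`, `C`, `A` -/
def FS (g q : ι → ℕ → ℝ) (w : ι → ℝ) (z A : ℕ) (C : ℝ) : Prop :=
  ∀ (y R : ℕ) (W : Finset ι) (ψ φ : ι → ℕ → ℝ) (B : ι → ℝ), z < y → R ≠ 0 →
  (∀ i ∈ W, ψ i 1 = 1) → (∀ i ∈ W, ∀ m n, m * n ∣ PP z y → ψ i (m * n) = ψ i m * ψ i n) →
  (∀ i ∈ W, ∀ p, |φ i p| ≤ 1) → (∀ i ∈ W, ∀ p ∈ PS z y, ¬ p ∣ R → ψ i p = φ i p) →
  (∀ i ∈ W, ∑ p ∈ PS z y, q i p * φ i p / (p : ℝ) ≤ B i) →
    |∑ d ∈ (Tup ι z y).filter (fun d => (∀ i, (d i).Coprime R) ∧ ∀ i, i ∉ W → d i = 1),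
      ∏ i ∈ W, (g i (d i) * ψ i (d i))| ≤
      C * Real.exp (∑ i ∈ W, w i * B i) * ∏ p ∈ R.primeFactors, (1 + (A : ℝ) / (p : ℝ))

/-- the hypothesis about the characters of the variables in `W` -/
def CH (L : ι → ι → Bool) (κ : ι → ℤ) (q : ι → ℕ → ℝ) (z y : ℕ) (W : Finset ι) (t : ι → Finset ℕ)
    (B : ι → ℝ) : Prop :=
  ∀ e : ι → ℕ, (∀ b ∈ W, e b = 1) → (∀ b, b ∉ W → e b ∈ t b) →
    (∀ a b, a ≠ b → (e a).Coprime (e b)) → ∀ i ∈ W, ∃ φ : ℕ → ℝ, (∀ p, |φ p| ≤ 1) ∧
      (∀ p ∈ PS z y, (∀ b, ¬ p ∣ e b) → Ps L κ e i p = φ p) ∧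
      ∑ p ∈ PS z y, q i p * φ p / (p : ℝ) ≤ B i

/-- the inner sum -/
lemma inner_full {g gA q : ι → ℕ → ℝ} {w : ι → ℝ} {L : ι → ι → Bool} {κ : ι → ℤ} {z A y : ℕ} {C : ℝ}
    (hg0 : ∀ i, ∀ m ∈ (PP z y).divisors, 0 ≤ g i m) (hg1 : ∀ i, g i 1 = 1) (hC : 0 ≤ C) (hF : FS g q w z A C) (hy : z < y)
    {W : Finset ι} (hW : ∀ i ∈ W, ∀ j ∈ W, L i j = false) {t : ι → Finset ℕ}
    (ht : ∀ b, t b ⊆ (PP z y).divisors) (htW : ∀ b ∈ W, t b = (PP z y).divisors)
    {B : ι → ℝ} (hB : CH L κ q z y W t B) {e : ι → ℕ} (he : e ∈ Fintype.piFinset (tE W t)) :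
    |∑ f ∈ Fintype.piFinset (tF W t), HH g L κ (fun b => e b * f b)| ≤
      (C * Real.exp (∑ i ∈ W, w i * B i)) * ∏ b ∈ univ \ W, (g b (e b) * hA A (e b)) := by
  classical
  obtain ⟨he1, he2⟩ := mem_tE.1 he
  have heD : ∀ b, e b ∈ (PP z y).divisors := by
    intro b
    by_cases hb : b ∈ W
    · rw [he1 b hb]; exact one_mem_dv z y
    · exact ht b (he2 b hb)
  have hg0 : ∀ b, 0 ≤ g b (e b) := fun b => hg0 b _ (heD b)
  have hRHS : 0 ≤ (C * Real.exp (∑ i ∈ W, w i * B i)) *
      ∏ b ∈ univ \ W, (g b (e b) * hA A (e b)) :=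
    mul_nonneg (mul_nonneg hC (Real.exp_pos _).le)
      (prod_nonneg fun b _ => mul_nonneg (hg0 b) (hA_nonneg _ _))
  by_cases hcop : ∀ a b, a ≠ b → (e a).Coprime (e b)
  swap
  · have h0 : ∀ f ∈ Fintype.piFinset (tF W t), HH g L κ (fun b => e b * f b) = 0 := by
      intro f _
      unfold HH
      rw [if_neg]
      intro h
      apply hcop
      intro a b hab
      exact Nat.Coprime.coprime_mul_right (Nat.Coprime.coprime_mul_right_right (h a b hab))
    rw [sum_eq_zero h0, abs_zero]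
    exact hRHS
  set R := ∏ b, e b with hR
  have hR0 : R ≠ 0 := prod_ne_zero_iff.2 fun b _ => dv_ne_zero (heD b)
  have hcR : ∀ m : ℕ, m.Coprime R ↔ ∀ b, m.Coprime (e b) := by
    intro m
    rw [hR, Nat.coprime_prod_right_iff]
    simp
  choose! φ hφ1 hφ2 hφ3 using hB e he1 he2 hcop
  have hmain := hF y R W (fun i => Ps L κ e i) φ B hy hR0 (fun i _ => Ps_one L κ e i)
    (fun i _ m n hmn => by
      have h0 : m * n ≠ 0 := fun h => PP_ne_zero z y (by rw [h] at hmn; exact zero_dvd_iff.1 hmn)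
      exact Ps_mul L κ e i (left_ne_zero_of_mul h0) (right_ne_zero_of_mul h0))
    hφ1 (fun i hi p hp hpR => hφ2 i hi p hp fun b hb =>
      hpR (hb.trans (dvd_prod_of_mem e (mem_univ b)))) hφ3
  have hkey : ∑ f ∈ Fintype.piFinset (tF W t), HH g L κ (fun b => e b * f b) =
      ((∏ b ∈ univ \ W, g b (e b)) * RW L κ W e) *
        ∑ d ∈ (Tup ι z y).filter (fun d => (∀ i, (d i).Coprime R) ∧ ∀ i, i ∉ W → d i = 1),
          ∏ i ∈ W, (g i (d i) * Ps L κ e i (d i)) := by
    have h1 : (Tup ι z y).filter (fun d => (∀ i, (d i).Coprime R) ∧ ∀ i, i ∉ W → d i = 1) =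
        (Fintype.piFinset (tF W t)).filter (fun d => (∀ i j, i ≠ j → (d i).Coprime (d j)) ∧
          ∀ i, (d i).Coprime R) := by
      ext d
      unfold Tup
      rw [mem_filter, mem_filter, mem_filter, Fintype.mem_piFinset, mem_tF]
      constructor
      · rintro ⟨⟨h1, h2⟩, h3, h4⟩
        exact ⟨⟨fun b hb => by rw [htW b hb]; exact h1 b, h4⟩, h2, h3⟩
      · rintro ⟨⟨h1, h4⟩, h2, h3⟩
        refine ⟨⟨fun b => ?_, h2⟩, h3, h4⟩
        by_cases hb : b ∈ W
        · rw [← htW b hb]; exact h1 b hb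
        · rw [h4 b hb]; exact one_mem_dv z y
    rw [h1, mul_sum, sum_filter]
    apply sum_congr rfl
    intro f hf
    obtain ⟨hf1, hf2⟩ := mem_tF.1 hf
    have hiff : (∀ a b, a ≠ b → (e a * f a).Coprime (e b * f b)) ↔
        (∀ i j, i ≠ j → (f i).Coprime (f j)) ∧ ∀ i, (f i).Coprime R := by
      constructor
      · intro h
        refine ⟨fun i j hij => Nat.Coprime.coprime_mul_left
          (Nat.Coprime.coprime_mul_left_right (h i j hij)), fun i => ?_⟩
        rw [hcR]
        intro b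
        by_cases hib : i = b
        · subst hib
          by_cases hi : i ∈ W
          · rw [he1 i hi]; exact Nat.coprime_one_right _
          · rw [hf2 i hi]; exact Nat.coprime_one_left _
        · exact Nat.Coprime.coprime_mul_left (Nat.Coprime.coprime_mul_right_right (h i b hib))
      · rintro ⟨h1, h2⟩ a b hab
        have h2a := (hcR _).1 (h2 a)
        have h2b := (hcR _).1 (h2 b)
        exact Nat.Coprime.mul_left (Nat.Coprime.mul_right (hcop a b hab) (h2b a).symm)
          (Nat.Coprime.mul_right (h2a b) (h1 a b hab))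
    unfold HH
    by_cases hc : (∀ i j, i ≠ j → (f i).Coprime (f j)) ∧ ∀ i, (f i).Coprime R
    · rw [if_pos (hiff.2 hc), if_pos hc, Sym_split κ hW he1 hf2]
      have h3 : ∏ i, g i (e i * f i) = (∏ b ∈ univ \ W, g b (e b)) *
          ∏ i ∈ W, g i (f i) := by
        rw [← prod_sdiff (subset_univ W)]
        congr 1
        · apply prod_congr rfl
          intro b hb
          rw [hf2 b (mem_sdiff.1 hb).2, mul_one]
        · apply prod_congr rfl
          intro b hb
          rw [he1 b hb, one_mul]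
      rw [h3, prod_mul_distrib]
      ring
    · rw [if_neg (fun h => hc (hiff.1 h)), if_neg hc]
  rw [hkey, abs_mul, abs_mul, abs_of_nonneg (prod_nonneg fun b _ => hg0 b), prod_mul_distrib]
  have hRA : ∏ p ∈ R.primeFactors, (1 + (A : ℝ) / (p : ℝ)) ≤ ∏ b ∈ univ \ W, hA A (e b) := by
    have h1 : hA A R ≤ ∏ b, hA A (e b) := hA_prod_le A univ e fun b _ => dv_ne_zero (heD b)
    have h2 : ∏ b, hA A (e b) = ∏ b ∈ univ \ W, hA A (e b) := by
      rw [← prod_sdiff (subset_univ W)]
      rw [prod_eq_one (s := W) (fun b hb => by rw [he1 b hb, hA_one]), mul_one]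
    rw [← h2]
    exact h1
  have hP0 : 0 ≤ ∏ b ∈ univ \ W, g b (e b) := prod_nonneg fun b _ => hg0 b
  have hCe : 0 ≤ C * Real.exp (∑ i ∈ W, w i * B i) := mul_nonneg hC (Real.exp_pos _).le
  calc (∏ b ∈ univ \ W, g b (e b)) * |RW L κ W e| *
        |∑ d ∈ (Tup ι z y).filter (fun d => (∀ i, (d i).Coprime R) ∧ ∀ i, i ∉ W → d i = 1),
          ∏ i ∈ W, (g i (d i) * Ps L κ e i (d i))|
      ≤ (∏ b ∈ univ \ W, g b (e b)) * 1 *
        (C * Real.exp (∑ i ∈ W, w i * B i) * ∏ b ∈ univ \ W, hA A (e b)) := by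
        apply mul_le_mul (mul_le_mul_of_nonneg_left (abs_RW_le L κ W e) hP0) _ (abs_nonneg _)
          (by positivity)
        exact hmain.trans (mul_le_mul_of_nonneg_left hRA hCe)
    _ = _ := by ring

/-- the sum when all the variables of `W` are unrestricted -/
lemma full_case {g gA q : ι → ℕ → ℝ} {w : ι → ℝ} {L : ι → ι → Bool} {κ : ι → ℤ} {z A y : ℕ} {C : ℝ}
    (hg0 : ∀ i, ∀ m ∈ (PP z y).divisors, 0 ≤ g i m) (hg1 : ∀ i, g i 1 = 1)
    (hgA : ∀ i, ∀ m ∈ (PP z y).divisors, g i m * hA A m ≤ gA i m) (hC : 0 ≤ C) (hF : FS g q w z A C) (hy : z < y)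
    {W : Finset ι} (hW : ∀ i ∈ W, ∀ j ∈ W, L i j = false) {t : ι → Finset ℕ}
    (ht : ∀ b, t b ⊆ (PP z y).divisors) (htW : ∀ b ∈ W, t b = (PP z y).divisors)
    {B : ι → ℝ} (hB : CH L κ q z y W t B) :
    |∑ d ∈ Fintype.piFinset t, HH g L κ d| ≤
      (C * Real.exp (∑ i ∈ W, w i * B i)) *
        ∏ b ∈ univ \ W, ∑ m ∈ t b, gA b m := by
  rw [sum_split W t]
  refine (abs_sum_le_sum_abs _ _).trans ?_
  rw [← sum_off W t (fun b m => gA b m), mul_sum]
  apply sum_le_sum
  intro e he
  refine (inner_full (gA := gA) hg0 hg1 hC hF hy hW ht htW hB he).trans ?_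
  apply mul_le_mul_of_nonneg_left _ (mul_nonneg hC (Real.exp_pos _).le)
  obtain ⟨he1, he2⟩ := mem_tE.1 he
  apply prod_le_prod
  · intro b hb
    have hm := ht b (he2 b (mem_sdiff.1 hb).2)
    exact mul_nonneg (hg0 b _ hm) (hA_nonneg _ _)
  · intro b hb
    have hm := ht b (he2 b (mem_sdiff.1 hb).2)
    exact hgA b _ hm

lemma CH_full {q : ι → ℕ → ℝ} {L : ι → ι → Bool} {κ : ι → ℤ} {z y : ℕ} {W : Finset ι} {t : ι → Finset ℕ}
    {B : ι → ℝ} (h : CH L κ q z y W t B) {i : ι} (hi : i ∈ W) (X : Finset ℕ) :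
    CH L κ q z y W (Function.update t i X) B := by
  intro e h1 h2 h3
  apply h e h1 _ h3
  intro b hb
  have := h2 b hb
  rwa [Function.update_of_ne (by rintro rfl; exact hb hi)] at this

lemma CH_erase {q : ι → ℕ → ℝ} {L : ι → ι → Bool} {κ : ι → ℤ} {z y : ℕ} {W : Finset ι} {t : ι → Finset ℕ}
    {B : ι → ℝ} (h : CH L κ q z y W t B) (hW : ∀ i ∈ W, ∀ j ∈ W, L i j = false) {i : ι}
    (hi : i ∈ W) (X : Finset ℕ) : CH L κ q z y (W.erase i) (Function.update t i X) B := by
  intro e h1 h2 h3 j hj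
  have hjW := (mem_erase.1 hj).2
  have hji := (mem_erase.1 hj).1
  obtain ⟨φ, a1, a2, a3⟩ := h (Function.update e i 1) (by
    intro b hb
    by_cases hbi : b = i
    · subst hbi; rw [Function.update_self]
    · rw [Function.update_of_ne hbi]
      exact h1 b (mem_erase.2 ⟨hbi, hb⟩)) (by
    intro b hb
    have hbi : b ≠ i := by rintro rfl; exact hb hi
    rw [Function.update_of_ne hbi]
    have := h2 b (fun h => hb (mem_erase.1 h).2)
    rwa [Function.update_of_ne hbi] at this) (by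
    intro a b hab
    by_cases ha : a = i
    · subst ha
      rw [Function.update_self]
      exact Nat.coprime_one_left _
    · by_cases hb : b = i
      · subst hb
        rw [Function.update_self]
        exact Nat.coprime_one_right _
      · rw [Function.update_of_ne ha, Function.update_of_ne hb]
        exact h3 a b hab) j hjW
  refine ⟨φ, a1, fun p hp hpe => ?_, a3⟩
  rw [← Ps_update e 1 (hW j hjW i hi) (hW i hi j hjW)]
  apply a2 p hp
  intro b
  by_cases hb : b = i
  · subst hb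
    rw [Function.update_self]
    exact (mem_PS.1 hp).2.one_lt.ne' ∘ Nat.dvd_one.1
  · rw [Function.update_of_ne hb]
    exact hpe b

/-- the sum when some of the variables of `W` are large -/
lemma res_case {g gA q : ι → ℕ → ℝ} {w : ι → ℝ} {L : ι → ι → Bool} {κ : ι → ℤ} {z A y : ℕ} {C : ℝ}
    (hg0 : ∀ i, ∀ m ∈ (PP z y).divisors, 0 ≤ g i m) (hg1 : ∀ i, g i 1 = 1)
    (hgA : ∀ i, ∀ m ∈ (PP z y).divisors, g i m * hA A m ≤ gA i m) (hC : 0 ≤ C) (hF : FS g q w z A C) (hy : z < y)
    {V Y : ℕ} (hVY : V ≤ Y) {B E G : ι → ℝ}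
    (hE : ∀ i, ∑ m ∈ (PP z y).divisors.filter (fun m => m ≤ V), gA i m ≤ E i)
    (hG : ∀ i, ∑ m ∈ (PP z y).divisors.filter (fun m => Y < m), gA i m ≤ G i)
    (U : Finset ι) : ∀ (W : Finset ι) (t : ι → Finset ℕ), U ⊆ W →
    (∀ i ∈ W, ∀ j ∈ W, L i j = false) → (∀ b, t b ⊆ (PP z y).divisors) →
    (∀ b ∈ W, b ∉ U → t b = (PP z y).divisors) → (∀ b ∈ U, t b = lg z y V Y) →
    CH L κ q z y W t B →
    |∑ d ∈ Fintype.piFinset t, HH g L κ d| ≤
      C * (∏ i ∈ U, (Real.exp (w i * B i) + E i + G i)) * Real.exp (∑ i ∈ W \ U, w i * B i) *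
        ∏ b ∈ univ \ W, ∑ m ∈ t b, gA b m := by
  induction U using Finset.induction_on with
  | empty =>
    intro W t _ hW ht htW _ hB
    rw [prod_empty, mul_one, sdiff_empty]
    exact full_case hg0 hg1 hgA hC hF hy hW ht (fun b hb => htW b hb (notMem_empty b)) hB
  | insert i U hi ih =>
    intro W t hUW hW ht htW htU hB
    have hiW : i ∈ W := hUW (mem_insert_self i U)
    have hnn : ∀ b, ∀ m ∈ (PP z y).divisors, 0 ≤ gA b m := fun b m hm =>
      (mul_nonneg (hg0 b _ hm) (hA_nonneg _ _)).trans (hgA b _ hm)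
    have hE0 : ∀ i, 0 ≤ E i := fun i =>
      (sum_nonneg fun m hm => hnn i m (mem_filter.1 hm).1).trans (hE i)
    have hG0 : ∀ i, 0 ≤ G i := fun i =>
      (sum_nonneg fun m hm => hnn i m (mem_filter.1 hm).1).trans (hG i)
    rw [split_lg hVY t i (htU i (mem_insert_self i U))]
    have hsubD : ∀ (X : Finset ℕ), X ⊆ (PP z y).divisors → ∀ b,
        Function.update t i X b ⊆ (PP z y).divisors := by
      intro X hX b
      by_cases hb : b = i
      · subst hb; rw [Function.update_self]; exact hX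
      · rw [Function.update_of_ne hb]; exact ht b
    have hUne : ∀ b ∈ U, b ≠ i := by
      rintro b hb rfl
      exact hi hb
    have htU' : ∀ X, ∀ b ∈ U, Function.update t i X b = lg z y V Y := by
      intro X b hb
      rw [Function.update_of_ne (hUne b hb)]
      exact htU b (mem_insert_of_mem hb)
    set PU := ∏ i ∈ U, (Real.exp (w i * B i) + E i + G i) with hPU
    set SW := Real.exp (∑ i ∈ W \ insert i U, w i * B i) with hSW
    set PW := ∏ b ∈ univ \ W, ∑ m ∈ t b, gA b m with hPW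
    have hPU0 : 0 ≤ PU := prod_nonneg fun i _ => by
      have := hE0 i
      have := hG0 i
      have := (Real.exp_pos (w i * B i)).le
      linarith
    have hPW0 : 0 ≤ PW := prod_nonneg fun b _ => sum_nonneg fun m hm => hnn b m (ht b hm)
    have hSW0 : 0 ≤ SW := (Real.exp_pos _).le
    have hPWX : ∀ X, ∏ b ∈ univ \ W, ∑ m ∈ Function.update t i X b,
        gA b m = PW := by
      intro X
      rw [hPW]
      apply prod_congr rfl
      intro b hb
      rw [Function.update_of_ne (by rintro rfl; exact (mem_sdiff.1 hb).2 hiW)]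
    have a1 := ih W (Function.update t i (PP z y).divisors) ((subset_insert i U).trans hUW) hW
      (hsubD _ (Subset.refl _)) (by
        intro b hb hbU
        by_cases hbi : b = i
        · subst hbi; rw [Function.update_self]
        · rw [Function.update_of_ne hbi]
          apply htW b hb
          rw [mem_insert, not_or]
          exact ⟨hbi, hbU⟩) (htU' _) (CH_full hB hiW _)
    have hWU : W \ U = insert i (W \ insert i U) := by
      ext b
      simp only [mem_sdiff, mem_insert]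
      constructor
      · rintro ⟨h1, h2⟩
        by_cases hbi : b = i
        · exact Or.inl hbi
        · exact Or.inr ⟨h1, by rintro (h | h); exacts [hbi h, h2 h]⟩
      · rintro (rfl | ⟨h1, h2⟩)
        · exact ⟨hiW, hi⟩
        · exact ⟨h1, fun h => h2 (Or.inr h)⟩
    rw [hWU, sum_insert (by simp), Real.exp_add, hPWX] at a1
    have hWe : (W.erase i) \ U = W \ insert i U := by
      ext b
      simp only [mem_sdiff, mem_insert, mem_erase]
      tauto
    have hUe : univ \ (W.erase i) = insert i (univ \ W) := by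
      ext b
      simp only [mem_sdiff, mem_insert, mem_erase, mem_univ, true_and]
      by_cases hbi : b = i
      · simp [hbi]
      · simp [hbi]
    have aX : ∀ X, X ⊆ (PP z y).divisors →
        |∑ d ∈ Fintype.piFinset (Function.update t i X), HH g L κ d| ≤
          C * PU * SW * ((∑ m ∈ X, gA i m) * PW) := by
      intro X hX
      have := ih (W.erase i) (Function.update t i X) (by
          intro b hb
          exact mem_erase.2 ⟨hUne b hb, hUW (mem_insert_of_mem hb)⟩)
        (fun a ha b hb => hW a (mem_erase.1 ha).2 b (mem_erase.1 hb).2)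
        (hsubD _ hX) (by
          intro b hb hbU
          rw [Function.update_of_ne (mem_erase.1 hb).1]
          apply htW b (mem_erase.1 hb).2
          rw [mem_insert, not_or]
          exact ⟨(mem_erase.1 hb).1, hbU⟩) (htU' _) (CH_erase hB hW hiW _)
      rw [hWe, hUe, prod_insert (by simp [hiW]), hPWX, Function.update_self] at this
      exact this
    have a2 := aX _ (filter_subset (fun m => m ≤ V) _)
    have a3 := aX _ (filter_subset (fun m => Y < m) _)
    rw [prod_insert hi]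
    have hcoef : 0 ≤ C * PU * SW := mul_nonneg (mul_nonneg hC hPU0) hSW0
    have b2 : C * PU * SW * ((∑ m ∈ (PP z y).divisors.filter (fun m => m ≤ V),
        gA i m) * PW) ≤ C * PU * SW * (E i * PW) :=
      mul_le_mul_of_nonneg_left (mul_le_mul_of_nonneg_right (hE i) hPW0) hcoef
    have b3 : C * PU * SW * ((∑ m ∈ (PP z y).divisors.filter (fun m => Y < m),
        gA i m) * PW) ≤ C * PU * SW * (G i * PW) :=
      mul_le_mul_of_nonneg_left (mul_le_mul_of_nonneg_right (hG i) hPW0) hcoef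
    refine (abs_sub _ _).trans ?_
    have b4 := abs_sub (∑ d ∈ Fintype.piFinset (Function.update t i (PP z y).divisors),
      HH g L κ d) (∑ d ∈ Fintype.piFinset (Function.update t i
        ((PP z y).divisors.filter (fun m => m ≤ V))), HH g L κ d)
    calc _ ≤ C * PU * (Real.exp (w i * B i) * SW) * PW + C * PU * SW * (E i * PW) +
          C * PU * SW * (G i * PW) := by linarith
      _ = _ := by ring

end Pool.Agent.K6.H34.T8.AB
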