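import Pool.Agent.W307.RT.RAT5
import Pool.Agent.K6.H34.T8.Ab7

/-! Project T8: the refined abstract bound, all patterns (copy of the starting files `Pool.Agent.W307.RT.RAT1` - `RAT5` with general
weights `g` in place of `gw (w i) c`, `gA` in place of `gw (w i) (c + A) * hh`, and densities `q`). -/

set_option autoImplicit false
set_option linter.unusedSectionVars false
set_option linter.unusedVariables false

namespace Pool.Agent.K6.H34.T8.AB

open Finset Pool.Agent.W262.RK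
open Pool.Agent.W262.RK.AT (VV YY VV_ge three_le_VV VV_le_YY one_le_log_VV VV_le log_YY_ge log_YY_le
  log_VV_le log_VV_pow_le exp_neg_pow hh_mul_le hh_prod_le cl cell
  cell_sub cell_zero cell_one cell_two cell_three patterns one_le_log lg BW)
open Pool.Agent.W307.RT (tE tF mem_tE mem_tF sum_split sum_off hA one_le_fac one_le_hA hA_nonneg hA_one
  hA_mul_le hA_prod_le Ps Ps_one Jr_mul_left Ps_mul RW abs_RW_le Sym_split Ps_update lg_sum split_lg
  tN UU WW mem_UU mem_WW tN_sub abs_Ps_le patternsN QN mem_QN Jr_neg_sq)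

variable {ι : Type} [Fintype ι] [DecidableEq ι]

/-- the final estimate when there is some room in the exponent -/
lemma fin_lt {g : ι → ℕ → ℝ} {L : ι → ι → Bool} {κ : ι → ℤ} {z : ℕ} {K S C1 : ℝ} (hz : 2 ≤ z)
    (A M : ℕ) (hSK : S < K) (hC1 : 0 ≤ C1) (t : ℕ → ι → Finset ℕ)
    (h : ∀ y, z < y → |∑ d ∈ Fintype.piFinset (t y), HH g L κ d| ≤
      C1 * (Real.log y) ^ S * (Real.log (VV A (Real.log y))) ^ M) :
    ∃ C' : ℝ, ∀ y, z < y → |∑ d ∈ Fintype.piFinset (t y), HH g L κ d| ≤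
      C' * (Real.log y) ^ K := by
  obtain ⟨C3, hC3, h3⟩ := log_VV_pow_le A M (sub_pos.2 hSK)
  refine ⟨C1 * C3, fun y hy => (h y hy).trans ?_⟩
  have hly := one_le_log hz hy
  have hl0 : 0 < Real.log y := by linarith
  calc C1 * (Real.log y) ^ S * (Real.log (VV A (Real.log y))) ^ M
      ≤ C1 * (Real.log y) ^ S * (C3 * (Real.log y) ^ (K - S)) :=
        mul_le_mul_of_nonneg_left (h3 _ hly) (by positivity)
    _ = C1 * C3 * ((Real.log y) ^ S * (Real.log y) ^ (K - S)) := by ring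
    _ = _ := by rw [← Real.rpow_add hl0]; congr 2; ring

/-- one pattern -/
lemma pat_rat {g gA q : ι → ℕ → ℝ} {w : ι → ℝ} {L : ι → ι → Bool} {κ : ι → ℤ} {z A : ℕ} {K C C1 Cs C0 C2 : ℝ}
    {E2 : ℕ} {N : Finset ι} (hBd : Bd g w κ z C) (hgA : ∀ i, ∀ {y m : ℕ}, m ∈ (PP z y).divisors → g i m * hA A m ≤ gA i m)
    (hFB : FB gA w z C1) (hCs : 0 ≤ Cs)
    (hFs : FS g q w z A Cs) (hCB : CB q κ N z C0) (hC2 : 0 ≤ C2) (h2 : BW C2 E2)
    (hL : ∀ i, L i i = false) (hN2 : ∀ n ∈ N, ∀ m ∈ N, L n m = false)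
    (hQ1 : ∀ i ∈ QN L N, ∀ j ∈ QN L N, L i j = false) (hQ2 : ∑ i ∈ QN L N, w i ≤ K)
    (hU : ∀ U : Finset ι, (∀ i ∈ U, ∀ j ∈ U, L i j = L j i) →
      (∃ k ∈ U, k ∉ N ∧ k ∉ QN L N) → ∑ i ∈ U, w i ≤ K)
    (hS : ∀ b, b ∉ N → b ∉ QN L N →
      ∑ i ∈ (QN L N ∪ N).filter (fun i => L i b = L b i), w i < K) (ρ : ι → Fin 4) :
    ∃ C' : ℝ, ∀ y, z < y →
      |∑ d ∈ Fintype.piFinset (tN N z y (VV (6 * (Fintype.card ι + 2 * E2)) (Real.log y))
        (YY (6 * (Fintype.card ι + 2 * E2)) (Real.log y)) ρ), HH g L κ d| ≤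
        C' * (Real.log y) ^ K := by
  classical
  have hK0 : 0 ≤ K := (sum_nonneg fun i _ => (hBd.w0 i).le).trans hQ2
  set A' := 6 * (Fintype.card ι + 2 * E2) with hA'
  by_cases hA : ∃ k, k ∉ N ∧ ρ k = 3
  · obtain ⟨k, hk1, hk2⟩ := hA
    exact refine_pat A' N ρ fun π hπ => tail_case hBd _ hK0 π (k := k) (by rw [hπ k hk1, hk2])
  push Not at hA
  by_cases hl : ∃ i j, i ∉ N ∧ j ∉ N ∧ ρ i = 2 ∧ ρ j = 2 ∧ L i j ≠ L j i
  · obtain ⟨i, j, hi, hj, hi2, hj2, hij⟩ := hl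
    exact refine_pat A' N ρ fun π hπ => link_case hBd hC2 h2 hL le_rfl hK0 π
      (by rw [hπ i hi, hi2]) (by rw [hπ j hj, hj2]) hij
  by_cases hk : ∃ k, k ∉ N ∧ ρ k = 2 ∧ k ∉ QN L N
  · obtain ⟨k, hk1, hk2, hk3⟩ := hk
    exact refine_pat A' N ρ fun π hπ => pat2 hBd hC2 h2 hL hK0 (k0 := k)
      (fun U hUu hkU => hU U hUu ⟨k, hkU, hk1, hk3⟩) π (by rw [hπ k hk1, hk2])
  push Not at hk
  have hUQ : ∀ b ∈ UU N ρ, b ∈ QN L N := by
    intro b hb
    rw [mem_UU] at hb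
    exact hk b hb.1 hb.2
  have hWQ : ∀ b ∈ WW N ρ, b ∈ QN L N ∪ N := by
    intro b hb
    rw [mem_union]
    by_cases hbN : b ∈ N
    · exact Or.inr hbN
    · left
      apply hUQ
      rw [mem_UU]
      rw [mem_WW] at hb
      tauto
  have hW : ∀ i ∈ WW N ρ, ∀ j ∈ WW N ρ, L i j = false := by
    intro i hi j hj
    rcases mem_union.1 (hWQ i hi) with h1 | h1
    · rcases mem_union.1 (hWQ j hj) with h3 | h3
      · exact hQ1 i h1 j h3
      · exact ((mem_QN.1 h1).2 j h3).1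
    · rcases mem_union.1 (hWQ j hj) with h3 | h3
      · exact ((mem_QN.1 h3).2 i h1).2
      · exact hN2 i h1 j h3
  have hz2 := hBd.z2
  by_cases h1 : ∃ b, b ∉ N ∧ ρ b = 1 ∧ b ∉ QN L N
  · obtain ⟨b0, hb0, hb1, hbQ⟩ := h1
    have hM : 0 ≤ Real.log (Fintype.card ι) := Real.log_natCast_nonneg _
    obtain ⟨C', hC'0, hC'⟩ := main_est (κ := κ) (q := q) (fun i => hBd.g0 i) hBd.g1 hgA hFB hCs hFs N ρ (fun b hb => hA b hb) hW A'
      (C0 := C0 + 2 * Real.log (Fintype.card ι)) (by have := hCB.c0; linarith)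
      (univ.filter (fun i => L i b0 = L b0 i))
    have hlt : ∑ i ∈ (WW N ρ).filter (fun i => i ∈ univ.filter (fun i => L i b0 = L b0 i)), w i
        < K := by
      refine lt_of_le_of_lt ?_ (hS b0 hb0 hbQ)
      apply sum_le_sum_of_subset_of_nonneg
      · intro i hi
        rw [mem_filter] at hi ⊢
        exact ⟨hWQ i hi.1, (mem_filter.1 hi.2).2⟩
      · intro i _ _
        exact (hBd.w0 i).le
    apply fin_lt hz2 A' (4 * Fintype.card ι) hlt hC'0
      (fun y => tN N z y (VV A' (Real.log y)) (YY A' (Real.log y)) ρ)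
    intro y hy
    have hpow : (Real.log (VV A' (Real.log y))) ^ (4 * Fintype.card ι) =
        (Real.log (VV A' (Real.log y)) ^ 2) ^ (2 * Fintype.card ι) := by
      rw [← pow_mul]; congr 1; ring
    rw [hpow]
    exact hC' y hy (Real.log (VV A' (Real.log y)) ^ 2) (Or.inl rfl)
      (CH2 hCB hy (three_le_VV _ _) (fun b hb => hA b hb) hb0 hb1)
  push Not at h1
  have hNh : ∀ n ∈ N, ∀ b, b ∉ N → ρ b ≠ 0 → b ∉ UU N ρ → L n b = false ∧ L b n = false := by
    intro n hn b hbN hb0 hbU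
    have hb3 := hA b hbN
    have hb2 : ρ b ≠ 2 := fun h => hbU (mem_UU.2 ⟨hbN, h⟩)
    have hb1 : ρ b = 1 := by
      revert hb0 hb2 hb3
      generalize ρ b = r
      revert r
      decide
    have := (mem_QN.1 (h1 b hbN hb1)).2 n hn
    exact ⟨this.2, this.1⟩
  obtain ⟨C', hC'0, hC'⟩ := main_est (κ := κ) (q := q) (fun i => hBd.g0 i) hBd.g1 hgA hFB hCs hFs N ρ (fun b hb => hA b hb) hW A'
    hCB.c0 (UU N ρ)
  have hfil : (WW N ρ).filter (fun i => i ∈ UU N ρ) ⊆ QN L N := by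
    intro i hi
    exact hUQ i (mem_filter.1 hi).2
  by_cases h0 : ∃ b, b ∉ N ∧ ρ b = 1
  · obtain ⟨b0, hb0, hb1⟩ := h0
    have hbQ := h1 b0 hb0 hb1
    have hlt : ∑ i ∈ (WW N ρ).filter (fun i => i ∈ UU N ρ), w i < K := by
      have e1 : ∑ i ∈ (WW N ρ).filter (fun i => i ∈ UU N ρ), w i ≤
          ∑ i ∈ (QN L N).erase b0, w i := by
        apply sum_le_sum_of_subset_of_nonneg
        · intro i hi
          rw [mem_erase]
          refine ⟨?_, hfil hi⟩
          rintro rfl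
          have := (mem_UU.1 (mem_filter.1 hi).2).2
          rw [hb1] at this
          exact absurd this (by decide)
        · intro i _ _
          exact (hBd.w0 i).le
      have e2 := add_sum_erase (QN L N) w hbQ
      have e3 := hBd.w0 b0
      linarith
    apply fin_lt hz2 A' (4 * Fintype.card ι) hlt hC'0
      (fun y => tN N z y (VV A' (Real.log y)) (YY A' (Real.log y)) ρ)
    intro y hy
    have hpow : (Real.log (VV A' (Real.log y))) ^ (4 * Fintype.card ι) =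
        (Real.log (VV A' (Real.log y)) ^ 2) ^ (2 * Fintype.card ι) := by
      rw [← pow_mul]; congr 1; ring
    rw [hpow]
    exact hC' y hy (Real.log (VV A' (Real.log y)) ^ 2) (Or.inl rfl)
      (CH1 hCB hy hNh (Real.log_nonneg (one_le_pow₀ (one_le_log_VV _ _))))
  · push Not at h0
    refine ⟨C', fun y hy => ?_⟩
    have h4 := hC' y hy 1 (Or.inr ⟨rfl, Subset.refl _, h0⟩)
      (CH1 hCB hy hNh (by rw [Real.log_one]))
    have hly := one_le_log hz2 hy
    rw [one_pow, mul_one] at h4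
    refine h4.trans ?_
    apply mul_le_mul_of_nonneg_left _ hC'0
    apply Real.rpow_le_rpow_of_exponent_le hly
    refine le_trans ?_ hQ2
    exact sum_le_sum_of_subset_of_nonneg hfil fun i _ _ => (hBd.w0 i).le

end Pool.Agent.K6.H34.T8.AB
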