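import Pool.Agent.K6.H34.T8.Stm
import Pool.Agent.W307.RT.Box

/-! Project T8: from the sum over the box to the curves, ordered by height. -/

set_option autoImplicit false

namespace Pool.Agent.K6.H34.T8

open Finset Pool.Agent.W262.RK Pool.Agent.W307.RT

theorem main8_of (hp : PAR8) (hl : LOW8) (hb : BOX8) : ∃ C : ℝ, ∀ H : ℕ, ∑ c ∈ Cv 8 H,
    (2 : ℝ) ^ Module.finrank ℤ (Sh c.1 c.2).toAffine.Point ≤ C * (Cv 8 H).card := by
  classical
  obtain ⟨C, hC, hb⟩ := hb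
  refine final_of (by norm_num) hp hl ⟨C, hC, fun T hT => ?_⟩
  refine le_trans ?_ (hb T hT)
  refine sum_le_sum_of_subset_of_nonneg ?_ fun t _ _ => by positivity
  intro t ht
  rw [mem_filter] at ht ⊢
  obtain ⟨h1, h2, h3, h4, _⟩ := ht
  exact ⟨h1, h2, neg_ne_zero.2 h3, neg_ne_zero.2 h4⟩

end Pool.Agent.K6.H34.T8
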