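import Pool.Agent.K6.H34.T8.Stm
import Pool.Agent.K6.H43.TQ.Ant16
import Pool.Agent.W262.RK.NT2

/-!
# Project T8 (helper34), piece AVG8 (by helper36)

Adapted from `Pool.Agent.K6.H34.TQ.Avg` and `Pool.Agent.W230.RT.Avg2`.
-/

set_option autoImplicit false

namespace Pool.Agent.K6.H34.T8

open Finset Pool.Agent.W262.RK Pool.Agent.W307.RT

namespace AVG8p

/-- the factor between the weights -/
noncomputable def rho (d : ℕ) : ℝ := ∏ p ∈ d.primeFactors, (((p : ℝ) - 7) / ((p : ℝ) - 10))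

lemma fac_nn {p : ℕ} (hp : p.Prime) : 0 ≤ ((p : ℝ) - 7) / ((p : ℝ) - 10) := by
  rcases le_or_gt p 7 with h | h
  · have h1 : (p : ℝ) ≤ 7 := by exact_mod_cast h
    exact div_nonneg_of_nonpos (by linarith) (by linarith)
  · have h8 : p ≠ 8 := by rintro rfl; norm_num at hp
    have h9 : p ≠ 9 := by rintro rfl; norm_num at hp
    have h10 : 10 ≤ p := by omega
    have h1 : (10 : ℝ) ≤ p := by exact_mod_cast h10
    exact div_nonneg (by linarith) (by linarith)

lemma rho_nn (d : ℕ) : 0 ≤ rho d :=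
  prod_nonneg fun p hp => fac_nn (Nat.prime_of_mem_primeFactors hp)

lemma gt_of_mem {z y d p : ℕ} (hz : 16 ≤ z) (hd : d ∣ PP z y) (hp : p ∈ d.primeFactors) :
    (16 : ℝ) < p := by
  have h1 := (mem_PS.1 ((prime_dvd_PP (Nat.prime_of_mem_primeFactors hp)).1
    ((Nat.dvd_of_mem_primeFactors hp).trans hd))).1.1
  exact_mod_cast lt_of_le_of_lt hz h1

lemma rho_le {z y d : ℕ} (hz : 16 ≤ z) (hd : d ∣ PP z y) : rho d ≤ 2 ^ d.primeFactors.card := by
  unfold rho
  rw [← prod_const]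
  apply prod_le_prod
  · intro p hp
    exact fac_nn (Nat.prime_of_mem_primeFactors hp)
  · intro p hp
    have := gt_of_mem hz hd hp
    rw [div_le_iff₀ (by linarith)]
    linarith

lemma rho_mul {m n : ℕ} (h : m.Coprime n) : rho (m * n) = rho m * rho n := by
  unfold rho
  rw [h.primeFactors_mul, prod_union h.disjoint_primeFactors]

lemma gw_rho {z y d : ℕ} (hz : 16 ≤ z) (hd : d ∣ PP z y) : gw 1 10 d = rho d * gw 1 7 d := by
  unfold gw rho
  rw [← prod_mul_distrib]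
  apply prod_congr rfl
  intro p hp
  have h := gt_of_mem hz hd hp
  have h1 : (p : ℝ) - 7 ≠ 0 := by linarith
  have h2 : (p : ℝ) - 10 ≠ 0 := by linarith
  push_cast
  field_simp

/-- the number of the large primes -/
lemma card_h {y Y k X : ℕ} {h : Fin 7 → ℕ} (hh : h ∈ Tup (Fin 7) y Y) (hX : ∏ j, h j ≤ X)
    (hk : X < (y + 1) ^ k) : ∑ j, (h j).primeFactors.card ≤ k := by
  have h1 : (y + 1) ^ (∑ j, (h j).primeFactors.card) ≤ ∏ j, h j := by
    rw [← prod_pow_eq_pow_sum]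
    apply prod_le_prod'
    intro j _
    have hd := (mem_Tup'.1 hh).1 j
    have hpos : 0 < h j := Nat.pos_of_ne_zero (fun h0 => by
      rw [h0, zero_dvd_iff] at hd
      exact PP_ne_zero y Y hd)
    calc (y + 1) ^ ((h j).primeFactors.card) = ∏ _p ∈ (h j).primeFactors, (y + 1) :=
          (prod_const _).symm
      _ ≤ ∏ p ∈ (h j).primeFactors, p := by
          apply prod_le_prod'
          intro p hp
          exact (mem_PS.1 ((prime_dvd_PP (Nat.prime_of_mem_primeFactors hp)).1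
            ((Nat.dvd_of_mem_primeFactors hp).trans hd))).1.1
      _ ≤ h j := Nat.le_of_dvd hpos (Nat.prod_primeFactors_dvd _)
  by_contra hc
  rw [not_le] at hc
  have h2 : (y + 1) ^ k ≤ (y + 1) ^ (∑ j, (h j).primeFactors.card) :=
    Nat.pow_le_pow_right (by omega) hc.le
  omega

lemma tup_pos {z y : ℕ} {d : Fin 7 → ℕ} (hd : d ∈ Tup (Fin 7) z y) (j : Fin 7) : 0 < d j :=
  Nat.pos_of_ne_zero (fun h0 => by
    have h := (mem_Tup'.1 hd).1 j
    rw [h0, zero_dvd_iff] at h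
    exact PP_ne_zero z y h)

/-- the size of the forms -/
lemma size {e : ℤ} (he : e = 1 ∨ e = -1) {X a b : ℕ} (hX : 16 ≤ X) (ha : a ≤ X) (hb : b ≤ X)
    (j : Fin 7) : (f8 (a : ℤ) (2 * a + e * b) j).natAbs ≤ X ^ 3 := by
  have ha' : (a : ℤ) ≤ X := by exact_mod_cast ha
  have hb' : (b : ℤ) ≤ X := by exact_mod_cast hb
  have ha0 : (0 : ℤ) ≤ a := Int.natCast_nonneg a
  have hb0 : (0 : ℤ) ≤ b := Int.natCast_nonneg b
  have hX' : (16 : ℤ) ≤ X := by exact_mod_cast hX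
  set v : ℤ := 2 * a + e * b with hv
  have hv1 : v ≤ 3 * X := by
    rcases he with rfl | rfl <;> rw [hv] <;> linarith
  have hv2 : -(3 * (X : ℤ)) ≤ v := by
    rcases he with rfl | rfl <;> rw [hv] <;> linarith
  have key : |f8 (a : ℤ) v j| ≤ (X : ℤ) ^ 3 := by
    have hX2 : 16 * (X : ℤ) ^ 2 ≤ (X : ℤ) ^ 3 := by nlinarith [sq_nonneg (X : ℤ)]
    have hX1 : 16 * (X : ℤ) ≤ (X : ℤ) ^ 2 := by nlinarith
    have hvv : v ^ 2 ≤ 9 * (X : ℤ) ^ 2 := by nlinarith
    have haa : (a : ℤ) ^ 2 ≤ (X : ℤ) ^ 2 := by nlinarith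
    have haa0 : (0 : ℤ) ≤ (a : ℤ) ^ 2 := sq_nonneg _
    have hvv0 : 0 ≤ v ^ 2 := sq_nonneg _
    have hav1 : (a : ℤ) * v ≤ 3 * (X : ℤ) ^ 2 := by nlinarith
    have hav2 : -(3 * (X : ℤ) ^ 2) ≤ (a : ℤ) * v := by nlinarith
    rw [abs_le]
    fin_cases j <;> simp [f8] <;> constructor <;> nlinarith
  have h1 : ((f8 (a : ℤ) v j).natAbs : ℤ) ≤ ((X ^ 3 : ℕ) : ℤ) := by
    rw [Int.natCast_natAbs]
    push_cast
    exact key
  exact_mod_cast h1

end AVG8p

open AVG8p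

theorem t_AVG8 (h1 : MAR8) (h2 : CNT8) (h3 : SUB8) (h4 : RANK8) (h5 : GD8) : AVG8 := by
  intro e he
  classical
  obtain ⟨z0, hz0⟩ := h1 10
  obtain ⟨z1, hz1⟩ := h2 e he
  set z : ℕ := z0 + z1 + 16 with hz
  have hz16 : 16 ≤ z := by omega
  obtain ⟨C', hC'⟩ := hz0 z (by omega)
  obtain ⟨C, K, y0, hC0, hK1, hcn⟩ := hz1 z (by omega)
  have hJ : Fintype.card (Fin 7) = 7 := Fintype.card_fin 7
  have hcop : ∀ t : ℕ × ℕ, t.1.Coprime t.2 → IsCoprime (t.1 : ℤ) (2 * t.1 + e * t.2) := by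
    intro t ht
    have h := Nat.isCoprime_iff_coprime.2 ht
    have h' : IsCoprime (t.1 : ℤ) (e * t.2) := by
      rcases he with rfl | rfl
      · rw [one_mul]
        exact h
      · rw [neg_one_mul, IsCoprime.neg_right_iff]
        exact h
    have := h'.add_mul_left_right 2
    rwa [show e * (t.2 : ℤ) + t.1 * 2 = 2 * t.1 + e * t.2 by ring] at this
  set y1 : ℕ := y0 + 16 with hy1
  have key := Pool.Agent.K6.H43.TQ.ant16 (Fin 7) (ℕ × ℕ)
    (fun X => (Icc 1 X ×ˢ Icc 1 X).filter (fun t : ℕ × ℕ =>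
      t.1.Coprime t.2 ∧ ∀ j, F8 e (t.1 : ℤ) (t.2 : ℤ) j ≠ 0))
    (fun t => F8 e (t.1 : ℤ) (t.2 : ℤ)) (fun X => (X : ℝ) ^ 2) z
    (fun s => G8 s * ∏ j, rho (s j))
    (fun t => (2 : ℝ) ^ Module.finrank ℤ (EAB (A8 t.1 (2 * t.1 + e * t.2))
      (B8 t.1 (2 * t.1 + e * t.2))).toAffine.Point)
    (C * 4 ^ (z + 2)) C' (4 ^ 21 * 2) K y1 (by rw [hJ]; omega) (fun X Y hXY => ?_)
    (fun X hX => ?_) (fun X ω hω => ?_) (fun s => ?_) (fun t => by positivity) (by positivity)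
    (by norm_num) hK1
    (fun y hy s e' hse => ?_)
    (fun y hy => ?_) ?_
  · exact key
  · intro t ht
    rw [mem_filter, mem_product, mem_Icc, mem_Icc] at ht
    rw [mem_filter, mem_product, mem_Icc, mem_Icc]
    exact ⟨⟨⟨ht.1.1.1, ht.1.1.2.trans hXY⟩, ⟨ht.1.2.1, ht.1.2.2.trans hXY⟩⟩, ht.2⟩
  · have : (1 : ℝ) ≤ X := by exact_mod_cast hX
    exact one_le_pow₀ this
  · rw [mem_filter] at hω
    exact h5 z _ _ (by omega) (hcop ω hω.2.1) hω.2.2
  · exact mul_nonneg (h3.1 s) (prod_nonneg fun j _ => rho_nn _)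
  · -- the growth
    have hg := h3.2 z y (by omega) s e' hse
    have hse' := mem_Tup'.1 hse
    have hcp : ∀ j, (s j).Coprime (e' j) := fun j =>
      (Nat.squarefree_mul_iff.1 ((PP_squarefree z y).squarefree_of_dvd (hse'.1 j))).1
    have e1 : ∏ j, rho (s j * e' j) = (∏ j, rho (s j)) * ∏ j, rho (e' j) := by
      rw [← prod_mul_distrib]
      exact prod_congr rfl fun j _ => rho_mul (hcp j)
    have e2 : ∏ j, rho (e' j) ≤ 2 ^ (∑ j, (e' j).primeFactors.card) := by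
      rw [← prod_pow_eq_pow_sum]
      exact prod_le_prod (fun j _ => rho_nn _) fun j _ =>
        rho_le hz16 ((Dvd.intro_left _ rfl).trans (hse'.1 j))
    show G8 (fun j => s j * e' j) * ∏ j, rho (s j * e' j) ≤ _
    rw [e1]
    calc G8 (fun j => s j * e' j) * ((∏ j, rho (s j)) * ∏ j, rho (e' j))
        ≤ (8 ^ (∑ j, (e' j).primeFactors.card) * G8 s) *
          ((∏ j, rho (s j)) * 2 ^ (∑ j, (e' j).primeFactors.card)) := by
          apply mul_le_mul hg _ (mul_nonneg (prod_nonneg fun j _ => rho_nn _)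
            (prod_nonneg fun j _ => rho_nn _)) (mul_nonneg (by positivity) (h3.1 s))
          exact mul_le_mul_of_nonneg_left e2 (prod_nonneg fun j _ => rho_nn _)
      _ = 16 ^ (∑ j, (e' j).primeFactors.card) * (G8 s * ∏ j, rho (s j)) := by
          rw [show (16 : ℝ) = 8 * 2 by norm_num, mul_pow]
          ring
  · -- the average of `G`
    rw [hJ]
    refine le_trans (le_of_eq ?_) (hC' y hy)
    apply sum_congr rfl
    intro s hs
    rw [mul_assoc, ← prod_mul_distrib]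
    congr 1
    exact prod_congr rfl fun j _ => (gw_rho hz16 ((mem_Tup'.1 hs).1 j)).symm
  intro X y Y k hy0 hzy hyK hk s hs v hv h hh h8 T' hT' hT2
  rw [hJ]
  have hy00 : y0 ≤ y := by omega
  have hyX : y ≤ X := le_trans (Nat.le_self_pow (by omega) y) hyK
  have hX16 : 16 ≤ X := by omega
  -- the number of the large primes
  have hprod1 : ∏ j, h j ≤ X := by
    have a1 : ∏ j, h j ≤ ∏ j, s j * v j * h j := by
      apply prod_le_prod'
      intro j _
      exact Nat.le_mul_of_pos_left _ (Nat.mul_pos (tup_pos hs j) (tup_pos hv j))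
    exact (a1.trans (Nat.le_self_pow (by norm_num) _)).trans h8
  have hcard := card_h hh hprod1 hk
  set g : ℝ := N8 s with hg
  have hg0 : 0 ≤ g := by rw [hg]; exact Nat.cast_nonneg _
  -- the bound of the rank
  have b1 : ∀ t ∈ T', (2 : ℝ) ^ Module.finrank ℤ (EAB (A8 t.1 (2 * t.1 + e * t.2))
      (B8 t.1 (2 * t.1 + e * t.2))).toAffine.Point ≤
      4 ^ (z + 2) * (4 ^ 21) ^ k * 4 ^ (∑ j, (v j).primeFactors.card) * g := by
    intro t ht
    have ht1 := hT' ht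
    rw [mem_filter, mem_product, mem_Icc, mem_Icc] at ht1
    obtain ⟨hts, htv, _⟩ := hT2 t ht
    have hr := h4 X y z k (t.1 : ℤ) (2 * t.1 + e * t.2) (by omega) (hcop t ht1.2.1) ht1.2.2
      (size he hX16 ht1.1.1.2 ht1.1.2.2) (by omega) (by omega) hk
    have hts' : S1 z y (f8 (t.1 : ℤ) (2 * t.1 + e * t.2)) = s := hts
    have htv' : S2 z y (f8 (t.1 : ℤ) (2 * t.1 + e * t.2)) = v := htv
    rw [hts', htv'] at hr
    rw [hg]
    unfold N8
    exact_mod_cast hr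
  set Q : ℝ := C * X ^ 2 * (∏ j, rt (a8 j) (s j) * gw 1 10 (s j)) *
        (∏ j, 2 ^ (v j).primeFactors.card * (gw 1 10 (v j) / v j)) *
        (∏ j, 2 ^ (h j).primeFactors.card / (h j : ℝ)) / (Real.log y) ^ 7 with hQ
  have b3 : (T'.card : ℝ) ≤ Q := by
    refine le_trans ?_ (hcn X y Y hy00 hzy hyK s hs v hv h hh h8)
    have b4 : T' ⊆ (Icc 1 X ×ˢ Icc 1 X).filter (fun t : ℕ × ℕ => t.1.Coprime t.2 ∧
      (∀ j, F8 e (t.1 : ℤ) (t.2 : ℤ) j ≠ 0) ∧
      S1 z y (F8 e (t.1 : ℤ) (t.2 : ℤ)) = s ∧ S2 z y (F8 e (t.1 : ℤ) (t.2 : ℤ)) = v ∧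
      ∀ j, (h j : ℤ) ∣ F8 e (t.1 : ℤ) (t.2 : ℤ) j) := by
      intro t ht
      have ht1 := hT' ht
      rw [mem_filter] at ht1
      rw [mem_filter]
      exact ⟨ht1.1, ht1.2.1, ht1.2.2, (hT2 t ht).1, (hT2 t ht).2.1, (hT2 t ht).2.2⟩
    exact_mod_cast card_le_card b4
  have hlog : 0 ≤ (Real.log y) ^ 7 := pow_nonneg (Real.log_natCast_nonneg y) _
  have hgv7 : ∀ j, 0 ≤ gw 1 7 (v j) := fun j => gw_nn (by omega) hv j
  have hgv10 : ∀ j, 0 ≤ gw 1 10 (v j) := fun j => gw_nn (by omega) hv j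
  have hgs10 : ∀ j, 0 ≤ gw 1 10 (s j) := fun j => gw_nn (by omega) hs j
  -- the factor of `v`
  have ev : (4 : ℝ) ^ (∑ j, (v j).primeFactors.card) *
      (∏ j, 2 ^ (v j).primeFactors.card * (gw 1 10 (v j) / v j)) ≤
      ∏ j, 16 ^ (v j).primeFactors.card * (gw 1 7 (v j) / v j) := by
    rw [← prod_pow_eq_pow_sum, ← prod_mul_distrib]
    apply prod_le_prod
    · intro j _
      have := hgv10 j
      positivity
    · intro j _
      have hle : gw 1 10 (v j) ≤ 2 ^ (v j).primeFactors.card * gw 1 7 (v j) := by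
        rw [gw_rho hz16 ((mem_Tup'.1 hv).1 j)]
        exact mul_le_mul_of_nonneg_right (rho_le hz16 ((mem_Tup'.1 hv).1 j)) (hgv7 j)
      have e16 : (16 : ℝ) ^ (v j).primeFactors.card = 4 ^ (v j).primeFactors.card *
          (2 ^ (v j).primeFactors.card * 2 ^ (v j).primeFactors.card) := by
        rw [← mul_pow, ← mul_pow]; norm_num
      rw [e16]
      have hvp : (0 : ℝ) < v j := by exact_mod_cast tup_pos hv j
      calc (4 : ℝ) ^ (v j).primeFactors.card *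
            (2 ^ (v j).primeFactors.card * (gw 1 10 (v j) / v j))
          ≤ 4 ^ (v j).primeFactors.card * (2 ^ (v j).primeFactors.card *
            ((2 ^ (v j).primeFactors.card * gw 1 7 (v j)) / v j)) := by
            gcongr
        _ = _ := by ring
  -- the factor of `h`
  have eh : (∏ j, (2 : ℝ) ^ (h j).primeFactors.card / (h j : ℝ)) ≤
      2 ^ k * ∏ j, 1 / (h j : ℝ) := by
    have e3 : (∏ j, (2 : ℝ) ^ (h j).primeFactors.card / (h j : ℝ)) =
        2 ^ (∑ j, (h j).primeFactors.card) * ∏ j, 1 / (h j : ℝ) := by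
      rw [← prod_pow_eq_pow_sum, ← prod_mul_distrib]
      exact prod_congr rfl fun j _ => by ring
    rw [e3]
    apply mul_le_mul_of_nonneg_right _ (prod_nonneg fun j _ => by positivity)
    exact pow_le_pow_right₀ (by norm_num) hcard
  have hh0 : 0 ≤ ∏ j, 1 / (h j : ℝ) := prod_nonneg fun j _ => by positivity
  -- the factor of `s`
  have es : g * (∏ j, rt (a8 j) (s j) * gw 1 10 (s j)) =
      (G8 s * ∏ j, rho (s j)) * ∏ j, gw 1 7 (s j) := by
    rw [mul_assoc, ← prod_mul_distrib, hg]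
    unfold G8
    rw [mul_assoc, ← prod_mul_distrib]
    congr 1
    exact prod_congr rfl fun j _ => by rw [gw_rho hz16 ((mem_Tup'.1 hs).1 j)]
  have hs0 : 0 ≤ (G8 s * ∏ j, rho (s j)) * ∏ j, gw 1 7 (s j) :=
    mul_nonneg (mul_nonneg (h3.1 s) (prod_nonneg fun j _ => rho_nn _))
      (prod_nonneg fun j _ => gw_nn (by omega) hs j)
  have hv0 : 0 ≤ ∏ j, (16 : ℝ) ^ (v j).primeFactors.card * (gw 1 7 (v j) / v j) :=
    prod_nonneg fun j _ => by have := hgv7 j; positivity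
  have hvv0 : 0 ≤ (4 : ℝ) ^ (∑ j, (v j).primeFactors.card) *
      (∏ j, 2 ^ (v j).primeFactors.card * (gw 1 10 (v j) / v j)) :=
    mul_nonneg (by positivity) (prod_nonneg fun j _ => by have := hgv10 j; positivity)
  calc ∑ t ∈ T', (2 : ℝ) ^ Module.finrank ℤ (EAB (A8 t.1 (2 * t.1 + e * t.2))
          (B8 t.1 (2 * t.1 + e * t.2))).toAffine.Point
      ≤ ∑ _t ∈ T', (4 : ℝ) ^ (z + 2) * (4 ^ 21) ^ k * 4 ^ (∑ j, (v j).primeFactors.card) * g :=
        sum_le_sum b1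
    _ = (T'.card : ℝ) *
          (4 ^ (z + 2) * (4 ^ 21) ^ k * 4 ^ (∑ j, (v j).primeFactors.card) * g) := by
        rw [sum_const, nsmul_eq_mul]
    _ ≤ Q * (4 ^ (z + 2) * (4 ^ 21) ^ k * 4 ^ (∑ j, (v j).primeFactors.card) * g) :=
        mul_le_mul_of_nonneg_right b3 (by positivity)
    _ = C * 4 ^ (z + 2) * (4 ^ 21) ^ k * X ^ 2 *
          (g * (∏ j, rt (a8 j) (s j) * gw 1 10 (s j))) *
          ((4 : ℝ) ^ (∑ j, (v j).primeFactors.card) *
            (∏ j, 2 ^ (v j).primeFactors.card * (gw 1 10 (v j) / v j))) *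
          (∏ j, 2 ^ (h j).primeFactors.card / (h j : ℝ)) / (Real.log y) ^ 7 := by
        rw [hQ]
        ring
    _ ≤ C * 4 ^ (z + 2) * (4 ^ 21) ^ k * X ^ 2 *
          ((G8 s * ∏ j, rho (s j)) * ∏ j, gw 1 7 (s j)) *
          (∏ j, 16 ^ (v j).primeFactors.card * (gw 1 7 (v j) / v j)) *
          (2 ^ k * ∏ j, 1 / (h j : ℝ)) / (Real.log y) ^ 7 := by
        rw [es]
        have hc : 0 ≤ C * 4 ^ (z + 2) * (4 ^ 21) ^ k * (X : ℝ) ^ 2 *
          ((G8 s * ∏ j, rho (s j)) * ∏ j, gw 1 7 (s j)) := mul_nonneg (by positivity) hs0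
        apply div_le_div_of_nonneg_right _ hlog
        apply mul_le_mul (mul_le_mul_of_nonneg_left ev hc) eh
          (prod_nonneg fun j _ => by positivity) (mul_nonneg hc hv0)
    _ = _ := by
        rw [mul_pow]
        ring

end Pool.Agent.K6.H34.T8
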