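import Pool.Agent.K6.H34.T8.Stm
import Pool.Agent.W307.RT.Box

/-!
# Project T8 (helper34), piece BOX8 (by helper36)
-/

set_option autoImplicit false

namespace Pool.Agent.K6.H34.T8

open Finset Pool.Agent.W262.RK Pool.Agent.W307.RT

namespace BOX8p

lemma sum_inj_le {α β : Type} [DecidableEq β] {s : Finset α} {t : Finset β} {f : α → ℝ}
    {g : β → ℝ} (φ : α → β) (hφ : ∀ x ∈ s, φ x ∈ t) (hinj : Set.InjOn φ (s : Set α))
    (hfg : ∀ x ∈ s, f x = g (φ x)) (hg : ∀ y, 0 ≤ g y) :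
    ∑ x ∈ s, f x ≤ ∑ y ∈ t, g y := by
  rw [sum_congr rfl hfg, ← sum_image (f := g) hinj]
  exact sum_le_sum_of_subset_of_nonneg (image_subset_iff.2 hφ) fun y _ _ => hg y

lemma no_sqrt_two {a b : ℤ} (hb : b ≠ 0) : a ^ 2 ≠ 2 * b ^ 2 := by
  intro h
  have h2 := irrational_sqrt_two
  apply h2
  refine ⟨((|a| : ℤ) : ℚ) / ((|b| : ℤ) : ℚ), ?_⟩
  have hb' : (0 : ℝ) < |(b : ℝ)| := by
    have : (b : ℝ) ≠ 0 := by exact_mod_cast hb
    positivity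
  have h3 : ((a : ℝ)) ^ 2 = 2 * (b : ℝ) ^ 2 := by exact_mod_cast h
  rw [eq_comm, Real.sqrt_eq_iff_mul_self_eq (by norm_num)
    (by push_cast; positivity)]
  push_cast
  rw [div_mul_div_comm, eq_div_iff (by positivity), abs_mul_abs_self, abs_mul_abs_self]
  nlinarith

/-- all the forms are nonzero -/
lemma f8_ne {u v : ℤ} (hA : A8 u v ≠ 0) (hB : B8 u v ≠ 0) (j : Fin 7) : f8 u v j ≠ 0 := by
  have hu : u ≠ 0 := by
    rintro rfl
    apply hA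
    simp [A8]
  have hv : v ≠ 0 := by
    rintro rfl
    apply hA
    simp [A8]
  have h1 : u - v ≠ 0 := by
    intro h
    apply hB
    have : u = v := by linarith
    subst this
    simp [B8]
  have h2 : u + v ≠ 0 := by
    intro h
    apply hB
    have : u = -v := by linarith
    subst this
    simp [B8]
  have h3 : u ^ 2 + v ^ 2 ≠ 0 := by
    have : 0 < u ^ 2 := by positivity
    have : 0 < v ^ 2 := by positivity
    linarith
  have h4 : u ^ 2 - 2 * u * v - v ^ 2 ≠ 0 := by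
    intro h
    apply no_sqrt_two (a := u - v) hv
    linear_combination h
  have h5 : u ^ 2 + 2 * u * v - v ^ 2 ≠ 0 := by
    intro h
    apply no_sqrt_two (a := u + v) hv
    linear_combination h
  fin_cases j <;> simp [f8] <;> assumption

/-- the size of the curve at a point -/
noncomputable def hr (u v : ℤ) : ℝ := (2 : ℝ) ^ Module.finrank ℤ (EAB (A8 u v) (B8 u v)).toAffine.Point

lemma hr_nn (u v : ℤ) : 0 ≤ hr u v := by unfold hr; positivity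

lemma A8_sg {e f : ℤ} (he : e = 1 ∨ e = -1) (hf : f = 1 ∨ f = -1) (u v : ℤ) :
    A8 (e * u) (f * v) = A8 u v := by
  rcases he with rfl | rfl <;> rcases hf with rfl | rfl <;> unfold A8 <;> ring

lemma B8_sg {e f : ℤ} (he : e = 1 ∨ e = -1) (hf : f = 1 ∨ f = -1) (u v : ℤ) :
    B8 (e * u) (f * v) = B8 u v := by
  rcases he with rfl | rfl <;> rcases hf with rfl | rfl <;> unfold B8 <;> ring

open Classical in
/-- extension by zero -/
noncomputable def gg (t : ℤ × ℤ) : ℝ :=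
  if IsCoprime t.1 t.2 ∧ A8 t.1 t.2 ≠ 0 ∧ B8 t.1 t.2 ≠ 0 then hr t.1 t.2 else 0

lemma gg_nn (t : ℤ × ℤ) : 0 ≤ gg t := by
  unfold gg
  split_ifs
  · exact hr_nn _ _
  · exact le_rfl

lemma gg_sg {e f : ℤ} (he : e = 1 ∨ e = -1) (hf : f = 1 ∨ f = -1) (u v : ℤ) :
    gg (e * u, f * v) = gg (u, v) := by
  have hc : IsCoprime (e * u) (f * v) ↔ IsCoprime u v := by
    rcases he with rfl | rfl <;> rcases hf with rfl | rfl <;>
      simp [IsCoprime.neg_left_iff, IsCoprime.neg_right_iff]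
  have hh : hr (e * u) (f * v) = hr u v := by
    unfold hr
    rw [A8_sg he hf, B8_sg he hf]
  unfold gg
  simp only [hc, A8_sg he hf, B8_sg he hf, hh]

/-- the sum over the quadrant -/
lemma quad (h : AVG8) : ∃ C : ℝ, 0 ≤ C ∧ ∀ X : ℕ, 1 ≤ X →
    ∑ t ∈ Icc 1 X ×ˢ Icc 1 X, gg (((t.1 : ℕ) : ℤ), ((t.2 : ℕ) : ℤ)) ≤ C * (X : ℝ) ^ 2 := by
  classical
  obtain ⟨C1, hC1⟩ := h 1 (Or.inl rfl)
  obtain ⟨C2, hC2⟩ := h (-1) (Or.inr rfl)
  refine ⟨4 * |C1| + 4 * |C2| + gg (1, 2), by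
    have := gg_nn (1, 2)
    positivity, fun X hX => ?_⟩
  have hX1 : (1 : ℝ) ≤ X := by exact_mod_cast hX
  set S : Finset (ℕ × ℕ) := (Icc 1 X ×ˢ Icc 1 X).filter (fun t : ℕ × ℕ =>
    gg (((t.1 : ℕ) : ℤ), ((t.2 : ℕ) : ℤ)) ≠ 0) with hS
  have hgood : ∀ t ∈ S, (1 ≤ t.1 ∧ t.1 ≤ X) ∧ (1 ≤ t.2 ∧ t.2 ≤ X) ∧
      IsCoprime ((t.1 : ℕ) : ℤ) ((t.2 : ℕ) : ℤ) ∧
      A8 ((t.1 : ℕ) : ℤ) ((t.2 : ℕ) : ℤ) ≠ 0 ∧ B8 ((t.1 : ℕ) : ℤ) ((t.2 : ℕ) : ℤ) ≠ 0 ∧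
      gg (((t.1 : ℕ) : ℤ), ((t.2 : ℕ) : ℤ)) = hr ((t.1 : ℕ) : ℤ) ((t.2 : ℕ) : ℤ) := by
    intro t ht
    rw [hS, mem_filter, mem_product, mem_Icc, mem_Icc] at ht
    obtain ⟨⟨h1, h2⟩, h3⟩ := ht
    by_cases hc : IsCoprime ((t.1 : ℕ) : ℤ) ((t.2 : ℕ) : ℤ) ∧
      A8 ((t.1 : ℕ) : ℤ) ((t.2 : ℕ) : ℤ) ≠ 0 ∧ B8 ((t.1 : ℕ) : ℤ) ((t.2 : ℕ) : ℤ) ≠ 0
    · refine ⟨h1, h2, hc.1, hc.2.1, hc.2.2, ?_⟩
      unfold gg
      rw [if_pos hc]
    · exfalso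
      apply h3
      unfold gg
      rw [if_neg hc]
  have e0 : ∑ t ∈ Icc 1 X ×ˢ Icc 1 X, gg (((t.1 : ℕ) : ℤ), ((t.2 : ℕ) : ℤ)) =
      ∑ t ∈ S, gg (((t.1 : ℕ) : ℤ), ((t.2 : ℕ) : ℤ)) := by
    rw [hS, sum_filter_ne_zero]
  rw [e0, ← sum_filter_add_sum_filter_not S (fun t : ℕ × ℕ => 2 * t.1 < t.2),
    ← sum_filter_add_sum_filter_not (S.filter (fun t : ℕ × ℕ => ¬ 2 * t.1 < t.2))
      (fun t : ℕ × ℕ => t.2 < 2 * t.1)]
  -- the common part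
  have hcop : ∀ (a b : ℕ), IsCoprime ((a : ℕ) : ℤ) ((b : ℕ) : ℤ) → ∀ w : ℕ, ∀ e : ℤ,
      (e = 1 ∨ e = -1) → (b : ℤ) = 2 * a + e * w → a.Coprime w := by
    intro a b hab w e he hbw
    rw [hbw] at hab
    have h1 : IsCoprime (a : ℤ) (e * w) := by
      have := hab.add_mul_left_right (-2)
      rwa [show 2 * (a : ℤ) + e * w + a * -2 = e * w by ring] at this
    have h2 : IsCoprime (a : ℤ) (w : ℤ) := by
      rcases he with rfl | rfl
      · rw [one_mul] at h1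
        exact h1
      · rw [neg_one_mul, IsCoprime.neg_right_iff] at h1
        exact h1
    exact Nat.isCoprime_iff_coprime.1 h2
  have p1 : ∑ t ∈ S.filter (fun t : ℕ × ℕ => 2 * t.1 < t.2),
      gg (((t.1 : ℕ) : ℤ), ((t.2 : ℕ) : ℤ)) ≤ 4 * |C1| * (X : ℝ) ^ 2 := by
    refine le_trans (sum_inj_le (g := fun t : ℕ × ℕ => (2 : ℝ) ^ Module.finrank ℤ
      (EAB (A8 t.1 (2 * t.1 + 1 * t.2)) (B8 t.1 (2 * t.1 + 1 * t.2))).toAffine.Point)
      (fun t : ℕ × ℕ => (t.1, t.2 - 2 * t.1)) (fun t ht => ?_) (fun t ht t' ht' heq => ?_)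
      (fun t ht => ?_) (fun _ => by positivity)) ((hC1 (2 * X) (by omega)).trans ?_)
    · rw [mem_filter] at ht
      obtain ⟨h1, h2, h3, h4, h5, _⟩ := hgood t ht.1
      have hlt := ht.2
      have hb : ((t.2 : ℕ) : ℤ) = 2 * t.1 + 1 * ((t.2 - 2 * t.1 : ℕ) : ℤ) := by
        push_cast [hlt.le]
        ring
      rw [mem_filter, mem_product, mem_Icc, mem_Icc]
      refine ⟨⟨⟨h1.1, by omega⟩, ⟨by omega, by omega⟩⟩, hcop _ _ h3 _ 1 (Or.inl rfl) hb,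
        fun j => ?_⟩
      unfold F8
      rw [← hb]
      exact f8_ne h4 h5 j
    · have ht1 : t ∈ S.filter (fun t : ℕ × ℕ => 2 * t.1 < t.2) := ht
      have ht1' : t' ∈ S.filter (fun t : ℕ × ℕ => 2 * t.1 < t.2) := ht'
      rw [mem_filter] at ht1 ht1'
      simp only [Prod.mk.injEq] at heq
      have := ht1.2
      have := ht1'.2
      exact Prod.ext heq.1 (by omega)
    · rw [mem_filter] at ht
      have hlt := ht.2
      have hb : ((t.2 : ℕ) : ℤ) = 2 * t.1 + 1 * ((t.2 - 2 * t.1 : ℕ) : ℤ) := by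
        push_cast [hlt.le]
        ring
      rw [(hgood t ht.1).2.2.2.2.2]
      unfold hr
      simp only
      rw [← hb]
    · push_cast
      have := le_abs_self C1
      nlinarith [sq_nonneg (X : ℝ)]
  have p2 : ∑ t ∈ (S.filter (fun t : ℕ × ℕ => ¬ 2 * t.1 < t.2)).filter
      (fun t : ℕ × ℕ => t.2 < 2 * t.1),
      gg (((t.1 : ℕ) : ℤ), ((t.2 : ℕ) : ℤ)) ≤ 4 * |C2| * (X : ℝ) ^ 2 := by
    refine le_trans (sum_inj_le (g := fun t : ℕ × ℕ => (2 : ℝ) ^ Module.finrank ℤ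
      (EAB (A8 t.1 (2 * t.1 + -1 * t.2)) (B8 t.1 (2 * t.1 + -1 * t.2))).toAffine.Point)
      (fun t : ℕ × ℕ => (t.1, 2 * t.1 - t.2)) (fun t ht => ?_) (fun t ht t' ht' heq => ?_)
      (fun t ht => ?_) (fun _ => by positivity)) ((hC2 (2 * X) (by omega)).trans ?_)
    · rw [mem_filter, mem_filter] at ht
      obtain ⟨h1, h2, h3, h4, h5, _⟩ := hgood t ht.1.1
      have hlt := ht.2
      have hb : ((t.2 : ℕ) : ℤ) = 2 * t.1 + -1 * ((2 * t.1 - t.2 : ℕ) : ℤ) := by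
        push_cast [hlt.le]
        ring
      rw [mem_filter, mem_product, mem_Icc, mem_Icc]
      refine ⟨⟨⟨h1.1, by omega⟩, ⟨by omega, by omega⟩⟩, hcop _ _ h3 _ (-1) (Or.inr rfl) hb,
        fun j => ?_⟩
      unfold F8
      rw [← hb]
      exact f8_ne h4 h5 j
    · have ht1 : t ∈ (S.filter (fun t : ℕ × ℕ => ¬ 2 * t.1 < t.2)).filter
        (fun t : ℕ × ℕ => t.2 < 2 * t.1) := ht
      have ht1' : t' ∈ (S.filter (fun t : ℕ × ℕ => ¬ 2 * t.1 < t.2)).filter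
        (fun t : ℕ × ℕ => t.2 < 2 * t.1) := ht'
      rw [mem_filter] at ht1 ht1'
      simp only [Prod.mk.injEq] at heq
      have := ht1.2
      have := ht1'.2
      exact Prod.ext heq.1 (by omega)
    · rw [mem_filter, mem_filter] at ht
      have hlt := ht.2
      have hb : ((t.2 : ℕ) : ℤ) = 2 * t.1 + -1 * ((2 * t.1 - t.2 : ℕ) : ℤ) := by
        push_cast [hlt.le]
        ring
      rw [(hgood t ht.1.1).2.2.2.2.2]
      unfold hr
      simp only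
      rw [← hb]
    · push_cast
      have := le_abs_self C2
      nlinarith [sq_nonneg (X : ℝ)]
  have p3 : ∑ t ∈ (S.filter (fun t : ℕ × ℕ => ¬ 2 * t.1 < t.2)).filter
      (fun t : ℕ × ℕ => ¬ t.2 < 2 * t.1),
      gg (((t.1 : ℕ) : ℤ), ((t.2 : ℕ) : ℤ)) ≤ gg (1, 2) * (X : ℝ) ^ 2 := by
    have hsub : (S.filter (fun t : ℕ × ℕ => ¬ 2 * t.1 < t.2)).filter
        (fun t : ℕ × ℕ => ¬ t.2 < 2 * t.1) ⊆ {(1, 2)} := by
      intro t ht
      rw [mem_filter, mem_filter] at ht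
      obtain ⟨h1, h2, h3, h4, h5, _⟩ := hgood t ht.1.1
      have e1 : t.2 = 2 * t.1 := by
        have := ht.1.2
        have := ht.2
        omega
      have e2 : t.1.Coprime (2 * t.1) := by
        have := Nat.isCoprime_iff_coprime.1 h3
        rwa [e1] at this
      have e3 : t.1 = 1 := by
        have := Nat.Coprime.coprime_dvd_right (Dvd.intro_left 2 rfl) e2
        rwa [Nat.coprime_self] at this
      rw [mem_singleton]
      exact Prod.ext e3 (by rw [e1, e3])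
    have hle : ∑ t ∈ (S.filter (fun t : ℕ × ℕ => ¬ 2 * t.1 < t.2)).filter
        (fun t : ℕ × ℕ => ¬ t.2 < 2 * t.1), gg (((t.1 : ℕ) : ℤ), ((t.2 : ℕ) : ℤ)) ≤
        ∑ t ∈ ({(1, 2)} : Finset (ℕ × ℕ)), gg (((t.1 : ℕ) : ℤ), ((t.2 : ℕ) : ℤ)) :=
      sum_le_sum_of_subset_of_nonneg hsub fun t _ _ => gg_nn _
    rw [sum_singleton] at hle
    have h12 : gg (((1 : ℕ) : ℤ), ((2 : ℕ) : ℤ)) = gg (1, 2) := by norm_num
    simp only at hle
    rw [h12] at hle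
    refine hle.trans ?_
    have := gg_nn (1, 2)
    have hXX : (1 : ℝ) ≤ (X : ℝ) ^ 2 := one_le_pow₀ hX1
    nlinarith
  calc _ ≤ 4 * |C1| * (X : ℝ) ^ 2 + (4 * |C2| * (X : ℝ) ^ 2 + gg (1, 2) * (X : ℝ) ^ 2) :=
        add_le_add p1 (add_le_add p2 p3)
    _ = _ := by ring

end BOX8p

open BOX8p

theorem t_BOX8 (h : AVG8) : BOX8 := by
  classical
  obtain ⟨C, hC, hq⟩ := quad h
  refine ⟨4 * C, by positivity, fun X hX => ?_⟩
  have e0 : ∑ t ∈ ((Icc (-(X : ℤ)) X) ×ˢ (Icc (-(X : ℤ)) X)).filter (fun t : ℤ × ℤ =>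
      IsCoprime t.1 t.2 ∧ A8 t.1 t.2 ≠ 0 ∧ B8 t.1 t.2 ≠ 0),
      (2 : ℝ) ^ Module.finrank ℤ (EAB (A8 t.1 t.2) (B8 t.1 t.2)).toAffine.Point =
      ∑ t ∈ Box X, gg t := by
    rw [sum_filter]
    rfl
  have hz : ∀ t : ℤ × ℤ, (t.1 = 0 ∨ t.2 = 0) → gg t = 0 := by
    intro t ht
    unfold gg
    rw [if_neg]
    rintro ⟨_, h2, _⟩
    apply h2
    rcases ht with ht | ht <;> simp [A8, ht]
  have h1 := box_le gg gg_nn (fun t ht => by
    by_contra hc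
    apply ht
    unfold gg
    rw [if_neg]
    rintro ⟨h2, _⟩
    exact hc h2) X
  rw [hz (0, 1) (Or.inl rfl), hz (0, -1) (Or.inl rfl), hz (1, 0) (Or.inr rfl),
    hz (-1, 0) (Or.inr rfl)] at h1
  have h2 : ∀ e ∈ sgs, ∑ t ∈ Icc 1 X ×ˢ Icc 1 X, gg (e.1 * ((t.1 : ℕ) : ℤ),
      e.2 * ((t.2 : ℕ) : ℤ)) = ∑ t ∈ Icc 1 X ×ˢ Icc 1 X,
        gg (((t.1 : ℕ) : ℤ), ((t.2 : ℕ) : ℤ)) := by
    intro e he
    rw [mem_sgs] at he
    exact sum_congr rfl fun t _ => gg_sg he.1 he.2 _ _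
  rw [sum_congr rfl h2, sum_const] at h1
  have hcard : sgs.card = 4 := by decide
  rw [hcard, nsmul_eq_mul] at h1
  have h3 := hq X hX
  push_cast at h1
  calc _ = ∑ t ∈ Box X, gg t := by convert e0
    _ ≤ _ := h1
    _ ≤ 4 * C * (X : ℝ) ^ 2 := by linarith

end Pool.Agent.K6.H34.T8
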