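import Pool.Agent.K6.H34.T8.Stm
import Pool.Agent.W29.RT.CNT2
import Pool.Agent.W216.RT.AVH

/-!
# Project T8, part CNT8: coprime pairs with given small prime factors of the values (helper29)

Adapted from `Pool.Agent.W29.RT.CNT2`; new: several residue classes for the quadratic forms.
-/

set_option autoImplicit false
set_option linter.unusedSectionVars false

namespace Pool.Agent.K6.H34.T8.CNT8

open Finset Pool.Agent.W262.RK Pool.Agent.W307.RT
open Pool.Agent.W372.RK2 (mem_Tup' mj mj_primes prod_gw)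
open Pool.Agent.W29.RT (dvd_S1 dvd_S2 G2 c0 mj_eq)

/-! ### residue classes -/

/-- number of residue classes modulo `m` of the elements of `T` -/
def cl (T : Finset ℕ) (m : ℕ) : ℕ := (T.image (fun t : ℕ => (t : ZMod m))).card

lemma cl_mul (T : Finset ℕ) {m n : ℕ} (h : m.Coprime n) : cl T (m * n) ≤ cl T m * cl T n := by
  unfold cl
  rw [← card_product]
  apply card_le_card_of_injOn (ZMod.chineseRemainder h)
  · intro x hx
    obtain ⟨t, ht, rfl⟩ := mem_image.1 (mem_coe.1 hx)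
    rw [mem_coe, mem_product, map_natCast, Prod.fst_natCast, Prod.snd_natCast]
    exact ⟨mem_image_of_mem _ ht, mem_image_of_mem _ ht⟩
  · exact (ZMod.chineseRemainder h).injective.injOn

lemma cl_prod {ι : Type} (T : Finset ℕ) (I : Finset ι) (m : ι → ℕ)
    (h : ∀ i ∈ I, ∀ j ∈ I, i ≠ j → (m i).Coprime (m j)) :
    cl T (∏ i ∈ I, m i) ≤ ∏ i ∈ I, cl T (m i) := by
  classical
  induction I using Finset.induction_on with
  | empty =>
    rw [prod_empty, prod_empty]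
    exact card_le_one_of_subsingleton _
  | insert a s ha ih =>
    rw [prod_insert ha, prod_insert ha]
    refine (cl_mul T (Nat.Coprime.prod_right fun i hi => h a (mem_insert_self _ _) i
      (mem_insert_of_mem hi) (by rintro rfl; exact ha hi))).trans ?_
    exact Nat.mul_le_mul_left _ (ih fun i hi j hj hij =>
      h i (mem_insert_of_mem hi) j (mem_insert_of_mem hj) hij)

lemma cl_sqfree (T : Finset ℕ) {d : ℕ} (hd : Squarefree d) (k : ℕ) :
    cl T (d ^ k) ≤ ∏ p ∈ d.primeFactors, cl T (p ^ k) := by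
  conv_lhs => rw [← Nat.prod_primeFactors_of_squarefree hd, ← prod_pow]
  apply cl_prod
  intro p hp q hq hpq
  exact Nat.Coprime.pow _ _ ((Nat.coprime_primes (Nat.prime_of_mem_primeFactors hp)
    (Nat.prime_of_mem_primeFactors hq)).2 hpq)

/-! ### the forms -/

/-- coefficients of `u` -/
def ll : Fin 7 → ℤ := ![1, 2, -1, 3, 5, 7, 1]

/-- coefficients of `e w` -/
def mm : Fin 7 → ℤ := ![0, 1, -1, 1, 2, 3, -1]

/-- leading coefficients -/
def cc : Fin 7 → ℤ := ![1, 2, -1, 3, 5, -7, 1]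

/-- the linear form whose square is `a w ^ 2` at the roots -/
def LF (e u w : ℤ) (j : Fin 7) : ℤ := ll j * u + mm j * (e * w)

lemma sq_rel {e : ℤ} (he : e * e = 1) (u w : ℤ) (j : Fin 7) :
    ∃ k : ℤ, LF e u w j ^ 2 - a8 j * w ^ 2 = F8 e u w j * k := by
  fin_cases j
  · refine ⟨u, ?_⟩
    change (1 * u + 0 * (e * w)) ^ 2 - 0 * w ^ 2 = u * u
    ring
  · refine ⟨2 * u + e * w, ?_⟩
    change (2 * u + 1 * (e * w)) ^ 2 - 0 * w ^ 2 = (2 * u + e * w) * (2 * u + e * w)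
    ring
  · refine ⟨u - (2 * u + e * w), ?_⟩
    change (-1 * u + -1 * (e * w)) ^ 2 - 0 * w ^ 2 =
      (u - (2 * u + e * w)) * (u - (2 * u + e * w))
    ring
  · refine ⟨u + (2 * u + e * w), ?_⟩
    change (3 * u + 1 * (e * w)) ^ 2 - 0 * w ^ 2 =
      (u + (2 * u + e * w)) * (u + (2 * u + e * w))
    ring
  · refine ⟨5, ?_⟩
    change (5 * u + 2 * (e * w)) ^ 2 - (-1) * w ^ 2 = (u ^ 2 + (2 * u + e * w) ^ 2) * 5
    linear_combination (-(w ^ 2)) * he
  · refine ⟨-7, ?_⟩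
    change (7 * u + 3 * (e * w)) ^ 2 - 2 * w ^ 2 =
      (u ^ 2 - 2 * u * (2 * u + e * w) - (2 * u + e * w) ^ 2) * (-7)
    linear_combination (2 * w ^ 2) * he
  · refine ⟨1, ?_⟩
    change (1 * u + -1 * (e * w)) ^ 2 - 2 * w ^ 2 =
      (u ^ 2 + 2 * u * (2 * u + e * w) - (2 * u + e * w) ^ 2) * 1
    linear_combination (2 * w ^ 2) * he

lemma sq_dvd {e : ℤ} (he : e * e = 1) {u w q : ℤ} {j : Fin 7} (h : q ∣ F8 e u w j) :
    q ∣ LF e u w j ^ 2 - a8 j * w ^ 2 := by
  obtain ⟨k, hk⟩ := sq_rel he u w j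
  rw [hk]
  exact h.mul_right k

lemma lin_rel (e u w : ℤ) {j : Fin 7} (hj : a8 j = 0) : F8 e u w j = LF e u w j := by
  fin_cases j
  · change u = 1 * u + 0 * (e * w)
    ring
  · change 2 * u + e * w = 2 * u + 1 * (e * w)
    ring
  · change u - (2 * u + e * w) = -1 * u + -1 * (e * w)
    ring
  · change u + (2 * u + e * w) = 3 * u + 1 * (e * w)
    ring
  all_goals exact absurd hj (by decide)

lemma lead_rel (e u w : ℤ) (j : Fin 7) : ∃ (k : ℤ) (n : ℕ), F8 e u w j = cc j * u ^ n + w * k := by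
  fin_cases j
  · refine ⟨0, 1, ?_⟩
    change u = 1 * u ^ 1 + w * 0
    ring
  · refine ⟨e, 1, ?_⟩
    change 2 * u + e * w = 2 * u ^ 1 + w * e
    ring
  · refine ⟨-e, 1, ?_⟩
    change u - (2 * u + e * w) = -1 * u ^ 1 + w * (-e)
    ring
  · refine ⟨e, 1, ?_⟩
    change u + (2 * u + e * w) = 3 * u ^ 1 + w * e
    ring
  · refine ⟨4 * e * u + e ^ 2 * w, 2, ?_⟩
    change u ^ 2 + (2 * u + e * w) ^ 2 = 5 * u ^ 2 + w * (4 * e * u + e ^ 2 * w)
    ring
  · refine ⟨-(6 * e * u + e ^ 2 * w), 2, ?_⟩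
    change u ^ 2 - 2 * u * (2 * u + e * w) - (2 * u + e * w) ^ 2 =
      -7 * u ^ 2 + w * (-(6 * e * u + e ^ 2 * w))
    ring
  · refine ⟨-(2 * e * u + e ^ 2 * w), 2, ?_⟩
    change u ^ 2 + 2 * u * (2 * u + e * w) - (2 * u + e * w) ^ 2 =
      1 * u ^ 2 + w * (-(2 * e * u + e ^ 2 * w))
    ring

lemma not_dvd_small {p : ℕ} (hp : 7 < p) {c : ℤ} (h0 : c ≠ 0) (hc : c.natAbs ≤ 7) :
    ¬ (p : ℤ) ∣ c := by
  intro h
  have h1 := Nat.le_of_dvd (Int.natAbs_pos.2 h0) (Int.natCast_dvd.1 h)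
  omega

lemma ll_small : ∀ j : Fin 7, ll j ≠ 0 ∧ (ll j).natAbs ≤ 7 := by decide

lemma cc_small : ∀ j : Fin 7, cc j ≠ 0 ∧ (cc j).natAbs ≤ 7 := by decide

lemma a8_small : ∀ j : Fin 7, (a8 j).natAbs ≤ 7 := by decide

lemma not_dvd_w {p : ℕ} (hp : p.Prime) (h7 : 7 < p) {e : ℤ} {t w : ℕ} (htw : t.Coprime w)
    {j : Fin 7} (h : (p : ℤ) ∣ F8 e t w j) : ¬ (p : ℤ) ∣ (w : ℤ) := by
  intro hw
  have hpI : Prime (p : ℤ) := Nat.prime_iff_prime_int.1 hp
  obtain ⟨k, n, hk⟩ := lead_rel e t w j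
  rw [hk] at h
  have h2 : (p : ℤ) ∣ cc j * (t : ℤ) ^ n := (dvd_add_left (hw.mul_right k)).1 h
  rcases hpI.dvd_or_dvd h2 with h3 | h3
  · exact not_dvd_small h7 (cc_small j).1 (cc_small j).2 h3
  · have h4 : p ∣ t := Int.natCast_dvd_natCast.1 (hpI.dvd_of_dvd_pow h3)
    have h5 : p ∣ w := Int.natCast_dvd_natCast.1 hw
    have := Nat.dvd_gcd h4 h5
    rw [htw] at this
    exact hp.one_lt.ne' (Nat.dvd_one.1 this)

lemma unit_ll {p : ℕ} (k : ℕ) (hp : p.Prime) (h7 : 7 < p) (j : Fin 7) :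
    IsUnit ((ll j : ℤ) : ZMod (p ^ k)) := by
  rw [ZMod.coe_int_isUnit_iff_isCoprime]
  push_cast
  exact IsCoprime.pow_left ((Nat.prime_iff_prime_int.1 hp).coprime_iff_not_dvd.2
    (not_dvd_small h7 (ll_small j).1 (ll_small j).2))

lemma cast_eq_zero {q : ℕ} {a : ℤ} (h : (q : ℤ) ∣ a) : (a : ZMod q) = 0 :=
  (CharP.intCast_eq_zero_iff (ZMod q) q a).2 h

lemma LF_cast (q : ℕ) (e : ℤ) (t w : ℕ) (j : Fin 7) : ((LF e t w j : ℤ) : ZMod q) =
    ((ll j : ℤ) : ZMod q) * (t : ZMod q) + ((mm j * (e * w) : ℤ) : ZMod q) := by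
  unfold LF
  push_cast
  ring

lemma cl_lin {p k : ℕ} (hp : p.Prime) (h7 : 7 < p) {e : ℤ} {w : ℕ} {j : Fin 7} (hj : a8 j = 0)
    {T : Finset ℕ} (hT : ∀ t ∈ T, ((p : ℤ) ^ k) ∣ F8 e t w j) : cl T (p ^ k) ≤ 1 := by
  unfold cl
  rw [card_le_one]
  intro a ha b hb
  obtain ⟨t, ht, rfl⟩ := mem_image.1 ha
  obtain ⟨t', ht', rfl⟩ := mem_image.1 hb
  have h0 : ∀ t ∈ T, ((LF e t w j : ℤ) : ZMod (p ^ k)) = 0 := by
    intro t ht
    have h1 := hT t ht
    rw [lin_rel _ _ _ hj] at h1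
    apply cast_eq_zero
    push_cast
    exact h1
  have h1 := h0 t ht
  have h2 := h0 t' ht'
  rw [LF_cast] at h1 h2
  apply (unit_ll k hp h7 j).mul_left_cancel
  linear_combination h1 - h2

lemma cl_two {p k : ℕ} (hk : k ≠ 0) (hp : p.Prime) (h7 : 7 < p) {e : ℤ} (he : e * e = 1) {w : ℕ}
    (hw : ¬ (p : ℤ) ∣ (w : ℤ)) (j : Fin 7) {T : Finset ℕ}
    (hT : ∀ t ∈ T, ((p : ℤ) ^ k) ∣ F8 e t w j) : cl T (p ^ k) ≤ 2 := by
  by_cases hj : a8 j = 0
  · exact (cl_lin hp h7 hj hT).trans one_le_two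
  rcases T.eq_empty_or_nonempty with rfl | ⟨t0, ht0⟩
  · simp [cl]
  have hpI : Prime (p : ℤ) := Nat.prime_iff_prime_int.1 hp
  obtain ⟨α, hα⟩ := unit_ll k hp h7 j
  have hsub : T.image (fun t : ℕ => (t : ZMod (p ^ k))) ⊆
      {((t0 : ℕ) : ZMod (p ^ k)), ((α⁻¹ : (ZMod (p ^ k))ˣ) : ZMod (p ^ k)) *
        (-((LF e t0 w j : ℤ) : ZMod (p ^ k)) - ((mm j * (e * w) : ℤ) : ZMod (p ^ k)))} := by
    intro x hx
    obtain ⟨t, ht, rfl⟩ := mem_image.1 hx
    rw [mem_insert, mem_singleton]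
    have h1 := sq_dvd he (hT t ht)
    have h2 := sq_dvd he (hT t0 ht0)
    have h3 : ((p : ℤ) ^ k) ∣ (LF e t w j - LF e t0 w j) * (LF e t w j + LF e t0 w j) := by
      have h4 := dvd_sub h1 h2
      have h5 : (LF e t w j - LF e t0 w j) * (LF e t w j + LF e t0 w j) =
          LF e t w j ^ 2 - a8 j * (w : ℤ) ^ 2 - (LF e t0 w j ^ 2 - a8 j * (w : ℤ) ^ 2) := by ring
      rw [h5]
      exact h4
    by_cases h4 : (p : ℤ) ∣ LF e t w j - LF e t0 w j
    · left
      have h5 : ¬ (p : ℤ) ∣ LF e t w j + LF e t0 w j := by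
        intro h5
        have h6 : (p : ℤ) ∣ 2 * LF e t w j := by
          have h6 := dvd_add h4 h5
          have h7' : LF e t w j - LF e t0 w j + (LF e t w j + LF e t0 w j) = 2 * LF e t w j := by
            ring
          rwa [h7'] at h6
        have h8 : (p : ℤ) ∣ LF e t w j :=
          (hpI.dvd_or_dvd h6).resolve_left (not_dvd_small h7 (by norm_num) (by norm_num))
        have h9 : (p : ℤ) ∣ LF e t w j ^ 2 - a8 j * (w : ℤ) ^ 2 := (dvd_pow_self _ hk).trans h1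
        have h10 : (p : ℤ) ∣ a8 j * (w : ℤ) ^ 2 :=
          (dvd_sub_right (h8.trans (dvd_pow_self _ two_ne_zero))).1 h9
        rcases hpI.dvd_or_dvd h10 with h11 | h11
        · exact not_dvd_small h7 hj (a8_small j) h11
        · exact hw (hpI.dvd_of_dvd_pow h11)
      have h6 : IsCoprime ((p : ℤ) ^ k) (LF e t w j + LF e t0 w j) :=
        (hpI.coprime_iff_not_dvd.2 h5).pow_left
      have h8 : ((p ^ k : ℕ) : ℤ) ∣ LF e t w j - LF e t0 w j := by
        push_cast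
        exact h6.dvd_of_dvd_mul_right h3
      have h9 := cast_eq_zero h8
      rw [Int.cast_sub, LF_cast, LF_cast] at h9
      apply (unit_ll k hp h7 j).mul_left_cancel
      linear_combination h9
    · right
      have h6 : IsCoprime ((p : ℤ) ^ k) (LF e t w j - LF e t0 w j) :=
        (hpI.coprime_iff_not_dvd.2 h4).pow_left
      have h8 : ((p ^ k : ℕ) : ℤ) ∣ LF e t w j + LF e t0 w j := by
        push_cast
        exact h6.dvd_of_dvd_mul_left h3
      have h9 := cast_eq_zero h8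
      rw [Int.cast_add, LF_cast] at h9
      rw [Units.eq_inv_mul_iff_mul_eq, hα]
      linear_combination h9
  exact (card_le_card hsub).trans card_le_two

lemma cl_rt {p : ℕ} (hp : p.Prime) (h7 : 7 < p) {e : ℤ} (he : e * e = 1) {w : ℕ}
    (hw : ¬ (p : ℤ) ∣ (w : ℤ)) (j : Fin 7) {T : Finset ℕ}
    (hT : ∀ t ∈ T, (p : ℤ) ∣ F8 e t w j) : (cl T p : ℝ) ≤ 1 + Jr (a8 j) p := by
  have : Fact p.Prime := ⟨hp⟩
  by_cases hj : a8 j = 0
  · have h1 : cl T (p ^ 1) ≤ 1 := cl_lin hp h7 hj (fun t ht => by rw [pow_one]; exact hT t ht)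
    rw [pow_one] at h1
    have h2 : Jr 0 p = 0 := by
      unfold Jr
      rw [jacobiSym.zero_left hp.one_lt, Int.cast_zero]
    rw [hj, h2, add_zero]
    exact_mod_cast h1
  · have hw0 : (w : ZMod p) ≠ 0 := by
      intro h
      apply hw
      have h1 : (((w : ℕ) : ℤ) : ZMod p) = 0 := by
        rw [Int.cast_natCast]
        exact h
      exact (CharP.intCast_eq_zero_iff (ZMod p) p _).1 h1
    have hl0 : ((ll j : ℤ) : ZMod p) ≠ 0 := by
      intro h
      exact not_dvd_small h7 (ll_small j).1 (ll_small j).2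
        ((CharP.intCast_eq_zero_iff (ZMod p) p _).1 h)
    have h1 : cl T p ≤ (Set.toFinset {x : ZMod p | x ^ 2 = ((a8 j : ℤ) : ZMod p)}).card := by
      unfold cl
      apply card_le_card_of_injOn (fun x => (((ll j : ℤ) : ZMod p) * x +
        ((mm j * (e * w) : ℤ) : ZMod p)) * ((w : ZMod p))⁻¹)
      · intro x hx
        obtain ⟨t, ht, rfl⟩ := mem_image.1 (mem_coe.1 hx)
        rw [mem_coe, Set.mem_toFinset]
        change ((((ll j : ℤ) : ZMod p) * (t : ZMod p) +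
          ((mm j * (e * w) : ℤ) : ZMod p)) * ((w : ZMod p))⁻¹) ^ 2 = _
        rw [← LF_cast]
        have h2 := cast_eq_zero (sq_dvd he (hT t ht))
        push_cast at h2
        rw [mul_pow, sub_eq_zero.1 h2]
        field_simp
      · intro x _ y _ hxy
        simp only at hxy
        have h2 := mul_right_cancel₀ (inv_ne_zero hw0) hxy
        exact mul_left_cancel₀ hl0 (add_right_cancel h2)
    have h2 := legendreSym.card_sqrts p (by omega) (a8 j)
    have h3 : ((cl T p : ℕ) : ℤ) ≤ legendreSym p (a8 j) + 1 := by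
      rw [← h2]
      exact_mod_cast h1
    rw [jacobiSym.legendreSym.to_jacobiSym] at h3
    unfold Jr
    have h4 : (((cl T p : ℕ) : ℤ) : ℝ) ≤ ((jacobiSym (a8 j) p + 1 : ℤ) : ℝ) := by
      exact_mod_cast h3
    push_cast at h4
    linarith

/-! ### the number of the residue classes of the counted values -/

variable {z y Y : ℕ} {s v h : Fin 7 → ℕ} {f : Fin 7 → ℤ}

lemma cop_j (g : G2 z y s v h f) (hh : h ∈ Tup (Fin 7) y Y) (hzy : z < y) (j l : Fin 7)
    (hjl : j ≠ l) : (mj c0 s v h j).Coprime (mj c0 s v h l) := by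
  apply Nat.coprime_of_dvd
  intro p hp hpj hpl
  have h1 := g.fmj hh hzy hp hpj
  have h2 := g.fmj hh hzy hp hpl
  exact hjl (g.un p hp h1.1 j l h1.2 h2.2)

lemma cop1 (g : G2 z y s v h f) (j : Fin 7) : (s j).Coprime (v j ^ 2) := by
  apply Nat.coprime_of_dvd
  intro p hp hps hpv
  exact (g.fs hp hps).2.2 (g.fv hp (hp.dvd_of_dvd_pow hpv)).2

lemma cop2 (g : G2 z y s v h f) (hs : s ∈ Tup (Fin 7) z y) (hv : v ∈ Tup (Fin 7) z y)
    (hh : h ∈ Tup (Fin 7) y Y) (j : Fin 7) : (s j * v j ^ 2).Coprime (h j) := by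
  apply Nat.coprime_of_dvd
  intro p hp hps hpu
  have h8 : y < p := (g.fu hh hp hpu).1
  have h9 : p ≤ y := by
    rcases hp.dvd_mul.1 hps with h | h
    · exact (dv_prime ((mem_Tup'.1 hs).1 j) hp h).2
    · exact (dv_prime ((mem_Tup'.1 hv).1 j) hp (hp.dvd_of_dvd_pow h)).2
  omega

lemma rt_nonneg (a : ℤ) (d : ℕ) : 0 ≤ rt a d := by
  unfold rt
  apply prod_nonneg
  intro p _
  have := (abs_le.1 (abs_Jr_le a p)).1
  linarith

lemma cl_bound (h7 : 7 ≤ z) {e : ℤ} (he : e * e = 1) {w : ℕ} {T : Finset ℕ}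
    (hs : s ∈ Tup (Fin 7) z y) (hv : v ∈ Tup (Fin 7) z y) (hh : h ∈ Tup (Fin 7) y Y) (hzy : z < y)
    (hT : ∀ t ∈ T, t.Coprime w ∧ G2 z y s v h (F8 e t w)) :
    (cl T (∏ j, mj c0 s v h j) : ℝ) ≤ (∏ j, rt (a8 j) (s j)) *
      (∏ j, 2 ^ (v j).primeFactors.card) * (∏ j, 2 ^ (h j).primeFactors.card) := by
  rcases T.eq_empty_or_nonempty with rfl | ⟨t0, ht0⟩
  · have h1 : cl ∅ (∏ j, mj c0 s v h j) = 0 := by simp [cl]
    rw [h1, Nat.cast_zero]
    have h2 : 0 ≤ ∏ j, rt (a8 j) (s j) := prod_nonneg fun j _ => rt_nonneg _ _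
    positivity
  have g0 := (hT t0 ht0).2
  have hs' := (mem_Tup'.1 hs).1
  have hv' := (mem_Tup'.1 hv).1
  have hh' := (mem_Tup'.1 hh).1
  have hwp : ∀ p : ℕ, p.Prime → z < p → ∀ j, (p : ℤ) ∣ F8 e t0 w j → ¬ (p : ℤ) ∣ (w : ℤ) :=
    fun p hp hzp j hj => not_dvd_w hp (lt_of_le_of_lt h7 hzp) (hT t0 ht0).1 hj
  have hj : ∀ j, (cl T (mj c0 s v h j) : ℝ) ≤ rt (a8 j) (s j) *
      2 ^ (v j).primeFactors.card * 2 ^ (h j).primeFactors.card := by
    intro j
    rw [mj_eq]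
    have h1 : cl T (s j * v j ^ 2 * h j) ≤ cl T (s j) * cl T (v j ^ 2) * cl T (h j) :=
      (cl_mul T (cop2 g0 hs hv hh j)).trans (Nat.mul_le_mul_right _ (cl_mul T (cop1 g0 j)))
    have e1 : (cl T (s j) : ℝ) ≤ rt (a8 j) (s j) := by
      have h2 := cl_sqfree T (dv_squarefree (hs' j)) 1
      rw [pow_one] at h2
      have h3 : (cl T (s j) : ℝ) ≤ ∏ p ∈ (s j).primeFactors, (cl T (p ^ 1) : ℝ) := by
        exact_mod_cast h2
      refine h3.trans ?_
      unfold rt
      apply prod_le_prod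
      · intro p _
        exact Nat.cast_nonneg _
      · intro p hp
        have hpp := Nat.prime_of_mem_primeFactors hp
        have hpd := Nat.dvd_of_mem_primeFactors hp
        have hzp : z < p := (mem_PS.1 (g0.fs hpp hpd).1).1.1
        rw [pow_one]
        exact cl_rt hpp (lt_of_le_of_lt h7 hzp) he (hwp p hpp hzp j (g0.fs hpp hpd).2.1) j
          (fun t ht => ((hT t ht).2.fs hpp hpd).2.1)
    have e2 : (cl T (v j ^ 2) : ℝ) ≤ 2 ^ (v j).primeFactors.card := by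
      have h2 := cl_sqfree T (dv_squarefree (hv' j)) 2
      have h3 : ∏ p ∈ (v j).primeFactors, cl T (p ^ 2) ≤ ∏ _p ∈ (v j).primeFactors, 2 := by
        apply prod_le_prod'
        intro p hp
        have hpp := Nat.prime_of_mem_primeFactors hp
        have hpd := Nat.dvd_of_mem_primeFactors hp
        have hzp : z < p := (mem_PS.1 (g0.fv hpp hpd).1).1.1
        exact cl_two two_ne_zero hpp (lt_of_le_of_lt h7 hzp) he
          (hwp p hpp hzp j ((dvd_pow_self (p : ℤ) two_ne_zero).trans (g0.fv hpp hpd).2)) j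
          (fun t ht => ((hT t ht).2.fv hpp hpd).2)
      rw [prod_const] at h3
      exact_mod_cast h2.trans h3
    have e3 : (cl T (h j) : ℝ) ≤ 2 ^ (h j).primeFactors.card := by
      have h2 := cl_sqfree T (dv_squarefree (hh' j)) 1
      rw [pow_one] at h2
      have h3 : ∏ p ∈ (h j).primeFactors, cl T (p ^ 1) ≤ ∏ _p ∈ (h j).primeFactors, 2 := by
        apply prod_le_prod'
        intro p hp
        have hpp := Nat.prime_of_mem_primeFactors hp
        have hpd := Nat.dvd_of_mem_primeFactors hp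
        have hzp : z < p := hzy.trans (g0.fu hh hpp hpd).1
        exact cl_two one_ne_zero hpp (lt_of_le_of_lt h7 hzp) he
          (hwp p hpp hzp j (g0.fu hh hpp hpd).2) j
          (fun t ht => by rw [pow_one]; exact ((hT t ht).2.fu hh hpp hpd).2)
      rw [prod_const] at h3
      exact_mod_cast h2.trans h3
    calc (cl T (s j * v j ^ 2 * h j) : ℝ) ≤ cl T (s j) * cl T (v j ^ 2) * cl T (h j) := by
          exact_mod_cast h1
      _ ≤ rt (a8 j) (s j) * 2 ^ (v j).primeFactors.card * 2 ^ (h j).primeFactors.card := by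
          apply mul_le_mul _ e3 (Nat.cast_nonneg _)
          · exact mul_nonneg (rt_nonneg _ _) (by positivity)
          · exact mul_le_mul e1 e2 (Nat.cast_nonneg _) (rt_nonneg _ _)
  calc (cl T (∏ j, mj c0 s v h j) : ℝ) ≤ ∏ j, (cl T (mj c0 s v h j) : ℝ) := by
        exact_mod_cast cl_prod T univ (fun j => mj c0 s v h j)
          (fun j _ l _ hjl => cop_j g0 hh hzy j l hjl)
    _ ≤ ∏ j, (rt (a8 j) (s j) * 2 ^ (v j).primeFactors.card * 2 ^ (h j).primeFactors.card) :=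
        prod_le_prod (fun j _ => Nat.cast_nonneg _) (fun j _ => hj j)
    _ = _ := by rw [prod_mul_distrib, prod_mul_distrib]

/-- the product over the primes of the modulus -/
lemma prod_pr8 (hs : s ∈ Tup (Fin 7) z y) (hv : v ∈ Tup (Fin 7) z y)
    (hh : h ∈ Tup (Fin 7) y Y) (g : G2 z y s v h f) :
    ∏ p ∈ (∏ j, mj c0 s v h j).primeFactors.filter (fun p => p ∈ PS z y),
      (p : ℝ) / ((p : ℝ) - 10) =
    ∏ j, ((s j * gw 1 10 (s j)) * (v j * gw 1 10 (v j))) := by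
  have hs' := (mem_Tup'.1 hs).1
  have hv' := (mem_Tup'.1 hv).1
  have h10 : (10 : ℝ) = ((10 : ℕ) : ℝ) := by norm_num
  have key : ∀ j p, p ∈ (s j).primeFactors ∪ (v j).primeFactors →
      p.Prime ∧ z < p ∧ (p : ℤ) ∣ f j := by
    intro j p hp
    rcases mem_union.1 hp with hp | hp
    · have h1 := Nat.prime_of_mem_primeFactors hp
      have h2 := g.fs h1 (Nat.dvd_of_mem_primeFactors hp)
      exact ⟨h1, (mem_PS.1 h2.1).1.1, h2.2.1⟩
    · have h1 := Nat.prime_of_mem_primeFactors hp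
      have h2 := g.fv h1 (Nat.dvd_of_mem_primeFactors hp)
      exact ⟨h1, (mem_PS.1 h2.1).1.1, (dvd_pow_self (p : ℤ) two_ne_zero).trans h2.2⟩
  rw [mj_primes hs hv hh, prod_biUnion, h10]
  · apply prod_congr rfl
    intro j _
    rw [prod_union, prod_gw (hs' j), prod_gw (hv' j)]
    rw [Finset.disjoint_left]
    intro p h1 h2
    have hp := Nat.prime_of_mem_primeFactors h1
    exact (g.fs hp (Nat.dvd_of_mem_primeFactors h1)).2.2
      (g.fv hp (Nat.dvd_of_mem_primeFactors h2)).2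
  · intro j _ l _ hjl
    rw [Function.onFun, Finset.disjoint_left]
    intro p h1 h2
    have h3 := key j p h1
    have h4 := key l p h2
    exact hjl (g.un p h3.1 h3.2.1 j l h3.2.2 h4.2.2)

lemma cop_line {e : ℤ} (he : e * e = 1) {t w : ℕ} (htw : t.Coprime w) :
    IsCoprime (t : ℤ) (2 * t + e * w) := by
  obtain ⟨a, b, hab⟩ := Nat.isCoprime_iff_coprime.2 htw
  exact ⟨a - 2 * b * e, b * e, by linear_combination hab + b * w * he⟩

end Pool.Agent.K6.H34.T8.CNT8

namespace Pool.Agent.K6.H34.T8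

open Finset Pool.Agent.W262.RK Pool.Agent.W307.RT
open Pool.Agent.W372.RK2 (mem_Tup' mj mj_primes prod_gw)
open Pool.Agent.W29.RT (dvd_S1 dvd_S2 G2 c0 mj_eq)
open CNT8 (cl cl_bound prod_pr8 rt_nonneg cop_line)

/-- CNT8 -/
theorem t_CNT8 (hSV8 : SV8) (hGD : GD8) : CNT8 := by
  intro e he1
  have he : e * e = 1 := by rcases he1 with rfl | rfl <;> norm_num
  obtain ⟨z1, hz1⟩ := hSV8 e he1
  refine ⟨max z1 22, fun z hzz => ?_⟩
  have hz22 : 22 ≤ z := (le_max_right _ _).trans hzz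
  obtain ⟨C, K, y0, hC, hK, hSV⟩ := hz1 z ((le_max_left _ _).trans hzz)
  obtain ⟨CA, hCA, hav⟩ := Pool.Agent.W216.RT.AVH.avh 10 z (by omega)
  refine ⟨C * CA, K, y0, mul_nonneg hC hCA, hK, ?_⟩
  intro X y Y hy0 hzy hX s hs v hv u hu hsvu
  have hs' := (mem_Tup'.1 hs).1
  have hv' := (mem_Tup'.1 hv).1
  have hu' := (mem_Tup'.1 hu).1
  have hc : 10 ≤ z := by omega
  have h10 : ((10 : ℕ) : ℝ) = 10 := by norm_num
  have hlog : 0 ≤ (Real.log y) ^ 7 := pow_nonneg (Real.log_natCast_nonneg y) _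
  have hgs : ∀ j, 0 ≤ gw 1 10 (s j) := fun j => gw_nonneg zero_le_one hc (hs' j)
  have hgv : ∀ j, 0 ≤ gw 1 10 (v j) := fun j => gw_nonneg zero_le_one hc (hv' j)
  set T := (Icc 1 X ×ˢ Icc 1 X).filter (fun t : ℕ × ℕ => t.1.Coprime t.2 ∧
      (∀ j, F8 e (t.1 : ℤ) (t.2 : ℤ) j ≠ 0) ∧
      S1 z y (F8 e (t.1 : ℤ) (t.2 : ℤ)) = s ∧ S2 z y (F8 e (t.1 : ℤ) (t.2 : ℤ)) = v ∧
      ∀ j, (u j : ℤ) ∣ F8 e (t.1 : ℤ) (t.2 : ℤ) j) with hT
  have hgood : ∀ t ∈ T, t.1.Coprime t.2 ∧ G2 z y s v u (F8 e (t.1 : ℤ) (t.2 : ℤ)) := by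
    intro t ht
    rw [hT, mem_filter] at ht
    refine ⟨ht.2.1, ht.2.2.2.1, ht.2.2.2.2.1, ht.2.2.2.2.2, ?_⟩
    intro p hp hzp j l hj hl
    by_contra hne
    exact (hGD z t.1 (2 * t.1 + e * t.2) (by omega) (cop_line he ht.2.1) ht.2.2.1).2 p hp hzp j l
      hne ⟨hj, hl⟩
  rcases T.eq_empty_or_nonempty with hTe | ⟨t0, ht0⟩
  · rw [hTe, card_empty, Nat.cast_zero]
    apply div_nonneg _ hlog
    have h1 : 0 ≤ ∏ j, rt (a8 j) (s j) * gw 1 10 (s j) :=
      prod_nonneg fun j _ => mul_nonneg (rt_nonneg _ _) (hgs j)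
    have h2 : 0 ≤ ∏ j, 2 ^ (v j).primeFactors.card * (gw 1 10 (v j) / v j) :=
      prod_nonneg fun j _ => mul_nonneg (by positivity) (div_nonneg (hgv j) (Nat.cast_nonneg _))
    have h3 : 0 ≤ ∏ j, 2 ^ (u j).primeFactors.card / (u j : ℝ) :=
      prod_nonneg fun j _ => by positivity
    positivity
  set m := ∏ j, mj c0 s v u j with hm
  have hmj1 : ∀ j, 1 ≤ mj c0 s v u j := by
    intro j
    rw [mj_eq]
    have h1 := dv_pos (hs' j)
    have h2 := dv_pos (hv' j)
    have h3 := dv_pos (hu' j)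
    exact Nat.succ_le_of_lt (by positivity)
  have hm1 : 1 ≤ m := Nat.succ_le_of_lt (prod_pos fun j _ => hmj1 j)
  have hm4 : m ^ 4 ≤ X := by
    refine le_trans ?_ hsvu
    have h1 : m ≤ (∏ j, s j * v j * u j) ^ 2 := by
      rw [← prod_pow]
      apply prod_le_prod'
      intro j _
      rw [mj_eq]
      have h1 := dv_pos (hs' j)
      have h3 := dv_pos (hu' j)
      calc s j * v j ^ 2 * u j ≤ (s j * s j) * v j ^ 2 * (u j * u j) := by
            apply Nat.mul_le_mul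
            · apply Nat.mul_le_mul_right
              nlinarith
            · nlinarith
        _ = (s j * v j * u j) ^ 2 := by ring
    calc m ^ 4 ≤ ((∏ j, s j * v j * u j) ^ 2) ^ 4 := Nat.pow_le_pow_left h1 4
      _ = (∏ j, s j * v j * u j) ^ 8 := by rw [← pow_mul]
  have hsq := (hgood t0 ht0).2
  -- factors
  set g : ℕ → ℝ := fun p => (p : ℝ) / ((p : ℝ) - 10) with hg
  have hg1 : ∀ p, z < p → 1 ≤ g p := by
    intro p hp
    have h1 : ((10 : ℕ) : ℝ) < p := by exact_mod_cast lt_of_le_of_lt hc hp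
    rw [h10] at h1
    rw [hg]
    simp only
    rw [le_div_iff₀ (by linarith)]
    linarith
  set Gm : ℝ := ∏ p ∈ m.primeFactors.filter (fun p => p ∈ PS z y), g p with hGm
  have hGm0 : 0 ≤ Gm := prod_nonneg fun p hp =>
    zero_le_one.trans (hg1 p (mem_PS.1 (mem_filter.1 hp).2).1.1)
  have hmul : ∀ w : ℕ, w ≠ 0 → ∏ p ∈ (m * w).primeFactors.filter (fun p => p ∈ PS z y), g p ≤
      Gm * ∏ p ∈ w.primeFactors.filter (fun p => z < p), g p := by
    intro w hw
    have e1 : (m * w).primeFactors.filter (fun p => p ∈ PS z y) =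
        m.primeFactors.filter (fun p => p ∈ PS z y) ∪
          (w.primeFactors.filter (fun p => p ∈ PS z y) \
            m.primeFactors.filter (fun p => p ∈ PS z y)) := by
      rw [union_sdiff_self_eq_union, Nat.primeFactors_mul (by omega) hw, filter_union]
    rw [e1, prod_union disjoint_sdiff]
    apply mul_le_mul_of_nonneg_left _ hGm0
    have e2 : (w.primeFactors.filter (fun p => p ∈ PS z y) \
        m.primeFactors.filter (fun p => p ∈ PS z y)) ⊆
        w.primeFactors.filter (fun p => z < p) := by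
      intro p hp
      rw [mem_sdiff, mem_filter] at hp
      rw [mem_filter]
      exact ⟨hp.1.1, (mem_PS.1 hp.1.2).1.1⟩
    rw [← prod_sdiff e2]
    apply le_mul_of_one_le_left
    · exact prod_nonneg fun p hp => zero_le_one.trans (hg1 p (mem_filter.1 (e2 hp)).2)
    · have h1 : ∀ p ∈ w.primeFactors.filter (fun p => z < p) \
          (w.primeFactors.filter (fun p => p ∈ PS z y) \
            m.primeFactors.filter (fun p => p ∈ PS z y)), (1 : ℝ) ≤ g p := by
        intro p hp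
        exact hg1 p (mem_filter.1 (mem_sdiff.1 hp).1).2
      calc (1 : ℝ) = ∏ p ∈ w.primeFactors.filter (fun p => z < p) \
          (w.primeFactors.filter (fun p => p ∈ PS z y) \
            m.primeFactors.filter (fun p => p ∈ PS z y)), (1 : ℝ) := by simp
        _ ≤ _ := prod_le_prod (fun _ _ => zero_le_one) h1
  set ρ : ℝ := (∏ j, rt (a8 j) (s j)) * (∏ j, 2 ^ (v j).primeFactors.card) *
    (∏ j, 2 ^ (u j).primeFactors.card) with hρ
  have hρ0 : 0 ≤ ρ := by
    have h2 : 0 ≤ ∏ j, rt (a8 j) (s j) := prod_nonneg fun j _ => rt_nonneg _ _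
    positivity
  -- bound for a fixed second variable
  have hfib : ∀ w ∈ Icc 1 X, ((T.filter (fun t : ℕ × ℕ => t.2 = w)).card : ℝ) ≤
      ρ * (C * (X / m) * (Gm * ∏ p ∈ w.primeFactors.filter (fun p => z < p), g p) /
        (Real.log y) ^ 7) := by
    intro w hw
    rw [mem_Icc] at hw
    have hw0 : w ≠ 0 := by omega
    have hbd : ∀ r : ℕ, (((Icc 1 X).filter (fun t : ℕ => t ≡ r [MOD m] ∧
        ∀ p ∈ PS z y, ¬ p ∣ m * w →
        ∀ j, ¬ (p : ℤ) ∣ F8 e t w j)).card : ℝ) ≤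
        C * (X / m) * (Gm * ∏ p ∈ w.primeFactors.filter (fun p => z < p), g p) /
          (Real.log y) ^ 7 := by
      intro r
      refine (hSV X y hy0 hzy hX (w : ℤ) m (m * w) r hm1
        (dvd_mul_right _ _) (mul_ne_zero (by omega) hw0) hm4
        (fun p _ hpm hpw => hpm ((Int.natCast_dvd_natCast.1 hpw).mul_left m))).trans ?_
      apply div_le_div_of_nonneg_right _ hlog
      apply mul_le_mul_of_nonneg_left (hmul w hw0)
      positivity
    set A := (T.filter (fun t : ℕ × ℕ => t.2 = w)).image Prod.fst with hA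
    have hcA : (T.filter (fun t : ℕ × ℕ => t.2 = w)).card = A.card := by
      rw [hA, card_image_of_injOn]
      intro a ha b hb hab
      have ha' : a ∈ T.filter (fun t : ℕ × ℕ => t.2 = w) := ha
      have hb' : b ∈ T.filter (fun t : ℕ × ℕ => t.2 = w) := hb
      rw [mem_filter] at ha' hb'
      exact Prod.ext hab (ha'.2.trans hb'.2.symm)
    have hAm : ∀ t ∈ A, t ∈ Icc 1 X ∧ t.Coprime w ∧ G2 z y s v u (F8 e (t : ℤ) (w : ℤ)) := by
      intro t ht
      obtain ⟨t', ht', rfl⟩ := mem_image.1 ht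
      rw [mem_filter] at ht'
      have h1 := hgood t' ht'.1
      rw [ht'.2] at h1
      exact ⟨(mem_product.1 (mem_filter.1 ht'.1).1).1, h1.1, h1.2⟩
    rw [hcA, card_eq_sum_card_image (fun t : ℕ => (t : ZMod m)) A, Nat.cast_sum]
    have hterm : ∀ x ∈ A.image (fun t : ℕ => (t : ZMod m)),
        ((A.filter (fun t : ℕ => (t : ZMod m) = x)).card : ℝ) ≤
          C * (X / m) * (Gm * ∏ p ∈ w.primeFactors.filter (fun p => z < p), g p) /
            (Real.log y) ^ 7 := by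
      intro x hx
      obtain ⟨r, hr, rfl⟩ := mem_image.1 hx
      refine le_trans ?_ (hbd r)
      rw [Nat.cast_le]
      apply card_le_card
      intro t ht
      rw [mem_filter] at ht
      obtain ⟨htX, htw, g1⟩ := hAm t ht.1
      rw [mem_filter]
      refine ⟨htX, (ZMod.natCast_eq_natCast_iff t r m).1 ht.2, ?_⟩
      intro p hpP hpm j hpf
      have hp := (mem_PS.1 hpP).2
      apply hpm
      apply Dvd.dvd.mul_right
      rw [hm]
      refine Dvd.dvd.trans ?_ (dvd_prod_of_mem _ (mem_univ j))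
      rw [mj_eq]
      by_cases h2 : (p : ℤ) ^ 2 ∣ F8 e (t : ℤ) (w : ℤ) j
      · have h3 : p ∣ v j := by
          rw [← g1.hv]
          exact (dvd_S2 hp).2 ⟨hpP, h2⟩
        exact (((h3.pow two_ne_zero).mul_left _).mul_right _)
      · have h3 : p ∣ s j := by
          rw [← g1.hs]
          exact (dvd_S1 hp).2 ⟨hpP, hpf, h2⟩
        exact ((h3.mul_right _).mul_right _)
    refine (sum_le_sum hterm).trans ?_
    rw [sum_const, nsmul_eq_mul]
    have hcl := cl_bound (T := A) (w := w) (by omega) he hs hv hu hzy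
      (fun t ht => (hAm t ht).2)
    apply mul_le_mul_of_nonneg_right hcl
    exact (Nat.cast_nonneg _).trans (hbd 0)
  have hcard : (T.card : ℝ) ≤ ∑ w ∈ Icc 1 X,
      ρ * (C * (X / m) * (Gm * ∏ p ∈ w.primeFactors.filter (fun p => z < p), g p) /
        (Real.log y) ^ 7) := by
    rw [card_eq_sum_card_fiberwise (f := fun t : ℕ × ℕ => t.2) (t := Icc 1 X)
      (fun t ht => (mem_product.1 (mem_filter.1 ht).1).2)]
    rw [Nat.cast_sum]
    exact sum_le_sum fun w hw => hfib w hw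
  have hsum : ∑ w ∈ Icc 1 X,
      ρ * (C * (X / m) * (Gm * ∏ p ∈ w.primeFactors.filter (fun p => z < p), g p) /
        (Real.log y) ^ 7) ≤
      ρ * (C * (X / m) * (Gm * (CA * X)) / (Real.log y) ^ 7) := by
    rw [← mul_sum, ← sum_div, ← mul_sum, ← mul_sum]
    apply mul_le_mul_of_nonneg_left _ hρ0
    apply div_le_div_of_nonneg_right _ hlog
    apply mul_le_mul_of_nonneg_left _ (by positivity)
    have hav' := hav X
    rw [h10] at hav'
    exact mul_le_mul_of_nonneg_left hav' hGm0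
  refine hcard.trans (hsum.trans ?_)
  have hGmeq : Gm = ∏ j, ((s j * gw 1 10 (s j)) * (v j * gw 1 10 (v j))) :=
    prod_pr8 hs hv hu hsq
  have hterm : ∀ j, ((s j * gw 1 10 (s j)) * (v j * gw 1 10 (v j))) /
      ((mj c0 s v u j : ℕ) : ℝ) = gw 1 10 (s j) * (gw 1 10 (v j) / v j) * (1 / (u j : ℝ)) := by
    intro j
    have h1 : (s j : ℝ) ≠ 0 := Nat.cast_ne_zero.2 (dv_ne_zero (hs' j))
    have h2 : (v j : ℝ) ≠ 0 := Nat.cast_ne_zero.2 (dv_ne_zero (hv' j))
    have h3 : (u j : ℝ) ≠ 0 := Nat.cast_ne_zero.2 (dv_ne_zero (hu' j))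
    rw [mj_eq]
    rw [Nat.cast_mul, Nat.cast_mul, Nat.cast_pow]
    field_simp
  have hprod : (∏ j, ((s j * gw 1 10 (s j)) * (v j * gw 1 10 (v j)))) /
      (∏ j, ((mj c0 s v u j : ℕ) : ℝ)) = (∏ j, gw 1 10 (s j)) *
        (∏ j, gw 1 10 (v j) / v j) * (∏ j, 1 / (u j : ℝ)) := by
    rw [← prod_div_distrib, ← prod_mul_distrib, ← prod_mul_distrib]
    exact prod_congr rfl fun j _ => hterm j
  have hlast : (∏ j, 2 ^ (u j).primeFactors.card / (u j : ℝ)) =
      (∏ j, 2 ^ (u j).primeFactors.card) * ∏ j, 1 / (u j : ℝ) := by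
    rw [← prod_mul_distrib]
    exact prod_congr rfl fun j _ => by ring
  apply le_of_eq
  rw [hlast, prod_mul_distrib, prod_mul_distrib]
  rw [show C * CA * X ^ 2 * ((∏ j, rt (a8 j) (s j)) * ∏ j, gw 1 10 (s j)) *
        ((∏ j, 2 ^ (v j).primeFactors.card) * ∏ j, gw 1 10 (v j) / v j) *
        ((∏ j, 2 ^ (u j).primeFactors.card) * ∏ j, 1 / (u j : ℝ)) =
      C * CA * X ^ 2 * ρ * ((∏ j, gw 1 10 (s j)) *
        (∏ j, gw 1 10 (v j) / v j) * (∏ j, 1 / (u j : ℝ))) by rw [hρ]; ring, ← hprod,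
    hGmeq, hm, Nat.cast_prod]
  ring

end Pool.Agent.K6.H34.T8
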