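import Pool.Agent.K6.H34.T8.Stm
import Pool.Agent.W655.RK.Ep
import Pool.Agent.W586.RK.UB

set_option autoImplicit false

/-! A twisted Euler product with the weights `1 + (a / p)`. -/

namespace Pool.Agent.K6.H34.T8

namespace EPR

open Finset Pool.Agent.W262.RK Pool.Agent.W655.RK

lemma Jr_mul_int (m n : ℤ) (r : ℕ) : Jr (m * n) r = Jr m r * Jr n r := by
  unfold Jr
  rw [jacobiSym.mul_left, Int.cast_mul]

theorem epr_of (h : UB) : Pool.Agent.K6.H34.T8.EPR := by
  intro w a κ hw hw2 ha hκ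
  -- the second sum
  have hsec : ∃ z1 : ℕ, ∀ z, z1 ≤ z → ∃ C2 : ℝ, 0 ≤ C2 ∧
      ∀ (y r : ℕ) (e : Bool), z < y → 1 < r → Squarefree r →
      (∀ p : ℕ, p.Prime → p ∣ r → z < p) → 3 ≤ r →
      ∑ p ∈ PS z y, Jr a p * chr κ r e p / (p : ℝ) ≤ Real.log (Real.log r) + C2 := by
    by_cases ha0 : a = 0
    · refine ⟨0, fun z _ => ⟨0, le_rfl, fun y r e _ _ _ _ hr3 => ?_⟩⟩
      have h0 : ∑ p ∈ PS z y, Jr a p * chr κ r e p / (p : ℝ) = 0 := by
        refine Finset.sum_eq_zero fun p hp => ?_
        have hpp := PS_prime hp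
        have : Jr a p = 0 := by
          unfold Jr
          rw [ha0, jacobiSym.zero_left hpp.one_lt]
          simp
        rw [this, zero_mul, zero_div]
      rw [h0, add_zero]
      refine Real.log_nonneg ?_
      rw [Real.le_log_iff_exp_le (by positivity)]
      have h1 := Real.exp_one_lt_d9
      have h2 : (3 : ℝ) ≤ r := by exact_mod_cast hr3
      linarith
    · refine ⟨max 2 (κ * a).natAbs, fun z hz => ?_⟩
      obtain ⟨C, hC⟩ := h (κ * a) z (mul_ne_zero hκ ha0) ((le_max_left _ _).trans hz)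
        ((le_max_right _ _).trans hz)
      refine ⟨max C 0, le_max_right _ _, fun y r e hy hr hrs hrp _ => ?_⟩
      refine le_trans (le_of_eq ?_) ((hC y r e hy hr hrs hrp).trans
        (by linarith [le_max_left C 0]))
      refine Finset.sum_congr rfl fun p _ => ?_
      unfold chr
      rw [Jr_mul_int]
      ring
  obtain ⟨z1, hz1⟩ := hsec
  refine ⟨max (max 2 κ.natAbs) z1, fun z hz => ?_⟩
  have hz2 : 2 ≤ z := ((le_max_left _ _).trans (le_max_left _ _)).trans hz
  have hzκ : κ.natAbs ≤ z := ((le_max_right _ _).trans (le_max_left _ _)).trans hz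
  obtain ⟨C, hC⟩ := h κ z hκ hz2 hzκ
  obtain ⟨C2, hC20, hC2⟩ := hz1 z ((le_max_right _ _).trans hz)
  refine ⟨Real.exp (w * (C + C2)), fun y R r e hy hR hr hrs hrp => ?_⟩
  classical
  have hr3 : 3 ≤ r := by
    obtain ⟨p, hp, hpr⟩ := Nat.exists_prime_and_dvd (by omega : r ≠ 1)
    have h1 := hrp p hp hpr
    have h2 := Nat.le_of_dvd (by omega) hpr
    omega
  have hlr : 0 < Real.log r := Real.log_pos (by exact_mod_cast (by omega : 1 < r))
  have hllr : 0 ≤ Real.log (Real.log r) := by
    refine Real.log_nonneg ?_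
    rw [Real.le_log_iff_exp_le (by positivity)]
    have h1 := Real.exp_one_lt_d9
    have h2 : (3 : ℝ) ≤ r := by exact_mod_cast hr3
    linarith
  set S' := (PS z y).filter (fun p => ¬ p ∣ R) with hS'
  have hS'p : ∀ p ∈ S', p.Prime := fun p hp => PS_prime (mem_filter.1 hp).1
  have hset : (PP z y).divisors.filter (fun d => d.Coprime R) = (∏ p ∈ S', p).divisors := by
    have hsq1 := prod_primes_squarefree (PS z y) fun p hp => PS_prime hp
    have hsq2 := prod_primes_squarefree S' hS'p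
    ext d
    rw [mem_filter, Nat.mem_divisors, Nat.mem_divisors]
    constructor
    · rintro ⟨⟨hd, -⟩, hc⟩
      refine ⟨?_, hsq2.ne_zero⟩
      have hsd : Squarefree d := hsq1.squarefree_of_dvd hd
      rw [← Nat.prod_primeFactors_of_squarefree hsd]
      refine Finset.prod_dvd_prod_of_subset _ _ _ fun p hp => ?_
      have hpp := Nat.prime_of_mem_primeFactors hp
      have hpd := Nat.dvd_of_mem_primeFactors hp
      have h1 : p ∈ PS z y := by
        rw [← Nat.primeFactors_prod (s := PS z y) fun p hp => PS_prime hp]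
        exact Nat.primeFactors_mono hd hsq1.ne_zero hp
      refine mem_filter.2 ⟨h1, fun hpR => ?_⟩
      have := Nat.dvd_gcd hpd hpR
      rw [hc.gcd_eq_one] at this
      exact hpp.one_lt.ne' (Nat.dvd_one.1 this)
    · rintro ⟨hd, -⟩
      refine ⟨⟨hd.trans (Finset.prod_dvd_prod_of_subset _ _ _ (filter_subset _ _)),
        hsq1.ne_zero⟩, ?_⟩
      refine Nat.Coprime.coprime_dvd_left hd ?_
      exact Nat.Coprime.prod_left fun p hp =>
        ((hS'p p hp).coprime_iff_not_dvd).2 (mem_filter.1 hp).2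
  set φ : ℕ → ℝ := fun p => w / ((p : ℝ) - (0 : ℕ)) * (1 + Jr a p) * chr κ r e p with hφ
  have hsum : ∑ d ∈ (PP z y).divisors.filter (fun d => d.Coprime R),
      gw w 0 d * rt a d * (Jr d r * Jr κ d * x4 e d) = ∏ p ∈ S', (1 + φ p) := by
    rw [hset, ← sum_mult S' hS'p φ]
    refine Finset.sum_congr rfl fun d hd => ?_
    have hsd : Squarefree d :=
      (prod_primes_squarefree S' hS'p).squarefree_of_dvd (Nat.dvd_of_mem_divisors hd)
    show gw w 0 d * rt a d * chr κ r e d = _
    have h1 : chr κ r e d = ∏ p ∈ d.primeFactors, chr κ r e p := by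
      rw [← chr_prod κ r e _ fun p hp => Nat.prime_of_mem_primeFactors hp,
        Nat.prod_primeFactors_of_squarefree hsd]
    rw [h1, gw, rt, ← Finset.prod_mul_distrib, ← Finset.prod_mul_distrib]
  rw [hsum]
  have hp3 : ∀ p ∈ PS z y, (3 : ℝ) ≤ p := fun p hp => by
    have := PS_lt hp
    exact_mod_cast (by omega : 3 ≤ p)
  have hJ0 : ∀ p, 0 ≤ 1 + Jr a p := fun p => by
    have := (abs_le.1 (Jr_abs a p)).1
    linarith
  have hJ2 : ∀ p, 1 + Jr a p ≤ 2 := fun p => by
    have := (abs_le.1 (Jr_abs a p)).2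
    linarith
  have hfac : ∀ p ∈ S', 0 ≤ 1 + φ p := by
    intro p hp
    have h1 := hp3 p (mem_filter.1 hp).1
    have hp0 : (0:ℝ) < p := by linarith
    have h3 : w / (p : ℝ) * (1 + Jr a p) ≤ 1 := by
      have h31 : w / (p : ℝ) ≤ 1 / 2 := by
        rw [div_le_iff₀ hp0]
        linarith
      have h32 : 0 ≤ w / (p : ℝ) := by positivity
      nlinarith [hJ0 p, hJ2 p]
    have h4 := (abs_le.1 (chr_abs κ r e p)).1
    have h5 : 0 ≤ w / (p : ℝ) * (1 + Jr a p) := mul_nonneg (by positivity) (hJ0 p)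
    simp only [hφ, Nat.cast_zero, sub_zero]
    nlinarith
  rw [abs_of_nonneg (Finset.prod_nonneg hfac)]
  refine (prod_le_exp S' φ hfac).trans ?_
  -- the exponent
  have hterm : ∀ p ∈ S', φ p = w * (chr κ r e p / p) + w * (Jr a p * chr κ r e p / p) := by
    intro p _
    simp only [hφ, Nat.cast_zero, sub_zero]
    ring
  have hexp : ∑ p ∈ S', φ p ≤ Real.log (Real.log r) + w * (C + C2) +
      ∑ p ∈ (PS z y).filter (fun p => p ∣ R), 2 * w / p := by
    have hub' : ∑ p ∈ PS z y, chr κ r e p / (p : ℝ) ≤ Real.log (Real.log r) + C :=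
      hC y r e hy hr hrs hrp
    have hub2 := hC2 y r e hy hr hrs hrp hr3
    have key : ∀ F : ℕ → ℝ, (∀ p, |F p| ≤ 1) → ∀ D : ℝ, ∑ p ∈ PS z y, F p / (p : ℝ) ≤ D →
        ∑ p ∈ S', F p / (p : ℝ) ≤ D +
        ∑ p ∈ (PS z y).filter (fun p => p ∣ R), 1 / (p : ℝ) := by
      intro F hF D hD
      have hsplit := Finset.sum_filter_add_sum_filter_not (PS z y) (fun p => p ∣ R)
        (fun p => F p / (p : ℝ))
      have h2 : -∑ p ∈ (PS z y).filter (fun p => p ∣ R), 1 / (p : ℝ) ≤
          ∑ p ∈ (PS z y).filter (fun p => p ∣ R), F p / (p : ℝ) := by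
        rw [← Finset.sum_neg_distrib]
        refine Finset.sum_le_sum fun p _ => ?_
        rw [← neg_div]
        exact div_le_div_of_nonneg_right (abs_le.1 (hF p)).1 (Nat.cast_nonneg p)
      linarith
    have k1 := key (fun p => chr κ r e p) (fun p => chr_abs κ r e p) _ hub'
    have k2 := key (fun p => Jr a p * chr κ r e p) (fun p => by
      rw [abs_mul]
      exact mul_le_one₀ (Jr_abs a p) (abs_nonneg _) (chr_abs κ r e p)) _ hub2
    have k3 : ∑ p ∈ (PS z y).filter (fun p => p ∣ R), 2 * w / (p : ℝ) =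
        w * (2 * ∑ p ∈ (PS z y).filter (fun p => p ∣ R), 1 / (p : ℝ)) := by
      rw [Finset.mul_sum, Finset.mul_sum]
      refine Finset.sum_congr rfl fun p _ => ?_
      ring
    calc ∑ p ∈ S', φ p = ∑ p ∈ S', (w * (chr κ r e p / p) + w * (Jr a p * chr κ r e p / p)) :=
          Finset.sum_congr rfl hterm
      _ = w * (∑ p ∈ S', chr κ r e p / (p : ℝ) + ∑ p ∈ S', Jr a p * chr κ r e p / (p : ℝ)) := by
          rw [Finset.sum_add_distrib, mul_add, Finset.mul_sum, Finset.mul_sum]
      _ ≤ w * ((Real.log (Real.log r) + C +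
            ∑ p ∈ (PS z y).filter (fun p => p ∣ R), 1 / (p : ℝ)) +
            (Real.log (Real.log r) + C2 +
            ∑ p ∈ (PS z y).filter (fun p => p ∣ R), 1 / (p : ℝ))) :=
          mul_le_mul_of_nonneg_left (add_le_add k1 k2) hw.le
      _ = (2 * w) * Real.log (Real.log r) + w * (C + C2) +
            w * (2 * ∑ p ∈ (PS z y).filter (fun p => p ∣ R), 1 / (p : ℝ)) := by ring
      _ ≤ _ := by
          rw [← k3]
          have : (2 * w) * Real.log (Real.log r) ≤ 1 * Real.log (Real.log r) :=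
            mul_le_mul_of_nonneg_right (by linarith) hllr
          linarith
  have hhh : Real.exp (∑ p ∈ (PS z y).filter (fun p => p ∣ R), 2 * w / (p : ℝ)) ≤ hh R := by
    rw [Real.exp_sum]
    unfold hh
    have hsub : (PS z y).filter (fun p => p ∣ R) ⊆ R.primeFactors := by
      intro p hp
      rw [mem_filter] at hp
      exact Nat.mem_primeFactors.2 ⟨PS_prime hp.1, hp.2, hR⟩
    calc ∏ p ∈ (PS z y).filter (fun p => p ∣ R), Real.exp (2 * w / (p : ℝ))
        ≤ ∏ p ∈ (PS z y).filter (fun p => p ∣ R), (1 + 2 / (p : ℝ)) := by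
          refine Finset.prod_le_prod (fun p _ => (Real.exp_pos _).le) fun p hp => ?_
          have h1 := hp3 p (mem_filter.1 hp).1
          have hp0 : (0:ℝ) < p := by linarith
          have h2 : 2 * w / (p : ℝ) ≤ 1 / 2 := by
            rw [div_le_iff₀ hp0]
            linarith
          refine (exp_small _ (by positivity) h2).trans ?_
          have h3 : 2 * w / (p : ℝ) ≤ 1 / p := div_le_div_of_nonneg_right (by linarith) hp0.le
          have h4 : 2 / (p : ℝ) = 2 * (1 / p) := by ring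
          rw [h4]
          linarith
      _ ≤ ∏ p ∈ R.primeFactors, (1 + 2 / (p : ℝ)) := by
          refine Finset.prod_le_prod_of_subset_of_one_le hsub (fun p _ => by positivity)
            fun p _ _ => ?_
          have : (0:ℝ) ≤ 2 / (p : ℝ) := by positivity
          linarith
  calc Real.exp (∑ p ∈ S', φ p) ≤ Real.exp (Real.log (Real.log r) + w * (C + C2) +
        ∑ p ∈ (PS z y).filter (fun p => p ∣ R), 2 * w / (p : ℝ)) := Real.exp_le_exp.2 hexp
    _ = Real.exp (w * (C + C2)) * Real.log r *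
        Real.exp (∑ p ∈ (PS z y).filter (fun p => p ∣ R), 2 * w / (p : ℝ)) := by
        rw [Real.exp_add, Real.exp_add, Real.exp_log hlr]
        ring
    _ ≤ _ := mul_le_mul_of_nonneg_left hhh (by positivity)

end EPR

theorem t_EPR : EPR := EPR.epr_of Pool.Agent.W586.RK.UB.ub

end Pool.Agent.K6.H34.T8
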