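import Pool.Agent.K6.H34.T8.Stm

set_option autoImplicit false

namespace Pool.Agent.K6.H34.T8

open Finset Pool.Agent.W262.RK Pool.Agent.W307.RT

namespace GD8

/-- the forms over a field -/
def g8 {F : Type} [CommRing F] (u v : F) : Fin 7 → F :=
  ![u, v, u - v, u + v, u ^ 2 + v ^ 2, u ^ 2 - 2 * u * v - v ^ 2, u ^ 2 + 2 * u * v - v ^ 2]

theorem key {F : Type} [Field F] (h2 : (2 : F) ≠ 0) (x y : F) (j l : Fin 7) (hjl : j < l)
    (h1 : g8 x y j = 0) (h3 : g8 x y l = 0) : x = 0 ∧ y = 0 := by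
  have e2 : ∀ a : F, 2 * a ^ 2 = 0 → a = 0 := fun a ha => by
    rcases mul_eq_zero.1 ha with h | h
    · exact absurd h h2
    · exact pow_eq_zero_iff (two_ne_zero) |>.1 h
  have e1 : ∀ a : F, a ^ 2 = 0 → a = 0 := fun a ha => pow_eq_zero_iff (two_ne_zero) |>.1 ha
  have ex : ∀ (a b : F), (2 : F) * a * b = 0 → a = 0 ∨ b = 0 := fun a b h => by
    rcases mul_eq_zero.1 h with h | h
    · rcases mul_eq_zero.1 h with h | h
      · exact absurd h h2
      · exact Or.inl h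
    · exact Or.inr h
  fin_cases j <;> fin_cases l <;> simp [g8] at h1 h3 hjl ⊢
  all_goals first
    | exact ⟨h1, h3⟩
    | skip
  all_goals first
    | grind
    | skip
  have h4 : (2 : F) * (2 * x) * y = 0 := by linear_combination h3 - h1
  rcases ex _ _ h4 with h5 | h5
  · have h6 : x = 0 := (mul_eq_zero.1 h5).resolve_left h2
    subst h6
    exact ⟨rfl, e1 y (by linear_combination -h1)⟩
  · subst h5
    exact ⟨e1 x (by linear_combination h1), rfl⟩

theorem cast_f8 (p : ℕ) (u v : ℤ) (j : Fin 7) :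
    ((f8 u v j : ℤ) : ZMod p) = g8 (u : ZMod p) (v : ZMod p) j := by
  fin_cases j <;> simp [f8, g8]

theorem main (p : ℕ) (hp : p.Prime) (h7 : 7 < p) (u v : ℤ) (hc : IsCoprime u v) (j l : Fin 7)
    (hjl : j < l) (h1 : (p : ℤ) ∣ f8 u v j) (h3 : (p : ℤ) ∣ f8 u v l) : False := by
  have := Fact.mk hp
  have h2 : (2 : ZMod p) ≠ 0 := by
    intro h
    have h' : ((2 : ℕ) : ZMod p) = 0 := by exact_mod_cast h
    rw [ZMod.natCast_eq_zero_iff] at h'
    have := Nat.le_of_dvd (by norm_num) h'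
    omega
  have a1 : g8 (u : ZMod p) (v : ZMod p) j = 0 := by
    rw [← cast_f8]
    exact (ZMod.intCast_zmod_eq_zero_iff_dvd _ _).2 h1
  have a3 : g8 (u : ZMod p) (v : ZMod p) l = 0 := by
    rw [← cast_f8]
    exact (ZMod.intCast_zmod_eq_zero_iff_dvd _ _).2 h3
  obtain ⟨b1, b2⟩ := key h2 _ _ j l hjl a1 a3
  obtain ⟨a, b, hab⟩ := hc
  have : ((a * u + b * v : ℤ) : ZMod p) = ((1 : ℤ) : ZMod p) := by rw [hab]
  push_cast at this
  rw [b1, b2] at this
  simp at this

end GD8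

theorem t_GD8 : GD8 := by
  intro z u v hz hc hne
  refine ⟨hne, ?_⟩
  rintro p hp hzp j l hjl ⟨h1, h3⟩
  rcases lt_or_gt_of_ne hjl with h | h
  · exact GD8.main p hp (by omega) u v hc j l h h1 h3
  · exact GD8.main p hp (by omega) u v hc l j h h3 h1

end Pool.Agent.K6.H34.T8
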