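import Pool.Agent.K6.H34.T8.Stm
import Pool.Agent.W29.RT.LOW4

/-!
# Project T8, part LOW8 (helper84): there are many curves with a subgroup `Z/2 x Z/8`
-/

set_option autoImplicit false

namespace Pool.Agent.K6.H34.T8.LOW8

open Finset Pool.Agent.W307.RT Pool.Agent.W29.RT WeierstrassCurve

lemma hasT8 {A B : ℤ} {p q r : ℚ} (hr : r ^ 2 = p ^ 2 + q ^ 2)
    (hA : (A : ℚ) = -27 * ((p ^ 2) ^ 4 - (p ^ 2) ^ 2 * (q ^ 2) ^ 2 + (q ^ 2) ^ 4))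
    (hB : (B : ℚ) = 27 * (((p ^ 2) ^ 2 + (q ^ 2) ^ 2) * (2 * (p ^ 2) ^ 2 - (q ^ 2) ^ 2) *
      ((p ^ 2) ^ 2 - 2 * (q ^ 2) ^ 2)))
    (hp : 0 < p) (hq : 0 < q) (hr0 : 0 < r) (hpq : q < p) : HasT 8 (Sh A B) := by
  obtain ⟨a, ha⟩ : ∃ a, a = p ^ 2 := ⟨_, rfl⟩
  obtain ⟨b, hb⟩ : ∃ b, b = q ^ 2 := ⟨_, rfl⟩
  have ha0 : 0 < a := by rw [ha]; positivity
  have hb0 : 0 < b := by rw [hb]; positivity
  have hba : b < a := by rw [ha, hb]; nlinarith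
  have hab' : a - b ≠ 0 := by intro h; linarith
  have hab : a + b ≠ 0 := by positivity
  have hra : r ^ 2 = a + b := by rw [hr, ha, hb]
  rw [← ha, ← hb] at hA hB
  -- the point of order eight
  obtain ⟨x0, hx0⟩ : ∃ x0, x0 = 3 * (a ^ 2 + b ^ 2) + 9 * a * b := ⟨_, rfl⟩
  obtain ⟨r1, hr1⟩ : ∃ r1, r1 = 3 * (p * q) := ⟨_, rfl⟩
  obtain ⟨r2, hr2⟩ : ∃ r2, r2 = 3 * (p * r) := ⟨_, rfl⟩
  obtain ⟨r3, hr3⟩ : ∃ r3, r3 = 3 * (q * r) := ⟨_, rfl⟩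
  have h1 : r1 ^ 2 = 9 * (a * b) := by rw [hr1, ha, hb]; ring
  have h2 : r2 ^ 2 = 9 * (a * (a + b)) := by rw [hr2, ← hra, ha]; ring
  have h3 : r3 ^ 2 = 9 * (b * (a + b)) := by rw [hr3, ← hra, hb]; ring
  have h123 : r1 * r2 * r3 = 27 * (a * b * (a + b)) := by
    rw [hr1, hr2, hr3, ← hra, ha, hb]; ring
  have hr1p : 0 < r1 := by rw [hr1]; positivity
  have hr2p : 0 < r2 := by rw [hr2]; positivity
  have hr3p : 0 < r3 := by rw [hr3]; positivity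
  have hA2 : (A : ℚ) = (x0 - r1 ^ 2) * (x0 - r2 ^ 2) + (x0 - r1 ^ 2) * (x0 - r3 ^ 2) +
      (x0 - r2 ^ 2) * (x0 - r3 ^ 2) := by
    rw [h1, h2, h3, hA, hx0]; ring
  have hB2 : (B : ℚ) = -((x0 - r1 ^ 2) * (x0 - r2 ^ 2) * (x0 - r3 ^ 2)) := by
    rw [h1, h2, h3, hB, hx0]; ring
  have hS : 3 * x0 = r1 ^ 2 + r2 ^ 2 + r3 ^ 2 := by
    rw [h1, h2, h3, hx0]; ring
  obtain ⟨x8, hx8⟩ : ∃ x8, x8 = x0 + (r1 * r2 + r1 * r3 + r2 * r3) := ⟨_, rfl⟩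
  obtain ⟨y8, hy8⟩ : ∃ y8, y8 = (r1 + r2) * (r1 + r3) * (r2 + r3) := ⟨_, rfl⟩
  have hy80 : y8 ≠ 0 := by rw [hy8]; positivity
  have hP8 : (Sh A B).toAffine.Nonsingular x8 y8 := by
    apply nons _ (Or.inl hy80)
    rw [hA2, hB2, hx8, hy8]
    linear_combination (-(x0 + (r1 * r2 + r1 * r3 + r2 * r3)) ^ 2) * hS
  have hy : 27 * a * b * (a + b) ≠ 0 := by positivity
  have hP : (Sh A B).toAffine.Nonsingular (3 * (a ^ 2 + b ^ 2) + 9 * a * b)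
      (27 * a * b * (a + b)) := by
    apply nons _ (Or.inl hy)
    rw [hA, hB]; ring
  have hR : (Sh A B).toAffine.Nonsingular (3 * (a ^ 2 + b ^ 2)) 0 := by
    apply nons _ (Or.inr _)
    · rw [hA, hB]; ring
    · rw [hA]
      have : 3 * (3 * (a ^ 2 + b ^ 2)) ^ 2 + -27 * (a ^ 4 - a ^ 2 * b ^ 2 + b ^ 4) =
        81 * a ^ 2 * b ^ 2 := by ring
      rw [this]; positivity
  have hQ : (Sh A B).toAffine.Nonsingular (3 * b ^ 2 - 6 * a ^ 2) 0 := by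
    apply nons _ (Or.inr _)
    · rw [hA, hB]; ring
    · rw [hA]
      have : 3 * (3 * b ^ 2 - 6 * a ^ 2) ^ 2 + -27 * (a ^ 4 - a ^ 2 * b ^ 2 + b ^ 4) =
        81 * a ^ 2 * ((a + b) * (a - b)) := by ring
      rw [this]; positivity
  set P8 : (Sh A B).toAffine.Point := .some _ _ hP8 with hP8d
  set P : (Sh A B).toAffine.Point := .some _ _ hP with hPd
  set R : (Sh A B).toAffine.Point := .some _ _ hR with hRd
  set Q : (Sh A B).toAffine.Point := .some _ _ hQ with hQd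
  have hRR : R + R = 0 := by
    rw [hRd]
    apply Affine.Point.add_self_of_Y_eq
    rw [neg_y]; simp
  have hQQ : Q + Q = 0 := by
    rw [hQd]
    apply Affine.Point.add_self_of_Y_eq
    rw [neg_y]; simp
  have hPP : P + P = R := by
    have hne : 27 * a * b * (a + b) ≠ (Sh A B).toAffine.negY (3 * (a ^ 2 + b ^ 2) + 9 * a * b)
        (27 * a * b * (a + b)) := by
      rw [neg_y]
      intro h
      apply hy
      linarith
    have hsl : (Sh A B).toAffine.slope (3 * (a ^ 2 + b ^ 2) + 9 * a * b)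
        (3 * (a ^ 2 + b ^ 2) + 9 * a * b) (27 * a * b * (a + b)) (27 * a * b * (a + b)) =
        3 * (a + b) := by
      rw [Affine.slope_of_Y_ne rfl hne, neg_y]
      simp only [Sh]
      rw [hA, div_eq_iff (by intro h; apply hy; linarith)]
      ring
    rw [hPd, Affine.Point.add_self_of_Y_ne hne, hRd, Affine.Point.some.injEq, hsl]
    constructor
    · simp only [Affine.addX, Sh]; ring
    · simp only [Affine.addY, Affine.negAddY, Affine.negY, Affine.addX, Sh]; ring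
  have hPP8 : P8 + P8 = P := by
    have hne : y8 ≠ (Sh A B).toAffine.negY x8 y8 := by
      rw [neg_y]
      intro h
      apply hy80
      linarith
    have hsl : (Sh A B).toAffine.slope x8 x8 y8 y8 = r1 + r2 + r3 := by
      rw [Affine.slope_of_Y_ne rfl hne, neg_y]
      simp only [Sh]
      rw [hA2, div_eq_iff (by intro h; apply hy80; linarith), hx8, hy8]
      linear_combination (2 * (x0 + (r1 * r2 + r1 * r3 + r2 * r3))) * hS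
    rw [hP8d, Affine.Point.add_self_of_Y_ne hne, hPd, Affine.Point.some.injEq, hsl]
    have hX : (r1 + r2 + r3) ^ 2 - x8 - x8 = x0 := by
      rw [hx8]; linear_combination (-1) * hS
    constructor
    · rw [← hx0, ← hX]
      simp only [Affine.addX, Sh]; ring
    · have hY : -((r1 + r2 + r3) * (x0 - x8) + y8) = 27 * a * b * (a + b) := by
        rw [hx8, hy8]; linear_combination h123
      rw [← hY, ← hX]
      simp only [Affine.addY, Affine.negAddY, Affine.negY, Affine.addX, Sh]; ring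
  have hR0 : R ≠ 0 := Affine.Point.some_ne_zero hR
  have hQ0 : Q ≠ 0 := Affine.Point.some_ne_zero hQ
  have hRQ : R ≠ Q := by
    rw [hRd, hQd, Ne, Affine.Point.some.injEq]
    rintro ⟨h, -⟩
    have : 9 * a ^ 2 = 0 := by linarith
    have h3 : a ^ 2 = 0 := by linarith
    exact ha0.ne' (pow_eq_zero_iff (by norm_num) |>.1 h3)
  have h2P : 2 • P8 = P := by rw [two_nsmul, hPP8]
  have h4P : 4 • P8 = R := by
    have : (4 : ℕ) • P8 = 2 • (2 • P8) := by rw [← mul_nsmul]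
    rw [this, h2P, two_nsmul, hPP]
  have h8P : 8 • P8 = 0 := by
    have : (8 : ℕ) • P8 = 2 • (4 • P8) := by rw [← mul_nsmul]
    rw [this, h4P, two_nsmul, hRR]
  have hoP : addOrderOf P8 = 8 := by
    have := addOrderOf_eq_prime_pow (x := P8) (p := 2) (n := 2) (by simp [h4P, hR0])
      h8P
    simpa using this
  have hoQ : addOrderOf Q = 2 := by
    apply addOrderOf_eq_prime
    · rw [two_nsmul, hQQ]
    · exact hQ0
  refine ⟨P8, Q, hoP, hoQ, ?_⟩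
  intro hmem
  obtain ⟨k, hk⟩ := AddSubgroup.mem_zmultiples_iff.1 hmem
  have h4 : ((addOrderOf P8 : ℕ) : ℤ) ∣ 2 * k := by
    rw [addOrderOf_dvd_iff_zsmul_eq_zero, mul_zsmul, hk, two_zsmul, hQQ]
  rw [hoP] at h4
  obtain ⟨j, hj⟩ : ∃ j, k = 4 * j := by
    obtain ⟨l, hl⟩ := h4
    exact ⟨l, by push_cast at hl; linarith⟩
  have h4Z : (4 : ℤ) • P8 = R := by rw [← h4P]; norm_cast
  have hkj : k • P8 = j • R := by
    rw [hj, mul_comm, mul_zsmul, h4Z]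
  rcases Int.even_or_odd j with ⟨i, hi⟩ | ⟨i, hi⟩
  · apply hQ0
    rw [← hk, hkj, hi, ← two_mul, mul_comm, mul_zsmul, two_zsmul, hRR, zsmul_zero]
  · apply hRQ
    rw [← hk, hkj, hi, add_zsmul, one_zsmul, mul_comm, mul_zsmul, two_zsmul, hRR, zsmul_zero,
      zero_add]

/-- the pair `(a, b)` of the curve -/
def ab (t : ℕ × ℕ) : ℕ × ℕ := ((t.1 ^ 2 - t.2 ^ 2) ^ 2, (2 * t.1 * t.2) ^ 2)

/-- the constant -/
def CC : ℕ := 2000000 * 256 ^ 12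

lemma abs_facts {u v : ℕ} (hv : 1 ≤ v) (huv : 3 * v < u) :
    ((u ^ 2 - v ^ 2 : ℕ) : ℤ) = (u : ℤ) ^ 2 - (v : ℤ) ^ 2 ∧ 1 ≤ 2 * u * v ∧
      2 * u * v < u ^ 2 - v ^ 2 := by
  have h1 : v ^ 2 ≤ u ^ 2 := Nat.pow_le_pow_left (by omega) 2
  refine ⟨by push_cast [Nat.cast_sub h1]; ring, ?_, ?_⟩
  · have : 0 < u * v := Nat.mul_pos (by omega) hv
    nlinarith
  · have h2 : 2 * u * v + v ^ 2 < u ^ 2 := by nlinarith
    omega

lemma coprime_ab {u v : ℕ} (huv : 3 * v < u) (hc : u.Coprime v) (hodd : (u + v) % 2 = 1) :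
    (u ^ 2 - v ^ 2).Coprime (2 * u * v) := by
  have h1 : v ^ 2 ≤ u ^ 2 := Nat.pow_le_pow_left (by omega) 2
  have hI : IsCoprime (u : ℤ) (v : ℤ) := Nat.isCoprime_iff_coprime.2 hc
  rw [← Nat.isCoprime_iff_coprime]
  push_cast [Nat.cast_sub h1]
  have hu : IsCoprime ((u : ℤ) ^ 2 - (v : ℤ) ^ 2) (u : ℤ) := by
    have h2 : IsCoprime ((v : ℤ) ^ 2) (u : ℤ) := hI.symm.pow_left
    have h3 : IsCoprime (-(v : ℤ) ^ 2 + (u : ℤ) * (u : ℤ)) (u : ℤ) :=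
      (IsCoprime.neg_left h2).add_mul_left_left _
    convert h3 using 1; ring
  have hv' : IsCoprime ((u : ℤ) ^ 2 - (v : ℤ) ^ 2) (v : ℤ) := by
    have h2 : IsCoprime ((u : ℤ) ^ 2) (v : ℤ) := hI.pow_left
    have h3 : IsCoprime ((u : ℤ) ^ 2 + (v : ℤ) * (-(v : ℤ))) (v : ℤ) :=
      h2.add_mul_left_left _
    convert h3 using 1; ring
  have h2 : IsCoprime ((u : ℤ) ^ 2 - (v : ℤ) ^ 2) 2 := by
    have h5 : ((u : ℤ) ^ 2 - (v : ℤ) ^ 2) % 2 = 1 := by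
      have h6 : ((u : ℤ) + v) % 2 = 1 := by exact_mod_cast hodd
      rcases Int.emod_two_eq_zero_or_one (u : ℤ) with h7 | h7 <;>
      rcases Int.emod_two_eq_zero_or_one (v : ℤ) with h8 | h8
      · omega
      · simp [Int.sub_emod, pow_two, Int.mul_emod, h7, h8]
      · simp [Int.sub_emod, pow_two, Int.mul_emod, h7, h8]
      · omega
    refine ⟨1, -(((u : ℤ) ^ 2 - (v : ℤ) ^ 2) / 2), ?_⟩
    have h9 := Int.emod_add_mul_ediv ((u : ℤ) ^ 2 - (v : ℤ) ^ 2) 2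
    linarith
  exact (h2.mul_right hu).mul_right hv'

theorem mem_cv8 {T H u v : ℕ} (hv : 1 ≤ v) (huv : 3 * v < u) (huT : u ≤ 4 * T)
    (hc : u.Coprime v) (hodd : (u + v) % 2 = 1) (hH : CC * T ^ 48 ≤ H) :
    cf (ab (u, v)) ∈ Cv 8 H := by
  obtain ⟨f1, f2, f3⟩ := abs_facts hv huv
  have hcop := coprime_ab huv hc hodd
  have hb : 1 ≤ (2 * u * v) ^ 2 := Nat.one_le_pow _ _ f2
  have hlt : (2 * u * v) ^ 2 < (u ^ 2 - v ^ 2) ^ 2 := Nat.pow_lt_pow_left f3 two_ne_zero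
  have hT : (u ^ 2 - v ^ 2) ^ 2 ≤ 256 * T ^ 4 := by
    have h1 : u ^ 2 - v ^ 2 ≤ (4 * T) ^ 2 := (Nat.sub_le _ _).trans (Nat.pow_le_pow_left huT 2)
    calc (u ^ 2 - v ^ 2) ^ 2 ≤ ((4 * T) ^ 2) ^ 2 := Nat.pow_le_pow_left h1 2
      _ = 256 * T ^ 4 := by ring
  have h4 : cf (ab (u, v)) ∈ Cv 4 H := by
    refine mem_cv (T := 256 * T ^ 4) hb hlt hT (hcop.pow 2 2) ?_
    calc 2000000 * (256 * T ^ 4) ^ 12 = CC * T ^ 48 := by unfold CC; ring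
      _ ≤ H := hH
  unfold Cv at h4 ⊢
  simp only [mem_filter] at h4 ⊢
  refine ⟨h4.1, h4.2.1, h4.2.2.1, h4.2.2.2.1, h4.2.2.2.2.1, ?_⟩
  have f1' : ((u ^ 2 - v ^ 2 : ℕ) : ℚ) = (u : ℚ) ^ 2 - (v : ℚ) ^ 2 := by exact_mod_cast f1
  have g3 : 2 * (u : ℚ) * v < (u : ℚ) ^ 2 - (v : ℚ) ^ 2 := by rw [← f1']; exact_mod_cast f3
  have g2 : 0 < 2 * (u : ℚ) * v := by exact_mod_cast f2
  apply hasT8 (p := (u : ℚ) ^ 2 - (v : ℚ) ^ 2) (q := 2 * (u : ℚ) * v)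
    (r := (u : ℚ) ^ 2 + (v : ℚ) ^ 2)
  · ring
  · simp only [cf, ab]; push_cast [f1']; ring
  · simp only [cf, ab]; push_cast [f1']; ring
  · linarith
  · exact g2
  · have : (0 : ℚ) < v := by exact_mod_cast hv
    positivity
  · exact g3

lemma ab_inj {u v u' v' : ℕ} (hv : 1 ≤ v) (huv : 3 * v < u) (hv' : 1 ≤ v') (huv' : 3 * v' < u')
    (h : cf (ab (u, v)) = cf (ab (u', v'))) : u = u' ∧ v = v' := by
  obtain ⟨f1, f2, f3⟩ := abs_facts hv huv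
  obtain ⟨f1', f2', f3'⟩ := abs_facts hv' huv'
  have hb : 1 ≤ (2 * u * v) ^ 2 := Nat.one_le_pow _ _ f2
  have hlt : (2 * u * v) ^ 2 < (u ^ 2 - v ^ 2) ^ 2 := Nat.pow_lt_pow_left f3 two_ne_zero
  have hb' : 1 ≤ (2 * u' * v') ^ 2 := Nat.one_le_pow _ _ f2'
  have hlt' : (2 * u' * v') ^ 2 < (u' ^ 2 - v' ^ 2) ^ 2 := Nat.pow_lt_pow_left f3' two_ne_zero
  simp only [cf, ab, Prod.mk.injEq] at h
  obtain ⟨e1, e2⟩ := cf_inj (by exact_mod_cast hb) (by exact_mod_cast hlt)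
    (by exact_mod_cast hb') (by exact_mod_cast hlt') h.1 h.2
  have e1' : (u ^ 2 - v ^ 2) ^ 2 = (u' ^ 2 - v' ^ 2) ^ 2 := by exact_mod_cast e1
  have e2' : (2 * u * v) ^ 2 = (2 * u' * v') ^ 2 := by exact_mod_cast e2
  have e3 : u ^ 2 - v ^ 2 = u' ^ 2 - v' ^ 2 := Nat.pow_left_injective (n := 2) (by norm_num) e1'
  have e4 : 2 * u * v = 2 * u' * v' := Nat.pow_left_injective (n := 2) (by norm_num) e2'
  have e3Z : (u : ℤ) ^ 2 - (v : ℤ) ^ 2 = (u' : ℤ) ^ 2 - (v' : ℤ) ^ 2 := by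
    rw [← f1, ← f1', e3]
  have e4Z : (u : ℤ) * v = (u' : ℤ) * v' := by
    have : 2 * (u : ℤ) * v = 2 * (u' : ℤ) * v' := by exact_mod_cast e4
    linarith
  have e5 : ((u : ℤ) ^ 2 + (v : ℤ) ^ 2) ^ 2 = ((u' : ℤ) ^ 2 + (v' : ℤ) ^ 2) ^ 2 := by
    have : ∀ a b : ℤ, (a ^ 2 + b ^ 2) ^ 2 = (a ^ 2 - b ^ 2) ^ 2 + 4 * (a * b) ^ 2 := by
      intro a b; ring
    rw [this, this, e3Z, e4Z]
  have e6 : (u : ℤ) ^ 2 + (v : ℤ) ^ 2 = (u' : ℤ) ^ 2 + (v' : ℤ) ^ 2 :=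
    (pow_left_inj₀ (by positivity) (by positivity) two_ne_zero).1 e5
  have e7 : (u : ℤ) ^ 2 = (u' : ℤ) ^ 2 := by linarith
  have e8 : (v : ℤ) ^ 2 = (v' : ℤ) ^ 2 := by linarith
  have e9 : (u : ℤ) = u' := (pow_left_inj₀ (by positivity) (by positivity) two_ne_zero).1 e7
  have e10 : (v : ℤ) = v' := (pow_left_inj₀ (by positivity) (by positivity) two_ne_zero).1 e8
  exact ⟨by exact_mod_cast e9, by exact_mod_cast e10⟩

lemma mem_SS {T : ℕ} {t : Σ _ : ℕ, ℕ} (ht : t ∈ SS T) :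
    2 ≤ t.1 ∧ t.1 ≤ T ∧ 1 ≤ t.2 ∧ t.2 < t.1 ∧ t.1.Coprime t.2 := by
  unfold SS at ht
  rw [mem_sigma, mem_Icc, mem_filter, mem_range] at ht
  obtain ⟨⟨k1, k2⟩, k3, k4⟩ := ht
  have hb : 1 ≤ t.2 := by
    rcases Nat.eq_zero_or_pos t.2 with h | h
    · rw [h, Nat.coprime_zero_right] at k4; omega
    · exact h
  exact ⟨k1, k2, hb, k3, k4⟩

/-- half of the pairs -/
lemma half_le {T H : ℕ} (hH : CC * T ^ 48 ≤ H) (m : ℕ) (hm2 : 2 ≤ m) (hm3 : m ≤ 3)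
    (F : Finset (Σ _ : ℕ, ℕ)) (hF : ∀ t ∈ F, t ∈ SS T ∧ (t.1 + m * t.2 + t.2) % 2 = 1) :
    F.card ≤ (Cv 8 H).card := by
  apply card_le_card_of_injOn (fun t => cf (ab (t.1 + m * t.2, t.2)))
  · intro t ht
    obtain ⟨h1, h2⟩ := hF t ht
    obtain ⟨k1, k2, k3, k4, k5⟩ := mem_SS h1
    refine mem_cv8 k3 ?_ ?_ ?_ h2 hH
    · nlinarith
    · nlinarith
    · rw [Nat.coprime_add_mul_right_left]; exact k5
  · intro t ht t' ht' h
    obtain ⟨h1, h2⟩ := hF t ht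
    obtain ⟨k1, k2, k3, k4, k5⟩ := mem_SS h1
    obtain ⟨h1', h2'⟩ := hF t' ht'
    obtain ⟨k1', k2', k3', k4', k5'⟩ := mem_SS h1'
    obtain ⟨e1, e2⟩ := ab_inj k3 (by nlinarith) k3' (by nlinarith) h
    have e3 : t.1 = t'.1 := by rw [e2] at e1; omega
    exact Sigma.ext e3 (heq_of_eq e2)

end LOW8

open Finset Pool.Agent.W307.RT Pool.Agent.W29.RT in
theorem t_LOW8 : LOW8 := by
  refine ⟨1 / 48, LOW8.CC, 5, by norm_num, fun T H hT hH => ?_⟩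
  have h1 : ((SS T).filter (fun t => (t.1 + t.2) % 2 = 1)).card ≤ (Cv 8 H).card :=
    LOW8.half_le hH 2 le_rfl (by norm_num) _ (fun t ht => by
      rw [mem_filter] at ht
      exact ⟨ht.1, by omega⟩)
  have h2 : ((SS T).filter (fun t => ¬ (t.1 + t.2) % 2 = 1)).card ≤ (Cv 8 H).card :=
    LOW8.half_le hH 3 (by norm_num) le_rfl _ (fun t ht => by
      rw [mem_filter] at ht
      obtain ⟨k1, k2, k3, k4, k5⟩ := LOW8.mem_SS ht.1
      refine ⟨ht.1, ?_⟩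
      have h3 : ¬ (t.1 % 2 = 0 ∧ t.2 % 2 = 0) := by
        rintro ⟨h4, h5⟩
        have h6 : 2 ∣ Nat.gcd t.1 t.2 :=
          Nat.dvd_gcd (Nat.dvd_of_mod_eq_zero h4) (Nat.dvd_of_mod_eq_zero h5)
        rw [k5] at h6
        omega
      omega)
  have h3 := card_SS T hT
  have h4 := card_filter_add_card_filter_not (s := SS T) (fun t => (t.1 + t.2) % 2 = 1)
  have h5 : T ^ 2 ≤ 48 * (Cv 8 H).card := by omega
  have h6 : (T : ℝ) ^ 2 ≤ 48 * ((Cv 8 H).card : ℝ) := by exact_mod_cast h5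
  linarith

end Pool.Agent.K6.H34.T8
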