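import Pool.Agent.K6.H34.T8.Stm
import Pool.Agent.W605.RT.PAR4
import Pool.Agent.W261.RT.Iso

/-!
# Project T8, piece PAR8 (helper48)

Parametrisation of the elliptic curves over the rationals with a subgroup `Z/2 x Z/8`. Continues
`Pool.Agent.W605.RT.PAR4` of the starting library.
-/

set_option autoImplicit false

namespace Pool.Agent.K6.H34.T8

open Finset Pool.Agent.W262.RK Pool.Agent.W307.RT WeierstrassCurve.Affine Pool.Agent.W605.RT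

namespace PAR8

/-- doubling of a point -/
theorem dbl {A B : ℤ} {R S : (Sh A B).toAffine.Point} (hRS : R + R = S) (hS : S ≠ 0) :
    ∃ (x y : ℚ) (hxy : (Sh A B).toAffine.Nonsingular x y) (X Y : ℚ)
      (hXY : (Sh A B).toAffine.Nonsingular X Y), R = Point.some x y hxy ∧
      S = Point.some X Y hXY ∧ y ≠ 0 ∧ y ^ 2 = x ^ 3 + A * x + B ∧
      X = ((3 * x ^ 2 + A) / (2 * y)) ^ 2 - 2 * x := by
  rcases R with _ | ⟨x, y, hxy⟩
  · exfalso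
    apply hS
    rw [← hRS]
    exact add_zero (0 : (Sh A B).toAffine.Point)
  · have hxy' := sh_eq.mp hxy.1
    by_cases hy : y = (Sh A B).toAffine.negY x y
    · exfalso
      apply hS
      rw [← hRS]
      exact Point.add_self_of_Y_eq hy
    · rw [Point.add_self_of_Y_ne hy] at hRS
      rcases S with _ | ⟨X, Y, hXY⟩
      · exact absurd rfl hS
      · have hX := (Point.some.inj hRS).1
        rw [sh_negY] at hy
        have hy0 : y ≠ 0 := by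
          intro h0
          apply hy
          rw [h0]; simp
        refine ⟨x, y, hxy, X, Y, hXY, rfl, rfl, hy0, hxy', ?_⟩
        rw [← hX, WeierstrassCurve.Affine.addX,
          WeierstrassCurve.Affine.slope_of_Y_ne rfl (by rwa [sh_negY]), sh_negY]
        simp only [Sh]
        ring

theorem eight_tors {A B : ℤ} {P Q : (Sh A B).toAffine.Point} (hP : addOrderOf P = 8)
    (hQ : addOrderOf Q = 2) (hPQ : Q ∉ AddSubgroup.zmultiples P) :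
    ∃ x0 y0 x y e1 e2 : ℚ, y0 ≠ 0 ∧ y0 ^ 2 = x0 ^ 3 + A * x0 + B ∧
      x = ((3 * x0 ^ 2 + A) / (2 * y0)) ^ 2 - 2 * x0 ∧ y ≠ 0 ∧ y ^ 2 = x ^ 3 + A * x + B ∧
      e1 ^ 3 + A * e1 + B = 0 ∧ e2 ^ 3 + A * e2 + B = 0 ∧ e1 ≠ e2 ∧
      e1 = ((3 * x ^ 2 + A) / (2 * y)) ^ 2 - 2 * x := by
  have h4 : addOrderOf (P + P) = 4 := by
    rw [← two_nsmul, addOrderOf_nsmul' P two_ne_zero, hP]
    norm_num
  have h2 : addOrderOf ((P + P) + (P + P)) = 2 := by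
    rw [← two_nsmul (P + P), addOrderOf_nsmul' (P + P) two_ne_zero, h4]
    norm_num
  have n4 : P + P ≠ 0 := by
    intro h
    rw [h, addOrderOf_zero] at h4
    norm_num at h4
  have n2 : (P + P) + (P + P) ≠ 0 := by
    intro h
    rw [h, addOrderOf_zero] at h2
    norm_num at h2
  obtain ⟨x0, y0, hxy0, x, y, hxy, hP0, hPP, hy0, he0, hx⟩ := dbl (R := P) rfl n4
  obtain ⟨x', y', hxy', X, Y, hXY, hPP', hPPPP, hy', he', hX⟩ := dbl (R := P + P) rfl n2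
  obtain ⟨e1, h1, hPe⟩ := two_tors h2
  obtain ⟨e2, h2', hQ'⟩ := two_tors hQ
  have hxx := Point.some.inj (hPP.symm.trans hPP')
  have hXe := Point.some.inj (hPPPP.symm.trans hPe)
  have hne : e1 ≠ e2 := by
    intro h
    subst h
    apply hPQ
    rw [hQ', ← hPe]
    have hm : P ∈ AddSubgroup.zmultiples P := AddSubgroup.mem_zmultiples P
    exact add_mem (add_mem hm hm) (add_mem hm hm)
  have r1 := sh_eq.mp h1.1
  have r2 := sh_eq.mp h2'.1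
  obtain ⟨hx1, hy1⟩ := hxx
  subst hx1
  subst hy1
  obtain ⟨hX1, -⟩ := hXe
  subst hX1
  exact ⟨x0, y0, x, y, X, e2, hy0, he0, hx, hy', he', by linarith, by linarith, hne, hX⟩

/-- squares of rationals that are integers, scaled -/
theorem sq_div {g t : ℤ} {s : ℤ} (hg : g ≠ 0) (h : g ^ 2 * t = s ^ 2) : ∃ r : ℤ, t = r ^ 2 := by
  have h1 : g ^ 2 ∣ s ^ 2 := ⟨t, h.symm⟩
  have h2 : g ∣ s := (Int.pow_dvd_pow_iff two_ne_zero).mp h1
  obtain ⟨r, rfl⟩ := h2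
  refine ⟨r, ?_⟩
  have : g ^ 2 * t = g ^ 2 * r ^ 2 := by rw [h]; ring
  exact mul_left_cancel₀ (pow_ne_zero 2 hg) this

/-- the Diophantine part: `a b`, `a (a + b)` are squares, `a`, `b` coprime -/
theorem dio {a b s t : ℤ} (hab : Int.gcd a b = 1) (ha : a ≠ 0) (hb : b ≠ 0) (h1 : a * b = s ^ 2)
    (h2 : a * (a + b) = t ^ 2) : ∃ u v : ℤ, IsCoprime u v ∧
      ((a ^ 2 = ((2 * u * v) ^ 2) ^ 2 ∧ b ^ 2 = ((u ^ 2 - v ^ 2) ^ 2) ^ 2) ∨
        (b ^ 2 = ((2 * u * v) ^ 2) ^ 2 ∧ a ^ 2 = ((u ^ 2 - v ^ 2) ^ 2) ^ 2)) := by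
  obtain ⟨p, hp⟩ := Int.sq_of_gcd_eq_one hab h1
  obtain ⟨q, hq⟩ := Int.sq_of_gcd_eq_one (by rw [Int.gcd_comm]; exact hab) (by rw [mul_comm]; exact h1)
  have hs0 : 0 < s ^ 2 := by
    have : s ≠ 0 := by
      rintro rfl
      rcases mul_eq_zero.mp (h1.trans (by ring)) with h | h
      · exact ha h
      · exact hb h
    positivity
  have hp0 : p ≠ 0 := by
    rintro rfl
    rcases hp with h | h <;> exact ha (by rw [h]; ring)
  have hq0 : q ≠ 0 := by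
    rintro rfl
    rcases hq with h | h <;> exact hb (by rw [h]; ring)
  have hpp : 0 < p ^ 2 := by positivity
  have hqq : 0 < q ^ 2 := by positivity
  -- the signs agree
  have hsign : (a = p ^ 2 ∧ b = q ^ 2) ∨ (a = -p ^ 2 ∧ b = -q ^ 2) := by
    rcases hp with hp | hp <;> rcases hq with hq | hq
    · exact Or.inl ⟨hp, hq⟩
    · exfalso
      rw [hp, hq] at h1
      nlinarith [mul_pos hpp hqq]
    · exfalso
      rw [hp, hq] at h1
      nlinarith [mul_pos hpp hqq]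
    · exact Or.inr ⟨hp, hq⟩
  have h3 : p ^ 2 * (p ^ 2 + q ^ 2) = t ^ 2 := by
    rcases hsign with ⟨h, h'⟩ | ⟨h, h'⟩
    · rw [h, h'] at h2
      exact h2
    · rw [h, h'] at h2
      rw [← h2]; ring
  obtain ⟨r, hr⟩ := sq_div hp0 h3
  have hpq : Int.gcd p q = 1 := by
    have hc : IsCoprime a b := Int.isCoprime_iff_gcd_eq_one.mpr hab
    have : IsCoprime (p ^ 2) (q ^ 2) := by
      rcases hsign with ⟨h, h'⟩ | ⟨h, h'⟩
      · rw [← h, ← h']; exact hc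
      · have := hc.neg_neg
        rw [h, h'] at this
        simpa using this
    exact Int.isCoprime_iff_gcd_eq_one.mp ((IsCoprime.pow_iff two_pos two_pos).mp this)
  have hpt : PythagoreanTriple p q r := by
    unfold PythagoreanTriple
    linarith [sq p, sq q, sq r]
  obtain ⟨m, n, hmn, -, hg, -⟩ := PythagoreanTriple.coprime_classification.mp ⟨hpt, hpq⟩
  refine ⟨m, n, Int.isCoprime_iff_gcd_eq_one.mpr hg, ?_⟩
  have ha2 : a ^ 2 = (p ^ 2) ^ 2 := by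
    rcases hsign with ⟨h, h'⟩ | ⟨h, h'⟩ <;> rw [h] <;> ring
  have hb2 : b ^ 2 = (q ^ 2) ^ 2 := by
    rcases hsign with ⟨h, h'⟩ | ⟨h, h'⟩ <;> rw [h'] <;> ring
  rcases hmn with ⟨h, h'⟩ | ⟨h, h'⟩
  · right
    rw [ha2, hb2, h, h']
    exact ⟨rfl, rfl⟩
  · left
    rw [ha2, hb2, h, h']
    exact ⟨rfl, rfl⟩

/-- the relation between a curve and its parameters -/
def Rel8 (c uv : ℤ × ℤ) : Prop := IsCoprime uv.1 uv.2 ∧
  Rel c ((2 * uv.1 * uv.2) ^ 2, (uv.1 ^ 2 - uv.2 ^ 2) ^ 2)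

theorem core8 {A B : ℤ} (hD : 4 * A ^ 3 + 27 * B ^ 2 ≠ 0) (hT : HasT 8 (Sh A B)) :
    ∃ uv, Rel8 (A, B) uv := by
  obtain ⟨P, Q, hP, hQ, hPQ⟩ := hT
  obtain ⟨x0, y0, x, y, e1, e2, hy0, hxy0, hx0, hy, hxy, r1, r2, hne, h1⟩ := eight_tors hP hQ hPQ
  -- third root
  have hs : e1 ^ 2 + e1 * e2 + e2 ^ 2 + A = 0 := by
    have : (e1 - e2) * (e1 ^ 2 + e1 * e2 + e2 ^ 2 + A) = 0 := by linear_combination r1 - r2
    exact (mul_eq_zero.mp this).resolve_left (sub_ne_zero.mpr hne)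
  have r3 : (-e1 - e2) ^ 3 + A * (-e1 - e2) + B = 0 := by
    linear_combination r1 + (-2 * e1 - e2) * hs
  have s1 := root_sq hy hxy r1 h1
  have s2 := root_sq hy hxy r2 h1
  have s3 := root_sq hy hxy r3 h1
  have q1 := root_sq hy0 hxy0 r1 hx0
  have q2 := root_sq hy0 hxy0 r2 hx0
  -- `(x - e1) ^ 2 = (e1 - e2) (e1 - e3)`
  have hx1 : (x - e1) ^ 2 = (e1 - e2) * (e1 - (-e1 - e2)) := by
    rw [sub_self] at s1
    have h2y : (2 * y) ≠ 0 := by positivity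
    have h0 : (x ^ 2 - 2 * e1 * x - A - 2 * e1 ^ 2) / (2 * y) = 0 := by
      have := s1.symm
      exact pow_eq_zero_iff (two_ne_zero) |>.mp this
    have h00 : x ^ 2 - 2 * e1 * x - A - 2 * e1 ^ 2 = 0 := by
      rcases div_eq_zero_iff.mp h0 with h | h
      · exact h
      · exact absurd h h2y
    linear_combination h00 + hs
  set m : ℚ := (x ^ 2 - 2 * e2 * x - A - 2 * e2 ^ 2) / (2 * y) with hm
  set n : ℚ := (x ^ 2 - 2 * (-e1 - e2) * x - A - 2 * (-e1 - e2) ^ 2) / (2 * y) with hn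
  set k1 : ℚ := (x0 ^ 2 - 2 * e1 * x0 - A - 2 * e1 ^ 2) / (2 * y0) with hk1
  set k2 : ℚ := (x0 ^ 2 - 2 * e2 * x0 - A - 2 * e2 ^ 2) / (2 * y0) with hk2
  clear_value m n k1 k2
  -- choice of the sign of `n`
  obtain ⟨n1, hn1, hxm⟩ : ∃ n1 : ℚ, n1 ^ 2 = n ^ 2 ∧ x - e1 = m * n1 := by
    have h5 : (x - e1) ^ 2 = (m * n) ^ 2 := by
      rw [hx1, s2, s3]; ring
    rcases sq_eq_sq_iff_eq_or_eq_neg.mp h5 with h | h
    · exact ⟨n, rfl, h⟩
    · exact ⟨-n, by ring, by rw [h]; ring⟩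
  obtain ⟨E1, hE1⟩ := int_root r1
  obtain ⟨E2, hE2⟩ := int_root r2
  obtain ⟨m', hm'⟩ := int_sqrt (M := E1 - E2) (m := m) (by push_cast; rw [hE1, hE2]; exact s2)
  obtain ⟨n', hn'⟩ := int_sqrt (M := 2 * E1 + E2) (m := n1) (by
    push_cast; rw [hE1, hE2, hn1, ← s3]; ring)
  obtain ⟨K1, hK1⟩ := int_sqrt (M := m' * n') (m := k1) (by
    push_cast; rw [hm', hn', ← hxm]; exact q1)
  obtain ⟨K2, hK2⟩ := int_sqrt (M := m' * (m' + n')) (m := k2) (by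
    push_cast; rw [hm', hn', ← q2]; linear_combination -hxm - s2)
  have t1 : E1 - E2 = m' ^ 2 := by
    have : ((E1 - E2 : ℤ) : ℚ) = ((m' ^ 2 : ℤ) : ℚ) := by
      push_cast; rw [hE1, hE2, hm']; exact s2
    exact_mod_cast this
  have t2 : 2 * E1 + E2 = n' ^ 2 := by
    have : ((2 * E1 + E2 : ℤ) : ℚ) = ((n' ^ 2 : ℤ) : ℚ) := by
      push_cast; rw [hE1, hE2, hn', hn1, ← s3]; ring
    exact_mod_cast this
  have t3 : E1 ^ 2 + E1 * E2 + E2 ^ 2 + A = 0 := by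
    have : ((E1 ^ 2 + E1 * E2 + E2 ^ 2 + A : ℤ) : ℚ) = ((0 : ℤ) : ℚ) := by
      push_cast; rw [hE1, hE2]; exact hs
    exact_mod_cast this
  have t4 : E1 ^ 3 + A * E1 + B = 0 := by
    have : ((E1 ^ 3 + A * E1 + B : ℤ) : ℚ) = ((0 : ℤ) : ℚ) := by
      push_cast; rw [hE1]; exact r1
    exact_mod_cast this
  have t5 : m' * n' = K1 ^ 2 := by
    have : ((m' * n' : ℤ) : ℚ) = ((K1 ^ 2 : ℤ) : ℚ) := by
      push_cast; rw [hm', hn', hK1, ← hxm]; exact q1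
    exact_mod_cast this
  have t6 : m' * (m' + n') = K2 ^ 2 := by
    have : ((m' * (m' + n') : ℤ) : ℚ) = ((K2 ^ 2 : ℤ) : ℚ) := by
      push_cast; rw [hm', hn', hK2, ← q2]; linear_combination -hxm - s2
    exact_mod_cast this
  have hA : A = -(E1 ^ 2 + E1 * E2 + E2 ^ 2) := by linarith
  have hB : B = E1 * E2 * (E1 + E2) := by
    rw [hA] at t4
    linear_combination t4
  have n12 : E1 ≠ E2 := by
    intro h
    apply hne
    rw [← hE1, ← hE2, h]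
  have n13 : 2 * E1 + E2 ≠ 0 := by
    intro h
    apply hD
    have : E2 = -2 * E1 := by linarith
    rw [hA, hB, this]
    ring
  have n23 : E1 + 2 * E2 ≠ 0 := by
    intro h
    apply hD
    have : E1 = -2 * E2 := by linarith
    rw [hA, hB, this]
    ring
  have hm0 : m' ≠ 0 := by
    rintro rfl
    apply n12; linarith
  have hn0 : n' ≠ 0 := by
    rintro rfl
    apply n13; linarith
  have hmn : m' ^ 2 ≠ n' ^ 2 := by
    rw [← t1, ← t2]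
    intro h
    apply n23; linarith
  have hg0 : 0 < Int.gcd m' n' := Int.gcd_pos_of_ne_zero_left _ hm0
  obtain ⟨a, b, hab, ha, hb⟩ := Int.exists_gcd_one hg0
  set g : ℤ := (Int.gcd m' n' : ℤ) with hg
  have hgpos : 0 < g := by rw [hg]; exact_mod_cast hg0
  clear_value g
  have ha0 : a ≠ 0 := by
    rintro rfl
    exact hm0 (by rw [ha]; simp)
  have hb0 : b ≠ 0 := by
    rintro rfl
    exact hn0 (by rw [hb]; simp)
  have hab2 : a ^ 2 ≠ b ^ 2 := by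
    intro h
    apply hmn
    rw [ha, hb, mul_pow, mul_pow, h]
  obtain ⟨w1, hw1⟩ := sq_div (g := g) (t := a * b) (s := K1) hgpos.ne' (by rw [← t5, ha, hb]; ring)
  obtain ⟨w2, hw2⟩ := sq_div (g := g) (t := a * (a + b)) (s := K2) hgpos.ne'
    (by rw [← t6, ha, hb]; ring)
  obtain ⟨u, v, huv, hcase⟩ := dio hab ha0 hb0 hw1 hw2
  have u1 : 3 * E1 = g ^ 2 * (a ^ 2 + b ^ 2) := by
    have : 3 * E1 = m' ^ 2 + n' ^ 2 := by linarith
    rw [this, ha, hb]; ring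
  have u2 : 3 * E2 = g ^ 2 * (b ^ 2 - 2 * a ^ 2) := by
    have : 3 * E2 = n' ^ 2 - 2 * m' ^ 2 := by linarith
    rw [this, ha, hb]; ring
  have h3A : 3 * A = -(g ^ 4 * (a ^ 4 - a ^ 2 * b ^ 2 + b ^ 4)) := by
    have h9 : 3 * (3 * A) = 3 * (-(g ^ 4 * (a ^ 4 - a ^ 2 * b ^ 2 + b ^ 4))) := by
      have : 3 * (3 * A) = -((3 * E1) ^ 2 + (3 * E1) * (3 * E2) + (3 * E2) ^ 2) := by
        rw [hA]; ring
      rw [this, u1, u2]
      ring
    linarith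
  have h27B : 27 * B = g ^ 6 * ((a ^ 2 + b ^ 2) * (2 * a ^ 2 - b ^ 2) * (a ^ 2 - 2 * b ^ 2)) := by
    have : 27 * B = (3 * E1) * (3 * E2) * (3 * E1 + 3 * E2) := by rw [hB]; ring
    rw [this, u1, u2]
    ring
  have hcab : IsCoprime (a ^ 2) (b ^ 2) :=
    (Int.isCoprime_iff_gcd_eq_one.mpr hab).pow
  have e4 : ∀ t : ℤ, t ^ 4 = (t ^ 2) ^ 2 := fun t => by ring
  rw [e4 a, e4 b] at h3A
  refine ⟨(u, v), huv, g, E1, hgpos, ?_, ?_, ?_, ?_, ?_, ?_, ?_⟩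
  · change IsCoprime ((2 * u * v) ^ 2) ((u ^ 2 - v ^ 2) ^ 2)
    rcases hcase with ⟨h, h'⟩ | ⟨h, h'⟩
    · rw [h, h'] at hcab
      exact (IsCoprime.pow_iff two_pos two_pos).mp hcab
    · rw [h, h'] at hcab
      exact ((IsCoprime.pow_iff two_pos two_pos).mp hcab).symm
  · change (2 * u * v) ^ 2 ≠ 0
    intro h0
    rcases hcase with ⟨h, h'⟩ | ⟨h, h'⟩
    · rw [h0] at h
      exact ha0 (pow_eq_zero_iff two_ne_zero |>.mp (h.trans (by norm_num)))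
    · rw [h0] at h
      exact hb0 (pow_eq_zero_iff two_ne_zero |>.mp (h.trans (by norm_num)))
  · change (u ^ 2 - v ^ 2) ^ 2 ≠ 0
    intro h0
    rcases hcase with ⟨h, h'⟩ | ⟨h, h'⟩
    · rw [h0] at h'
      exact hb0 (pow_eq_zero_iff two_ne_zero |>.mp (h'.trans (by norm_num)))
    · rw [h0] at h'
      exact ha0 (pow_eq_zero_iff two_ne_zero |>.mp (h'.trans (by norm_num)))
  · change ((2 * u * v) ^ 2) ^ 2 ≠ ((u ^ 2 - v ^ 2) ^ 2) ^ 2
    rcases hcase with ⟨h, h'⟩ | ⟨h, h'⟩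
    · rw [← h, ← h']; exact hab2
    · rw [← h, ← h']; exact hab2.symm
  · change 3 * E1 = g ^ 2 * (((2 * u * v) ^ 2) ^ 2 + ((u ^ 2 - v ^ 2) ^ 2) ^ 2)
    rcases hcase with ⟨h, h'⟩ | ⟨h, h'⟩
    · rw [← h, ← h']; exact u1
    · rw [← h, ← h', u1]; ring
  · change 3 * A = -(g ^ 4 * (((2 * u * v) ^ 2) ^ 4 - ((2 * u * v) ^ 2) ^ 2 *
      ((u ^ 2 - v ^ 2) ^ 2) ^ 2 + ((u ^ 2 - v ^ 2) ^ 2) ^ 4))
    rw [e4 ((2 * u * v) ^ 2), e4 ((u ^ 2 - v ^ 2) ^ 2)]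
    rcases hcase with ⟨h, h'⟩ | ⟨h, h'⟩
    · rw [← h, ← h']; exact h3A
    · rw [← h, ← h', h3A]; ring
  · change 27 * B = g ^ 6 * ((((2 * u * v) ^ 2) ^ 2 + ((u ^ 2 - v ^ 2) ^ 2) ^ 2) *
      (2 * ((2 * u * v) ^ 2) ^ 2 - ((u ^ 2 - v ^ 2) ^ 2) ^ 2) *
      (((2 * u * v) ^ 2) ^ 2 - 2 * ((u ^ 2 - v ^ 2) ^ 2) ^ 2))
    rcases hcase with ⟨h, h'⟩ | ⟨h, h'⟩
    · rw [← h, ← h']; exact h27B
    · rw [← h, ← h', h27B]; ring

open Classical in
/-- the parameters -/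
noncomputable def FF8 (c : ℤ × ℤ) : ℤ × ℤ := if h : ∃ uv, Rel8 c uv then h.choose else (0, 0)

theorem FF8_rel {c : ℤ × ℤ} (h : ∃ uv, Rel8 c uv) : Rel8 c (FF8 c) := by
  unfold FF8
  rw [dif_pos h]
  exact h.choose_spec

theorem bound8 {u v : ℤ} {H : ℕ} (h1 : ((2 * u * v) ^ 2).natAbs ^ 12 ≤ 54 * H)
    (h2 : ((u ^ 2 - v ^ 2) ^ 2).natAbs ^ 12 ≤ 54 * H) :
    u.natAbs ^ 48 ≤ (2 ^ 12 * 54) * H ∧ v.natAbs ^ 48 ≤ (2 ^ 12 * 54) * H := by
  set a : ℕ := ((2 * u * v) ^ 2).natAbs with ha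
  set b : ℕ := ((u ^ 2 - v ^ 2) ^ 2).natAbs with hb
  have ha' : (a : ℤ) = (2 * u * v) ^ 2 := by
    rw [ha]; exact Int.natAbs_of_nonneg (by positivity)
  have hb' : (b : ℤ) = (u ^ 2 - v ^ 2) ^ 2 := by
    rw [hb]; exact Int.natAbs_of_nonneg (by positivity)
  have key : ∀ t : ℕ, t ≤ 2 * max a b → t ^ 12 ≤ (2 ^ 12 * 54) * H := by
    intro t ht
    calc t ^ 12 ≤ (2 * max a b) ^ 12 := Nat.pow_le_pow_left ht 12
      _ = 2 ^ 12 * (max a b) ^ 12 := by rw [mul_pow]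
      _ ≤ 2 ^ 12 * (54 * H) := by
          apply Nat.mul_le_mul_left
          rcases le_total a b with h | h
          · rw [max_eq_right h]; exact h2
          · rw [max_eq_left h]; exact h1
      _ = (2 ^ 12 * 54) * H := by ring
  have hab : a + b ≤ 2 * max a b := by
    have := le_max_left a b
    have := le_max_right a b
    omega
  have hu4 : ∀ t : ℤ, t ^ 4 ≤ (a + b : ℤ) → t.natAbs ^ 48 ≤ (2 ^ 12 * 54) * H := by
    intro t ht
    have h4 : t.natAbs ^ 4 ≤ a + b := by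
      have : ((t.natAbs ^ 4 : ℕ) : ℤ) ≤ ((a + b : ℕ) : ℤ) := by
        push_cast
        have : |t| ^ 4 = t ^ 4 := Even.pow_abs (by decide) t
        rw [this]; exact ht
      exact_mod_cast this
    have := key (t.natAbs ^ 4) (h4.trans hab)
    rwa [← pow_mul] at this
  constructor
  · apply hu4
    rw [ha', hb']
    nlinarith [sq_nonneg (u * v), sq_nonneg (v ^ 2)]
  · apply hu4
    rw [ha', hb']
    nlinarith [sq_nonneg (u * v), sq_nonneg (u ^ 2)]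

/-- the isomorphism (from the proof of `par4_of`) -/
theorem fin_rel (h : ISO) {A B a b : ℤ} (r : Rel (A, B) (a, b)) :
    Module.finrank ℤ (Sh A B).toAffine.Point =
        Module.finrank ℤ (EAB (-(M4 a b)) (-(N4 a b))).toAffine.Point := by
  obtain ⟨g, e, hg, hco, ha0, hb0, hne, he, hA, hB⟩ := r
  change a ≠ 0 at ha0
  change b ≠ 0 at hb0
  change a ^ 2 ≠ b ^ 2 at hne
  change 3 * e = g ^ 2 * (a ^ 2 + b ^ 2) at he
  change 3 * A = -(g ^ 4 * (a ^ 4 - a ^ 2 * b ^ 2 + b ^ 4)) at hA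
  change 27 * B = g ^ 6 * ((a ^ 2 + b ^ 2) * (2 * a ^ 2 - b ^ 2) * (a ^ 2 - 2 * b ^ 2)) at hB
  have hgq : (g : ℚ) ≠ 0 := by exact_mod_cast hg.ne'
  have heq : (e : ℚ) = (g : ℚ) ^ 2 * ((a : ℚ) ^ 2 + (b : ℚ) ^ 2) / 3 := by
    have : (3 : ℚ) * e = (g : ℚ) ^ 2 * ((a : ℚ) ^ 2 + (b : ℚ) ^ 2) := by exact_mod_cast he
    linarith
  have hAq : (A : ℚ) = -((g : ℚ) ^ 4 * ((a : ℚ) ^ 4 - (a : ℚ) ^ 2 * (b : ℚ) ^ 2 + (b : ℚ) ^ 4)) / 3 := by
    have : (3 : ℚ) * A = -((g : ℚ) ^ 4 * ((a : ℚ) ^ 4 - (a : ℚ) ^ 2 * (b : ℚ) ^ 2 + (b : ℚ) ^ 4)) := by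
      exact_mod_cast hA
    linarith
  have hBq : (B : ℚ) = (g : ℚ) ^ 6 * (((a : ℚ) ^ 2 + (b : ℚ) ^ 2) * (2 * (a : ℚ) ^ 2 - (b : ℚ) ^ 2) *
      ((a : ℚ) ^ 2 - 2 * (b : ℚ) ^ 2)) / 27 := by
    have : (27 : ℚ) * B = (g : ℚ) ^ 6 * (((a : ℚ) ^ 2 + (b : ℚ) ^ 2) *
        (2 * (a : ℚ) ^ 2 - (b : ℚ) ^ 2) * ((a : ℚ) ^ 2 - 2 * (b : ℚ) ^ 2)) := by exact_mod_cast hB
    linarith
  obtain ⟨φ⟩ := h 0 A B e g hgq
  have hW : (⟨0, ((0 : ℚ) + 3 * e) / (g : ℚ) ^ 2, 0,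
      ((A : ℚ) + 2 * e * 0 + 3 * (e : ℚ) ^ 2) / (g : ℚ) ^ 4,
      ((B : ℚ) + e * A + (e : ℚ) ^ 2 * 0 + (e : ℚ) ^ 3) / (g : ℚ) ^ 6⟩ : WeierstrassCurve ℚ)
      = EAB (-(M4 a b)) (-(N4 a b)) := by
    unfold EAB M4 N4
    simp only [WeierstrassCurve.mk.injEq, true_and]
    refine ⟨?_, ?_, ?_⟩
    · rw [heq]; push_cast; field_simp; ring
    · rw [heq, hAq]; push_cast; field_simp; ring
    · rw [heq, hAq, hBq]; field_simp; ring
  rw [hW] at φ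
  exact LinearEquiv.finrank_eq φ.toIntLinearEquiv

end PAR8

open PAR8 in
theorem t_PAR8 : PAR8 := by
  refine ⟨2 ^ 12 * 54, FF8, fun H => ⟨?_, ?_⟩⟩
  · intro c hc c' hc' hcc
    rw [Finset.mem_coe] at hc hc'
    simp only [Cv, Finset.mem_filter] at hc hc'
    obtain ⟨-, hD, -, -, hmin, hT⟩ := hc
    obtain ⟨-, hD', -, -, hmin', hT'⟩ := hc'
    have r := FF8_rel (core8 hD hT)
    have r' := FF8_rel (core8 hD' hT')
    change Rel8 c (FF8 c) at r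
    change Rel8 c' (FF8 c') at r'
    rw [← hcc] at r'
    exact rel_unique r.2 r'.2 hmin hmin'
  · intro c hc
    simp only [Cv, Finset.mem_filter] at hc
    obtain ⟨-, hD, hH, -, hmin, hT⟩ := hc
    have r := FF8_rel (core8 hD hT)
    change Rel8 c (FF8 c) at r
    set uv := FF8 c with huv
    clear_value uv
    obtain ⟨A, B⟩ := c
    obtain ⟨u, v⟩ := uv
    obtain ⟨hco, r⟩ := r
    change IsCoprime u v at hco
    change Rel (A, B) ((2 * u * v) ^ 2, (u ^ 2 - v ^ 2) ^ 2) at r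
    change 4 * |A| ^ 3 ≤ (H : ℤ) at hH
    obtain ⟨hb1, hb2⟩ := rel_bound r hH
    have hf := fin_rel Pool.Agent.W261.RT.iso r
    obtain ⟨g, e, hg, -, ha0, hb0, hne, -, -, -⟩ := r
    change (2 * u * v) ^ 2 ≠ 0 at ha0
    change (u ^ 2 - v ^ 2) ^ 2 ≠ 0 at hb0
    change ((2 * u * v) ^ 2) ^ 2 ≠ ((u ^ 2 - v ^ 2) ^ 2) ^ 2 at hne
    obtain ⟨c1, c2⟩ := bound8 (u := u) (v := v) hb1 hb2
    have hM : M8 u v = M4 ((2 * u * v) ^ 2) ((u ^ 2 - v ^ 2) ^ 2) := by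
      unfold M8 M4; ring
    have hP : P8 u v = N4 ((2 * u * v) ^ 2) ((u ^ 2 - v ^ 2) ^ 2) := by
      unfold P8 N4; ring
    refine ⟨hco, ?_, ?_, ?_, c1, c2, ?_⟩
    · change M8 u v ≠ 0
      rw [hM]; exact pow_ne_zero 2 ha0
    · change P8 u v ≠ 0
      rw [hP]; exact pow_ne_zero 2 hb0
    · change M8 u v ≠ P8 u v
      rw [hM, hP]; exact hne
    · change Module.finrank ℤ (Sh A B).toAffine.Point =
        Module.finrank ℤ (EAB (-(M8 u v)) (-(P8 u v))).toAffine.Point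
      rw [hM, hP]
      exact hf

end Pool.Agent.K6.H34.T8
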