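import Pool.Agent.K6.H34.T8.Stm
import Pool.Agent.W571.RT.Rank2
import Pool.Agent.W571.RT.LocM

/-!
# Project T8, part RANK8: the bound of the rank at a point (helper21, for helper34)

Adapted from `Pool.Agent.W571.RT.Rank2` of the starting library.
-/

set_option autoImplicit false

namespace Pool.Agent.K6.H34.T8.RANK8

open Finset Pool.Agent.W262.RK Pool.Agent.W307.RT Pool.Agent.W571.RT

lemma eA (u v : ℤ) : A8 u v = -((2 * f8 u v 0 * f8 u v 1) ^ 2) ^ 2 := by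
  simp only [A8, f8, Matrix.cons_val]
  ring

lemma eB (u v : ℤ) : B8 u v = -((f8 u v 2 * f8 u v 3) ^ 2) ^ 2 := by
  simp only [B8, f8, Matrix.cons_val]
  ring

lemma eAB (u v : ℤ) : A8 u v - B8 u v = f8 u v 4 ^ 2 * (f8 u v 5 * f8 u v 6) := by
  simp only [A8, B8, f8, Matrix.cons_val]
  ring

lemma A_ne {u v : ℤ} (h0 : ∀ j, f8 u v j ≠ 0) : A8 u v ≠ 0 := by
  rw [eA]
  exact neg_ne_zero.2 (pow_ne_zero _ (pow_ne_zero _ (mul_ne_zero (mul_ne_zero two_ne_zero (h0 0))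
    (h0 1))))

lemma B_ne {u v : ℤ} (h0 : ∀ j, f8 u v j ≠ 0) : B8 u v ≠ 0 := by
  rw [eB]
  exact neg_ne_zero.2 (pow_ne_zero _ (pow_ne_zero _ (mul_ne_zero (h0 2) (h0 3))))

lemma AB_ne {u v : ℤ} (h0 : ∀ j, f8 u v j ≠ 0) : A8 u v ≠ B8 u v := by
  intro h
  have h1 := eAB u v
  rw [h, sub_self] at h1
  exact mul_ne_zero (pow_ne_zero 2 (h0 4)) (mul_ne_zero (h0 5) (h0 6)) h1.symm

lemma two_nd {p : ℕ} (hp : 7 < p) : ¬ (p : ℤ) ∣ 2 := by
  intro h3
  have h4 : p ∣ 2 := by exact_mod_cast h3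
  have h5 := Nat.le_of_dvd (by norm_num) h4
  omega

lemma A_nd {u v : ℤ} {p : ℕ} (hp : p.Prime) (h7 : 7 < p) (h1 : ¬ (p : ℤ) ∣ f8 u v 0)
    (h2 : ¬ (p : ℤ) ∣ f8 u v 1) : ¬ (p : ℤ) ∣ (2 * f8 u v 0 * f8 u v 1) ^ 2 := by
  have hpi : Prime (p : ℤ) := Nat.prime_iff_prime_int.1 hp
  intro h
  rcases hpi.dvd_or_dvd (hpi.dvd_of_dvd_pow h) with h3 | h3
  · rcases hpi.dvd_or_dvd h3 with h4 | h4
    · exact two_nd h7 h4
    · exact h1 h4
  · exact h2 h3

lemma B_nd {u v : ℤ} {p : ℕ} (hp : p.Prime) (h1 : ¬ (p : ℤ) ∣ f8 u v 2)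
    (h2 : ¬ (p : ℤ) ∣ f8 u v 3) : ¬ (p : ℤ) ∣ (f8 u v 2 * f8 u v 3) ^ 2 := by
  have hpi : Prime (p : ℤ) := Nat.prime_iff_prime_int.1 hp
  intro h
  rcases hpi.dvd_or_dvd (hpi.dvd_of_dvd_pow h) with h3 | h3
  · exact h1 h3
  · exact h2 h3

lemma nd_neg_pow {p : ℕ} (hp : p.Prime) {x : ℤ} (h : ¬ (p : ℤ) ∣ x) : ¬ (p : ℤ) ∣ -x ^ 2 := by
  have hpi : Prime (p : ℤ) := Nat.prime_iff_prime_int.1 hp
  rw [dvd_neg]
  exact fun h1 => h (hpi.dvd_of_dvd_pow h1)

/-- a prime that divides exactly once -/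
lemma val1 {p : ℕ} [Fact p.Prime] {x m : ℤ} (h0 : x ≠ 0) (hj : (p : ℤ) ∣ x)
    (hj2 : ¬ (p : ℤ) ^ 2 ∣ x) (hm : ¬ (p : ℤ) ∣ m) : padicValInt p (x * m) = 1 := by
  have hm0 : m ≠ 0 := by
    rintro rfl
    exact hm (dvd_zero _)
  have hv1 : padicValInt p x = 1 := by
    apply le_antisymm
    · by_contra h
      push Not at h
      exact hj2 ((padicValInt_dvd_iff 2 _).2 (Or.inr (by omega)))
    · rcases (padicValInt_dvd_iff (p := p) 1 x).1 (by simpa using hj) with h | h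
      · exact absurd h h0
      · exact h
  rw [padicValInt.mul h0 hm0, hv1, padicValInt.eq_zero_of_not_dvd hm]

/-- a prime that divides a sum of two coprime squares is `1` modulo `4` -/
lemma jac_m1 {u v : ℤ} (huv : IsCoprime u v) {p : ℕ} (hp : p.Prime)
    (h : (p : ℤ) ∣ u ^ 2 + v ^ 2) : jacobiSym (-1) p = 1 := by
  have hpi : Prime (p : ℤ) := Nat.prime_iff_prime_int.1 hp
  have hv : ¬ (p : ℤ) ∣ v := by
    intro hv
    have h1 : (p : ℤ) ∣ u ^ 2 := by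
      have h2 := dvd_sub h (dvd_pow hv (two_ne_zero))
      rwa [add_sub_cancel_right] at h2
    exact hpi.not_isUnit (huv.isUnit_of_dvd' (hpi.dvd_of_dvd_pow h1) hv)
  have hu : ¬ (p : ℤ) ∣ u := by
    intro hu
    have h1 : (p : ℤ) ∣ v ^ 2 := by
      have h2 := dvd_sub h (dvd_pow hu (two_ne_zero))
      rwa [add_sub_cancel_left] at h2
    exact hv (hpi.dvd_of_dvd_pow h1)
  have h1 : (-1 : ℤ) * v ^ 2 ≡ u ^ 2 [ZMOD p] := by
    rw [Int.modEq_iff_dvd]
    have e : u ^ 2 - -1 * v ^ 2 = u ^ 2 + v ^ 2 := by ring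
    rwa [e]
  have h2 : jacobiSym (-1 * v ^ 2) p = 1 := by
    rw [jacobiSym.mod_left' h1]
    exact jac_sq hp hu
  rwa [jacobiSym.mul_left, jac_sq hp hv, mul_one] at h2

lemma fin7 : ∀ j : Fin 7, j = 0 ∨ j = 1 ∨ j = 2 ∨ j = 3 ∨ j = 4 ∨ j = 5 ∨ j = 6 := by decide

lemma k8_abs : ∀ j : Fin 7, (k8 j).natAbs = 1 := by decide

lemma cls8_ne : ∀ j : Fin 7, cls8 j ≠ 3 := by decide

/-- the local hypotheses hold -/
lemma loc8 {z : ℕ} {u v : ℤ} (hz : 7 ≤ z) (huv : IsCoprime u v) (hgd : Gd z (f8 u v)) {p : ℕ}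
    (hp : p.Prime) (hzp : z < p) (j : Fin 7) (hj : (p : ℤ) ∣ f8 u v j)
    (hj2 : ¬ (p : ℤ) ^ 2 ∣ f8 u v j) : LocM (cls8 j) (k8 j) p (A8 u v) (B8 u v) := by
  have : Fact p.Prime := ⟨hp⟩
  have hpi : Prime (p : ℤ) := Nat.prime_iff_prime_int.1 hp
  have h7 : 7 < p := by omega
  have hoth : ∀ l, l ≠ j → ¬ (p : ℤ) ∣ f8 u v l := fun l hl h =>
    hgd.2 p hp hzp l j hl ⟨h, hj⟩
  have hj1 : jacobiSym 1 p = 1 := jacobiSym.one_left p
  have hc := fin7 j
  have c01 : (j = 0 ∨ j = 1) → (p : ℤ) ∣ A8 u v ∧ ¬ (p : ℤ) ∣ B8 u v ∧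
      jacobiSym (1 * (-B8 u v)) p = 1 ∧ (Odd (padicValInt p (A8 u v)) ∨ jacobiSym 1 p = 1) := by
    intro h01
    have hB : ¬ (p : ℤ) ∣ (f8 u v 2 * f8 u v 3) ^ 2 :=
      B_nd hp (hoth 2 (by rcases h01 with rfl | rfl <;> decide))
        (hoth 3 (by rcases h01 with rfl | rfl <;> decide))
    refine ⟨?_, ?_, ?_, Or.inr hj1⟩
    · rw [eA, dvd_neg]
      refine dvd_pow (dvd_pow ?_ two_ne_zero) two_ne_zero
      rcases h01 with rfl | rfl
      · exact (hj.mul_left _).mul_right _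
      · exact hj.mul_left _
    · rw [eB]
      exact nd_neg_pow hp hB
    · rw [eB, neg_neg, one_mul]
      exact jac_sq hp hB
  have c23 : (j = 2 ∨ j = 3) → (p : ℤ) ∣ B8 u v ∧ ¬ (p : ℤ) ∣ A8 u v ∧
      jacobiSym (1 * (-A8 u v)) p = 1 ∧ (Odd (padicValInt p (B8 u v)) ∨ jacobiSym 1 p = 1) := by
    intro h23
    have hA : ¬ (p : ℤ) ∣ (2 * f8 u v 0 * f8 u v 1) ^ 2 :=
      A_nd hp h7 (hoth 0 (by rcases h23 with rfl | rfl <;> decide))
        (hoth 1 (by rcases h23 with rfl | rfl <;> decide))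
    refine ⟨?_, ?_, ?_, Or.inr hj1⟩
    · rw [eB, dvd_neg]
      refine dvd_pow (dvd_pow ?_ two_ne_zero) two_ne_zero
      rcases h23 with rfl | rfl
      · exact hj.mul_right _
      · exact hj.mul_left _
    · rw [eA]
      exact nd_neg_pow hp hA
    · rw [eA, neg_neg, one_mul]
      exact jac_sq hp hA
  have c4 : j = 4 → (p : ℤ) ∣ A8 u v - B8 u v ∧ ¬ (p : ℤ) ∣ A8 u v ∧
      jacobiSym (1 * A8 u v) p = 1 ∧
      (Odd (padicValInt p (A8 u v - B8 u v)) ∨ jacobiSym 1 p = 1) := by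
    rintro rfl
    have hA : ¬ (p : ℤ) ∣ (2 * f8 u v 0 * f8 u v 1) ^ 2 :=
      A_nd hp h7 (hoth 0 (by decide)) (hoth 1 (by decide))
    refine ⟨?_, ?_, ?_, Or.inr hj1⟩
    · rw [eAB]
      exact (dvd_pow hj two_ne_zero).mul_right _
    · rw [eA]
      exact nd_neg_pow hp hA
    · have e : 1 * A8 u v = -1 * ((2 * f8 u v 0 * f8 u v 1) ^ 2) ^ 2 := by
        rw [eA]
        ring
      rw [e, jacobiSym.mul_left, jac_sq hp hA, mul_one]
      apply jac_m1 huv hp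
      have e2 : f8 u v 4 = u ^ 2 + v ^ 2 := by simp only [f8, Matrix.cons_val]
      rwa [e2] at hj
  have c56 : (j = 5 ∨ j = 6) → (p : ℤ) ∣ A8 u v - B8 u v ∧ ¬ (p : ℤ) ∣ A8 u v ∧
      jacobiSym (-1 * A8 u v) p = 1 ∧
      (Odd (padicValInt p (A8 u v - B8 u v)) ∨ jacobiSym (-1) p = 1) := by
    intro h56
    have hA : ¬ (p : ℤ) ∣ (2 * f8 u v 0 * f8 u v 1) ^ 2 :=
      A_nd hp h7 (hoth 0 (by rcases h56 with rfl | rfl <;> decide))
        (hoth 1 (by rcases h56 with rfl | rfl <;> decide))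
    have h4 : ¬ (p : ℤ) ∣ f8 u v 4 ^ 2 := fun h =>
      hoth 4 (by rcases h56 with rfl | rfl <;> decide) (hpi.dvd_of_dvd_pow h)
    refine ⟨?_, ?_, ?_, Or.inl ?_⟩
    · rw [eAB]
      apply Dvd.dvd.mul_left
      rcases h56 with rfl | rfl
      · exact hj.mul_right _
      · exact hj.mul_left _
    · rw [eA]
      exact nd_neg_pow hp hA
    · have e : -1 * A8 u v = ((2 * f8 u v 0 * f8 u v 1) ^ 2) ^ 2 := by
        rw [eA]
        ring
      rw [e]
      exact jac_sq hp hA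
    · rw [eAB]
      rcases h56 with rfl | rfl
      · have e : f8 u v 4 ^ 2 * (f8 u v 5 * f8 u v 6) = f8 u v 5 * (f8 u v 4 ^ 2 * f8 u v 6) := by
          ring
        rw [e, val1 (hgd.1 5) hj hj2]
        · exact odd_one
        · intro h
          rcases hpi.dvd_or_dvd h with h1 | h1
          · exact h4 h1
          · exact hoth 6 (by decide) h1
      · have e : f8 u v 4 ^ 2 * (f8 u v 5 * f8 u v 6) = f8 u v 6 * (f8 u v 4 ^ 2 * f8 u v 5) := by
          ring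
        rw [e, val1 (hgd.1 6) hj hj2]
        · exact odd_one
        · intro h
          rcases hpi.dvd_or_dvd h with h1 | h1
          · exact h4 h1
          · exact hoth 5 (by decide) h1
  unfold LocM
  rcases hc with rfl | rfl | rfl | rfl | rfl | rfl | rfl
  · exact c01 (Or.inl rfl)
  · exact c01 (Or.inr rfl)
  · exact c23 (Or.inl rfl)
  · exact c23 (Or.inr rfl)
  · exact c4 rfl
  · exact c56 (Or.inl rfl)
  · exact c56 (Or.inr rfl)

/-- the number of the primes outside `S1` -/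
lemma bad8 {z y X K : ℕ} (hz : 7 ≤ z) {u v : ℤ} (hy : 1 ≤ y) (h0 : ∀ j, f8 u v j ≠ 0)
    (hb : ∀ j, (f8 u v j).natAbs ≤ X ^ 3) (hK : X < (y + 1) ^ K) :
    ((2 * A8 u v * B8 u v * (A8 u v - B8 u v)).natAbs.primeFactors.filter
        (fun q => ¬ q ∣ ∏ j, S1 z y (f8 u v) j)).card ≤
      z + 21 * K + ∑ j, (S2 z y (f8 u v) j).primeFactors.card := by
  have hsub : ((2 * A8 u v * B8 u v * (A8 u v - B8 u v)).natAbs.primeFactors.filter
        (fun q => ¬ q ∣ ∏ j, S1 z y (f8 u v) j)) ⊆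
      ((Icc 1 z) ∪ univ.biUnion (fun j => (f8 u v j).natAbs.primeFactors.filter (y < ·))) ∪
        univ.biUnion (fun j => (S2 z y (f8 u v) j).primeFactors) := by
    intro q hq
    rw [mem_filter] at hq
    have hp := Nat.prime_of_mem_primeFactors hq.1
    have hdv := Nat.dvd_of_mem_primeFactors hq.1
    rw [mem_union, mem_union, mem_Icc]
    rcases Nat.lt_or_ge z q with h | h
    swap
    · exact Or.inl (Or.inl ⟨hp.one_lt.le, h⟩)
    · have hqi : Prime (q : ℤ) := Nat.prime_iff_prime_int.1 hp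
      have hdv2 : (q : ℤ) ∣ 2 * A8 u v * B8 u v * (A8 u v - B8 u v) := Int.natCast_dvd.2 hdv
      have h2 : ¬ (q : ℤ) ∣ 2 := two_nd (by omega)
      have hk : ∃ l, (q : ℤ) ∣ f8 u v l := by
        rcases hqi.dvd_or_dvd hdv2 with h1 | h1
        · rcases hqi.dvd_or_dvd h1 with h1 | h1
          · rcases hqi.dvd_or_dvd h1 with h1 | h1
            · exact absurd h1 h2
            · rw [eA, dvd_neg] at h1
              rcases hqi.dvd_or_dvd (hqi.dvd_of_dvd_pow (hqi.dvd_of_dvd_pow h1)) with h1 | h1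
              · rcases hqi.dvd_or_dvd h1 with h1 | h1
                · exact absurd h1 h2
                · exact ⟨0, h1⟩
              · exact ⟨1, h1⟩
          · rw [eB, dvd_neg] at h1
            rcases hqi.dvd_or_dvd (hqi.dvd_of_dvd_pow (hqi.dvd_of_dvd_pow h1)) with h1 | h1
            · exact ⟨2, h1⟩
            · exact ⟨3, h1⟩
        · rw [eAB] at h1
          rcases hqi.dvd_or_dvd h1 with h1 | h1
          · exact ⟨4, hqi.dvd_of_dvd_pow h1⟩
          · rcases hqi.dvd_or_dvd h1 with h1 | h1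
            · exact ⟨5, h1⟩
            · exact ⟨6, h1⟩
      obtain ⟨l, hl⟩ := hk
      rcases Nat.lt_or_ge y q with hyq | hyq
      · left; right
        rw [mem_biUnion]
        refine ⟨l, mem_univ _, ?_⟩
        rw [mem_filter, Nat.mem_primeFactors]
        exact ⟨⟨hp, Int.natCast_dvd.1 hl, Int.natAbs_ne_zero.2 (h0 l)⟩, hyq⟩
      · right
        have hPS : q ∈ PS z y := mem_PS.2 ⟨⟨h, hyq⟩, hp⟩
        rw [mem_biUnion]
        refine ⟨l, mem_univ _, ?_⟩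
        have hsq : (q : ℤ) ^ 2 ∣ f8 u v l := by
          by_contra hcon
          apply hq.2
          refine dvd_trans ?_ (dvd_prod_of_mem _ (mem_univ l))
          exact dvd_prod_of_mem _ (mem_filter.2 ⟨hPS, hl, hcon⟩)
        rw [Nat.mem_primeFactors]
        refine ⟨hp, dvd_prod_of_mem _ (mem_filter.2 ⟨hPS, hsq⟩), ?_⟩
        exact prod_ne_zero_iff.2 fun p hp => (mem_PS.1 (mem_filter.1 hp).1).2.ne_zero
  have hone : ∀ j, ((f8 u v j).natAbs.primeFactors.filter (y < ·)).card ≤ 3 * K := by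
    intro j
    set S := (f8 u v j).natAbs.primeFactors.filter (y < ·) with hS
    have h1 : (y + 1) ^ S.card ≤ ∏ q ∈ S, q :=
      Finset.pow_card_le_prod _ _ _ (fun q hq => by
        have := (mem_filter.1 hq).2
        omega)
    have h2 : ∏ q ∈ S, q ∣ (f8 u v j).natAbs :=
      (prod_dvd_prod_of_subset _ _ _ (filter_subset _ _)).trans (Nat.prod_primeFactors_dvd _)
    have h3 : ∏ q ∈ S, q ≤ (f8 u v j).natAbs :=
      Nat.le_of_dvd (Nat.pos_of_ne_zero (Int.natAbs_ne_zero.2 (h0 j))) h2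
    have h4 : (y + 1) ^ S.card < (y + 1) ^ (3 * K) := by
      calc (y + 1) ^ S.card ≤ X ^ 3 := h1.trans (h3.trans (hb j))
        _ < ((y + 1) ^ K) ^ 3 := Nat.pow_lt_pow_left hK (by norm_num)
        _ = (y + 1) ^ (3 * K) := by rw [← pow_mul, mul_comm]
    exact ((Nat.pow_lt_pow_iff_right (by omega)).1 h4).le
  refine (card_le_card hsub).trans ((card_union_le _ _).trans (add_le_add
    ((card_union_le _ _).trans (add_le_add ?_ ?_)) card_biUnion_le))
  · simp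
  · refine card_biUnion_le.trans ?_
    refine (sum_le_sum fun j _ => hone j).trans ?_
    rw [sum_const, card_univ, smul_eq_mul, Fintype.card_fin]
    omega

end Pool.Agent.K6.H34.T8.RANK8

namespace Pool.Agent.K6.H34.T8

open Finset Pool.Agent.W262.RK Pool.Agent.W307.RT Pool.Agent.W571.RT

/-- **RANK8** -/
theorem t_RANK8 (hG : GD8) : RANK8 := by
  intro X y z k u v hz huv h0 hb hX hy hk
  have hgd := hG z u v hz huv h0
  set f := f8 u v with hf
  set s := S1 z y f with hs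
  have hmem : s ∈ Tup (Fin 7) z y := S1_mem (fun p hp hzp j l hjl => hgd.2 p hp hzp j l hjl)
  have hmd : ∏ j, s j ∣ PP z y := Tup_prod_dvd hmem
  have hPSof : ∀ p : ℕ, p.Prime → p ∣ ∏ j, s j → p ∈ PS z y := fun p hp h =>
    (prime_dvd_PP hp).1 (h.trans hmd)
  have hnκ : ∀ p : ℕ, p.Prime → p ∣ ∏ j, s j → ∀ j, ¬ (p : ℤ) ∣ k8 j := by
    intro p hp h j hd
    have h1 := (mem_PS.1 (hPSof p hp h)).1.1
    have h3 := RANK8.k8_abs j
    have h2 := Int.natCast_dvd.1 hd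
    rw [h3] at h2
    have h4 := Nat.le_of_dvd one_pos h2
    omega
  have hodd2 : ∀ p : ℕ, p.Prime → p ∣ ∏ j, s j → p ≠ 2 := by
    intro p hp h
    have h1 := (mem_PS.1 (hPSof p hp h)).1.1
    omega
  have hxc : XCL := Pool.Agent.W342.RK2.xcl
  have hdesc : DESC4 := Pool.Agent.W214.RK2.desc4
  have hd := hdesc (∏ j, s j) (LLs cls8 (fun j _ => k8 j) s ∅)
    (A8 u v) (B8 u v) (RANK8.A_ne h0) (RANK8.B_ne h0) (RANK8.AB_ne h0)
    (by
      rw [← Nat.not_even_iff_odd, even_iff_two_dvd]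
      intro h
      exact hodd2 2 Nat.prime_two h rfl)
    ((PP_squarefree z y).squarefree_of_dvd hmd)
    (fun p hp hpd => ⟨fun j hj => (hxc _ _ _ p hp (hodd2 p hp hpd)
        (fun _ => hnκ p hp hpd j)).1,
      fun a1 b1 c1 d1 a2 b2 c2 d2 e1 e2 j hj =>
        (hxc _ _ _ p hp (hodd2 p hp hpd) (fun _ => hnκ p hp hpd j)).2 a1 b1 c1 d1 a2 b2 c2 d2
          (e1 j hj) (e2 j hj)⟩)
    (fun p hp hpd x x' hx' hcurve e1 e2 he1 he2 hsq1 hsq2 j hj => by
      have hpp : p.Prime := Fact.out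
      have hjs := (S1_dvd_iff hpp).1 hj
      have hzp := (mem_PS.1 hjs.1).1.1
      have hc3 := RANK8.cls8_ne j
      have hfin := Pool.Agent.W571.RT.locm (cls8 j) (k8 j) p (A8 u v) (B8 u v) hc3
        (hodd2 p hpp hpd) (hnκ p hpp hpd j) (RANK8.A_ne h0) (RANK8.B_ne h0) (RANK8.AB_ne h0)
        (RANK8.loc8 hz huv hgd hpp hzp j hjs.2.1 hjs.2.2)
        x x' hx' hcurve e1 e2 he1 he2 hsq1 hsq2
      have hdec : decide (p ∈ (∅ : Finset ℕ)) = false := by simp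
      rw [hdec]
      exact hfin)
  refine hd.trans (Nat.mul_le_mul_right _ ?_)
  have hc := RANK8.bad8 (y := y) hz hy h0 hb hk
  rw [← hf, ← hs] at hc
  calc 4 ^ (((2 * A8 u v * B8 u v *
        (A8 u v - B8 u v)).natAbs.primeFactors.filter (fun q => ¬ q ∣ ∏ j, s j)).card + 2)
      ≤ 4 ^ ((z + 2) + 21 * k + ∑ j, (S2 z y f j).primeFactors.card) :=
        Nat.pow_le_pow_right (by norm_num) (by omega)
    _ = _ := by
        rw [pow_add, pow_add, pow_mul]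

end Pool.Agent.K6.H34.T8
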