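import Pool.Agent.K6.H34.T8.Stm
import Pool.Agent.W21.RK.SVproof

/-!
# Project T8 (helper34), piece SV8 (by helper36): upper bound sieve in a residue class

Adapted from `Pool.Agent.W340.RT.SVR2`.
-/

set_option autoImplicit false

namespace Pool.Agent.K6.H34.T8

open Finset Pool.Agent.W262.RK

namespace SV8p

/-- the forms over a field -/
def fk {K : Type} [Field K] (u v : K) : Fin 7 → K :=
  ![u, v, u - v, u + v, u ^ 2 + v ^ 2, u ^ 2 - 2 * u * v - v ^ 2, u ^ 2 + 2 * u * v - v ^ 2]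

lemma cast_F8 (p : ℕ) [Fact p.Prime] (e u w : ℤ) (j : Fin 7) :
    ((F8 e u w j : ℤ) : ZMod p) = fk (u : ZMod p) (2 * u + e * w) j := by
  fin_cases j <;> simp [F8, f8, fk]

lemma fk_disj' {K : Type} [Field K] (h2 : (2 : K) ≠ 0) {u v : K} (j l : Fin 7) (hjl : j < l)
    (hj : fk u v j = 0) (hl : fk u v l = 0) : u = 0 ∧ v = 0 := by
  have sq0 : ∀ x : K, x ^ 2 = 0 → x = 0 := fun x h => by simpa using h
  have t0 : ∀ x : K, 2 * x = 0 → x = 0 := fun x h => (mul_eq_zero.1 h).resolve_left h2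
  have ts : ∀ x : K, 2 * x ^ 2 = 0 → x = 0 := fun x h => sq0 x (t0 _ h)
  have c0 : fk u v 0 = u := rfl
  have c1 : fk u v 1 = v := rfl
  have c2 : fk u v 2 = u - v := rfl
  have c3 : fk u v 3 = u + v := rfl
  have c4 : fk u v 4 = u ^ 2 + v ^ 2 := rfl
  have c5 : fk u v 5 = u ^ 2 - 2 * u * v - v ^ 2 := rfl
  have c6 : fk u v 6 = u ^ 2 + 2 * u * v - v ^ 2 := rfl
  have p04 : u = 0 → u ^ 2 + v ^ 2 = 0 → u = 0 ∧ v = 0 := fun hj hl =>
    ⟨hj, sq0 v (by linear_combination hl - u * hj)⟩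
  have p05 : u = 0 → u ^ 2 - 2 * u * v - v ^ 2 = 0 → u = 0 ∧ v = 0 := fun hj hl =>
    ⟨hj, sq0 v (by linear_combination -hl + (u - 2 * v) * hj)⟩
  have p14 : v = 0 → u ^ 2 + v ^ 2 = 0 → u = 0 ∧ v = 0 := fun hj hl =>
    ⟨sq0 u (by linear_combination hl - v * hj), hj⟩
  have p15 : v = 0 → u ^ 2 - 2 * u * v - v ^ 2 = 0 → u = 0 ∧ v = 0 := fun hj hl =>
    ⟨sq0 u (by linear_combination hl + (2 * u + v) * hj), hj⟩
  have p24 : u - v = 0 → u ^ 2 + v ^ 2 = 0 → u = 0 ∧ v = 0 := fun hj hl =>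
    ⟨ts u (by linear_combination hl + (u + v) * hj), ts v (by linear_combination hl - (u + v) * hj)⟩
  have p34 : u + v = 0 → u ^ 2 + v ^ 2 = 0 → u = 0 ∧ v = 0 := fun hj hl =>
    ⟨ts u (by linear_combination hl + (u - v) * hj), ts v (by linear_combination hl - (u - v) * hj)⟩
  fin_cases j <;> fin_cases l
  all_goals first
    | (exfalso; revert hjl; decide)
    | skip
  · exact ⟨hj, hl⟩
  · rw [show fk u v _ = u - v from rfl] at hl
    rw [show fk u v _ = u from rfl] at hj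
    exact ⟨hj, by linear_combination hj - hl⟩
  · rw [show fk u v _ = u + v from rfl] at hl
    rw [show fk u v _ = u from rfl] at hj
    exact ⟨hj, by linear_combination hl - hj⟩
  · exact p04 hj hl
  · exact p05 hj hl
  · rw [show fk u v _ = u ^ 2 + 2 * u * v - v ^ 2 from rfl] at hl
    rw [show fk u v _ = u from rfl] at hj
    exact ⟨hj, sq0 v (by linear_combination -hl + (u + 2 * v) * hj)⟩
  · rw [show fk u v _ = u - v from rfl] at hl
    rw [show fk u v _ = v from rfl] at hj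
    exact ⟨by linear_combination hl + hj, hj⟩
  · rw [show fk u v _ = u + v from rfl] at hl
    rw [show fk u v _ = v from rfl] at hj
    exact ⟨by linear_combination hl - hj, hj⟩
  · exact p14 hj hl
  · exact p15 hj hl
  · rw [show fk u v _ = u ^ 2 + 2 * u * v - v ^ 2 from rfl] at hl
    rw [show fk u v _ = v from rfl] at hj
    exact ⟨sq0 u (by linear_combination hl + (-2 * u + v) * hj), hj⟩
  · rw [show fk u v _ = u + v from rfl] at hl
    rw [show fk u v _ = u - v from rfl] at hj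
    exact ⟨t0 u (by linear_combination hj + hl), t0 v (by linear_combination hl - hj)⟩
  · exact p24 hj hl
  · rw [show fk u v _ = u ^ 2 - 2 * u * v - v ^ 2 from rfl] at hl
    rw [show fk u v _ = u - v from rfl] at hj
    exact ⟨ts u (by linear_combination -hl + (3 * u + v) * hj),
      ts v (by linear_combination -hl + (u - v) * hj)⟩
  · rw [show fk u v _ = u ^ 2 + 2 * u * v - v ^ 2 from rfl] at hl
    rw [show fk u v _ = u - v from rfl] at hj
    exact ⟨ts u (by linear_combination hl + (u - v) * hj),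
      ts v (by linear_combination hl - (3 * v + u) * hj)⟩
  · exact p34 hj hl
  · rw [show fk u v _ = u ^ 2 - 2 * u * v - v ^ 2 from rfl] at hl
    rw [show fk u v _ = u + v from rfl] at hj
    exact ⟨ts u (by linear_combination hl + (u + v) * hj),
      ts v (by linear_combination hl + (3 * v - u) * hj)⟩
  · rw [show fk u v _ = u ^ 2 + 2 * u * v - v ^ 2 from rfl] at hl
    rw [show fk u v _ = u + v from rfl] at hj
    exact ⟨ts u (by linear_combination -hl + (3 * u - v) * hj),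
      ts v (by linear_combination -hl + (u + v) * hj)⟩
  · rw [show fk u v _ = u ^ 2 - 2 * u * v - v ^ 2 from rfl] at hl
    rw [show fk u v _ = u ^ 2 + v ^ 2 from rfl] at hj
    have h : v * (u + v) = 0 := t0 _ (by linear_combination hj - hl)
    rcases mul_eq_zero.1 h with h | h
    · exact p14 h hj
    · exact p34 h hj
  · rw [show fk u v _ = u ^ 2 + 2 * u * v - v ^ 2 from rfl] at hl
    rw [show fk u v _ = u ^ 2 + v ^ 2 from rfl] at hj
    have h : v * (u - v) = 0 := t0 _ (by linear_combination hl - hj)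
    rcases mul_eq_zero.1 h with h | h
    · exact p14 h hj
    · exact p24 h hj
  · rw [show fk u v _ = u ^ 2 + 2 * u * v - v ^ 2 from rfl] at hl
    rw [show fk u v _ = u ^ 2 - 2 * u * v - v ^ 2 from rfl] at hj
    have h : u * v = 0 := t0 _ (t0 _ (by linear_combination hl - hj))
    rcases mul_eq_zero.1 h with h | h
    · exact p05 h hj
    · exact p15 h hj

lemma fk_disj {K : Type} [Field K] (h2 : (2 : K) ≠ 0) {u v : K} {j l : Fin 7} (hjl : j ≠ l)
    (hj : fk u v j = 0) (hl : fk u v l = 0) : u = 0 ∧ v = 0 := by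
  rcases lt_or_gt_of_ne hjl with h | h
  · exact fk_disj' h2 j l h hj hl
  · exact fk_disj' h2 l j h hl hj

section count

variable {p : ℕ} [Fact p.Prime]

lemma card_lin (g : ZMod p → ZMod p) (α β : ZMod p) (hα : α ≠ 0) (h : ∀ x, g x = α * x + β) :
    (univ.filter (fun x => g x = 0)).card = 1 := by
  rw [card_eq_one]
  refine ⟨-β / α, ?_⟩
  ext x
  rw [mem_filter, mem_singleton, h]
  constructor
  · rintro ⟨_, hx⟩
    rw [eq_div_iff hα]
    linear_combination hx
  · rintro rfl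
    refine ⟨mem_univ _, ?_⟩
    field_simp
    ring

lemma card_quad (hp2 : p ≠ 2) (a : ℤ) (g : ZMod p → ZMod p) (α β w c : ZMod p) (hα : α ≠ 0)
    (hw : w ≠ 0) (hc : c ≠ 0) (h : ∀ x, c * g x = (α * x + β) ^ 2 - a * w ^ 2) :
    ((univ.filter (fun x => g x = 0)).card : ℤ) = legendreSym p a + 1 := by
  rw [← legendreSym.card_sqrts p hp2 a]
  congr 1
  apply card_bij (fun x _ => (α * x + β) / w)
  · intro x hx
    rw [mem_filter] at hx
    have h1 := h x
    rw [hx.2, mul_zero] at h1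
    rw [Set.mem_toFinset, Set.mem_ofPred_eq, div_pow, div_eq_iff (pow_ne_zero 2 hw)]
    linear_combination -h1
  · intro x _ y _ hxy
    have h1 : α * x + β = α * y + β := by
      field_simp at hxy
      exact hxy
    have h2 : α * (x - y) = 0 := by linear_combination h1
    rcases mul_eq_zero.1 h2 with h3 | h3
    · exact absurd h3 hα
    · linear_combination h3
  · intro y hy
    rw [Set.mem_toFinset, Set.mem_ofPred_eq] at hy
    refine ⟨(y * w - β) / α, ?_, ?_⟩
    · rw [mem_filter]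
      refine ⟨mem_univ _, ?_⟩
      have h1 := h ((y * w - β) / α)
      have h2 : α * ((y * w - β) / α) + β = y * w := by
        field_simp
        ring
      rw [h2, mul_pow, hy] at h1
      have h3 : c * g ((y * w - β) / α) = 0 := by rw [h1]; ring
      exact (mul_eq_zero.1 h3).resolve_left hc
    · have h2 : α * ((y * w - β) / α) + β = y * w := by
        field_simp
        ring
      rw [h2]
      field_simp

lemma nat_ne {k : ℕ} (hk : 0 < k) (hkp : k < p) : ((k : ℕ) : ZMod p) ≠ 0 := by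
  rw [Ne, ZMod.natCast_eq_zero_iff]
  intro h
  exact absurd (Nat.le_of_dvd hk h) (by omega)

/-- the number of the roots -/
lemma card_roots (hp : 22 < p) (e w : ZMod p) (he : e ^ 2 = 1) (hw : w ≠ 0) :
    ((univ.filter (fun x : ZMod p => ∃ j, fk x (2 * x + e * w) j = 0)).card : ℤ) =
      7 + legendreSym p (-1) + 2 * legendreSym p 2 := by
  have n2 : (2 : ZMod p) ≠ 0 := by exact_mod_cast nat_ne (p := p) (k := 2) (by norm_num) (by omega)
  have n3 : (3 : ZMod p) ≠ 0 := by exact_mod_cast nat_ne (p := p) (k := 3) (by norm_num) (by omega)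
  have n5 : (5 : ZMod p) ≠ 0 := by exact_mod_cast nat_ne (p := p) (k := 5) (by norm_num) (by omega)
  have n7 : (7 : ZMod p) ≠ 0 := by exact_mod_cast nat_ne (p := p) (k := 7) (by norm_num) (by omega)
  have he0 : e ≠ 0 := by
    rintro rfl
    norm_num at he
  have hU : univ.filter (fun x : ZMod p => ∃ j, fk x (2 * x + e * w) j = 0) =
      (univ : Finset (Fin 7)).biUnion
        (fun j => univ.filter (fun x : ZMod p => fk x (2 * x + e * w) j = 0)) := by
    ext x
    simp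
  rw [hU, card_biUnion]
  · rw [Fin.sum_univ_seven]
    have c0 := card_lin (fun x : ZMod p => fk x (2 * x + e * w) 0) 1 0 one_ne_zero
      (fun x => by show x = _; ring)
    have c1 := card_lin (fun x : ZMod p => fk x (2 * x + e * w) 1) 2 (e * w) n2
      (fun x => by show 2 * x + e * w = _; ring)
    have c2 := card_lin (fun x : ZMod p => fk x (2 * x + e * w) 2) (-1) (-(e * w))
      (neg_ne_zero.2 one_ne_zero) (fun x => by show x - (2 * x + e * w) = _; ring)
    have c3 := card_lin (fun x : ZMod p => fk x (2 * x + e * w) 3) 3 (e * w) n3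
      (fun x => by show x + (2 * x + e * w) = _; ring)
    have c4 := card_quad (by omega) (-1) (fun x : ZMod p => fk x (2 * x + e * w) 4) 5 (2 * e * w) w 5
      n5 hw n5 (fun x => by
        show 5 * (x ^ 2 + (2 * x + e * w) ^ 2) = _
        push_cast
        linear_combination w ^ 2 * he)
    have c5 := card_quad (by omega) 2 (fun x : ZMod p => fk x (2 * x + e * w) 5) 7 (3 * e * w) w (-7)
      n7 hw (neg_ne_zero.2 n7) (fun x => by
        show (-7) * (x ^ 2 - 2 * x * (2 * x + e * w) - (2 * x + e * w) ^ 2) = _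
        push_cast
        linear_combination (-2) * w ^ 2 * he)
    have c6 := card_quad (by omega) 2 (fun x : ZMod p => fk x (2 * x + e * w) 6) 1 (-(e * w)) w 1
      one_ne_zero hw one_ne_zero (fun x => by
        show 1 * (x ^ 2 + 2 * x * (2 * x + e * w) - (2 * x + e * w) ^ 2) = _
        push_cast
        linear_combination (-2) * w ^ 2 * he)
    push_cast
    rw [c0, c1, c2, c3, c4, c5, c6]
    push_cast
    ring
  · intro j _ l _ hjl
    rw [Function.onFun, disjoint_left]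
    intro x hx hx'
    rw [mem_filter] at hx hx'
    obtain ⟨h1, h2⟩ := fk_disj n2 hjl hx.2 hx'.2
    rw [h1] at h2
    have h3 : e * w = 0 := by linear_combination h2
    rcases mul_eq_zero.1 h3 with h | h
    · exact he0 h
    · exact hw h

end count

/-- the number of the excluded residue classes, real -/
noncomputable def nup (p : ℕ) : ℝ := 7 + Jr (-1) p + 2 * Jr 2 p

/-- the sieving condition -/
def QM8 (e w : ℤ) (z y : ℕ) (r : ℤ) (m M : ℕ) (p n : ℕ) : Prop :=
  p ∈ PS z y ∧ ¬ p ∣ M ∧ ∃ j, (p : ℤ) ∣ F8 e (r + m * ((n : ℤ) - 1)) w j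

lemma jac_bd (a : ℤ) (p : ℕ) : |Jr a p| ≤ 1 := by
  unfold Jr
  rcases jacobiSym.trichotomy a p with h | h | h <;> rw [h] <;> norm_num

lemma nup_le (p : ℕ) : nup p ≤ 10 := by
  have h1 := (abs_le.1 (jac_bd (-1) p)).2
  have h2 := (abs_le.1 (jac_bd 2 p)).2
  unfold nup
  linarith

lemma nup_ge (p : ℕ) : 4 ≤ nup p := by
  have h1 := (abs_le.1 (jac_bd (-1) p)).1
  have h2 := (abs_le.1 (jac_bd 2 p)).1
  unfold nup
  linarith

lemma F8_dvd_iff {p : ℕ} (hp : p.Prime) (e w t : ℤ) (j : Fin 7) :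
    (p : ℤ) ∣ F8 e t w j ↔ (haveI := Fact.mk hp; fk (t : ZMod p) (2 * t + e * w) j = 0) := by
  have := Fact.mk hp
  rw [← ZMod.intCast_zmod_eq_zero_iff_dvd, cast_F8]

lemma QM8_per (e w : ℤ) (z y : ℕ) (r : ℤ) (m M : ℕ) (p n : ℕ) :
    QM8 e w z y r m M p n ↔ QM8 e w z y r m M p (n % p) := by
  unfold QM8
  refine and_congr_right fun hp => and_congr_right fun _ => exists_congr fun j => ?_
  have hpp := (Pool.Agent.W21.RK.mem_PS.1 hp).2
  have := Fact.mk hpp
  rw [F8_dvd_iff hpp, F8_dvd_iff hpp]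
  push_cast
  exact Iff.rfl

/-- the number of the excluded residue classes -/
lemma nu8_eq {e w : ℤ} (he : e = 1 ∨ e = -1) {z y : ℕ} {r : ℤ} {m M p : ℕ} (hz : 22 ≤ z)
    (hp : p ∈ PS z y) (hpM : ¬ p ∣ M) (hmM : m ∣ M) (hpw : ¬ (p : ℤ) ∣ w) :
    ((Pool.Agent.H373R2.T7.nuB (QM8 e w z y r m M) p : ℕ) : ℝ) = nup p := by
  classical
  have hpp := (Pool.Agent.W21.RK.mem_PS.1 hp).2
  have hpz := (Pool.Agent.W21.RK.mem_PS.1 hp).1.1
  have := Fact.mk hpp
  have hm' : (m : ZMod p) ≠ 0 := by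
    rw [Ne, ZMod.natCast_eq_zero_iff]
    exact fun h => hpM (h.trans hmM)
  have hw' : (w : ZMod p) ≠ 0 := fun h => hpw ((ZMod.intCast_zmod_eq_zero_iff_dvd _ _).1 h)
  have he' : (e : ZMod p) ^ 2 = 1 := by
    rcases he with rfl | rfl <;> push_cast <;> ring
  have hcard : Pool.Agent.H373R2.T7.nuB (QM8 e w z y r m M) p =
      (univ.filter (fun x : ZMod p => ∃ j, fk x (2 * x + (e : ZMod p) * w) j = 0)).card := by
    unfold Pool.Agent.H373R2.T7.nuB
    apply card_bij (fun (n : ℕ) _ => (r : ZMod p) + m * ((n : ZMod p) - 1))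
    · intro n hn
      rw [mem_filter] at hn ⊢
      obtain ⟨_, _, j, hj⟩ := hn.2
      rw [F8_dvd_iff hpp] at hj
      refine ⟨mem_univ _, j, ?_⟩
      push_cast at hj
      exact hj
    · intro n hn n' hn' heq
      rw [mem_filter, mem_range] at hn hn'
      have h1 : (m : ZMod p) * ((n : ZMod p) - n') = 0 := by linear_combination heq
      have h2 : (n : ZMod p) = n' := by
        rcases mul_eq_zero.1 h1 with h | h
        · exact absurd h hm'
        · linear_combination h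
      have := (ZMod.natCast_eq_natCast_iff' n n' p).1 h2
      rwa [Nat.mod_eq_of_lt hn.1, Nat.mod_eq_of_lt hn'.1] at this
    · intro x hx
      rw [mem_filter] at hx
      obtain ⟨_, j, hj⟩ := hx
      refine ⟨((x - r) / m + 1 : ZMod p).val, ?_, ?_⟩
      · rw [mem_filter, mem_range]
        refine ⟨ZMod.val_lt _, hp, hpM, j, ?_⟩
        rw [F8_dvd_iff hpp]
        push_cast
        rw [ZMod.natCast_val, ZMod.cast_id]
        have h1 : (r : ZMod p) + m * ((x - r) / m + 1 - 1) = x := by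
          field_simp
          ring
        rw [h1]
        exact hj
      · rw [ZMod.natCast_val, ZMod.cast_id]
        field_simp
        ring
  have h1 := card_roots (p := p) (by omega) (e : ZMod p) (w : ZMod p) he' hw'
  have h2 : ((Pool.Agent.H373R2.T7.nuB (QM8 e w z y r m M) p : ℕ) : ℤ) =
      7 + legendreSym p (-1) + 2 * legendreSym p 2 := by
    rw [hcard]
    exact h1
  have h3 : ((Pool.Agent.H373R2.T7.nuB (QM8 e w z y r m M) p : ℕ) : ℝ) =
      ((7 + legendreSym p (-1) + 2 * legendreSym p 2 : ℤ) : ℝ) := by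
    rw [← h2]
    push_cast
    rfl
  rw [h3]
  unfold nup Jr
  rw [← jacobiSym.legendreSym.to_jacobiSym, ← jacobiSym.legendreSym.to_jacobiSym]
  push_cast
  ring

open Classical in
lemma count_le (e w : ℤ) (z y X m M r : ℕ) (_hm : 0 < m) :
    ((Icc 1 X).filter (fun t : ℕ => t ≡ r [MOD m] ∧ ∀ p ∈ PS z y, ¬ p ∣ M →
      ∀ j, ¬ (p : ℤ) ∣ F8 e t w j)).card ≤
      ((Icc 1 (X / m + 1)).filter
        (fun n : ℕ => ∀ p ∈ Pool.Agent.H373R2.T7.pz y,
          ¬ QM8 e w z y ((r % m : ℕ) : ℤ) m M p n)).card := by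
  apply card_le_card_of_injOn (fun t => t / m + 1)
  · intro t ht
    have ht' := Finset.mem_coe.1 ht
    have htX := mem_Icc.1 (mem_filter.1 ht').1
    obtain ⟨hmod, hnd⟩ := (mem_filter.1 ht').2
    rw [Finset.mem_coe, mem_filter, mem_Icc]
    refine ⟨⟨Nat.le_add_left 1 _, Nat.succ_le_succ (Nat.div_le_div_right htX.2)⟩, fun p _ hQ => ?_⟩
    obtain ⟨hpPS, hpm, j, hj⟩ := hQ
    have e : ((r % m : ℕ) : ℤ) + (m : ℤ) * (((t / m + 1 : ℕ) : ℤ) - 1) = (t : ℤ) := by
      have h1 : t % m = r % m := hmod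
      rw [← h1]
      have := Nat.mod_add_div t m
      push_cast
      zify at this
      linarith
    rw [e] at hj
    exact hnd p hpPS hpm j hj
  · intro a ha b hb hab
    have ha' : a % m = r % m := (mem_filter.1 (Finset.mem_coe.1 ha)).2.1
    have hb' : b % m = r % m := (mem_filter.1 (Finset.mem_coe.1 hb)).2.1
    simp only at hab
    have h1 : a / m = b / m := by omega
    rw [← Nat.mod_add_div a m, ← Nat.mod_add_div b m, ha', hb', h1]

lemma prod_le8 (hmrt : MRT) (z : ℕ) (hz : 22 ≤ z) : ∃ C : ℝ, 0 < C ∧ ∀ y : ℕ, 3 ≤ y → z < y →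
    ∏ p ∈ PS z y, (1 - nup p / p) ≤ C / (Real.log y) ^ 7 := by
  obtain ⟨C0, hC0⟩ := Pool.Agent.Helper256.KM.mertens_inv
  obtain ⟨Cm, hCm⟩ := hmrt
  set S0 : ℝ := ∑ p ∈ (Finset.Icc 1 z).filter Nat.Prime, (1 : ℝ) / p with hS0
  refine ⟨Real.exp (7 * (C0 + S0) + 3 * Cm), Real.exp_pos _, fun y hy hzy => ?_⟩
  have hm := (abs_le.1 (hC0 y hy)).1
  have hm1 := (abs_le.1 (hCm (-1) (by simp) z y (by omega))).1
  have hm2 := (abs_le.1 (hCm 2 (by simp) z y (by omega))).1
  have hyr : (3 : ℝ) ≤ y := by exact_mod_cast hy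
  have hl1 : 1 < Real.log y := by
    rw [Real.lt_log_iff_exp_lt (by linarith)]
    have := Real.exp_one_lt_d9
    linarith
  have hsplit : ∑ p ∈ (Finset.Icc 1 y).filter Nat.Prime, (1 : ℝ) / p = S0 + ∑ p ∈ PS z y, (1 : ℝ) / p := by
    rw [hS0, ← sum_union]
    · congr 1
      ext p
      rw [mem_union, mem_filter, mem_filter, mem_Icc, mem_Icc, Pool.Agent.W21.RK.mem_PS]
      constructor
      · rintro ⟨⟨h1, h2⟩, h3⟩
        rcases Nat.lt_or_ge z p with h | h
        · exact Or.inr ⟨⟨h, h2⟩, h3⟩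
        · exact Or.inl ⟨⟨h1, h⟩, h3⟩
      · rintro (⟨⟨h1, h2⟩, h3⟩ | ⟨⟨h1, h2⟩, h3⟩)
        · exact ⟨⟨h1, by omega⟩, h3⟩
        · exact ⟨⟨by omega, h2⟩, h3⟩
    · rw [disjoint_left]
      intro p hp hp'
      rw [mem_filter, mem_Icc] at hp
      rw [Pool.Agent.W21.RK.mem_PS] at hp'
      omega
  have h1 : ∏ p ∈ PS z y, (1 - nup p / p) ≤ ∏ p ∈ PS z y, Real.exp (-(nup p / p)) := by
    apply prod_le_prod
    · intro p hp
      have hp' := (Pool.Agent.W21.RK.mem_PS.1 hp).1.1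
      have hp0 : (0 : ℝ) < p := by exact_mod_cast (Pool.Agent.W21.RK.mem_PS.1 hp).2.pos
      have hcp : (10 : ℝ) ≤ p := by exact_mod_cast (by omega : 10 ≤ p)
      rw [sub_nonneg, div_le_one hp0]
      linarith [nup_le p]
    · intro p _
      have := Real.add_one_le_exp (-(nup p / p))
      linarith
  refine h1.trans ?_
  rw [← Real.exp_sum, sum_neg_distrib]
  have h2 : ∑ p ∈ PS z y, nup p / p = 7 * ∑ p ∈ PS z y, (1 : ℝ) / p +
      ∑ p ∈ PS z y, Jr (-1) p / (p : ℝ) + 2 * ∑ p ∈ PS z y, Jr 2 p / (p : ℝ) := by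
    rw [mul_sum, mul_sum, ← sum_add_distrib, ← sum_add_distrib]
    refine sum_congr rfl fun p _ => ?_
    unfold nup
    ring
  rw [h2]
  have h3 : Real.log (Real.log y) - C0 - S0 ≤ ∑ p ∈ PS z y, (1 : ℝ) / p := by linarith
  have h4 : Real.log y ^ 7 = Real.exp (7 * Real.log (Real.log y)) := by
    have := Real.log_pow (Real.log y) 7
    push_cast at this
    rw [← this, Real.exp_log (by positivity)]
  rw [h4, ← Real.exp_sub]
  apply Real.exp_le_exp.2
  linarith

end SV8p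

open SV8p

set_option maxHeartbeats 1000000 in
theorem t_SV8 (h : MRT) : SV8 := by
  classical
  intro e he
  refine ⟨22, fun z hz => ?_⟩
  obtain ⟨K', x0', hK', hF⟩ := Pool.Agent.H373R2.T7.sys_fund (10 + 1) (by omega) 1 one_pos
  obtain ⟨C1, hC1, hP⟩ := prod_le8 h z hz
  refine ⟨4 * C1 + 1, 2 * (K' + 7), max x0' 3, by positivity, by omega,
    fun X y hy hzy hyX w m M r hm1 hmM hM0 hmX4 hBg => ?_⟩
  have hy0 : x0' ≤ y := (le_max_left _ _).trans hy
  have hy3 : 3 ≤ y := (le_max_right _ _).trans hy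
  have hmpos : 0 < m := hm1
  have hm0 : m ≠ 0 := hmpos.ne'
  have hr := count_le e w z y X m M r hmpos
  have hnu : ∀ p ∈ PS z y, ¬ p ∣ M →
      ((Pool.Agent.H373R2.T7.nuB (QM8 e w z y ((r % m : ℕ) : ℤ) m M) p : ℕ) : ℝ) = nup p :=
    fun p hp hpm => nu8_eq he hz hp hpm hmM (hBg p hp hpm)
  have hnu0 : ∀ p, ¬ (p ∈ PS z y ∧ ¬ p ∣ M) →
      Pool.Agent.H373R2.T7.nuB (QM8 e w z y ((r % m : ℕ) : ℤ) m M) p = 0 := by
    intro p hp
    unfold Pool.Agent.H373R2.T7.nuB
    rw [card_eq_zero, filter_eq_empty_iff]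
    intro n _ hn
    exact hp ⟨hn.1, hn.2.1⟩
  have hPer : Pool.Agent.H373R2.T7.PerB (QM8 e w z y ((r % m : ℕ) : ℤ) m M) (10 + 1) := by
    refine ⟨fun p n => QM8_per e w z y _ m M p n, fun p _ => ?_⟩
    by_cases h : p ∈ PS z y ∧ ¬ p ∣ M
    · have h1 := hnu p h.1 h.2
      have h2 := nup_le p
      rw [← h1] at h2
      have h3 : Pool.Agent.H373R2.T7.nuB (QM8 e w z y ((r % m : ℕ) : ℤ) m M) p ≤ 10 := by
        exact_mod_cast h2
      omega
    · rw [hnu0 p h]
      exact Nat.zero_le _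
  have hfund := hF (y ^ K') y hy0 le_rfl (QM8 e w z y ((r % m : ℕ) : ℤ) m M) hPer (X / m + 1)
  have hprod : ∏ p ∈ Pool.Agent.H373R2.T7.pz y,
      (1 - ((Pool.Agent.H373R2.T7.nuB (QM8 e w z y ((r % m : ℕ) : ℤ) m M) p : ℕ) : ℝ) / p) =
      ∏ p ∈ (PS z y).filter (fun p => ¬ p ∣ M), (1 - nup p / p) := by
    have h1 : ∏ p ∈ (PS z y).filter (fun p => ¬ p ∣ M),
        (1 - ((Pool.Agent.H373R2.T7.nuB (QM8 e w z y ((r % m : ℕ) : ℤ) m M) p : ℕ) : ℝ) / p) =
        ∏ p ∈ Pool.Agent.H373R2.T7.pz y,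
      (1 - ((Pool.Agent.H373R2.T7.nuB (QM8 e w z y ((r % m : ℕ) : ℤ) m M) p : ℕ) : ℝ) / p) := by
      apply prod_subset
      · intro p hp
        rw [mem_filter, Pool.Agent.W21.RK.mem_PS] at hp
        exact Pool.Agent.H373R2.T7.mem_pz.2 ⟨hp.1.1.2, hp.1.2⟩
      · intro p _ hp
        rw [mem_filter] at hp
        rw [hnu0 p hp]
        simp
    rw [← h1]
    refine prod_congr rfl fun p hp => ?_
    rw [mem_filter] at hp
    rw [hnu p hp.1 hp.2]
  rw [hprod] at hfund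
  obtain ⟨A, hA⟩ : ∃ A : ℝ, A = ∏ p ∈ (PS z y).filter (fun p => ¬ p ∣ M), (1 - nup p / p) :=
    ⟨_, rfl⟩
  obtain ⟨B, hB⟩ : ∃ B : ℝ, B = ∏ p ∈ M.primeFactors.filter (fun p => p ∈ PS z y),
    (1 - nup p / p) := ⟨_, rfl⟩
  obtain ⟨D, hD⟩ : ∃ D : ℝ, D = ∏ p ∈ M.primeFactors.filter (fun p => p ∈ PS z y),
    ((p : ℝ) / ((p : ℝ) - 10)) := ⟨_, rfl⟩
  have hzc : ∀ p ∈ PS z y, (22 : ℝ) < p := by
    intro p hp
    have h1 := (Pool.Agent.W21.RK.mem_PS.1 hp).1.1
    exact_mod_cast (by omega : 22 < p)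
  have hfpos : ∀ p ∈ PS z y, 0 < 1 - nup p / p := by
    intro p hp
    have h1 := hzc p hp
    have hp0 : (0 : ℝ) < p := by linarith
    rw [sub_pos, div_lt_one hp0]
    linarith [nup_le p]
  have hApos : 0 < A := by
    rw [hA]; exact prod_pos fun p hp => hfpos p (mem_filter.1 hp).1
  have hBpos : 0 < B := by
    rw [hB]; exact prod_pos fun p hp => hfpos p (mem_filter.1 hp).2
  have hAB : A * B = ∏ p ∈ PS z y, (1 - nup p / p) := by
    have h1 : M.primeFactors.filter (fun p => p ∈ PS z y) = (PS z y).filter (fun p => ¬ ¬ p ∣ M) := by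
      ext p
      rw [mem_filter, mem_filter, not_not]
      constructor
      · rintro ⟨hp, hp2⟩
        exact ⟨hp2, Nat.dvd_of_mem_primeFactors hp⟩
      · rintro ⟨h2, h3⟩
        exact ⟨Nat.mem_primeFactors.2 ⟨(Pool.Agent.W21.RK.mem_PS.1 h2).2, h3, hM0⟩, h2⟩
    rw [hA, hB, h1]
    exact prod_filter_mul_prod_filter_not _ _ _
  have hDB : 1 ≤ D * B := by
    rw [hD, hB, ← prod_mul_distrib]
    have h1 : ∀ p ∈ M.primeFactors.filter (fun p => p ∈ PS z y),
        (1 : ℝ) ≤ (p : ℝ) / ((p : ℝ) - 10) * (1 - nup p / p) := by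
      intro p hp
      have h1 := hzc p (mem_filter.1 hp).2
      have hp0 : (0 : ℝ) < p := by linarith
      have h2 : 0 < (p : ℝ) - 10 := by linarith
      have h3 : (p : ℝ) / ((p : ℝ) - 10) * (1 - nup p / p) = ((p : ℝ) - nup p) / ((p : ℝ) - 10) := by
        field_simp
      rw [h3, le_div_iff₀ h2]
      linarith [nup_le p]
    calc (1 : ℝ) = ∏ p ∈ M.primeFactors.filter (fun p => p ∈ PS z y), (1 : ℝ) := by
          rw [prod_const_one]
      _ ≤ _ := prod_le_prod (fun _ _ => zero_le_one) h1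
  have hD1 : 1 ≤ D := by
    rw [hD]
    have h1 : ∀ p ∈ M.primeFactors.filter (fun p => p ∈ PS z y),
        (1 : ℝ) ≤ (p : ℝ) / ((p : ℝ) - 10) := by
      intro p hp
      have h1 := hzc p (mem_filter.1 hp).2
      have h2 : 0 < (p : ℝ) - 10 := by linarith
      rw [le_div_iff₀ h2]
      linarith
    calc (1 : ℝ) = ∏ p ∈ M.primeFactors.filter (fun p => p ∈ PS z y), (1 : ℝ) := by
          rw [prod_const_one]
      _ ≤ _ := prod_le_prod (fun _ _ => zero_le_one) h1
  have hDpos : 0 < D := by linarith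
  have hAle : A ≤ (C1 / (Real.log y) ^ 7) * D := by
    have h1 : A ≤ (A * B) * D := by
      calc A = A * 1 := (mul_one A).symm
        _ ≤ A * (D * B) := mul_le_mul_of_nonneg_left hDB hApos.le
        _ = _ := by ring
    refine h1.trans ?_
    rw [hAB]
    exact mul_le_mul_of_nonneg_right (hP y hy3 hzy) hDpos.le
  have hyr : (3 : ℝ) ≤ y := by exact_mod_cast hy3
  have hl1 : 1 < Real.log y := by
    rw [Real.lt_log_iff_exp_lt (by linarith)]
    have := Real.exp_one_lt_d9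
    linarith
  have hly : Real.log y ≤ y := by
    have := Real.log_le_sub_one_of_pos (by linarith : (0 : ℝ) < y)
    linarith
  have hLpos : 0 < (Real.log y) ^ 7 := by positivity
  have hmX : m * y ^ (K' + 7) ≤ X := by
    have h1 : (m * y ^ (K' + 7)) ^ 4 ≤ X ^ 4 := by
      calc (m * y ^ (K' + 7)) ^ 4 = m ^ 4 * (y ^ (K' + 7)) ^ 4 := by rw [mul_pow]
        _ ≤ m ^ 4 * (y ^ (K' + 7)) ^ 6 := by
          apply Nat.mul_le_mul_left
          exact Nat.pow_le_pow_right (pow_pos (by omega) _) (by norm_num)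
        _ = m ^ 4 * (y ^ (2 * (K' + 7))) ^ 3 := by ring
        _ ≤ X * X ^ 3 := Nat.mul_le_mul hmX4 (Nat.pow_le_pow_left hyX 3)
        _ = X ^ 4 := by ring
    exact (Nat.pow_le_pow_iff_left (by norm_num)).1 h1
  have hmX' : m ≤ X := by
    refine le_trans ?_ hmX
    exact Nat.le_mul_of_pos_right _ (pow_pos (by omega) _)
  have hmr : (0 : ℝ) < m := by exact_mod_cast hmpos
  have hcnt : (((Icc 1 X).filter (fun t : ℕ => t ≡ r [MOD m] ∧ ∀ p ∈ PS z y, ¬ p ∣ M →
      ∀ j, ¬ (p : ℤ) ∣ F8 e t w j)).card : ℝ) ≤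
      2 * (((X / m + 1 : ℕ) : ℝ) * A) + √((y ^ K' : ℕ) : ℝ) := by
    have h1 : (((Icc 1 X).filter (fun t : ℕ => t ≡ r [MOD m] ∧ ∀ p ∈ PS z y, ¬ p ∣ M →
        ∀ j, ¬ (p : ℤ) ∣ F8 e t w j)).card : ℝ) ≤
      (((Icc 1 (X / m + 1)).filter
        (fun n : ℕ => ∀ p ∈ Pool.Agent.H373R2.T7.pz y,
          ¬ QM8 e w z y ((r % m : ℕ) : ℤ) m M p n)).card : ℝ) := by
      exact_mod_cast hr
    have h2 := (abs_le.1 hfund).2
    rw [one_mul, ← hA] at h2
    linarith
  have hX' : ((X / m + 1 : ℕ) : ℝ) ≤ 2 * (X / m) := by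
    have h1 : (X / m + 1) * m ≤ 2 * X := by
      have := Nat.div_mul_le_self X m
      rw [add_mul, one_mul]
      omega
    have h2 : ((X / m + 1 : ℕ) : ℝ) * m ≤ 2 * X := by exact_mod_cast h1
    rw [← mul_div_assoc, le_div_iff₀ hmr]
    exact h2
  have hsq : √((y ^ K' : ℕ) : ℝ) ≤ (X / m) * D / (Real.log y) ^ 7 := by
    have h1 : (1 : ℝ) ≤ ((y ^ K' : ℕ) : ℝ) := by
      exact_mod_cast Nat.one_le_iff_ne_zero.2 (pow_ne_zero _ (by omega))
    have h2 : √((y ^ K' : ℕ) : ℝ) ≤ ((y ^ K' : ℕ) : ℝ) := by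
      rw [Real.sqrt_le_left (by linarith)]
      nlinarith
    refine h2.trans ?_
    rw [le_div_iff₀ hLpos]
    have h3 : (Real.log y) ^ 7 ≤ (y : ℝ) ^ 7 := pow_le_pow_left₀ (by linarith) hly _
    have h4 : (m : ℝ) * (y : ℝ) ^ (K' + 7) ≤ X := by exact_mod_cast hmX
    have h5 : (y : ℝ) ^ (K' + 7) ≤ X / m := by
      rw [le_div_iff₀ hmr, mul_comm]
      exact h4
    push_cast
    calc (y : ℝ) ^ K' * (Real.log y) ^ 7 ≤ (y : ℝ) ^ K' * (y : ℝ) ^ 7 :=
          mul_le_mul_of_nonneg_left h3 (by positivity)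
      _ = (y : ℝ) ^ (K' + 7) := by rw [pow_add]
      _ ≤ X / m := h5
      _ = (X / m) * 1 := (mul_one _).symm
      _ ≤ (X / m) * D := mul_le_mul_of_nonneg_left hD1 (by positivity)
  have hmain : 2 * (((X / m + 1 : ℕ) : ℝ) * A) ≤ 4 * C1 * (X / m) * D / (Real.log y) ^ 7 := by
    calc 2 * (((X / m + 1 : ℕ) : ℝ) * A) ≤
        2 * ((2 * (X / m)) * ((C1 / (Real.log y) ^ 7) * D)) := by gcongr
      _ = _ := by ring
  rw [← hD]
  calc (((Icc 1 X).filter (fun t : ℕ => t ≡ r [MOD m] ∧ ∀ p ∈ PS z y, ¬ p ∣ M →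
      ∀ j, ¬ (p : ℤ) ∣ F8 e t w j)).card : ℝ)
      ≤ 2 * (((X / m + 1 : ℕ) : ℝ) * A) + √((y ^ K' : ℕ) : ℝ) := hcnt
    _ ≤ 4 * C1 * (X / m) * D / (Real.log y) ^ 7 + (X / m) * D / (Real.log y) ^ 7 :=
        add_le_add hmain hsq
    _ = (4 * C1 + 1) * (X / m) * D / (Real.log y) ^ 7 := by ring

end Pool.Agent.K6.H34.T8
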