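import Pool.Agent.K6.H34.T8.Mar8
import Pool.Agent.K6.H34.T8.Main8
import Pool.Agent.K6.H34.T8.P_CNT8
import Pool.Agent.K6.H34.T8.P_EPR
import Pool.Agent.K6.H34.T8.P_FULLC
import Pool.Agent.K6.H34.T8.P_GD8
import Pool.Agent.K6.H34.T8.P_LOW8
import Pool.Agent.K6.H34.T8.P_PAR8
import Pool.Agent.K6.H34.T8.P_RANK8
import Pool.Agent.K6.H34.T8.P_SV8
import Pool.Agent.K6.H34.T8.P_AVG8
import Pool.Agent.K6.H34.T8.P_BOX8
import Pool.Agent.K6.H34.T8.MR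
import Pool.Agent.W307.RT.Tors
import Pool.Agent.W29.RT.LOW4
import Pool.Agent.W655.RK.Blw
import Pool.Agent.W37.RK.BL2
import Pool.Agent.W505.RK.LS

/-! Project T8: assembly. -/

set_option autoImplicit false

namespace Pool.Agent.K6.H34.T8

open Finset Pool.Agent.W262.RK Pool.Agent.W307.RT

/-- the average of the local counts -/
theorem mar8 : MAR8 :=
  mar8_of (t_RATR (Pool.Agent.W655.RK.blw_of (_root_.W37.RK.bl_of Pool.Agent.W505.RK.ls)) t_EPR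
    (t_FULLC t_MRT) Pool.Agent.W586.RK.UB.ub t_MRT t_FSR) t_EXP8 t_COMB8 t_SUB8 t_MARC

/-- the average over the coprime pairs -/
theorem box8 : BOX8 :=
  t_BOX8 (t_AVG8 mar8 (t_CNT8 (t_SV8 t_MRT) t_GD8) t_SUB8 (t_RANK8 t_GD8) t_GD8)

/-- the average over the curves -/
theorem main8 : ∃ C : ℝ, ∀ H : ℕ, ∑ c ∈ Cv 8 H,
    (2 : ℝ) ^ Module.finrank ℤ (Sh c.1 c.2).toAffine.Point ≤ C * (Cv 8 H).card :=
  main8_of t_PAR8 t_LOW8 box8

end Pool.Agent.K6.H34.T8
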