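import Pool.Agent.K6.H34.T8.Stm
import Pool.Agent.H304R2.EC.MertAbs
import Pool.Agent.W586.RK.UB

/-! Project T8: Mertens' theorem for the characters modulo `8` (`MRT`). Uses `mert_abs`
(`Pool.Agent.H304R2.EC.MertAbs`, starting library). -/

set_option autoImplicit false

namespace Pool.Agent.K6.H34.T8

open Finset Filter Topology Pool.Agent.W262.RK

namespace MR

/-- non-prime prime powers -/
noncomputable def npr (n : ℕ) : ℝ := (if n.Prime then 0 else ArithmeticFunction.vonMangoldt n) / n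

lemma npr_nonneg (n : ℕ) : 0 ≤ npr n := by
  unfold npr
  apply div_nonneg _ (Nat.cast_nonneg n)
  split_ifs
  · exact le_rfl
  · exact ArithmeticFunction.vonMangoldt_nonneg

lemma npr_summable : Summable npr := by
  have h := ArithmeticFunction.vonMangoldt.summable_residueClass_non_primes_div (q := 1) 0
  refine h.congr fun n => ?_
  unfold npr
  congr 2
  rw [ArithmeticFunction.vonMangoldt.residueClass, Set.indicator_of_mem]
  exact Subsingleton.elim _ _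

/-- the weights on the primes -/
noncomputable def pw (G : ℕ → ℝ) (n : ℕ) : ℝ := if n.Prime then Real.log n * G n / n else 0

lemma prim (G : ℕ → ℝ) (hG : ∀ n, |G n| ≤ 1)
    (h : ∃ C : ℝ, ∀ N : ℕ, |∑ d ∈ Icc 1 N, ArithmeticFunction.vonMangoldt d * G d / d| ≤ C) :
    ∃ C : ℝ, 0 ≤ C ∧ ∀ z y : ℕ, 2 ≤ z → |∑ p ∈ PS z y, G p / (p : ℝ)| ≤ C := by
  obtain ⟨C, hC⟩ := h
  set S : ℝ := ∑' n, npr n with hS
  have hS0 : 0 ≤ S := tsum_nonneg npr_nonneg
  have hC0 : 0 ≤ C := (abs_nonneg _).trans (hC 0)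
  have h1 : ∀ N : ℕ, |∑ n ∈ Icc 1 N, pw G n| ≤ C + S := by
    intro N
    have e1 : |∑ n ∈ Icc 1 N, (pw G n - ArithmeticFunction.vonMangoldt n * G n / n)| ≤ S := by
      refine (abs_sum_le_sum_abs _ _).trans ((sum_le_sum fun n _ => ?_).trans
        (npr_summable.sum_le_tsum (Icc 1 N) fun n _ => npr_nonneg n))
      unfold pw npr
      by_cases hp : n.Prime
      · rw [if_pos hp, if_pos hp, ArithmeticFunction.vonMangoldt_apply_prime hp, sub_self]
        simp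
      · rw [if_neg hp, if_neg hp, zero_sub, abs_neg, abs_div, abs_mul,
          abs_of_nonneg ArithmeticFunction.vonMangoldt_nonneg,
          abs_of_nonneg (Nat.cast_nonneg n : (0 : ℝ) ≤ (n : ℝ))]
        apply div_le_div_of_nonneg_right _ (Nat.cast_nonneg n)
        have := mul_le_mul_of_nonneg_left (hG n)
          (ArithmeticFunction.vonMangoldt_nonneg (n := n))
        linarith
    rw [sum_sub_distrib] at e1
    have e2 := hC N
    rw [abs_le] at e1 e2 ⊢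
    constructor <;> linarith [e1.1, e1.2, e2.1, e2.2]
  refine ⟨2 * (C + S) * (1 / Real.log 2), by
    have := Real.log_pos (by norm_num : (1 : ℝ) < 2)
    positivity, fun z y hz => ?_⟩
  have hl2 := Real.log_pos (by norm_num : (1 : ℝ) < 2)
  rcases Nat.lt_or_ge y z with hyz | hyz
  · have : PS z y = ∅ := by
      unfold PS
      rw [Ioc_eq_empty (by omega), filter_empty]
    rw [this, sum_empty, abs_zero]
    positivity
  have hw : ∀ n, z + 1 ≤ n → (fun n : ℕ => 1 / Real.log n) (n + 1) ≤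
      (fun n : ℕ => 1 / Real.log n) n := by
    intro n hn
    have hn2 : (1 : ℝ) < n := by exact_mod_cast (by omega : 1 < n)
    apply one_div_le_one_div_of_le (Real.log_pos hn2)
    apply Real.log_le_log (by linarith)
    push_cast
    linarith
  have hf : ∀ N, z + 1 ≤ N → |∑ n ∈ Ico (z + 1) N, pw G n| ≤ 2 * (C + S) := by
    intro N hN
    have e1 : ∑ n ∈ Icc 1 (N - 1), pw G n = ∑ n ∈ Icc 1 z, pw G n +
        ∑ n ∈ Ico (z + 1) N, pw G n := by
      have e2 : Icc 1 (N - 1) = Ico 1 N := by ext n; simp only [mem_Icc, mem_Ico]; omega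
      have e3 : Icc 1 z = Ico 1 (z + 1) := by ext n; simp only [mem_Icc, mem_Ico]; omega
      rw [e2, e3, sum_Ico_consecutive _ (by omega) hN]
    have e2 := h1 (N - 1)
    have e3 := h1 z
    rw [abs_le] at e2 e3 ⊢
    constructor <;> linarith [e2.1, e2.2, e3.1, e3.2]
  have hA := Pool.Agent.W586.RK.UB.abel_aux (fun n : ℕ => 1 / Real.log n) (pw G) (z + 1)
    (2 * (C + S)) hw hf (y + 1) (by omega)
  have hF := hf (y + 1) (by omega)
  have e4 : ∑ n ∈ Ico (z + 1) (y + 1), (fun n : ℕ => 1 / Real.log n) n * pw G n =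
      ∑ p ∈ PS z y, G p / (p : ℝ) := by
    unfold PS
    rw [sum_filter]
    have e5 : Ico (z + 1) (y + 1) = Ioc z y := by ext n; simp only [mem_Ioc, mem_Ico]; omega
    rw [e5]
    apply sum_congr rfl
    intro n hn
    rw [mem_Ioc] at hn
    unfold pw
    split_ifs with hp
    · have hl : Real.log n ≠ 0 := (Real.log_pos (by exact_mod_cast hp.one_lt)).ne'
      field_simp
    · simp
  rw [e4] at hA
  have hy1 : (0 : ℝ) ≤ 1 / Real.log ((y + 1 : ℕ) : ℝ) := by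
    apply div_nonneg (by norm_num)
    apply Real.log_nonneg
    push_cast
    linarith [(Nat.cast_nonneg y : (0 : ℝ) ≤ y)]
  have hz1 : 1 / Real.log ((z + 1 : ℕ) : ℝ) ≤ 1 / Real.log 2 := by
    apply one_div_le_one_div_of_le hl2
    apply Real.log_le_log (by norm_num)
    exact_mod_cast (by omega : 2 ≤ z + 1)
  have hB0 : 0 ≤ 2 * (C + S) := by positivity
  have h5 : |(1 / Real.log ((y + 1 : ℕ) : ℝ)) * ∑ n ∈ Ico (z + 1) (y + 1), pw G n| ≤
      (1 / Real.log ((y + 1 : ℕ) : ℝ)) * (2 * (C + S)) := by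
    rw [abs_mul, abs_of_nonneg hy1]
    exact mul_le_mul_of_nonneg_left hF hy1
  have h6 := mul_le_mul_of_nonneg_left hz1 hB0
  rw [abs_le] at hA h5 ⊢
  constructor
  · nlinarith [hA.1, hA.2, h5.1, h5.2, h6]
  · nlinarith [hA.1, hA.2, h5.1, h5.2, h6]

/-- a completely multiplicative function with bounded partial sums and positive sums -/
lemma mert (G : ℕ → ℝ) (hG : ∀ n, |G n| ≤ 1) (hm : ∀ m n, G (m * n) = G m * G n)
    (hS : ∀ N : ℕ, |∑ n ∈ Icc 1 N, G n| ≤ 2) (c : ℝ) (hc : 0 < c)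
    (hp : ∀ K : ℕ, c ≤ ∑ n ∈ Icc 1 (8 * K + 8), G n / n) :
    ∃ C : ℝ, 0 ≤ C ∧ ∀ z y : ℕ, 2 ≤ z → |∑ p ∈ PS z y, G p / (p : ℝ)| ≤ C := by
  apply prim G hG
  have e0 : ∀ N : ℕ, ∑ n ∈ Icc 1 N, G n / n =
      ∑ i ∈ range N, (1 / ((i : ℝ) + 1)) • G (i + 1) := by
    intro N
    induction N with
    | zero => simp
    | succ N ih =>
      rw [sum_Icc_succ_top (by omega), ih, sum_range_succ]
      congr 1
      rw [smul_eq_mul]
      push_cast
      ring
  have hb : ∀ n : ℕ, ‖∑ i ∈ range n, G (i + 1)‖ ≤ 2 := by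
    intro n
    have : ∑ i ∈ range n, G (i + 1) = ∑ i ∈ Icc 1 n, G i := by
      induction n with
      | zero => simp
      | succ n ih => rw [sum_range_succ, ih, sum_Icc_succ_top (by omega)]
    rw [this]
    exact hS n
  have hanti : Antitone (fun i : ℕ => 1 / ((i : ℝ) + 1)) := by
    intro a b hab
    apply one_div_le_one_div_of_le (by positivity)
    have : (a : ℝ) ≤ b := by exact_mod_cast hab
    linarith
  obtain ⟨L, hL⟩ := cauchySeq_tendsto_of_complete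
    (hanti.cauchySeq_series_mul_of_tendsto_zero_of_bounded tendsto_one_div_add_atTop_nhds_zero_nat
      hb)
  have hL' : Tendsto (fun N : ℕ => ∑ n ∈ Icc 1 N, G n / n) atTop (𝓝 L) := by
    simp only [e0]
    exact hL
  have hsub : Tendsto (fun K : ℕ => 8 * K + 8) atTop atTop := by
    apply tendsto_atTop_mono (fun K => (by omega : K ≤ 8 * K + 8)) tendsto_id
  have hLc : c ≤ L := ge_of_tendsto' (hL'.comp hsub) hp
  apply Pool.Agent.H304R2.EC.mert_abs G G 2 L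
  · intro n
    linarith [hG n]
  · intro n hn
    have h1 : ∀ d ∈ n.divisors, ArithmeticFunction.vonMangoldt d * G d * G (n / d) =
        ArithmeticFunction.vonMangoldt d * G n := by
      intro d hd
      rw [mul_assoc, ← hm, Nat.mul_div_cancel' (Nat.dvd_of_mem_divisors hd)]
    rw [Finset.sum_congr rfl h1, ← Finset.sum_mul, ArithmeticFunction.vonMangoldt_sum]
    ring
  · intro N
    rcases Nat.eq_zero_or_pos N with rfl | hN
    · simp
    · have h1 : (1 : ℝ) ≤ Real.sqrt N := by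
        rw [Real.one_le_sqrt]
        exact_mod_cast hN
      linarith [hS N]
  · exact hL'
  · exact (hc.trans_le hLc).ne'

/-- `χ₄` -/
noncomputable def g4 (n : ℕ) : ℝ := ((ZMod.χ₄ (n : ZMod 4) : ℤ) : ℝ)

/-- `χ₈` -/
noncomputable def g8 (n : ℕ) : ℝ := ((ZMod.χ₈ (n : ZMod 8) : ℤ) : ℝ)

/-- `χ₈'` -/
noncomputable def h8 (n : ℕ) : ℝ := ((ZMod.χ₈' (n : ZMod 8) : ℤ) : ℝ)

lemma g4_val (n : ℕ) : g4 n = if n % 8 = 1 ∨ n % 8 = 5 then 1 else
    if n % 8 = 3 ∨ n % 8 = 7 then -1 else 0 := by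
  unfold g4
  rw [ZMod.χ₄_nat_eq_if_mod_four]
  split_ifs <;> first | omega | simp

lemma g8_val (n : ℕ) : g8 n = if n % 8 = 1 ∨ n % 8 = 7 then 1 else
    if n % 8 = 3 ∨ n % 8 = 5 then -1 else 0 := by
  unfold g8
  rw [ZMod.χ₈_nat_eq_if_mod_eight]
  split_ifs <;> first | omega | simp

lemma h8_val (n : ℕ) : h8 n = if n % 8 = 1 ∨ n % 8 = 3 then 1 else
    if n % 8 = 5 ∨ n % 8 = 7 then -1 else 0 := by
  unfold h8
  rw [ZMod.χ₈'_nat_eq_if_mod_eight]
  split_ifs <;> first | omega | simp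

lemma g4_mul (m n : ℕ) : g4 (m * n) = g4 m * g4 n := by
  unfold g4
  rw [Nat.cast_mul, map_mul]
  push_cast
  ring

lemma g8_mul (m n : ℕ) : g8 (m * n) = g8 m * g8 n := by
  unfold g8
  rw [Nat.cast_mul, map_mul]
  push_cast
  ring

lemma h8_mul (m n : ℕ) : h8 (m * n) = h8 m * h8 n := by
  unfold h8
  rw [Nat.cast_mul, map_mul]
  push_cast
  ring

lemma g4_abs (n : ℕ) : |g4 n| ≤ 1 := by
  rw [g4_val]
  split_ifs <;> simp

lemma g8_abs (n : ℕ) : |g8 n| ≤ 1 := by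
  rw [g8_val]
  split_ifs <;> simp

lemma h8_abs (n : ℕ) : |h8 n| ≤ 1 := by
  rw [h8_val]
  split_ifs <;> simp

/-- the partial sums of a function given by its values modulo `8` -/
lemma psum (G : ℕ → ℝ) (a b c d : ℝ)
    (h1 : ∀ n, n % 8 = 1 → G n = a) (h3 : ∀ n, n % 8 = 3 → G n = b)
    (h5 : ∀ n, n % 8 = 5 → G n = c) (h7 : ∀ n, n % 8 = 7 → G n = d)
    (h0 : ∀ n, n % 2 = 0 → G n = 0) (hs : a + b + c + d = 0) (N : ℕ) :
    ∑ n ∈ Icc 1 N, G n = if N % 8 = 0 ∨ N % 8 = 7 then 0 else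
      if N % 8 = 1 ∨ N % 8 = 2 then a else if N % 8 = 3 ∨ N % 8 = 4 then a + b else a + b + c := by
  induction N with
  | zero => simp
  | succ N ih =>
    rw [sum_Icc_succ_top (by omega), ih]
    have h : N % 8 = 0 ∨ N % 8 = 1 ∨ N % 8 = 2 ∨ N % 8 = 3 ∨ N % 8 = 4 ∨ N % 8 = 5 ∨ N % 8 = 6 ∨
      N % 8 = 7 := by omega
    rcases h with h | h | h | h | h | h | h | h
    · have e : (N + 1) % 8 = 1 := by omega
      rw [h1 _ e, h, e]; norm_num
    · have e : (N + 1) % 8 = 2 := by omega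
      rw [h0 _ (by omega), h, e]; norm_num
    · have e : (N + 1) % 8 = 3 := by omega
      rw [h3 _ e, h, e]; norm_num
    · have e : (N + 1) % 8 = 4 := by omega
      rw [h0 _ (by omega), h, e]; norm_num
    · have e : (N + 1) % 8 = 5 := by omega
      rw [h5 _ e, h, e]; norm_num
    · have e : (N + 1) % 8 = 6 := by omega
      rw [h0 _ (by omega), h, e]; norm_num
    · have e : (N + 1) % 8 = 7 := by omega
      rw [h7 _ e, h, e]; norm_num; linarith
    · have e : (N + 1) % 8 = 0 := by omega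
      rw [h0 _ (by omega), h, e]; norm_num

/-- the blocks -/
lemma block (G : ℕ → ℝ) (a b c d : ℝ)
    (h1 : ∀ n, n % 8 = 1 → G n = a) (h3 : ∀ n, n % 8 = 3 → G n = b)
    (h5 : ∀ n, n % 8 = 5 → G n = c) (h7 : ∀ n, n % 8 = 7 → G n = d)
    (h0 : ∀ n, n % 2 = 0 → G n = 0) (K : ℕ) :
    ∑ n ∈ Icc 1 (8 * K + 8), G n / n = ∑ n ∈ Icc 1 (8 * K), G n / n +
      (a / (8 * K + 1) + b / (8 * K + 3) + c / (8 * K + 5) + d / (8 * K + 7)) := by
  rw [sum_Icc_succ_top (by omega), sum_Icc_succ_top (by omega), sum_Icc_succ_top (by omega),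
    sum_Icc_succ_top (by omega), sum_Icc_succ_top (by omega), sum_Icc_succ_top (by omega),
    sum_Icc_succ_top (by omega), sum_Icc_succ_top (by omega),
    h1 (8 * K + 1) (by omega), h0 (8 * K + 1 + 1) (by omega), h3 (8 * K + 1 + 1 + 1) (by omega),
    h0 (8 * K + 1 + 1 + 1 + 1) (by omega), h5 (8 * K + 1 + 1 + 1 + 1 + 1) (by omega),
    h0 (8 * K + 1 + 1 + 1 + 1 + 1 + 1) (by omega), h7 (8 * K + 1 + 1 + 1 + 1 + 1 + 1 + 1) (by omega),
    h0 (8 * K + 1 + 1 + 1 + 1 + 1 + 1 + 1 + 1) (by omega)]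
  push_cast
  simp only [zero_div, add_zero]
  ring_nf

lemma lower (G : ℕ → ℝ) (a b c d : ℝ)
    (h1 : ∀ n, n % 8 = 1 → G n = a) (h3 : ∀ n, n % 8 = 3 → G n = b)
    (h5 : ∀ n, n % 8 = 5 → G n = c) (h7 : ∀ n, n % 8 = 7 → G n = d)
    (h0 : ∀ n, n % 2 = 0 → G n = 0)
    (hpos : ∀ x : ℝ, 0 ≤ x → 0 ≤ a / (x + 1) + b / (x + 3) + c / (x + 5) + d / (x + 7)) (K : ℕ) :
    a + b / 3 + c / 5 + d / 7 ≤ ∑ n ∈ Icc 1 (8 * K + 8), G n / n := by
  induction K with
  | zero =>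
    rw [block G a b c d h1 h3 h5 h7 h0]
    simp
  | succ K ih =>
    rw [block G a b c d h1 h3 h5 h7 h0 (K + 1)]
    have h := hpos (8 * ((K + 1 : ℕ) : ℝ)) (by positivity)
    have e : 8 * (K + 1) = 8 * K + 8 := by ring
    rw [e]
    linarith

lemma gen (G : ℕ → ℝ) (a b c d : ℝ) (hG : ∀ n, |G n| ≤ 1) (hm : ∀ m n, G (m * n) = G m * G n)
    (h1 : ∀ n, n % 8 = 1 → G n = a) (h3 : ∀ n, n % 8 = 3 → G n = b)
    (h5 : ∀ n, n % 8 = 5 → G n = c) (h7 : ∀ n, n % 8 = 7 → G n = d)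
    (h0 : ∀ n, n % 2 = 0 → G n = 0) (hs : a + b + c + d = 0)
    (ha : |a| ≤ 2) (hab : |a + b| ≤ 2) (habc : |a + b + c| ≤ 2)
    (hpos : ∀ x : ℝ, 0 ≤ x → 0 ≤ a / (x + 1) + b / (x + 3) + c / (x + 5) + d / (x + 7))
    (hc : 0 < a + b / 3 + c / 5 + d / 7) :
    ∃ C : ℝ, 0 ≤ C ∧ ∀ z y : ℕ, 2 ≤ z → |∑ p ∈ PS z y, G p / (p : ℝ)| ≤ C := by
  refine mert G hG hm (fun N => ?_) _ hc (lower G a b c d h1 h3 h5 h7 h0 hpos)
  rw [psum G a b c d h1 h3 h5 h7 h0 hs N]
  split_ifs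
  · norm_num
  · exact ha
  · exact hab
  · exact habc

lemma m4 : ∃ C : ℝ, 0 ≤ C ∧ ∀ z y : ℕ, 2 ≤ z → |∑ p ∈ PS z y, g4 p / (p : ℝ)| ≤ C := by
  refine gen g4 1 (-1) 1 (-1) g4_abs g4_mul ?_ ?_ ?_ ?_ ?_ ?_ ?_ ?_ ?_ ?_ ?_
  · intro n hn; rw [g4_val, hn]; norm_num
  · intro n hn; rw [g4_val, hn]; norm_num
  · intro n hn; rw [g4_val, hn]; norm_num
  · intro n hn; rw [g4_val, hn]; norm_num
  · intro n hn; rw [g4_val, if_neg (by omega), if_neg (by omega)]
  · norm_num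
  · norm_num
  · norm_num
  · norm_num
  · intro x hx
    have e : 1 / (x + 1) + -1 / (x + 3) + 1 / (x + 5) + -1 / (x + 7) =
        2 / ((x + 1) * (x + 3)) + 2 / ((x + 5) * (x + 7)) := by
      field_simp
      ring
    rw [e]
    positivity
  · norm_num

lemma m8 : ∃ C : ℝ, 0 ≤ C ∧ ∀ z y : ℕ, 2 ≤ z → |∑ p ∈ PS z y, g8 p / (p : ℝ)| ≤ C := by
  refine gen g8 1 (-1) (-1) 1 g8_abs g8_mul ?_ ?_ ?_ ?_ ?_ ?_ ?_ ?_ ?_ ?_ ?_
  · intro n hn; rw [g8_val, hn]; norm_num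
  · intro n hn; rw [g8_val, hn]; norm_num
  · intro n hn; rw [g8_val, hn]; norm_num
  · intro n hn; rw [g8_val, hn]; norm_num
  · intro n hn; rw [g8_val, if_neg (by omega), if_neg (by omega)]
  · norm_num
  · norm_num
  · norm_num
  · norm_num
  · intro x hx
    have e : 1 / (x + 1) + -1 / (x + 3) + -1 / (x + 5) + 1 / (x + 7) =
        16 * (x + 4) / ((x + 1) * (x + 3) * (x + 5) * (x + 7)) := by
      field_simp
      ring
    rw [e]
    positivity
  · norm_num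

lemma m8' : ∃ C : ℝ, 0 ≤ C ∧ ∀ z y : ℕ, 2 ≤ z → |∑ p ∈ PS z y, h8 p / (p : ℝ)| ≤ C := by
  refine gen h8 1 1 (-1) (-1) h8_abs h8_mul ?_ ?_ ?_ ?_ ?_ ?_ ?_ ?_ ?_ ?_ ?_
  · intro n hn; rw [h8_val, hn]; norm_num
  · intro n hn; rw [h8_val, hn]; norm_num
  · intro n hn; rw [h8_val, hn]; norm_num
  · intro n hn; rw [h8_val, hn]; norm_num
  · intro n hn; rw [h8_val, if_neg (by omega), if_neg (by omega)]
  · norm_num
  · norm_num
  · norm_num
  · norm_num
  · intro x hx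
    have e : 1 / (x + 1) + 1 / (x + 3) + -1 / (x + 5) + -1 / (x + 7) =
        4 / ((x + 1) * (x + 5)) + 4 / ((x + 3) * (x + 7)) := by
      field_simp
      ring
    rw [e]
    positivity
  · norm_num

end MR

open MR in
theorem t_MRT : MRT := by
  obtain ⟨C1, hC1, h1⟩ := m4
  obtain ⟨C2, hC2, h2⟩ := m8
  obtain ⟨C3, hC3, h3⟩ := m8'
  refine ⟨C1 + C2 + C3, fun a ha z y hz => ?_⟩
  have hodd : ∀ p ∈ PS z y, Odd p := by
    intro p hp
    unfold PS at hp
    rw [mem_filter, mem_Ioc] at hp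
    exact hp.2.odd_of_ne_two (by omega)
  simp only [mem_insert, mem_singleton] at ha
  rcases ha with rfl | rfl | rfl
  · have e : ∑ p ∈ PS z y, Jr (-1) p / (p : ℝ) = ∑ p ∈ PS z y, g4 p / (p : ℝ) := by
      apply sum_congr rfl
      intro p hp
      unfold Jr g4
      rw [jacobiSym.at_neg_one (hodd p hp)]
    rw [e]
    linarith [h1 z y hz]
  · have e : ∑ p ∈ PS z y, Jr 2 p / (p : ℝ) = ∑ p ∈ PS z y, g8 p / (p : ℝ) := by
      apply sum_congr rfl
      intro p hp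
      unfold Jr g8
      rw [jacobiSym.at_two (hodd p hp)]
    rw [e]
    linarith [h2 z y hz]
  · have e : ∑ p ∈ PS z y, Jr (-2) p / (p : ℝ) = ∑ p ∈ PS z y, h8 p / (p : ℝ) := by
      apply sum_congr rfl
      intro p hp
      unfold Jr h8
      rw [jacobiSym.at_neg_two (hodd p hp)]
    rw [e]
    linarith [h3 z y hz]

end Pool.Agent.K6.H34.T8
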