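import Pool.Agent.K6.H34.T8.Stm

set_option autoImplicit false

namespace Pool.Agent.K6.H34.T8

open Finset Pool.Agent.W262.RK Pool.Agent.W307.RT

namespace COMB8

abbrev I := I4 cls8

/-- type of an index -/
def ty (i : I) : Bool × Bool := (decide (i.1.2.1 ≠ (false, false)), decide (i.1.2.2 ≠ (false, false)))

/-- in `NN8` -/
def nb (i : I) : Bool :=
  decide (a8 i.1.1 = 2 ∧ i.1.2.1 ≠ (false, false) ∧ i.1.2.2 ≠ (false, false))

/-- in `QN` -/
def qb (i : I) : Bool :=
  decide (nb i = false ∧ ∀ n : I, nb n = true → L4 cls8 i n = false ∧ L4 cls8 n i = false)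

theorem d1 : ∀ i : I, L4 cls8 i i = false := by decide +kernel

theorem d2 : ∀ i : I, κ4 cls8 (fun j _ => k8 j) i ≠ 0 := by decide +kernel

theorem d3 : ∀ n : I, nb n = true → κ4 cls8 (fun j _ => k8 j) n = -1 ∧ a8 n.1.1 = 2 := by
  decide +kernel

theorem d4 : ∀ n : I, nb n = true → ∀ m : I, nb m = true → L4 cls8 n m = false := by
  decide +kernel

theorem d5 : ∀ i : I, qb i = true → ∀ j : I, qb j = true → L4 cls8 i j = false := by
  decide +kernel

theorem d6 : (univ.filter (fun i : I => qb i = true)).card ≤ 14 := by decide +kernel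

theorem d8 : ∀ b : I, nb b = false → qb b = false →
    (univ.filter (fun i : I => (qb i = true ∨ nb i = true) ∧ L4 cls8 i b = L4 cls8 b i)).card < 14 := by
  decide +kernel

/-- unlinked indices of different classes -/
theorem d9 : ∀ i j : I, L4 cls8 i j = L4 cls8 j i → cls8 i.1.1 ≠ cls8 j.1.1 →
    ty i = (false, false) ∨ ty j = (false, false) ∨ ty i = ty j := by
  decide +kernel

/-- the indices that are neither in `NN8` nor in `QN` -/
theorem d10 : ∀ i : I, nb i = false → qb i = false →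
    ty i ≠ (false, false) ∧ (cls8 i.1.1 = 0 ∨ cls8 i.1.1 = 1) := by
  decide +kernel

theorem d11 : ∀ s : Bool × Bool, s ≠ (false, false) →
    (univ.filter (fun i : I => ty i = (false, false) ∨ ty i = s)).card ≤ 14 := by
  decide +kernel

theorem d12 : ∀ c : Fin 4, c = 0 ∨ c = 1 →
    (univ.filter (fun i : I => cls8 i.1.1 = c ∨ ty i = (false, false))).card ≤ 14 := by
  decide +kernel

theorem mem_NN (i : I) : i ∈ NN8 ↔ nb i = true := by
  unfold NN8 nb
  rw [mem_filter, decide_eq_true_iff]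
  simp

theorem mem_QN (i : I) : i ∈ QN (L4 cls8) NN8 ↔ qb i = true := by
  unfold QN qb
  rw [mem_filter, decide_eq_true_iff, mem_NN, Bool.not_eq_true]
  simp only [mem_univ, true_and, mem_NN]

theorem main (U : Finset I) (hU : ∀ i ∈ U, ∀ j ∈ U, L4 cls8 i j = L4 cls8 j i)
    (k : I) (hk : k ∈ U) (h1 : nb k = false) (h2 : qb k = false) : U.card ≤ 14 := by
  obtain ⟨hs, hc⟩ := d10 k h1 h2
  by_cases h : ∀ i ∈ U, cls8 i.1.1 ≠ cls8 k.1.1 → ty i = (false, false)
  · refine le_trans (card_le_card ?_) (d12 (cls8 k.1.1) hc)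
    intro i hi
    rw [mem_filter]
    refine ⟨mem_univ _, ?_⟩
    by_cases hi2 : cls8 i.1.1 = cls8 k.1.1
    · exact Or.inl hi2
    · exact Or.inr (h i hi hi2)
  · push Not at h
    obtain ⟨i0, hi0, hi1, hi2⟩ := h
    have hty : ty i0 = ty k := by
      rcases d9 i0 k (hU i0 hi0 k hk) hi1 with h | h | h
      · exact absurd h hi2
      · exact absurd h hs
      · exact h
    refine le_trans (card_le_card ?_) (d11 (ty k) hs)
    intro i hi
    rw [mem_filter]
    refine ⟨mem_univ _, ?_⟩
    by_cases hi3 : cls8 i.1.1 = cls8 k.1.1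
    · rcases d9 i i0 (hU i hi i0 hi0) (by rw [hi3]; exact hi1.symm) with h | h | h
      · exact Or.inl h
      · exact absurd h hi2
      · exact Or.inr (h.trans hty)
    · rcases d9 i k (hU i hi k hk) hi3 with h | h | h
      · exact Or.inl h
      · exact absurd h hs
      · exact Or.inr h

end COMB8

open COMB8 in
theorem t_COMB8 : COMB8 := by
  refine ⟨d1, d2, ?_, ?_, ?_, ?_, ?_, ?_⟩
  · intro n hn
    exact d3 n ((mem_NN n).1 hn)
  · intro n hn m hm
    exact d4 n ((mem_NN n).1 hn) m ((mem_NN m).1 hm)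
  · intro i hi j hj
    exact d5 i ((mem_QN i).1 hi) j ((mem_QN j).1 hj)
  · have h : QN (L4 cls8) NN8 = univ.filter (fun i : I => qb i = true) := by
      ext i
      rw [mem_QN]
      simp
    rw [h]
    exact d6
  · rintro U hU ⟨k, hk, h1, h2⟩
    rw [mem_NN, Bool.not_eq_true] at h1
    rw [mem_QN, Bool.not_eq_true] at h2
    exact main U hU k hk h1 h2
  · intro b h1 h2
    rw [mem_NN, Bool.not_eq_true] at h1
    rw [mem_QN, Bool.not_eq_true] at h2
    refine lt_of_le_of_lt (le_of_eq ?_) (d8 b h1 h2)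
    congr 1
    ext i
    rw [mem_filter, mem_union, mem_QN, mem_NN]
    simp

end Pool.Agent.K6.H34.T8
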