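import Pool.Agent.K6.H34.T8.Stm
import Pool.Agent.W762.RK2.EXP4b

/-!
# Project T8, part EXP8: expansion into symbols, with the numbers of the roots

Adapted from `Pool.Agent.W762.RK2.EXP4b` of the starting library.
-/

set_option autoImplicit false

namespace Pool.Agent.K6.H34.T8

open Finset Pool.Agent.W262.RK Pool.Agent.W108.RK Pool.Agent.W762.RK2

namespace EXP8

variable {J : Type} [Fintype J] [DecidableEq J] {z y : ℕ}

lemma prod_h {ι : Type} [Fintype ι] [DecidableEq ι] (h : ι → ℕ → ℝ) (l : Pr z y → Option ι) :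
    ∏ i, ∏ p ∈ (Dl l i).primeFactors, h i p = ∏ p : Pr z y, (l p).elim 1 fun i => h i p := by
  have h1 : ∀ i, ∏ p ∈ (Dl l i).primeFactors, h i p =
      ∏ p : Pr z y, if l p = some i then h i p else 1 := by
    intro i
    unfold Dl
    rw [prod_pf _ fun p : ℕ => h i p]
    simp only [decide_eq_true_eq]
  rw [Finset.prod_congr rfl fun i _ => h1 i, Finset.prod_comm]
  refine Finset.prod_congr rfl fun p _ => ?_
  cases h : l p with
  | none => simp
  | some j => simp

lemma lhs_eq_h (cls : J → Fin 4) (k : J → Fin 3 → ℤ) (c : ℕ) (h : J → ℕ → ℝ) :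
    ∑ s ∈ Tup J z y, NB cls k s * (∏ j, gw 1 c (s j)) * ∏ j, ∏ p ∈ (s j).primeFactors, h j p =
      ∑ ξ : Pr z y → Option (J × (Bool × Bool)),
        ∏ p, (Tm cls k c ξ p * ((ξ p).elim 1 fun a => h a.1 p)) := by
  have h1 : ∀ s ∈ Tup J z y,
      NB cls k s * (∏ j, gw 1 c (s j)) * ∏ j, ∏ p ∈ (s j).primeFactors, h j p =
      ∑ d ∈ (∏ j, s j).divisors ×ˢ (∏ j, s j).divisors,
        (∏ p ∈ (∏ j, s j).primeFactors, (Il cls k s d true p + Il cls k s d false p) / 2) *
          (∏ j, gw 1 c (s j)) * ∏ j, ∏ p ∈ (s j).primeFactors, h j p := by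
    intro s hs
    rw [NB_eq cls k hs, Finset.sum_mul, Finset.sum_mul]
  rw [Finset.sum_congr rfl h1, sum_big fun s d =>
    (∏ p ∈ (∏ j, s j).primeFactors, (Il cls k s d true p + Il cls k s d false p) / 2) *
          (∏ j, gw 1 c (s j)) * ∏ j, ∏ p ∈ (s j).primeFactors, h j p]
  refine Finset.sum_congr rfl fun ξ _ => ?_
  have h2 : ∏ j, gw 1 c (SS ξ j) = ∏ p : Pr z y, ((ξ p).map Prod.fst).elim 1
      fun _ => 1 / ((p : ℝ) - c) := prod_gw (fun _ => 1) c _
  have h3 : ∏ j, SS ξ j = nb fun p => ((ξ p).map Prod.fst).isSome := prod_Dl _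
  have h5 : ∏ j, ∏ p ∈ (SS ξ j).primeFactors, h j p =
      ∏ p : Pr z y, ((ξ p).map Prod.fst).elim 1 fun j => h j p := prod_h h _
  rw [h5, h2, h3, prod_pf _ fun p => (Il cls k (SS ξ) (D1 ξ, D2 ξ) true p +
    Il cls k (SS ξ) (D1 ξ, D2 ξ) false p) / 2, ← Finset.prod_mul_distrib,
    ← Finset.prod_mul_distrib]
  refine Finset.prod_congr rfl fun p _ => ?_
  unfold Tm
  cases hx : ξ p with
  | none => simp
  | some a =>
    have h4 : ∀ neg, Il cls k (SS ξ) (D1 ξ, D2 ξ) neg p =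
        ind (LL (cls a.1) (k a.1) neg p a.2.1 a.2.2 (sgn p (D1 ξ)) (sgn p (D2 ξ))) := by
      intro neg
      unfold Il
      have e1 : dv p (D1 ξ : ℤ) = a.2.1 := by
        have : b1 (ξ p) = a.2.1 := by rw [hx]; rfl
        rw [← this]
        unfold dv
        rw [Bool.eq_iff_iff, decide_eq_true_iff, Int.natCast_dvd_natCast]
        exact dvd_nb _ p
      have e2 : dv p (D2 ξ : ℤ) = a.2.2 := by
        have : b2 (ξ p) = a.2.2 := by rw [hx]; rfl
        rw [← this]
        unfold dv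
        rw [Bool.eq_iff_iff, decide_eq_true_iff, Int.natCast_dvd_natCast]
        exact dvd_nb _ p
      have e3 : ∀ j, (p : ℕ) ∣ SS ξ j ↔ j = a.1 := by
        intro j
        unfold SS Dl
        rw [dvd_nb, decide_eq_true_iff]
        show (ξ p).map Prod.fst = some j ↔ j = a.1
        rw [hx]
        simp [eq_comm]
      congr 1
      simp only [e1, e2, e3, forall_eq]
    simp only [h4]
    simp only [Option.map_some, Option.isSome_some, if_true, Option.elim]
    ring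

theorem exp_h (cls : J → Fin 4) (κ : J → Fin 3 → ℤ) (c : ℕ) (h : J → ℕ → ℝ)
    (hκ : ∀ j k, κ j k ≠ 0) (hκz : ∀ j k, (κ j k).natAbs ≤ z) :
    ∑ s ∈ Tup J z y, NB cls κ s * (∏ j, gw 1 c (s j)) * ∏ j, ∏ p ∈ (s j).primeFactors, h j p =
      ∑ d ∈ Tup (I4 cls) z y, (∏ i, gw (w4 cls i) c (d i)) *
        Pool.Agent.W262.RK.Sym (L4 cls) (κ4 cls κ) d *
          ∏ i, ∏ p ∈ (d i).primeFactors, h i.1.1 p := by
  classical
  rw [lhs_eq_h, sum_Tup, ← Finset.sum_fiberwise univ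
    (fun (l : Pr z y → Option (I4 cls)) => fun p => fg (l p))]
  refine Finset.sum_congr rfl fun ξ _ => ?_
  have h1 : (univ.filter fun l : Pr z y → Option (I4 cls) => (fun p => fg (l p)) = ξ) =
      Fintype.piFinset (fun p => univ.filter (fun x : Option (I4 cls) => fg x = ξ p)) := by
    ext l
    simp only [Finset.mem_filter, Finset.mem_univ, true_and, Fintype.mem_piFinset, funext_iff]
  have hk : ∀ p : Pr z y, ∀ j i, ¬ ((p : ℕ) : ℤ) ∣ κ j i := by
    intro p j i hd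
    have hz : z < p := by
      have := p.2
      unfold PS at this
      exact (Finset.mem_Ioc.1 (Finset.mem_filter.1 this).1).1
    have h3 := Nat.le_of_dvd (Int.natAbs_pos.mpr (hκ j i)) (Int.natCast_dvd.1 hd)
    have h4 := hκz j i
    omega
  rw [h1, Finset.prod_mul_distrib,
    Finset.prod_congr rfl fun p _ => (sum_G cls κ c ξ p (hk p)).symm, Finset.prod_univ_sum,
    Finset.sum_mul]
  refine Finset.sum_congr rfl fun l hl => ?_
  rw [Fintype.mem_piFinset] at hl
  have hl' : ∀ p, fg (l p) = ξ p := fun p => (Finset.mem_filter.1 (hl p)).2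
  rw [rhs_term cls κ c ξ l hl', prod_h (fun (i : I4 cls) p => h i.1.1 p) l]
  congr 1
  refine Finset.prod_congr rfl fun p _ => ?_
  rw [← hl' p]
  unfold fg
  cases l p <;> rfl

lemma cls8_ne : ∀ j, cls8 j ≠ 3 := by decide

lemma P3_eq (s : Fin 7 → ℕ) : P3 cls8 s = ∅ := by
  unfold P3
  have h1 : (univ.filter fun j => cls8 j = 3) = ∅ := by
    rw [Finset.filter_eq_empty_iff]
    intro j _
    exact cls8_ne j
  rw [h1]
  simp

lemma N8_eq (s : Fin 7 → ℕ) : N8 s = NB cls8 (fun j _ => k8 j) s := by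
  unfold N8 NB
  rw [P3_eq]
  simp

lemma k8_ne : ∀ j, k8 j ≠ 0 := by decide

lemma k8_abs : ∀ j, (k8 j).natAbs ≤ 1 := by decide

end EXP8

theorem t_EXP8 : EXP8 := by
  intro c z y hz
  have h1 := EXP8.exp_h (z := z) (y := y) cls8 (fun j _ => k8 j) c
    (fun j p => 1 + Jr (a8 j) p) (fun j _ => EXP8.k8_ne j)
    (fun j _ => (EXP8.k8_abs j).trans (by omega))
  have h2 : ∀ s : Fin 7 → ℕ, G8 s * ∏ j, gw 1 c (s j) =
      NB cls8 (fun j _ => k8 j) s * (∏ j, gw 1 c (s j)) *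
        ∏ j, ∏ p ∈ (s j).primeFactors, (1 + Jr (a8 j) p) := by
    intro s
    unfold G8 rt
    rw [EXP8.N8_eq]
    ring
  rw [Finset.sum_congr rfl fun s _ => h2 s, h1]
  refine Finset.sum_congr rfl fun d _ => ?_
  have h3 : ∀ i : I4 cls8, w4 cls8 i = 1 / 2 := by
    intro i
    unfold w4
    rw [if_neg (EXP8.cls8_ne i.1.1)]
  have h4 : ∏ i, gw (w4 cls8 i) c (d i) = ∏ i, gw (1 / 2) c (d i) :=
    Finset.prod_congr rfl fun i _ => by rw [h3 i]
  rw [h4, Finset.prod_mul_distrib]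
  unfold rt
  ring

end Pool.Agent.K6.H34.T8
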