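import Pool.Agent.K6.H34.T8.Stm
import Pool.Agent.W405.RK2.RS
import Pool.Agent.W591.RK2.RVRU

/-!
# Project T8, piece MARC: from the weights `1 / p` to the weights `1 / (p - c)`

Adapted from the starting files `Pool.Agent.W405.RK2.RS` and `Pool.Agent.W591.RK2.RVRU`.
-/

set_option autoImplicit false

namespace Pool.Agent.K6.H34.T8

open Finset Pool.Agent.W262.RK Pool.Agent.W307.RT

namespace MARC

open Pool.Agent.W405.RK2 (gw1_nonneg gw_mul mem_Tup prod_one_add')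
open Pool.Agent.W591.RK2 (gen sum_sq_le)

/-- the local factor of the expansion -/
noncomputable def KK (c d : ℕ) : ℝ := ∏ p ∈ d.primeFactors, ((c : ℝ) / ((p : ℝ) - c))

lemma KK_nonneg {z y c d : ℕ} (hz : c ≤ z) (hd : d ∣ PP z y) : 0 ≤ KK c d := by
  unfold KK
  refine prod_nonneg fun p hp => ?_
  have hpp := Nat.prime_of_mem_primeFactors hp
  have h1 : p ∈ PS z y := Pool.Agent.W405.RK2.prime_dvd_PP hpp
    ((Nat.dvd_of_mem_primeFactors hp).trans hd)
  have h2 := Pool.Agent.W655.RK.PS_lt h1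
  have h3 : (c : ℝ) < p := by exact_mod_cast (by omega : c < p)
  exact div_nonneg (Nat.cast_nonneg c) (by linarith)

lemma gw_expand {z y c d : ℕ} (hz : c ≤ z) (hd : d ∣ PP z y) :
    gw 1 c d = gw 1 0 d * ∑ e ∈ d.divisors, KK c e := by
  have hsq : Squarefree d := (Pool.Agent.W405.RK2.PP_squarefree z y).squarefree_of_dvd hd
  have h1 : ∑ e ∈ d.divisors, KK c e = ∏ p ∈ d.primeFactors, (1 + (c : ℝ) / ((p : ℝ) - c)) :=
    (prod_one_add' (fun p => (c : ℝ) / ((p : ℝ) - c)) hsq).symm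
  rw [h1]
  unfold gw
  rw [← prod_mul_distrib]
  refine prod_congr rfl fun p hp => ?_
  have hpp := Nat.prime_of_mem_primeFactors hp
  have h1 : p ∈ PS z y := Pool.Agent.W405.RK2.prime_dvd_PP hpp
    ((Nat.dvd_of_mem_primeFactors hp).trans hd)
  have h2 := Pool.Agent.W655.RK.PS_lt h1
  have h3 : (c : ℝ) < p := by exact_mod_cast (by omega : c < p)
  have h4 : (p : ℝ) ≠ 0 := by exact_mod_cast hpp.ne_zero
  have h5 : (p : ℝ) - c ≠ 0 := by
    have : (0 : ℝ) < (p : ℝ) - c := by linarith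
    exact this.ne'
  push_cast
  rw [sub_zero]
  field_simp
  ring

/-- the main inequality -/
lemma main_ineq (J : Type) [Fintype J] [DecidableEq J] (z y : ℕ) (G : (J → ℕ) → ℝ)
    (c : ℕ) (hz : c ≤ z) (hG : ∀ s, 0 ≤ G s)
    (hg : ∀ s e : J → ℕ, (fun j => s j * e j) ∈ Tup J z y →
      G (fun j => s j * e j) ≤ 8 ^ (∑ j, (e j).primeFactors.card) * G s) :
    ∑ s ∈ Tup J z y, G s * (∏ j, gw 1 c (s j)) ≤
      (∑ e ∈ Tup J z y, ∏ j, (8 ^ (e j).primeFactors.card * gw 1 0 (e j) * KK c (e j))) *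
        ∑ s ∈ Tup J z y, G s * ∏ j, gw 1 0 (s j) := by
  classical
  set F : (J → ℕ) × (J → ℕ) → ℝ := fun x =>
    (∏ j, (8 ^ (x.2 j).primeFactors.card * gw 1 0 (x.2 j) * KK c (x.2 j))) *
      (G x.1 * ∏ j, gw 1 0 (x.1 j)) with hF
  have hR : (∑ e ∈ Tup J z y, ∏ j, (8 ^ (e j).primeFactors.card * gw 1 0 (e j) * KK c (e j))) *
        ∑ s ∈ Tup J z y, G s * ∏ j, gw 1 0 (s j) = ∑ x ∈ Tup J z y ×ˢ Tup J z y, F x := by
    rw [sum_mul_sum, sum_product, sum_comm]
  have hFn : ∀ x ∈ Tup J z y ×ˢ Tup J z y, 0 ≤ F x := by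
    intro x hx
    rw [mem_product] at hx
    have h1 := mem_Tup.1 hx.1
    have h2 := mem_Tup.1 hx.2
    refine mul_nonneg (prod_nonneg fun j _ => ?_) (mul_nonneg (hG _) (prod_nonneg fun j _ => ?_))
    · exact mul_nonneg (mul_nonneg (by positivity) (gw1_nonneg (Nat.zero_le z) (h2.1 j)))
        (KK_nonneg hz (h2.1 j))
    · exact gw1_nonneg (Nat.zero_le z) (h1.1 j)
  -- expansion of the left side
  have hL : ∀ s ∈ Tup J z y, G s * (∏ j, gw 1 c (s j)) =
      ∑ e ∈ Fintype.piFinset (fun j => (s j).divisors),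
        G s * (∏ j, gw 1 0 (s j)) * ∏ j, KK c (e j) := by
    intro s hs
    have h1 := mem_Tup.1 hs
    rw [← mul_sum, mul_assoc]
    congr 1
    rw [← Finset.prod_univ_sum, ← prod_mul_distrib]
    refine prod_congr rfl fun j _ => ?_
    exact gw_expand hz (h1.1 j)
  rw [sum_congr rfl hL, sum_sigma', hR]
  -- facts about the pairs
  have key : ∀ x ∈ (Tup J z y).sigma (fun s => Fintype.piFinset (fun j => (s j).divisors)),
      (∀ j, x.2 j ∣ x.1 j) ∧ (∀ j, x.1 j ∣ PP z y) ∧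
      (∀ i j, i ≠ j → (x.1 i).Coprime (x.1 j)) := by
    intro x hx
    rw [mem_sigma] at hx
    have h1 := mem_Tup.1 hx.1
    have h2 := Fintype.mem_piFinset.1 hx.2
    exact ⟨fun j => Nat.dvd_of_mem_divisors (h2 j), h1.1, h1.2⟩
  set φ : (Σ _ : J → ℕ, J → ℕ) → (J → ℕ) × (J → ℕ) := fun x => (fun j => x.1 j / x.2 j, x.2)
    with hφ
  have hinj : Set.InjOn φ
      ((Tup J z y).sigma (fun s => Fintype.piFinset (fun j => (s j).divisors)) : Set _) := by
    intro x hx x' hx' hxx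
    have k1 := key x (Finset.mem_coe.1 hx)
    have k2 := key x' (Finset.mem_coe.1 hx')
    have e2 : x.2 = x'.2 := congrArg Prod.snd hxx
    have e1 : (fun j => x.1 j / x.2 j) = fun j => x'.1 j / x'.2 j := congrArg Prod.fst hxx
    have e3 : x.1 = x'.1 := by
      funext j
      have h3 := congrFun e1 j
      have h4 := Nat.div_mul_cancel (k1.1 j)
      have h5 := Nat.div_mul_cancel (k2.1 j)
      have h3 : x.1 j / x.2 j = x'.1 j / x'.2 j := h3
      rw [← h4, ← h5, h3, e2]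
    cases x; cases x'
    simp only at e2 e3
    subst e2; subst e3; rfl
  have hmaps : ∀ x ∈ (Tup J z y).sigma (fun s => Fintype.piFinset (fun j => (s j).divisors)),
      φ x ∈ Tup J z y ×ˢ Tup J z y := by
    intro x hx
    have k := key x hx
    rw [mem_product]
    constructor
    · rw [mem_Tup]
      refine ⟨fun j => (Nat.div_dvd_of_dvd (k.1 j)).trans (k.2.1 j), fun i j hij => ?_⟩
      exact Nat.Coprime.coprime_dvd_left (Nat.div_dvd_of_dvd (k.1 i))
        (Nat.Coprime.coprime_dvd_right (Nat.div_dvd_of_dvd (k.1 j)) (k.2.2 i j hij))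
    · rw [mem_Tup]
      refine ⟨fun j => (k.1 j).trans (k.2.1 j), fun i j hij => ?_⟩
      exact Nat.Coprime.coprime_dvd_left (k.1 i)
        (Nat.Coprime.coprime_dvd_right (k.1 j) (k.2.2 i j hij))
  have hterm : ∀ x ∈ (Tup J z y).sigma (fun s => Fintype.piFinset (fun j => (s j).divisors)),
      G x.1 * (∏ j, gw 1 0 (x.1 j)) * ∏ j, KK c (x.2 j) ≤ F (φ x) := by
    intro x hx
    have k := key x hx
    have hm := hmaps x hx
    rw [mem_product] at hm
    have hm1 := mem_Tup.1 hm.1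
    have hm2 := mem_Tup.1 hm.2
    have e0 : (fun j => (x.1 j / x.2 j) * x.2 j) = x.1 := by
      funext j
      exact Nat.div_mul_cancel (k.1 j)
    have hx1 : x.1 ∈ Tup J z y := (mem_sigma.1 hx).1
    have h1 : G x.1 ≤ 8 ^ (∑ j, (x.2 j).primeFactors.card) * G (fun j => x.1 j / x.2 j) := by
      have := hg (fun j => x.1 j / x.2 j) x.2 (by rw [e0]; exact hx1)
      rwa [e0] at this
    have h2 : ∏ j, gw 1 0 (x.1 j) = (∏ j, gw 1 0 (x.1 j / x.2 j)) * ∏ j, gw 1 0 (x.2 j) := by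
      rw [← prod_mul_distrib]
      refine prod_congr rfl fun j _ => ?_
      have h3 : x.1 j = (x.1 j / x.2 j) * x.2 j := (Nat.div_mul_cancel (k.1 j)).symm
      have hsq : Squarefree ((x.1 j / x.2 j) * x.2 j) := by
        rw [← h3]
        exact (Pool.Agent.W405.RK2.PP_squarefree z y).squarefree_of_dvd (k.2.1 j)
      conv_lhs => rw [h3]
      exact gw_mul 1 0 (Nat.coprime_of_squarefree_mul hsq)
    have n1 : 0 ≤ ∏ j, gw 1 0 (x.1 j / x.2 j) :=
      prod_nonneg fun j _ => gw1_nonneg (Nat.zero_le z) (hm1.1 j)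
    have n2 : 0 ≤ ∏ j, gw 1 0 (x.2 j) :=
      prod_nonneg fun j _ => gw1_nonneg (Nat.zero_le z) (hm2.1 j)
    have n3 : 0 ≤ ∏ j, KK c (x.2 j) := prod_nonneg fun j _ => KK_nonneg hz (hm2.1 j)
    have h4 : F (φ x) = 8 ^ (∑ j, (x.2 j).primeFactors.card) * G (fun j => x.1 j / x.2 j) *
        ((∏ j, gw 1 0 (x.1 j / x.2 j)) * (∏ j, gw 1 0 (x.2 j)) * ∏ j, KK c (x.2 j)) := by
      simp only [hF, hφ]
      rw [prod_mul_distrib, prod_mul_distrib, Finset.prod_pow_eq_pow_sum]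
      ring
    rw [h4, h2]
    calc G x.1 * ((∏ j, gw 1 0 (x.1 j / x.2 j)) * ∏ j, gw 1 0 (x.2 j)) * ∏ j, KK c (x.2 j)
        = G x.1 * ((∏ j, gw 1 0 (x.1 j / x.2 j)) * (∏ j, gw 1 0 (x.2 j)) * ∏ j, KK c (x.2 j)) := by
          ring
      _ ≤ _ := mul_le_mul_of_nonneg_right h1 (mul_nonneg (mul_nonneg n1 n2) n3)
  calc ∑ x ∈ (Tup J z y).sigma (fun s => Fintype.piFinset (fun j => (s j).divisors)),
        G x.1 * (∏ j, gw 1 0 (x.1 j)) * ∏ j, KK c (x.2 j)
      ≤ ∑ x ∈ (Tup J z y).sigma (fun s => Fintype.piFinset (fun j => (s j).divisors)), F (φ x) :=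
        sum_le_sum hterm
    _ = ∑ w ∈ ((Tup J z y).sigma (fun s => Fintype.piFinset (fun j => (s j).divisors))).image φ,
          F w := (sum_image hinj).symm
    _ ≤ ∑ x ∈ Tup J z y ×ˢ Tup J z y, F x := by
        refine sum_le_sum_of_subset_of_nonneg ?_ fun x hx _ => hFn x hx
        intro w hw
        obtain ⟨x, hx, rfl⟩ := mem_image.1 hw
        exact hmaps x hx

/-- the bracket -/
lemma bracket (J : Type) [Fintype J] [DecidableEq J] (z y c : ℕ) (hz : 2 * c + 2 ≤ z) :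
    ∑ e ∈ Tup J z y, ∏ j, (8 ^ (e j).primeFactors.card * gw 1 0 (e j) * KK c (e j)) ≤
      Real.exp (Fintype.card J * (16 * c)) := by
  set h : ℕ → ℝ := fun p => 8 * (1 / (p : ℝ)) * ((c : ℝ) / ((p : ℝ) - c)) with hh
  have hb : ∀ p ∈ PS z y, 0 ≤ h p ∧ h p ≤ (16 * (c : ℝ)) * (1 / (p : ℝ) ^ 2) := by
    intro p hp
    have hpz := Pool.Agent.W655.RK.PS_lt hp
    have h1 : (2 * c + 3 : ℝ) ≤ p := by exact_mod_cast (by omega : 2 * c + 3 ≤ p)
    have h0 : (0 : ℝ) ≤ c := Nat.cast_nonneg c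
    have h2 : (0 : ℝ) < p := by linarith
    have h3 : (0 : ℝ) < (p : ℝ) - c := by linarith
    refine ⟨by simp only [hh]; positivity, ?_⟩
    have h4 : (c : ℝ) / ((p : ℝ) - c) ≤ 2 * c / p := by
      rw [div_le_div_iff₀ h3 h2]
      nlinarith
    calc h p ≤ 8 * (1 / (p : ℝ)) * (2 * c / p) :=
          mul_le_mul_of_nonneg_left h4 (by positivity)
      _ = (16 * (c : ℝ)) * (1 / (p : ℝ) ^ 2) := by
          field_simp
          ring
  have e1 : ∑ e ∈ Tup J z y, ∏ j, (8 ^ (e j).primeFactors.card * gw 1 0 (e j) * KK c (e j)) =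
      ∑ e ∈ Tup J z y, ∏ j, ∏ p ∈ (e j).primeFactors, h p := by
    refine sum_congr rfl fun e _ => prod_congr rfl fun j _ => ?_
    unfold gw KK
    rw [← prod_const, ← prod_mul_distrib, ← prod_mul_distrib]
    refine prod_congr rfl fun p _ => ?_
    simp only [hh]
    push_cast
    rw [sub_zero]
  rw [e1]
  refine (gen J z y h fun p hp => (hb p hp).1).trans (Real.exp_le_exp.2 ?_)
  refine mul_le_mul_of_nonneg_left ?_ (Nat.cast_nonneg _)
  calc ∑ p ∈ PS z y, h p ≤ ∑ p ∈ PS z y, (16 * (c : ℝ)) * (1 / (p : ℝ) ^ 2) :=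
        sum_le_sum fun p hp => (hb p hp).2
    _ = (16 * (c : ℝ)) * ∑ p ∈ PS z y, 1 / (p : ℝ) ^ 2 := by rw [mul_sum]
    _ ≤ (16 * (c : ℝ)) * 1 :=
        mul_le_mul_of_nonneg_left (sum_sq_le z y (by omega)) (by positivity)
    _ = 16 * (c : ℝ) := mul_one _

end MARC

open MARC Pool.Agent.W405.RK2 in
theorem t_MARC : MARC := by
  intro G c z C hz hG hg hS
  refine ⟨Real.exp (Fintype.card (Fin 7) * (16 * c)) * C, fun y hy => ?_⟩
  have hm := main_ineq (Fin 7) z y G c (by omega) hG (hg y hy)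
  have hn : 0 ≤ ∑ s ∈ Tup (Fin 7) z y, G s * ∏ j, gw 1 0 (s j) := by
    refine sum_nonneg fun s hs => mul_nonneg (hG s) (prod_nonneg fun j _ => ?_)
    exact gw1_nonneg (Nat.zero_le z) ((mem_Tup.1 hs).1 j)
  calc _ ≤ _ := hm
    _ ≤ Real.exp (Fintype.card (Fin 7) * (16 * c)) *
          ∑ s ∈ Tup (Fin 7) z y, G s * ∏ j, gw 1 0 (s j) :=
        mul_le_mul_of_nonneg_right (bracket (Fin 7) z y c hz) hn
    _ ≤ Real.exp (Fintype.card (Fin 7) * (16 * c)) * (C * (Real.log y) ^ 7) :=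
        mul_le_mul_of_nonneg_left (hS y hy) (Real.exp_nonneg _)
    _ = _ := by ring

end Pool.Agent.K6.H34.T8
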