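import Pool.Agent.K6.H34.T8.Stm
import Pool.Agent.W125.RK2.SUBB
import Pool.Agent.W342.RK2.LocL

/-!
# Project T8, piece SUB8 (helper48)

Adding primes to the local count with the numbers of the roots.
-/

set_option autoImplicit false

namespace Pool.Agent.K6.H34.T8

open Finset Pool.Agent.W262.RK Pool.Agent.W307.RT

namespace SUB8

theorem cls8_ne (j : Fin 7) : cls8 j ≠ 3 := by
  fin_cases j <;> simp [cls8]

theorem P3_empty (s : Fin 7 → ℕ) : P3 cls8 s = ∅ := by
  have h : (univ.filter (fun j => cls8 j = 3)) = ∅ := by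
    rw [Finset.filter_eq_empty_iff]
    intro j _
    exact cls8_ne j
  unfold P3
  rw [h]
  simp

theorem NB_eq (s : Fin 7 → ℕ) : NB cls8 (fun j _ => k8 j) s = N8 s := by
  unfold NB N8
  rw [P3_empty]
  simp

theorem Jr_bd (a : ℤ) (p : ℕ) : 0 ≤ 1 + Jr a p ∧ 1 + Jr a p ≤ 2 := by
  unfold Jr
  rcases jacobiSym.trichotomy a p with h | h | h <;> rw [h] <;> norm_num

theorem rt_nonneg (a : ℤ) (d : ℕ) : 0 ≤ rt a d :=
  Finset.prod_nonneg fun p _ => (Jr_bd a p).1

theorem rt_le (a : ℤ) (d : ℕ) : rt a d ≤ 2 ^ d.primeFactors.card := by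
  unfold rt
  calc ∏ p ∈ d.primeFactors, (1 + Jr a p) ≤ ∏ p ∈ d.primeFactors, (2 : ℝ) :=
        Finset.prod_le_prod (fun p _ => (Jr_bd a p).1) (fun p _ => (Jr_bd a p).2)
    _ = 2 ^ d.primeFactors.card := by simp

theorem rt_mul (a : ℤ) {m n : ℕ} (h : m.Coprime n) : rt a (m * n) = rt a m * rt a n := by
  unfold rt
  rw [h.primeFactors_mul, Finset.prod_union h.disjoint_primeFactors]

theorem G8_nonneg (s : Fin 7 → ℕ) : 0 ≤ G8 s := by
  unfold G8 N8
  exact mul_nonneg (Nat.cast_nonneg _) (Finset.prod_nonneg fun j _ => rt_nonneg _ _)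

end SUB8

open SUB8 in
theorem t_SUB8 : SUB8 := by
  classical
  refine ⟨G8_nonneg, ?_⟩
  intro z y hz s e hT
  have h1 := Pool.Agent.W125.RK2.subb_of Pool.Agent.W125.RK2.sub4 Pool.Agent.W342.RK2.xcl (Fin 7)
    cls8 (fun j _ => k8 j) z y hz (by intro j k; fin_cases j <;> simp [k8])
    (by intro j k; fin_cases j <;> simp [k8] <;> omega) s e hT
  rw [NB_eq, NB_eq] at h1
  have hT' : (∀ j, s j * e j ∈ (PP z y).divisors) ∧
      ∀ i j, i ≠ j → (s i * e i).Coprime (s j * e j) := by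
    have hT2 := hT
    unfold Tup at hT2
    simpa only [mem_filter, Fintype.mem_piFinset] using hT2
  have hsqj : ∀ j, Squarefree (s j * e j) := fun j => dv_squarefree (hT'.1 j)
  have hcop : ∀ j, (s j).Coprime (e j) := fun j => Nat.coprime_of_squarefree_mul (hsqj j)
  have h2 : ∏ j, rt (a8 j) (s j * e j) ≤
      (2 : ℝ) ^ (∑ j, (e j).primeFactors.card) * ∏ j, rt (a8 j) (s j) := by
    rw [← Finset.prod_pow_eq_pow_sum, ← Finset.prod_mul_distrib]
    apply Finset.prod_le_prod (fun j _ => rt_nonneg _ _)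
    intro j _
    rw [rt_mul _ (hcop j), mul_comm]
    exact mul_le_mul_of_nonneg_right (rt_le _ _) (rt_nonneg _ _)
  have hN : 0 ≤ N8 s := Nat.cast_nonneg _
  unfold G8
  calc N8 (fun j => s j * e j) * ∏ j, rt (a8 j) (s j * e j)
      ≤ (4 ^ (∑ j, (e j).primeFactors.card) * N8 s) *
        ((2 : ℝ) ^ (∑ j, (e j).primeFactors.card) * ∏ j, rt (a8 j) (s j)) :=
        mul_le_mul h1 h2 (Finset.prod_nonneg fun j _ => rt_nonneg _ _) (by positivity)
    _ = (4 * 2) ^ (∑ j, (e j).primeFactors.card) * (N8 s * ∏ j, rt (a8 j) (s j)) := by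
        rw [mul_pow]; ring
    _ = 8 ^ (∑ j, (e j).primeFactors.card) * (N8 s * ∏ j, rt (a8 j) (s j)) := by norm_num

end Pool.Agent.K6.H34.T8
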