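import Pool.Agent.K6.H34.T8.P_RATR
import Pool.Agent.K6.H34.T8.P_COMB8
import Pool.Agent.K6.H34.T8.P_EXP8
import Pool.Agent.K6.H34.T8.P_SUB8
import Pool.Agent.K6.H34.T8.P_MARC

/-! Project T8: the average of the local counts. -/

set_option autoImplicit false

namespace Pool.Agent.K6.H34.T8

open Finset Pool.Agent.W262.RK
open Pool.Agent.W307.RT (QN)

lemma a8_mem (j : Fin 7) : a8 j ∈ ({0, -1, 2} : Finset ℤ) := by
  revert j
  decide

theorem mar8_of (hr : RATR) (he : EXP8) (hc : COMB8) (hs : SUB8) (hm : MARC) : MAR8 := by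
  classical
  intro c
  obtain ⟨c1, c2, c3, c4, c5, c6, c7, c8⟩ := hc
  obtain ⟨z0, hz0⟩ := hr (I4 cls8) (fun _ => 1 / 2) (fun i => a8 i.1.1) (L4 cls8)
    (κ4 cls8 (fun j _ => k8 j)) 7 NN8 (fun _ => by norm_num) (fun i => a8_mem _) c1 c2 c3 c4 c5
    (by
      rw [sum_const, nsmul_eq_mul]
      have : ((QN (L4 cls8) NN8).card : ℝ) ≤ 14 := by exact_mod_cast c6
      linarith)
    (fun U hU hk => by
      rw [sum_const, nsmul_eq_mul]
      have : (U.card : ℝ) ≤ 14 := by exact_mod_cast c7 U hU hk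
      linarith)
    (fun b hb hb' => by
      rw [sum_const, nsmul_eq_mul]
      have : ((((QN (L4 cls8) NN8 ∪ NN8).filter (fun i => L4 cls8 i b = L4 cls8 b i)).card : ℕ) : ℝ)
          < 14 := by exact_mod_cast c8 b hb hb'
      linarith)
  refine ⟨z0 + 2 * c + 2, fun z hz => ?_⟩
  obtain ⟨C, hC⟩ := hz0 z (by omega)
  refine hm G8 c z C (by omega) hs.1 (fun y _ s e hse => hs.2 z y (by omega) s e hse) fun y hy => ?_
  rw [he 0 z y (by omega)]
  have h1 := (le_abs_self _).trans (hC y hy)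
  have h2 : (Real.log y) ^ (7 : ℝ) = (Real.log y) ^ 7 := by
    rw [← Real.rpow_natCast]
    norm_num
  rw [h2] at h1
  exact h1

end Pool.Agent.K6.H34.T8
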