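import Pool.Agent.K6.H34.T8.Stm
import Pool.Agent.W583.RT.FSB

/-!
Piece FSR for MP_9e6228_nt (helper75): sums over tuples of coprime divisors with characters and with
the weights `1 + (a / p)`, as Euler products. Adapted from `Pool.Agent.W583.RT.FSB`.
-/

set_option autoImplicit false

namespace Pool.Agent.K6.H34.T8

open Finset Pool.Agent.W262.RK Pool.Agent.W307.RT

namespace FSR

lemma abs_Jr_le (a : ℤ) (n : ℕ) : |Jr a n| ≤ 1 := by
  unfold Jr
  rcases jacobiSym.trichotomy a n with h | h | h <;> rw [h] <;> norm_num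

lemma wt_nonneg (a : ℤ) (n : ℕ) : 0 ≤ 1 + Jr a n := by
  have := (abs_le.1 (abs_Jr_le a n)).1
  linarith

lemma wt_le (a : ℤ) (n : ℕ) : 1 + Jr a n ≤ 2 := by
  have := (abs_le.1 (abs_Jr_le a n)).2
  linarith

lemma rt_one (a : ℤ) : rt a 1 = 1 := by simp [rt]

lemma rt_prime (a : ℤ) (p : ℕ) (hp : p.Prime) : rt a p = 1 + Jr a p := by
  unfold rt
  rw [hp.primeFactors, prod_singleton]

lemma rt_mul (a : ℤ) (m k : ℕ) (h : m.Coprime k) : rt a (m * k) = rt a m * rt a k := by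
  unfold rt
  rw [Nat.Coprime.primeFactors_mul h, prod_union h.disjoint_primeFactors]

end FSR

open FSR in
set_option maxHeartbeats 4000000 in
/-- Piece FSR. -/
theorem t_FSR : Pool.Agent.K6.H34.T8.FSR := by
  classical
  intro ι _ _ w a hw
  set n : ℕ := Fintype.card ι with hn
  refine ⟨2 * n + 2, 2 * n, fun z hz => ⟨1, le_refl _, ?_⟩⟩
  intro y R W ψ φ B hzy hR hψ1 hψ hφ hψφ hB
  -- the primes
  set T : Finset ℕ := (PS z y).filter (fun p => ¬ p ∣ R) with hT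
  set T' : Finset ℕ := (PS z y).filter (fun p => p ∣ R) with hT'
  have hTp : ∀ p ∈ T, p.Prime := fun p hp => (mem_PS.1 (mem_filter.1 hp).1).2
  have hdvd : (∏ p ∈ T, p) ∣ PP z y := prod_dvd_prod_of_subset _ _ _ (filter_subset _ _)
  have hsq := PP_squarefree z y
  have hpr : ∀ p : ℕ, p.Prime → (p ∣ ∏ q ∈ T, q ↔ p ∈ T) := by
    intro p hp
    constructor
    · intro h
      obtain ⟨q, hq, hpq⟩ := (hp.prime.dvd_finsetProd_iff _).1 h
      rwa [(Nat.prime_dvd_prime_iff_eq hp (hTp q hq)).1 hpq]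
    · intro h
      exact dvd_prod_of_mem _ h
  -- divisors coprime to `R`
  have hcop : ∀ d : ℕ, (d ∣ PP z y ∧ d.Coprime R) ↔ d ∣ ∏ p ∈ T, p := by
    intro d
    constructor
    · rintro ⟨h1, h2⟩
      have hd := hsq.squarefree_of_dvd h1
      rw [← Nat.prod_primeFactors_of_squarefree hd]
      refine prod_dvd_prod_of_subset _ _ _ fun p hp => ?_
      have hp' := Nat.mem_primeFactors.1 hp
      rw [hT, mem_filter]
      refine ⟨(prime_dvd_PP hp'.1).1 (hp'.2.1.trans h1), fun h => ?_⟩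
      exact Nat.Prime.not_coprime_iff_dvd.2 ⟨p, hp'.1, hp'.2.1, h⟩ h2
    · intro h
      refine ⟨h.trans hdvd, Nat.coprime_of_dvd fun k hk h2 h3 => ?_⟩
      exact (mem_filter.1 ((hpr k hk).1 (h2.trans h))).2 h3
  have hE := Pool.Agent.W583.RT.euler T hTp W (fun i m => gw (w i) 0 m * rt (a i) m * ψ i m)
    (fun i hi => by rw [hψ1 i hi, gw_one, rt_one, mul_one, mul_one])
    (by
      intro i hi m k hmk
      have h1 := hmk.trans hdvd
      have h2 : m.Coprime k := Nat.coprime_of_squarefree_mul (hsq.squarefree_of_dvd h1)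
      show gw (w i) 0 (m * k) * rt (a i) (m * k) * ψ i (m * k) =
        gw (w i) 0 m * rt (a i) m * ψ i m * (gw (w i) 0 k * rt (a i) k * ψ i k)
      rw [hψ i hi m k h1, rt_mul (a i) m k h2]
      have h3 : gw (w i) 0 (m * k) = gw (w i) 0 m * gw (w i) 0 k := by
        unfold gw
        rw [Nat.Coprime.primeFactors_mul h2, prod_union h2.disjoint_primeFactors]
      rw [h3]
      ring)
    ((Tup ι z y).filter (fun d => (∀ i, (d i).Coprime R) ∧ ∀ i, i ∉ W → d i = 1))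
    (by
      intro d
      rw [mem_filter]
      unfold Tup
      rw [mem_filter, Fintype.mem_piFinset]
      constructor
      · rintro ⟨⟨h1, h2⟩, h3, h4⟩
        exact ⟨fun i => (hcop _).1 ⟨Nat.dvd_of_mem_divisors (h1 i), h3 i⟩, h2, h4⟩
      · rintro ⟨h1, h2, h3⟩
        exact ⟨⟨fun i => Nat.mem_divisors.2 ⟨((hcop _).2 (h1 i)).1, PP_ne_zero _ _⟩, h2⟩,
          fun i => ((hcop _).2 (h1 i)).2, h3⟩)
  rw [hE]
  -- the factors
  have hnW : (W.card : ℝ) ≤ n := by exact_mod_cast card_le_univ W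
  have hpz : ∀ p ∈ PS z y, 2 * (n : ℝ) + 2 < (p : ℝ) := by
    intro p hp
    have h1 := (mem_PS.1 hp).1.1
    have h2 : 2 * n + 2 < p := by omega
    exact_mod_cast h2
  have hn0 : (0 : ℝ) ≤ n := Nat.cast_nonneg _
  have hsumw : ∑ i ∈ W, w i ≤ n / 2 := by
    calc ∑ i ∈ W, w i ≤ ∑ _i ∈ W, (1 / 2 : ℝ) := sum_le_sum fun i _ => (hw i).2
      _ = W.card * (1 / 2) := by rw [sum_const, nsmul_eq_mul]
      _ ≤ n / 2 := by linarith
  have hsumw0 : 0 ≤ ∑ i ∈ W, w i := sum_nonneg fun i _ => (hw i).1.le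
  -- the characters with the weights
  obtain ⟨χ, hχ⟩ : ∃ χ : ι → ℕ → ℝ, ∀ i p, χ i p = (1 + Jr (a i) p) * φ i p := ⟨_, fun _ _ => rfl⟩
  have hχ2 : ∀ i ∈ W, ∀ p, |χ i p| ≤ 2 := by
    intro i hi p
    rw [hχ, abs_mul, abs_of_nonneg (wt_nonneg _ _)]
    have h1 := wt_le (a i) p
    have h2 := wt_nonneg (a i) p
    have h3 := hφ i hi p
    nlinarith [abs_nonneg (φ i p)]
  have hBχ : ∀ i ∈ W, ∑ p ∈ PS z y, χ i p / (p : ℝ) ≤ B i := by
    intro i hi
    refine le_trans (le_of_eq ?_) (hB i hi)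
    exact sum_congr rfl fun p _ => by rw [hχ]
  have hterm : ∀ p ∈ T, ∀ i ∈ W, gw (w i) 0 p * rt (a i) p * ψ i p = w i * (χ i p / (p : ℝ)) := by
    intro p hp i hi
    have hp' := mem_filter.1 hp
    rw [hψφ i hi p hp'.1 hp'.2, rt_prime _ _ (hTp p hp), hχ]
    unfold gw
    rw [(hTp p hp).primeFactors, prod_singleton, Nat.cast_zero, sub_zero]
    ring
  have hfac : ∀ p ∈ T, (1 + ∑ i ∈ W, gw (w i) 0 p * rt (a i) p * ψ i p) =
      1 + ∑ i ∈ W, w i * (χ i p / (p : ℝ)) := fun p hp => by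
    rw [sum_congr rfl (hterm p hp)]
  have hpos : ∀ p ∈ T, 0 ≤ 1 + ∑ i ∈ W, w i * (χ i p / (p : ℝ)) := by
    intro p hp
    have hp1 := hpz p (mem_filter.1 hp).1
    have hpc : 0 < (p : ℝ) := by linarith
    have h1 : ∀ i ∈ W, -(w i * (2 / (p : ℝ))) ≤ w i * (χ i p / (p : ℝ)) := by
      intro i hi
      have h2 := (abs_le.1 (hχ2 i hi p)).1
      have h3 := (hw i).1
      have h4 : -(w i * (2 / (p : ℝ))) = w i * (-2 / (p : ℝ)) := by ring
      rw [h4]
      exact mul_le_mul_of_nonneg_left (div_le_div_of_nonneg_right h2 hpc.le) h3.le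
    have h5 := sum_le_sum h1
    rw [sum_neg_distrib, ← sum_mul] at h5
    have h6 : (∑ i ∈ W, w i) * (2 / (p : ℝ)) ≤ 1 := by
      rw [← mul_div_assoc, div_le_one hpc]
      linarith
    linarith
  have hprod : ∏ p ∈ T, (1 + ∑ i ∈ W, gw (w i) 0 p * rt (a i) p * ψ i p) =
      ∏ p ∈ T, (1 + ∑ i ∈ W, w i * (χ i p / (p : ℝ))) := prod_congr rfl hfac
  rw [hprod, abs_of_nonneg (prod_nonneg hpos)]
  have hle1 : ∏ p ∈ T, (1 + ∑ i ∈ W, w i * (χ i p / (p : ℝ))) ≤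
      Real.exp (∑ i ∈ W, w i * ∑ p ∈ T, χ i p / (p : ℝ)) := by
    have h1 : ∑ i ∈ W, w i * ∑ p ∈ T, χ i p / (p : ℝ) =
        ∑ p ∈ T, ∑ i ∈ W, w i * (χ i p / (p : ℝ)) := by
      rw [sum_comm]
      exact sum_congr rfl fun i _ => by rw [mul_sum]
    rw [h1, Real.exp_sum]
    refine prod_le_prod hpos fun p _ => ?_
    have := Real.add_one_le_exp (∑ i ∈ W, w i * (χ i p / (p : ℝ)))
    linarith
  refine hle1.trans ?_
  -- the exponent
  have hsum1 : ∀ i ∈ W, ∑ p ∈ T, χ i p / (p : ℝ) ≤ B i + ∑ p ∈ T', 2 / (p : ℝ) := by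
    intro i hi
    have h1 : ∑ p ∈ PS z y, χ i p / (p : ℝ) = ∑ p ∈ T', χ i p / (p : ℝ) +
        ∑ p ∈ T, χ i p / (p : ℝ) := (sum_filter_add_sum_filter_not _ _ _).symm
    have h2 : -∑ p ∈ T', 2 / (p : ℝ) ≤ ∑ p ∈ T', χ i p / (p : ℝ) := by
      rw [← sum_neg_distrib]
      refine sum_le_sum fun p _ => ?_
      rw [← neg_div]
      exact div_le_div_of_nonneg_right (abs_le.1 (hχ2 i hi p)).1 (Nat.cast_nonneg _)
    have h4 := hBχ i hi
    linarith
  have hE1 : ∑ i ∈ W, w i * ∑ p ∈ T, χ i p / (p : ℝ) ≤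
      ∑ i ∈ W, w i * B i + ∑ p ∈ T', (n : ℝ) / (p : ℝ) := by
    have h0 : 0 ≤ ∑ p ∈ T', 2 / (p : ℝ) := sum_nonneg fun _ _ => by positivity
    calc ∑ i ∈ W, w i * ∑ p ∈ T, χ i p / (p : ℝ)
        ≤ ∑ i ∈ W, w i * (B i + ∑ p ∈ T', 2 / (p : ℝ)) :=
          sum_le_sum fun i hi => mul_le_mul_of_nonneg_left (hsum1 i hi) (hw i).1.le
      _ = ∑ i ∈ W, w i * B i + (∑ i ∈ W, w i) * (∑ p ∈ T', 2 / (p : ℝ)) := by
          rw [sum_mul, ← sum_add_distrib]
          exact sum_congr rfl fun i _ => by ring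
      _ ≤ ∑ i ∈ W, w i * B i + (n / 2) * (∑ p ∈ T', 2 / (p : ℝ)) := by
          have := mul_le_mul_of_nonneg_right hsumw h0
          linarith
      _ = _ := by
          rw [mul_sum]
          congr 1
          exact sum_congr rfl fun p _ => by ring
  refine (Real.exp_le_exp.2 hE1).trans ?_
  have hsub : T' ⊆ R.primeFactors := by
    intro p hp
    have hp' := mem_filter.1 hp
    exact Nat.mem_primeFactors.2 ⟨(mem_PS.1 hp'.1).2, hp'.2, hR⟩
  have hfin : Real.exp (∑ p ∈ T', (n : ℝ) / (p : ℝ)) ≤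
      ∏ p ∈ R.primeFactors, (1 + ((2 * n : ℕ) : ℝ) / (p : ℝ)) := by
    rw [Real.exp_sum]
    calc ∏ p ∈ T', Real.exp ((n : ℝ) / (p : ℝ)) ≤ ∏ p ∈ T', (1 + ((2 * n : ℕ) : ℝ) / (p : ℝ)) := by
          refine prod_le_prod (fun _ _ => (Real.exp_pos _).le) fun p hp => ?_
          have hp1 := hpz p (mem_filter.1 hp).1
          have hp0 : 0 < (p : ℝ) := by linarith
          refine (Pool.Agent.W583.RT.exp_le_one_add (by positivity) ?_).trans (le_of_eq ?_)
          · rw [div_le_one hp0]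
            linarith
          · push_cast
            ring
      _ ≤ (∏ p ∈ R.primeFactors \ T', (1 + ((2 * n : ℕ) : ℝ) / (p : ℝ))) *
            ∏ p ∈ T', (1 + ((2 * n : ℕ) : ℝ) / (p : ℝ)) := by
          refine le_mul_of_one_le_left (prod_nonneg fun _ _ => by positivity) ?_
          refine one_le_prod fun p _ => ?_
          have : (0 : ℝ) ≤ ((2 * n : ℕ) : ℝ) / (p : ℝ) := by positivity
          show (1 : ℝ) ≤ 1 + ((2 * n : ℕ) : ℝ) / (p : ℝ)
          linarith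
      _ = ∏ p ∈ R.primeFactors, (1 + ((2 * n : ℕ) : ℝ) / (p : ℝ)) := prod_sdiff hsub
  rw [Real.exp_add, one_mul]
  exact mul_le_mul_of_nonneg_left hfin (by positivity)

end Pool.Agent.K6.H34.T8
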