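import Pool.Agent.K6.H34.T8.Stm
import Pool.Agent.W655.RK.Full

/-!
# Piece FULLR: sums over the divisors with the weights `1 + (a / p)`

Adapted from `Pool.Agent.W655.RK.Full`.
-/

set_option autoImplicit false

namespace Pool.Agent.K6.H34.T8

open Finset Pool.Agent.W262.RK Pool.Agent.W655.RK

namespace FULLR

/-- the local factor -/
noncomputable def ph (w : ℝ) (a : ℤ) (p : ℕ) : ℝ :=
  w / ((p : ℝ) - (0 : ℕ)) * (1 + Jr a p) * (1 + 2 / (p : ℝ))

lemma Jr_abs (a : ℤ) (p : ℕ) : |Jr a p| ≤ 1 := by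
  unfold Jr
  rcases jacobiSym.trichotomy a p with h | h | h <;> rw [h] <;> norm_num

/-- the local weight -/
lemma ph_le (w : ℝ) (a : ℤ) (z p : ℕ) (hw : 0 < w) (hw2 : w ≤ 1 / 2) (hz : 2 ≤ z)
    (hp : z < p) : 0 ≤ ph w a p ∧
    ph w a p ≤ w * (1 / p) + w * (Jr a p / p) + 2 * (1 / (p : ℝ) ^ 2) := by
  have hp1 : (3 : ℝ) ≤ p := by exact_mod_cast (by omega : 3 ≤ p)
  have hp0 : (0:ℝ) < p := by linarith
  have hJ := abs_le.1 (Jr_abs a p)
  unfold ph
  rw [Nat.cast_zero, sub_zero]
  constructor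
  · refine mul_nonneg (mul_nonneg (by positivity) (by linarith [hJ.1])) (by positivity)
  · have h1 : w / p * (1 + Jr a p) * (1 + 2 / (p : ℝ)) =
        w * (1 / p) + w * (Jr a p / p) + (2 * w * (1 + Jr a p)) * (1 / (p : ℝ) ^ 2) := by
      field_simp
    rw [h1]
    have h2 : 2 * w * (1 + Jr a p) ≤ 2 := by nlinarith [hJ.1, hJ.2]
    have h3 : (0 : ℝ) ≤ 1 / (p : ℝ) ^ 2 := by positivity
    have := mul_le_mul_of_nonneg_right h2 h3
    linarith

lemma gw_rt_hh (w : ℝ) (a : ℤ) (d : ℕ) : gw w 0 d * rt a d * hh d =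
    ∏ p ∈ d.primeFactors, ph w a p := by
  unfold gw rt hh ph
  rw [Finset.prod_mul_distrib, Finset.prod_mul_distrib]

lemma Jr_zero_prime {p : ℕ} (hp : p.Prime) : Jr 0 p = 0 := by
  unfold Jr
  rw [jacobiSym.zero_left hp.one_lt]
  norm_num

/-- the sums of `(a / p) / p` are bounded -/
lemma jr_sum (h : MRT) (a : ℤ) (ha : a ∈ ({0, -1, 2} : Finset ℤ)) :
    ∃ C : ℝ, 0 ≤ C ∧ ∀ z y : ℕ, 2 ≤ z → ∑ p ∈ PS z y, Jr a p / (p : ℝ) ≤ C := by
  obtain ⟨C, hC⟩ := h
  refine ⟨|C|, abs_nonneg C, fun z y hz => ?_⟩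
  by_cases h0 : a = 0
  · subst h0
    rw [Finset.sum_eq_zero]
    · exact abs_nonneg C
    · intro p hp
      rw [Jr_zero_prime (PS_prime hp), zero_div]
  · have h1 : a ∈ ({-1, 2, -2} : Finset ℤ) := by
      simp only [mem_insert, mem_singleton] at ha ⊢
      rcases ha with ha | ha | ha
      · exact absurd ha h0
      · exact Or.inl ha
      · exact Or.inr (Or.inl ha)
    exact (le_abs_self _).trans ((hC a h1 z y hz).trans (le_abs_self C))

end FULLR

open FULLR in
theorem t_FULLR (h : MRT) : FULLR := by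
  intro w a hw hw2 ha
  obtain ⟨C0, hC0, hmer⟩ := mertens
  obtain ⟨K, hK, hsq⟩ := sum_inv_sq
  obtain ⟨C1, hC1, hjr⟩ := jr_sum h a ha
  refine ⟨2, fun z hz => ?_⟩
  have hz2 : 2 ≤ z := hz
  set φ : ℕ → ℝ := ph w a with hφ
  set B : ℝ := w * C0 + w * C1 + 2 * K with hB
  have hB0 : 0 ≤ B := by positivity
  have hφ0 : ∀ y, ∀ p ∈ PS z y, 0 ≤ φ p := fun y p hp => (ph_le w a z p hw hw2 hz (PS_lt hp)).1
  have hsum : ∀ y : ℕ, 2 ≤ y → ∑ p ∈ PS z y, φ p ≤ w * Real.log (Real.log y) + B := by
    intro y hy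
    calc ∑ p ∈ PS z y, φ p ≤ ∑ p ∈ PS z y, (w * (1 / (p : ℝ)) + w * (Jr a p / p) +
            2 * (1 / (p : ℝ) ^ 2)) :=
          Finset.sum_le_sum fun p hp => (ph_le w a z p hw hw2 hz (PS_lt hp)).2
      _ = w * ∑ p ∈ PS z y, 1 / (p : ℝ) + w * ∑ p ∈ PS z y, Jr a p / (p : ℝ) +
            2 * ∑ p ∈ PS z y, 1 / (p : ℝ) ^ 2 := by
          rw [Finset.sum_add_distrib, Finset.sum_add_distrib, Finset.mul_sum, Finset.mul_sum,
            Finset.mul_sum]
      _ ≤ w * (Real.log (Real.log y) + C0) + w * C1 + 2 * K := by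
          refine add_le_add (add_le_add (mul_le_mul_of_nonneg_left (hmer z y hy) hw.le)
            (mul_le_mul_of_nonneg_left (hjr z y hz2) hw.le))
            (mul_le_mul_of_nonneg_left (hsq _) (by positivity))
      _ = _ := by rw [hB]; ring
  have hlog : ∀ y : ℕ, 2 ≤ y → 0 < Real.log y := fun y hy =>
    Real.log_pos (by exact_mod_cast (by omega : 1 < y))
  have main : ∀ y : ℕ, 2 ≤ y → ∑ d ∈ (PP z y).divisors, gw w 0 d * rt a d * hh d ≤
      Real.exp B * (Real.log y) ^ w := by
    intro y hy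
    simp only [gw_rt_hh]
    unfold PP
    rw [sum_mult (PS z y) (fun p hp => PS_prime hp) φ]
    refine (prod_le_exp _ _ fun p hp => by have := hφ0 y p hp; linarith).trans ?_
    rw [Real.rpow_def_of_pos (hlog y hy), ← Real.exp_add, Real.exp_le_exp]
    have := hsum y hy
    linarith
  have hnn : ∀ d : ℕ, (∀ p ∈ d.primeFactors, z < p) → 0 ≤ gw w 0 d * rt a d * hh d := by
    intro d hd
    rw [gw_rt_hh]
    exact Finset.prod_nonneg fun p hp => (ph_le w a z p hw hw2 hz (hd p hp)).1
  have hpf : ∀ y d, d ∈ (PP z y).divisors → d.primeFactors ⊆ PS z y := by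
    intro y d hd
    have h1 : (PP z y).primeFactors = PS z y := Nat.primeFactors_prod fun p hp => PS_prime hp
    rw [← h1]
    exact Nat.primeFactors_mono (Nat.dvd_of_mem_divisors hd) (Nat.mem_divisors.1 hd).2
  refine ⟨Real.exp (3 * (B + 1)), ?_, ?_, ?_⟩
  · intro y hy
    refine (main y (by omega)).trans ?_
    refine mul_le_mul_of_nonneg_right ?_ (Real.rpow_nonneg (hlog y (by omega)).le _)
    rw [Real.exp_le_exp]
    linarith
  · intro y V hy hV
    have hsub : (PP z y).divisors.filter (fun d => d ≤ V) ⊆ (PP z (min y V)).divisors := by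
      intro d hd
      rw [mem_filter] at hd
      have h1 := hpf y d hd.1
      have hd0 : d ≠ 0 := (Nat.pos_of_mem_divisors hd.1).ne'
      have h2 : Squarefree d := (prod_primes_squarefree (PS z y) fun p hp => PS_prime hp).squarefree_of_dvd
        (Nat.dvd_of_mem_divisors hd.1)
      rw [Nat.mem_divisors]
      refine ⟨?_, (prod_primes_squarefree (PS z (min y V)) fun p hp => PS_prime hp).ne_zero⟩
      rw [← Nat.prod_primeFactors_of_squarefree h2]
      refine Finset.prod_dvd_prod_of_subset _ _ _ fun p hp => ?_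
      have h3 := h1 hp
      have h4 : p ≤ d := Nat.le_of_mem_primeFactors hp
      exact mem_filter.2 ⟨mem_Ioc.2 ⟨PS_lt h3, le_min (PS_le h3) (h4.trans hd.2)⟩, PS_prime h3⟩
    have h1 : ∑ d ∈ (PP z y).divisors.filter (fun d => d ≤ V), gw w 0 d * rt a d * hh d ≤
        ∑ d ∈ (PP z (min y V)).divisors, gw w 0 d * rt a d * hh d := by
      refine Finset.sum_le_sum_of_subset_of_nonneg hsub fun d hd _ => hnn d fun p hp => ?_
      exact PS_lt (hpf _ d hd hp)
    have hmin2 : 2 ≤ min y V := le_min (by omega) hV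
    refine h1.trans ((main _ hmin2).trans ?_)
    have h2 : (Real.log (min y V : ℕ)) ^ w ≤ (Real.log V) ^ w := by
      refine Real.rpow_le_rpow (hlog _ hmin2).le ?_ hw.le
      exact Real.log_le_log (by exact_mod_cast (by omega : 0 < min y V))
        (by exact_mod_cast min_le_right y V)
    refine mul_le_mul ?_ h2 (Real.rpow_nonneg (hlog _ hmin2).le _) (Real.exp_pos _).le
    rw [Real.exp_le_exp]
    linarith
  · intro y Y hy hY
    have hy3 : 3 ≤ y := by omega
    have hly := hlog y (by omega)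
    have hly1 : 1 ≤ Real.log y := by
      rw [Real.le_log_iff_exp_le (by positivity)]
      have := Real.exp_one_lt_d9
      have h3 : (3:ℝ) ≤ y := by exact_mod_cast hy3
      linarith
    have hY0 : (0:ℝ) < Y := by exact_mod_cast hY
    set ψ : ℕ → ℝ := fun p => φ p * Real.exp (Real.log p / Real.log y) with hψ
    have hterm : ∀ d ∈ (PP z y).divisors.filter (fun d => Y < d), gw w 0 d * rt a d * hh d ≤
        Real.exp (-(Real.log Y / Real.log y)) * ∏ p ∈ d.primeFactors, ψ p := by
      intro d hd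
      rw [mem_filter] at hd
      have h1 := hpf y d hd.1
      have hd0 : 0 < d := Nat.pos_of_mem_divisors hd.1
      have h2 : Squarefree d := (prod_primes_squarefree (PS z y) fun p hp => PS_prime hp).squarefree_of_dvd
        (Nat.dvd_of_mem_divisors hd.1)
      have h3 : ∏ p ∈ d.primeFactors, Real.exp (Real.log p / Real.log y) =
          Real.exp (Real.log d / Real.log y) := by
        rw [← Real.exp_sum, ← Finset.sum_div, ← Real.log_prod]
        · congr 3
          conv_rhs => rw [← Nat.prod_primeFactors_of_squarefree h2]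
          push_cast
          rfl
        · intro p hp
          exact_mod_cast (Nat.prime_of_mem_primeFactors hp).ne_zero
      rw [hψ, Finset.prod_mul_distrib, h3, gw_rt_hh]
      have h4 : 0 ≤ ∏ p ∈ d.primeFactors, φ p :=
        Finset.prod_nonneg fun p hp => hφ0 y p (h1 hp)
      have h5 : 1 ≤ Real.exp (-(Real.log Y / Real.log y)) * Real.exp (Real.log d / Real.log y) := by
        rw [← Real.exp_add]
        apply Real.one_le_exp
        rw [neg_add_eq_sub, ← sub_div]
        refine div_nonneg (sub_nonneg.2 (Real.log_le_log hY0 ?_)) hly.le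
        exact_mod_cast hd.2.le
      calc ∏ p ∈ d.primeFactors, φ p = (∏ p ∈ d.primeFactors, φ p) * 1 := (mul_one _).symm
        _ ≤ (∏ p ∈ d.primeFactors, φ p) * (Real.exp (-(Real.log Y / Real.log y)) *
            Real.exp (Real.log d / Real.log y)) := mul_le_mul_of_nonneg_left h5 h4
        _ = _ := by ring
    have hψ0 : ∀ p ∈ PS z y, 0 ≤ ψ p := fun p hp => mul_nonneg (hφ0 y p hp) (Real.exp_pos _).le
    have hψe : ∀ p ∈ PS z y, ψ p ≤ φ p * Real.exp 1 := by
      intro p hp
      refine mul_le_mul_of_nonneg_left ?_ (hφ0 y p hp)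
      rw [Real.exp_le_exp, div_le_one hly]
      exact Real.log_le_log (by exact_mod_cast (PS_prime hp).pos) (by exact_mod_cast PS_le hp)
    calc ∑ d ∈ (PP z y).divisors.filter (fun d => Y < d), gw w 0 d * rt a d * hh d
        ≤ ∑ d ∈ (PP z y).divisors.filter (fun d => Y < d),
            Real.exp (-(Real.log Y / Real.log y)) * ∏ p ∈ d.primeFactors, ψ p :=
          Finset.sum_le_sum hterm
      _ ≤ ∑ d ∈ (PP z y).divisors,
            Real.exp (-(Real.log Y / Real.log y)) * ∏ p ∈ d.primeFactors, ψ p := by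
          refine Finset.sum_le_sum_of_subset_of_nonneg (filter_subset _ _) fun d hd _ => ?_
          exact mul_nonneg (Real.exp_pos _).le (Finset.prod_nonneg fun p hp => hψ0 p (hpf y d hd hp))
      _ = Real.exp (-(Real.log Y / Real.log y)) * ∏ p ∈ PS z y, (1 + ψ p) := by
          rw [← Finset.mul_sum]
          congr 1
          exact sum_mult (PS z y) (fun p hp => PS_prime hp) ψ
      _ ≤ Real.exp (-(Real.log Y / Real.log y)) *
            (Real.exp (3 * (B + 1)) * (Real.log y) ^ 2) := by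
          refine mul_le_mul_of_nonneg_left ?_ (Real.exp_pos _).le
          refine (prod_le_exp _ _ fun p hp => by have := hψ0 p hp; linarith).trans ?_
          have h6 : (Real.log y) ^ 2 = Real.exp (2 * Real.log (Real.log y)) := by
            rw [mul_comm, Real.exp_mul, Real.exp_log hly]
            norm_num
          rw [h6, ← Real.exp_add, Real.exp_le_exp]
          have h7 : ∑ p ∈ PS z y, ψ p ≤ (w * Real.log (Real.log y) + B) * Real.exp 1 := by
            calc ∑ p ∈ PS z y, ψ p ≤ ∑ p ∈ PS z y, φ p * Real.exp 1 := Finset.sum_le_sum hψe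
              _ = (∑ p ∈ PS z y, φ p) * Real.exp 1 := by rw [Finset.sum_mul]
              _ ≤ _ := mul_le_mul_of_nonneg_right (hsum y (by omega)) (Real.exp_pos _).le
          have h8 : 0 ≤ Real.log (Real.log y) := Real.log_nonneg hly1
          have h9 := Real.exp_one_lt_d9
          have h10 : w * Real.exp 1 ≤ 2 := by nlinarith [Real.exp_pos 1]
          have h11 : w * Real.log (Real.log y) * Real.exp 1 ≤ 2 * Real.log (Real.log y) := by
            calc w * Real.log (Real.log y) * Real.exp 1 = (w * Real.exp 1) * Real.log (Real.log y) := by ring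
              _ ≤ _ := mul_le_mul_of_nonneg_right h10 h8
          have h12 : B * Real.exp 1 ≤ 3 * B := by nlinarith
          linarith
      _ = _ := by ring

end Pool.Agent.K6.H34.T8
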