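import Pool.Agent.N92.PO.Mert
import Pool.Agent.K6.H34.T8.Stm

/-!
# `MRT`: Mertens' theorem for the characters modulo 8 (written by helper58)

From `Pool.Agent.N92.PO.mert_char` of the starting library.
-/

set_option autoImplicit false

namespace Pool.Agent.K6.H34.T8

namespace MRT

open Finset Pool.Agent.W262.RK Pool.Agent.W307.RT
open Pool.Agent.H474R2.PG (PR)

theorem split {z y : ℕ} (hz : 2 ≤ z) (hzy : z ≤ y) (g : ℕ → ℝ) :
    ∑ p ∈ (PR (y : ℝ)).filter (fun p => p ≠ 2), g p =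
      ∑ p ∈ (PR (z : ℝ)).filter (fun p => p ≠ 2), g p + ∑ p ∈ PS z y, g p := by
  rw [← Finset.sum_union]
  · refine Finset.sum_congr ?_ fun _ _ => rfl
    ext p
    simp only [Finset.mem_filter, Finset.mem_union, Pool.Agent.N92.PO.mem_PR, Nat.floor_natCast,
      PS, Finset.mem_Ioc]
    constructor
    · rintro ⟨⟨h1, h2⟩, h3⟩
      by_cases h : p ≤ z
      · exact Or.inl ⟨⟨h1, h⟩, h3⟩
      · exact Or.inr ⟨⟨by omega, h2⟩, h1⟩
    · rintro (⟨⟨h1, h2⟩, h3⟩ | ⟨⟨h1, h2⟩, h3⟩)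
      · exact ⟨⟨h1, h2.trans hzy⟩, h3⟩
      · exact ⟨⟨h3, h2⟩, by omega⟩
  · rw [Finset.disjoint_left]
    intro p hp hp'
    simp only [Finset.mem_filter, Pool.Agent.N92.PO.mem_PR, Nat.floor_natCast, PS,
      Finset.mem_Ioc] at hp hp'
    omega

theorem main (a : ℤ) (ha : ¬ IsSquare a) : ∃ C : ℝ, 0 ≤ C ∧ ∀ z y : ℕ, 2 ≤ z →
    |∑ p ∈ PS z y, Jr a p / (p : ℝ)| ≤ C := by
  obtain ⟨C, hC, h⟩ := Pool.Agent.N92.PO.mert_char ha
  refine ⟨2 * C, by positivity, fun z y hz => ?_⟩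
  rcases le_or_gt y z with hyz | hzy
  · have : PS z y = ∅ := by
      unfold PS
      rw [Finset.Ioc_eq_empty (by omega)]
      rfl
    rw [this]
    simp only [Finset.sum_empty, abs_zero]
    positivity
  · have hy : (3 : ℝ) ≤ (y : ℝ) := by exact_mod_cast (by omega : 3 ≤ y)
    have h1 := h y hy
    have h2 : |∑ p ∈ (PR (z : ℝ)).filter (fun p => p ≠ 2), ((jacobiSym a p : ℤ) : ℝ) / p| ≤ C := by
      rcases Nat.lt_or_ge z 3 with hz3 | hz3
      · have hz2 : z = 2 := by omega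
        subst hz2
        have : (PR ((2 : ℕ) : ℝ)).filter (fun p => p ≠ 2) = ∅ := by
          rw [Finset.filter_eq_empty_iff]
          intro p hp
          rw [Pool.Agent.N92.PO.mem_PR, Nat.floor_natCast] at hp
          have := hp.1.two_le
          omega
        rw [this]
        simpa using hC
      · exact h z (by exact_mod_cast hz3)
    have h3 := split hz hzy.le (fun p => ((jacobiSym a p : ℤ) : ℝ) / p)
    have h4 : ∑ p ∈ PS z y, Jr a p / (p : ℝ) =
        ∑ p ∈ (PR (y : ℝ)).filter (fun p => p ≠ 2), ((jacobiSym a p : ℤ) : ℝ) / p -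
        ∑ p ∈ (PR (z : ℝ)).filter (fun p => p ≠ 2), ((jacobiSym a p : ℤ) : ℝ) / p := by
      rw [h3]
      unfold Jr
      ring
    rw [h4]
    rw [abs_le] at h1 h2 ⊢
    constructor <;> linarith [h1.1, h1.2, h2.1, h2.2]

theorem notSq (a : ℤ) (h1 : a ≠ 0) (h2 : a ≠ 1) (h3 : a < 4) : ¬ IsSquare a := by
  rintro ⟨r, hr⟩
  have h0 : 0 ≤ r * r := mul_self_nonneg r
  have hlt : r * r < 4 := by rw [← hr]; exact h3
  have hr1 : r ≤ 1 := by nlinarith
  have hr2 : -1 ≤ r := by nlinarith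
  interval_cases r <;> omega

end MRT

/-- `MRT` -/
theorem t_MRT : MRT := by
  obtain ⟨C1, h1, H1⟩ := MRT.main (-1) (MRT.notSq _ (by norm_num) (by norm_num) (by norm_num))
  obtain ⟨C2, h2, H2⟩ := MRT.main 2 (MRT.notSq _ (by norm_num) (by norm_num) (by norm_num))
  obtain ⟨C3, h3, H3⟩ := MRT.main (-2) (MRT.notSq _ (by norm_num) (by norm_num) (by norm_num))
  refine ⟨C1 + C2 + C3, fun a ha z y hz => ?_⟩
  simp only [Finset.mem_insert, Finset.mem_singleton] at ha
  rcases ha with rfl | rfl | rfl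
  · exact (H1 z y hz).trans (by linarith)
  · exact (H2 z y hz).trans (by linarith)
  · exact (H3 z y hz).trans (by linarith)

end Pool.Agent.K6.H34.T8
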