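import Pool.Agent.K6.H34.T8.Ab8
import Pool.Agent.K6.H34.T8.P_FSR

/-! Project T8: the refined abstract bound with the weights `gw (w i) 0 * rt (a i)`. Adapted from
`Pool.Agent.W307.RT.RAT5`. -/

set_option autoImplicit false

namespace Pool.Agent.K6.H34.T8

open Finset Pool.Agent.W262.RK
open Pool.Agent.W307.RT (QN hA gw_hA hA_nonneg hA_one patternsN tN)
open Pool.Agent.W262.RK.AT (VV YY)

/-- `FULLR` with the weights `gw w c` -/
def FULLC : Prop := ∀ (w : ℝ) (a : ℤ) (c : ℕ), 0 < w → w ≤ 1 / 2 → a ∈ ({0, -1, 2} : Finset ℤ) →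
  ∃ z0 : ℕ, ∀ z, z0 ≤ z → ∃ C : ℝ,
  (∀ y, z < y → ∑ d ∈ (PP z y).divisors, gw w c d * rt a d * hh d ≤ C * (Real.log y) ^ w) ∧
  (∀ y V : ℕ, z < y → 2 ≤ V →
    ∑ d ∈ (PP z y).divisors.filter (fun d => d ≤ V), gw w c d * rt a d * hh d ≤
      C * (Real.log V) ^ w) ∧
  (∀ y Y : ℕ, z < y → 1 ≤ Y →
    ∑ d ∈ (PP z y).divisors.filter (fun d => Y < d), gw w c d * rt a d * hh d ≤
      C * Real.exp (-(Real.log Y / Real.log y)) * (Real.log y) ^ 2)

namespace RATR

lemma rt_nonneg (a : ℤ) (d : ℕ) : 0 ≤ rt a d := prod_nonneg fun p _ => FSR.wt_nonneg a p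

lemma g_le {w : ℝ} {a : ℤ} {z y d : ℕ} (hw : 0 ≤ w) (hw2 : w ≤ 1 / 2)
    (hd : d ∈ (PP z y).divisors) : gw w 0 d * rt a d ≤ 1 / (d : ℝ) := by
  have hsq := dv_squarefree hd
  have h0 : (1 : ℝ) / d = ∏ p ∈ d.primeFactors, (1 / (p : ℝ)) := by
    rw [prod_div_distrib, prod_const_one]
    congr 1
    rw [← Nat.cast_prod, Nat.prod_primeFactors_of_squarefree hsq]
  rw [h0]
  unfold gw rt
  rw [← prod_mul_distrib]
  apply prod_le_prod
  · intro p _
    apply mul_nonneg _ (FSR.wt_nonneg a p)
    apply div_nonneg hw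
    simp
  · intro p hp
    have hp0 : (0 : ℝ) < p := by exact_mod_cast (Nat.prime_of_mem_primeFactors hp).pos
    have h1 := FSR.wt_nonneg a p
    have h2 := FSR.wt_le a p
    have h3 : w / ((p : ℝ) - ((0 : ℕ) : ℝ)) * (1 + Jr a p) = (w * (1 + Jr a p)) / p := by
      push_cast
      rw [sub_zero]
      ring
    rw [h3]
    apply div_le_div_of_nonneg_right _ hp0.le
    nlinarith

lemma Jr_zero {p : ℕ} (hp : p.Prime) : Jr 0 p = 0 := by
  unfold Jr
  rw [jacobiSym.zero_left hp.one_lt]
  simp

lemma Jr_mul_left' (a b : ℤ) (n : ℕ) : Jr (a * b) n = Jr a n * Jr b n := by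
  unfold Jr
  rw [jacobiSym.mul_left]
  push_cast
  rfl

lemma x4_eq {p : ℕ} (hp : Odd p) : x4 true p = Jr (-1) p := by
  unfold x4 Jr
  rw [if_pos rfl, jacobiSym.at_neg_one hp]

end RATR

open RATR

set_option maxHeartbeats 1000000 in
/-- **The refined abstract bound** -/
theorem t_RATR (hb : BLW) (he : EPR) (hf : FULLC) (hub : UB) (hm : MRT) (hfs : FSR) : RATR := by
  intro ι _ _ w a L κ K N hw ha hL hκ hN1 hN2 hQ1 hQ2 hU hS
  classical
  obtain ⟨C2, E2, h2⟩ := hb
  obtain ⟨zS, A, hFS⟩ := hfs ι w a hw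
  choose zE hE using fun i => he (w i) (a i) (κ i) (hw i).1 (hw i).2 (ha i) (hκ i)
  choose zF hF using fun i => hf (w i) (a i) 0 (hw i).1 (hw i).2 (ha i)
  choose zG hG using fun i => hf (w i) (a i) A (hw i).1 (hw i).2 (ha i)
  obtain ⟨CM, hCM0, hCM⟩ := Pool.Agent.W655.RK.mertens
  obtain ⟨C4, hC4⟩ := hm
  -- the constants `κ a`, or `κ` if `a = 0`
  set κ' : ι → ℤ := fun i => if a i = 0 then κ i else a i * κ i with hκ'
  have hκ'0 : ∀ i, κ' i ≠ 0 := by
    intro i
    rw [hκ']
    simp only
    split_ifs with h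
    · exact hκ i
    · exact mul_ne_zero h (hκ i)
  refine ⟨zS + univ.sup zE + univ.sup zF + univ.sup zG + A + 3 + ∑ i, (κ i).natAbs +
    ∑ i, (κ' i).natAbs, fun z hz => ?_⟩
  have hzE : ∀ i, zE i ≤ z := fun i => (le_sup (f := zE) (mem_univ i)).trans (by omega)
  have hzF : ∀ i, zF i ≤ z := fun i => (le_sup (f := zF) (mem_univ i)).trans (by omega)
  have hzG : ∀ i, zG i ≤ z := fun i => (le_sup (f := zG) (mem_univ i)).trans (by omega)
  have hzκ : ∀ i, (κ i).natAbs ≤ z := fun i => by
    have := single_le_sum (f := fun i => (κ i).natAbs) (fun _ _ => Nat.zero_le _) (mem_univ i)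
    omega
  have hzκ' : ∀ i, (κ' i).natAbs ≤ z := fun i => by
    have := single_le_sum (f := fun i => (κ' i).natAbs) (fun _ _ => Nat.zero_le _) (mem_univ i)
    omega
  have hz3 : 3 ≤ z := by omega
  choose CE hCE using fun i => hE i z (hzE i)
  choose CF hCF1 hCF2 hCF3 using fun i => hF i z (hzF i)
  choose CG hCG1 hCG2 hCG3 using fun i => hG i z (hzG i)
  choose CU hCU using fun i => hub (κ i) z (hκ i) (by omega) (hzκ i)
  choose CV hCV using fun i => hub (κ' i) z (hκ'0 i) (by omega) (hzκ' i)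
  obtain ⟨Cs, hCs1, hFs⟩ := hFS z (by omega)
  set C : ℝ := 1 + ∑ i, (|CE i| + |CF i| + |CG i| + |CU i| + |CV i|) with hC
  have hCi : ∀ i, |CE i| + |CF i| + |CG i| + |CU i| + |CV i| ≤ C := by
    intro i
    have h1 : |CE i| + |CF i| + |CG i| + |CU i| + |CV i| ≤
        ∑ i, (|CE i| + |CF i| + |CG i| + |CU i| + |CV i|) :=
      single_le_sum (f := fun i => |CE i| + |CF i| + |CG i| + |CU i| + |CV i|)
        (fun j _ => by positivity) (mem_univ i)
    linarith
  have hCall : ∀ i, CE i ≤ C ∧ CF i ≤ C ∧ CG i ≤ C ∧ CU i + CV i ≤ C := fun i => by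
    have h1 := le_abs_self (CE i)
    have h2 := le_abs_self (CF i)
    have h3 := le_abs_self (CG i)
    have h4 := le_abs_self (CU i)
    have h5 := le_abs_self (CV i)
    have g1 := abs_nonneg (CE i)
    have g2 := abs_nonneg (CF i)
    have g3 := abs_nonneg (CG i)
    have g4 := abs_nonneg (CU i)
    have g5 := abs_nonneg (CV i)
    refine ⟨?_, ?_, ?_, ?_⟩ <;> linarith [hCi i]
  have hC1 : 1 ≤ C := by
    rw [hC]
    have : 0 ≤ ∑ i, (|CE i| + |CF i| + |CG i| + |CU i| + |CV i|) :=
      sum_nonneg fun i _ => by positivity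
    linarith
  have hC40 : 0 ≤ C4 := by
    have := hC4 (-1) (by simp) z z (by omega)
    exact (abs_nonneg _).trans this
  set g : ι → ℕ → ℝ := fun i m => gw (w i) 0 m * rt (a i) m with hg
  set gA : ι → ℕ → ℝ := fun i m => gw (w i) A m * rt (a i) m * hh m with hgA
  set q : ι → ℕ → ℝ := fun i p => 1 + Jr (a i) p with hq
  have hg0 : ∀ i, ∀ {y m : ℕ}, m ∈ (PP z y).divisors → 0 ≤ g i m := fun i y m hm =>
    mul_nonneg (gw_nonneg (hw i).1.le (Nat.zero_le z) hm) (rt_nonneg _ _)
  have hg1 : ∀ i, g i 1 = 1 := fun i => by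
    rw [hg]
    simp only
    rw [gw_one, FSR.rt_one, mul_one]
  have hBd : AB.Bd g w κ z C :=
    { w0 := fun i => (hw i).1
      w1 := fun i => (hw i).2
      z2 := by omega
      C1 := hC1
      g0 := hg0
      gl := fun i y m hm => g_le (hw i).1.le (hw i).2 hm
      g1 := hg1
      F1 := fun i y hy => (hCF1 i y hy).trans (mul_le_mul_of_nonneg_right (hCall i).2.1
        (Real.rpow_nonneg (Real.log_natCast_nonneg y) _))
      F2 := fun i y V hy hV => (hCF2 i y V hy hV).trans (mul_le_mul_of_nonneg_right (hCall i).2.1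
        (Real.rpow_nonneg (Real.log_natCast_nonneg V) _))
      F3 := fun i y Y hy hY => (hCF3 i y Y hy hY).trans (by
        apply mul_le_mul_of_nonneg_right _ (by positivity)
        exact mul_le_mul_of_nonneg_right (hCall i).2.1 (Real.exp_pos _).le)
      E := fun i y R r e hy hR hr hs hp => (hCE i y R r e hy hR hr hs hp).trans (by
        apply mul_le_mul_of_nonneg_right _ (hh_nonneg _)
        exact mul_le_mul_of_nonneg_right (hCall i).1 (Real.log_natCast_nonneg r)) }
  have hgA' : ∀ i, ∀ {y m : ℕ}, m ∈ (PP z y).divisors → g i m * hA A m ≤ gA i m := by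
    intro i y m hm
    rw [hg, hgA]
    simp only
    have h1 := gw_hA (A := A) (c := 0) (hw i).1.le (by omega : 0 + A ≤ z) hm
    rw [zero_add] at h1
    have h3 : 0 ≤ gw (w i) A m := gw_nonneg (hw i).1.le (by omega) hm
    calc gw (w i) 0 m * rt (a i) m * hA A m = (gw (w i) 0 m * hA A m) * rt (a i) m := by ring
      _ ≤ gw (w i) A m * rt (a i) m := mul_le_mul_of_nonneg_right h1 (rt_nonneg _ _)
      _ ≤ _ := le_mul_of_one_le_right (mul_nonneg h3 (rt_nonneg _ _)) (one_le_hh m)
  have hFB : AB.FB gA w z C :=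
    { w0 := fun i => (hw i).1
      w1 := fun i => (hw i).2
      z2 := by omega
      C1 := hC1
      gA1 := fun i => by
        rw [hgA]
        simp only
        rw [gw_one, FSR.rt_one, hh_one]
        norm_num
      F2 := fun i y V hy hV => (hCG2 i y V hy hV).trans (mul_le_mul_of_nonneg_right
        (hCall i).2.2.1 (Real.rpow_nonneg (Real.log_natCast_nonneg V) _))
      F3 := fun i y Y hy hY => (hCG3 i y Y hy hY).trans (by
        apply mul_le_mul_of_nonneg_right _ (by positivity)
        exact mul_le_mul_of_nonneg_right (hCall i).2.2.1 (Real.exp_pos _).le) }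
  have hFS' : AB.FS g q w z A Cs := hFs
  have hm0 : ∀ i y, |∑ p ∈ PS z y, Jr (a i) p / (p : ℝ)| ≤ C4 := by
    intro i y
    have h := ha i
    rw [mem_insert, mem_insert, mem_singleton] at h
    rcases h with h | h | h
    · rw [h, sum_eq_zero, abs_zero]
      · exact hC40
      · intro p hp
        rw [Jr_zero (mem_PS.1 hp).2, zero_div]
    · rw [h]; exact hC4 (-1) (by simp) z y (by omega)
    · rw [h]; exact hC4 2 (by simp) z y (by omega)
  have hCB : AB.CB q κ N z (C + CM + 2 * C4) :=
    { z2 := by omega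
      c0 := by positivity
      q0 := fun i p => FSR.wt_nonneg _ _
      M := fun i y hy => by
        have h1 := hCM z y (by omega)
        have h3 := (abs_le.1 (hm0 i y)).2
        have h4 : ∑ p ∈ PS z y, q i p / (p : ℝ) =
            ∑ p ∈ PS z y, (1 : ℝ) / p + ∑ p ∈ PS z y, Jr (a i) p / (p : ℝ) := by
          rw [← sum_add_distrib]
          apply sum_congr rfl
          intro p _
          rw [hq]
          simp only
          ring
        rw [h4]
        linarith
      X := fun n hn y hy => by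
        obtain ⟨h1, h3⟩ := hN1 n hn
        have h4 : ∑ p ∈ PS z y, q n p * x4 true p / (p : ℝ) =
            ∑ p ∈ PS z y, Jr (-1) p / (p : ℝ) + ∑ p ∈ PS z y, Jr (-2) p / (p : ℝ) := by
          rw [← sum_add_distrib]
          apply sum_congr rfl
          intro p hp
          have hp' := mem_PS.1 hp
          have hodd : Odd p := hp'.2.odd_of_ne_two (by omega)
          rw [x4_eq hodd, hq, show (-2 : ℤ) = 2 * (-1) by norm_num, Jr_mul_left']
          simp only
          rw [h3]
          ring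
        rw [h4]
        have h5 := (abs_le.1 (hC4 (-1) (by simp) z y (by omega))).2
        have h6 := (abs_le.1 (hC4 (-2) (by simp) z y (by omega))).2
        linarith
      U := fun i y r e hy hr hs hp => by
        have h1 := hCU i y r e hy hr hs hp
        have h3 := hCV i y r e hy hr hs hp
        have h5 := (hCall i).2.2.2
        have hrz : z < r := by
          obtain ⟨p, hpp, hpr⟩ := Nat.exists_prime_and_dvd (by omega : r ≠ 1)
          exact (hp p hpp hpr).trans_le (Nat.le_of_dvd (by omega) hpr)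
        have hlr : 0 ≤ Real.log (Real.log r) := by
          apply Real.log_nonneg
          exact AT.one_le_log (by omega : 2 ≤ z) hrz
        by_cases h0 : a i = 0
        · have h4 : ∑ p ∈ PS z y, q i p * (Jr p r * Jr (κ i) p * x4 e p) / (p : ℝ) =
              ∑ p ∈ PS z y, Jr p r * Jr (κ i) p * x4 e p / (p : ℝ) := by
            apply sum_congr rfl
            intro p hp
            rw [hq]
            simp only
            rw [h0, Jr_zero (mem_PS.1 hp).2]
            ring
          rw [h4]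
          have h6 : CU i ≤ C := by
            have h1 := le_abs_self (CU i)
            have g1 := abs_nonneg (CE i)
            have g2 := abs_nonneg (CF i)
            have g3 := abs_nonneg (CG i)
            have g5 := abs_nonneg (CV i)
            linarith [hCi i]
          linarith
        · have h4 : ∑ p ∈ PS z y, q i p * (Jr p r * Jr (κ i) p * x4 e p) / (p : ℝ) =
              ∑ p ∈ PS z y, Jr p r * Jr (κ i) p * x4 e p / (p : ℝ) +
              ∑ p ∈ PS z y, Jr p r * Jr (κ' i) p * x4 e p / (p : ℝ) := by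
            rw [← sum_add_distrib]
            apply sum_congr rfl
            intro p hp
            rw [hq, hκ']
            simp only
            rw [if_neg h0, Jr_mul_left']
            ring
          rw [h4]
          linarith
      K := fun n hn y p hp => by
        obtain ⟨h1, _⟩ := hN1 n hn
        have hp' := mem_PS.1 hp
        rw [h1, x4_eq (hp'.2.odd_of_ne_two (by omega))] }
  have h2' : AT.BW |C2| E2 := fun V Y hV hVY a b ha hb ha' hb' =>
    (h2 V Y hV hVY a b ha hb ha' hb').trans (by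
      apply mul_le_mul_of_nonneg_right _ (by positivity)
      exact mul_le_mul_of_nonneg_right (le_abs_self C2)
        (pow_nonneg (Real.log_natCast_nonneg Y) _))
  choose C' hC' using fun ρ : ι → Fin 4 => AB.pat_rat hBd hgA' hFB (zero_le_one.trans hCs1) hFS' hCB
    (abs_nonneg C2) h2' hL hN2 hQ1 hQ2 hU hS ρ
  refine ⟨∑ ρ ∈ univ.filter (fun ρ : ι → Fin 4 => ∀ n ∈ N, ρ n = 0), C' ρ, fun y hy => ?_⟩
  have htot := AB.total_eq g L κ z y
  rw [hg] at htot
  simp only at htot
  rw [htot, patternsN N z y (AT.VV (6 * (Fintype.card ι + 2 * E2)) (Real.log y))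
    (AT.YY (6 * (Fintype.card ι + 2 * E2)) (Real.log y)), sum_mul]
  exact (abs_sum_le_sum_abs _ _).trans (sum_le_sum fun ρ _ => hC' ρ y hy)

end Pool.Agent.K6.H34.T8
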